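import Pool.Agent.Lib.MP_7b7e48_nt.PX.Defs
import Pool.Agent.Lib.MP_7b7e48_nt.GT.Corr

/-!
# Block E of THEOREM EX: definitions

`N` is even, `z` the sifting level, `q` a multiplier (`1` or a prime `> z`). `AA N z q` is the set of the
`a` such that `a` and `N - q a` are positive and `z`-rough. `VW N z W` is the expected density of the two
conditions over the primes `≤ z` which do not divide `W`.
-/

set_option autoImplicit false

open Finset
open Pool.Agent.Lib.GT (Rough pr)
open Pool.Agent.Lib.MP_45349e_nt.LS (lam)

namespace Pool.Agent.Lib.XE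

open Classical in
/-- the `a` with `q a < N`, `a` and `N - q a` rough -/
noncomputable def AA (N z q : ℕ) : Finset ℕ :=
  (Icc 1 N).filter fun a => q * a < N ∧ Rough z a ∧ Rough z (N - q * a)

/-- the number of classes modulo `p` excluded by `p ∣ a (N - q a)` -/
def rh (N p : ℕ) : ℕ := if p ∣ N then 1 else 2

/-- the density over the primes `≤ z` which do not divide `W` -/
noncomputable def VW (N z W : ℕ) : ℝ := ∏ p ∈ (pr z).filter (fun p => ¬ p ∣ W), (1 - (rh N p : ℝ) / p)

/-- the density over all primes `≤ z` -/
noncomputable def VN (N z : ℕ) : ℝ := VW N z 1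

open Classical in
/-- the classes `v` modulo `D` with `v` and `N - v` units -/
noncomputable def VD (N D : ℕ) [NeZero D] : Finset (ZMod D) :=
  univ.filter fun v => IsUnit v ∧ IsUnit ((N : ZMod D) - v)

open Classical in
/-- the first members of the representations of `N` with the pattern `s`, `t` -/
noncomputable def RP (N z : ℕ) (s t : ℝ) : Finset ℕ :=
  (range N).filter fun a => Rough z a ∧ Rough z (N - a) ∧ a.Coprime N ∧ lam a = s ∧ lam (N - a) = t

end Pool.Agent.Lib.XE
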