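import Pool.Agent.Lib.MP_61161c_nt.XE.P6a
import Pool.Agent.Lib.MP_7b7e48_nt.SPV.D2

/-!
# the conductor of a real character   (module Cond, 60 minutes)

PROOF. `cond`: `p` odd, `p² ∣ D`: let `d = D/p`. `Prim`: there is `x ≡ 1 mod d`, coprime to `D`, `χ x ≠ 1`, so `χ x = -1`. `x = 1 + d k`, `x^p ≡ 1 mod D`: `(1 + d k)^p = 1 + p d k + ∑_{i ≥ 2} C(p,i) (d k)^i`, `D = p d ∣ p d k` and `D ∣ d²` (`p ∣ d`). So `1 = χ (x^p) = (χ x)^p = -1`. `16 ∣ D`: `d = D/2`, `x = 1 + d k` with `χ x = -1`; `x ≡ 1` or `x ≡ 1 + D/2 mod D`; `(1 + D/4)² = 1 + D/2 + D (D/16) ≡ 1 + D/2`, so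
`χ x = χ (1 + D/4)² = 1` (`1 + D/4` is coprime to `D`; or `χ = 0` there, also impossible). `split24`: `D1 = D.gcd 24`, `D2 = D/D1`; `D = 2^i 3^j D'` with `i ≤ 3`, `j ≤ 1`, `D'` squarefree and coprime to `6`, all its primes divide `N`. `lift`: `DirichletCharacter.changeLevel`. `tconst`: let `x = a (N-a) a' (N-a')`. Modulo `D2` (`∣ N`): `x ≡ (a a')²`; modulo `D1` (`∣ 24`, `a ≡ a'`): `x ≡ (a (N-a))²`. By CRT
`x ≡ y²` modulo `D1 D2` with a unit `y`, so `χ x = 1`, i.e. the product of the two sides is `1`; both are `1` or `-1` (`chi_val`, units).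
-/

set_option autoImplicit false

open Finset
open Pool.Agent.Lib.GT (Rough pr V)
open Pool.Agent.Lib.MP_45349e_nt.LS (lam)
open Pool.Agent.Lib.PQ (pw)

namespace Pool.Agent.Lib.XE

private theorem Cond_neg {D : ℕ} [NeZero D] {χ : DirichletCharacter ℂ D} (h2 : χ ^ 2 = 1) {x : ℤ}
    (hx : IsCoprime x (D : ℤ)) (h : χ (x : ZMod D) ≠ 1) : χ (x : ZMod D) = -1 := by
  rcases chi_val χ h2 (x : ZMod D) with h0 | h0 | h0
  · exact absurd hx ((χ.apply_eq_zero_iff x).1 h0)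
  · exact absurd h0 h
  · exact h0

private theorem Cond_dvd (p : ℕ) (x d : ℤ) (hd : d ∣ x - 1) (hp : (p : ℤ) ∣ d) :
    (p : ℤ) * d ∣ x ^ p - 1 := by
  have h1 : (p : ℤ) ∣ ∑ i ∈ range p, x ^ i := by
    have h2 : ∑ i ∈ range p, x ^ i = (∑ i ∈ range p, (x ^ i - 1)) + p := by
      rw [sum_sub_distrib]
      simp
    rw [h2]
    refine dvd_add (dvd_sum fun i _ => ?_) dvd_rfl
    have h3 := sub_dvd_pow_sub_pow x 1 i
    rw [one_pow] at h3
    exact (hp.trans hd).trans h3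
  have h4 : x ^ p - 1 = (∑ i ∈ range p, x ^ i) * (x - 1) := (geom_sum_mul x p).symm
  rw [h4]
  exact mul_dvd_mul h1 hd

theorem cond (D : ℕ) [NeZero D] (χ : DirichletCharacter ℂ D) (hχ : Pool.Agent.Lib.SPV.Prim χ)
    (h2 : χ ^ 2 = 1) : (∀ p : ℕ, p.Prime → p ≠ 2 → ¬ p ^ 2 ∣ D) ∧ ¬ 16 ∣ D := by
  have hD0 : D ≠ 0 := NeZero.ne D
  constructor
  · intro p hp hp2 hpD
    obtain ⟨e, he⟩ := hpD
    have he0 : e ≠ 0 := by
      rintro rfl
      exact hD0 (by simpa using he)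
    have hD : D = p * (p * e) := by rw [he]; ring
    have hdlt : p * e < D := by
      rw [hD]
      have h3 : 0 < p * e := Nat.mul_pos hp.pos (Nat.pos_of_ne_zero he0)
      have h4 := hp.two_le
      nlinarith
    obtain ⟨x, hx1, hx2, hx3⟩ := hχ (p * e) ⟨p, by rw [hD]; ring⟩ hdlt
    have hx4 := Cond_neg h2 hx2 hx3
    have h5 := Cond_dvd p x ((p * e : ℕ) : ℤ) hx1 ⟨(e : ℤ), by push_cast; ring⟩
    have h6 : ((D : ℕ) : ℤ) ∣ x ^ p - 1 := by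
      have : ((D : ℕ) : ℤ) = (p : ℤ) * ((p * e : ℕ) : ℤ) := by rw [hD]; push_cast; ring
      rw [this]; exact h5
    have h7 : ((x : ZMod D)) ^ p = 1 := by
      have h8 := (ZMod.intCast_zmod_eq_zero_iff_dvd (x ^ p - 1) D).2 h6
      push_cast at h8
      exact sub_eq_zero.1 h8
    have h9 : χ (x : ZMod D) ^ p = 1 := by
      rw [← map_pow, h7, map_one]
    rw [hx4, (hp.odd_of_ne_two hp2).neg_one_pow] at h9
    norm_num at h9
  · rintro ⟨e, he⟩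
    have he0 : e ≠ 0 := by
      rintro rfl
      exact hD0 (by simpa using he)
    have hdlt : 8 * e < D := by omega
    obtain ⟨x, hx1, hx2, hx3⟩ := hχ (8 * e) ⟨2, by rw [he]; ring⟩ hdlt
    have hx4 := Cond_neg h2 hx2 hx3
    obtain ⟨k, hk⟩ := hx1
    rcases Int.even_or_odd' k with ⟨m, hm | hm⟩
    · apply hx3
      have h6 : ((D : ℕ) : ℤ) ∣ x - 1 := ⟨m, by rw [hk, hm, he]; push_cast; ring⟩
      have h8 := (ZMod.intCast_zmod_eq_zero_iff_dvd (x - 1) D).2 h6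
      push_cast at h8
      rw [sub_eq_zero.1 h8, map_one]
    · have h6 : ((D : ℕ) : ℤ) ∣ x - (1 + 4 * (e : ℤ)) ^ 2 := by
        refine ⟨m - e, ?_⟩
        have h7 : x = 1 + ((8 * e : ℕ) : ℤ) * k := by linarith
        rw [h7, hm, he]
        push_cast
        ring
      have h8 := (ZMod.intCast_zmod_eq_zero_iff_dvd _ D).2 h6
      have h9 : (x : ZMod D) = (((1 + 4 * (e : ℤ) : ℤ)) : ZMod D) ^ 2 := by
        push_cast at h8 ⊢
        exact sub_eq_zero.1 h8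
      rw [h9, map_pow] at hx4
      rcases chi_val χ h2 (((1 + 4 * (e : ℤ) : ℤ)) : ZMod D) with h0 | h0 | h0 <;>
        rw [h0] at hx4 <;> norm_num at hx4

theorem split24 (N D : ℕ) (hD : D ≠ 0) (h1 : ∀ p : ℕ, p.Prime → p ≠ 2 → ¬ p ^ 2 ∣ D) (h2 : ¬ 16 ∣ D)
    (h3 : ∀ p : ℕ, p.Prime → 5 ≤ p → p ∣ D → p ∣ N) :
    ∃ D1 D2 : ℕ, D = D1 * D2 ∧ D1.Coprime D2 ∧ D1 ∣ 24 ∧ D2 ∣ N := by
  obtain ⟨a, m, hm, hDm⟩ := Nat.exists_eq_pow_mul_and_not_dvd hD 2 (by norm_num)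
  have hm0 : m ≠ 0 := by
    rintro rfl
    exact hm (dvd_zero 2)
  obtain ⟨b, n, hn, hmn⟩ := Nat.exists_eq_pow_mul_and_not_dvd hm0 3 (by norm_num)
  have hn0 : n ≠ 0 := by
    rintro rfl
    exact hn (dvd_zero 3)
  have ha : a ≤ 3 := by
    by_contra hcon
    push Not at hcon
    apply h2
    rw [hDm]
    exact Dvd.dvd.mul_right (show 16 ∣ 2 ^ a from (pow_dvd_pow 2 (show 4 ≤ a from hcon))) m
  have hb : b ≤ 1 := by
    by_contra hcon
    push Not at hcon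
    apply h1 3 Nat.prime_three (by norm_num)
    rw [hDm, hmn]
    exact Dvd.dvd.mul_left (Dvd.dvd.mul_right (pow_dvd_pow 3 (show 2 ≤ b from hcon)) n) _
  have hn2 : ¬ 2 ∣ n := fun h => hm (by rw [hmn]; exact Dvd.dvd.mul_left h _)
  have hnD : n ∣ D := ⟨2 ^ a * 3 ^ b, by rw [hDm, hmn]; ring⟩
  refine ⟨2 ^ a * 3 ^ b, n, by rw [hDm, hmn]; ring, ?_, ?_, ?_⟩
  · refine Nat.Coprime.mul_left ?_ ?_
    · exact Nat.Coprime.pow_left a ((Nat.Prime.coprime_iff_not_dvd Nat.prime_two).2 hn2)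
    · exact Nat.Coprime.pow_left b ((Nat.Prime.coprime_iff_not_dvd Nat.prime_three).2 hn)
  · exact mul_dvd_mul (show 2 ^ a ∣ 2 ^ 3 from pow_dvd_pow 2 ha)
      (show 3 ^ b ∣ 3 ^ 1 from pow_dvd_pow 3 hb)
  · have hsq : Squarefree n := by
      rw [Nat.squarefree_iff_prime_squarefree]
      intro p hp hpp
      rcases eq_or_ne p 2 with rfl | hp2
      · exact hn2 ((dvd_mul_right 2 2).trans hpp)
      · exact h1 p hp hp2 (by rw [pow_two]; exact hpp.trans hnD)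
    rw [← Nat.prod_primeFactors_of_squarefree hsq]
    refine prod_primes_dvd N (fun p hp => (Nat.prime_of_mem_primeFactors hp).prime) fun p hp => ?_
    have hpp := Nat.prime_of_mem_primeFactors hp
    have hpn := Nat.dvd_of_mem_primeFactors hp
    refine h3 p hpp ?_ (hpn.trans hnD)
    by_contra hcon
    push Not at hcon
    have h4 := hpp.two_le
    interval_cases p
    · exact hn2 hpn
    · exact hn hpn
    · exact absurd hpp (by norm_num)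

theorem lift (D M : ℕ) [NeZero D] [NeZero M] (hDM : D ∣ M) (χ : DirichletCharacter ℂ D)
    (h2 : χ ^ 2 = 1) (h1 : χ ≠ 1) : ∃ χ' : DirichletCharacter ℂ M, χ' ^ 2 = 1 ∧ χ' ≠ 1 ∧
    ∀ n : ℕ, n.Coprime M → χ' (n : ZMod M) = χ (n : ZMod D) := by
  refine ⟨DirichletCharacter.changeLevel hDM χ, ?_, ?_, ?_⟩
  · rw [← map_pow, h2, map_one]
  · intro h
    apply h1
    apply DirichletCharacter.changeLevel_injective hDM
    rw [h, map_one]
  · intro n hn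
    have h3 := DirichletCharacter.changeLevel_eq_cast_of_dvd χ hDM (ZMod.unitOfCoprime n hn)
    rw [ZMod.coe_unitOfCoprime] at h3
    rw [h3]
    congr 1
    exact ZMod.cast_natCast hDM n

private theorem Cond_unit {D : ℕ} [NeZero D] {χ : DirichletCharacter ℂ D} (h2 : χ ^ 2 = 1) {n : ℕ}
    (hn : n.Coprime D) : χ (n : ZMod D) = 1 ∨ χ (n : ZMod D) = -1 := by
  rcases chi_val χ h2 (n : ZMod D) with h0 | h0 | h0
  · exfalso
    have h1 := (χ.apply_eq_zero_iff (n : ℤ)).1 (by rw [Int.cast_natCast]; exact h0)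
    exact h1 (Nat.isCoprime_iff_coprime.2 hn)
  · exact Or.inl h0
  · exact Or.inr h0

theorem tconst (N D D1 D2 : ℕ) [NeZero D] (hD : D = D1 * D2) (hc : D1.Coprime D2) (h1 : D1 ∣ 24)
    (h2 : D2 ∣ N) (χ : DirichletCharacter ℂ D) (hχ : χ ^ 2 = 1) (a a' : ℕ) (ha : a ≤ N) (ha' : a' ≤ N)
    (haa : a ≡ a' [MOD 24]) (u1 : a.Coprime D) (u2 : (N - a).Coprime D) (u3 : a'.Coprime D)
    (u4 : (N - a').Coprime D) : χ (a : ZMod D) * χ ((N - a : ℕ) : ZMod D) =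
    χ (a' : ZMod D) * χ ((N - a' : ℕ) : ZMod D) := by
  obtain ⟨y, hy1, hy2⟩ := Nat.chineseRemainder hc (a * (N - a)) (a * a')
  have e1 : ((N - a : ℕ) : ℤ) = (N : ℤ) - a := by rw [Nat.cast_sub ha]
  have e2 : ((N - a' : ℕ) : ℤ) = (N : ℤ) - a' := by rw [Nat.cast_sub ha']
  have hA : (D1 : ℤ) ∣ (a : ℤ) - a' := by
    have h3 : (24 : ℤ) ∣ (a : ℤ) - a' := by
      have := (Nat.modEq_iff_dvd.1 haa.symm)
      exact_mod_cast this
    have h4 : (D1 : ℤ) ∣ 24 := by exact_mod_cast h1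
    exact h4.trans h3
  have hB : (D2 : ℤ) ∣ (N : ℤ) := by exact_mod_cast h2
  have k1 : (D1 : ℤ) ∣ (y : ℤ) - (a : ℤ) * ((N : ℤ) - a) := by
    have h5 := Nat.modEq_iff_dvd.1 hy1.symm
    push_cast at h5
    rw [e1] at h5
    exact h5
  have k2 : (D2 : ℤ) ∣ (y : ℤ) - (a : ℤ) * a' := by
    have h5 := Nat.modEq_iff_dvd.1 hy2.symm
    push_cast at h5
    exact h5
  have m1 : (D1 : ℤ) ∣ (y : ℤ) ^ 2 - (a : ℤ) * ((N : ℤ) - a) * (a' * ((N : ℤ) - a')) := by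
    have : (y : ℤ) ^ 2 - (a : ℤ) * ((N : ℤ) - a) * (a' * ((N : ℤ) - a')) =
        ((y : ℤ) - (a : ℤ) * ((N : ℤ) - a)) * ((y : ℤ) + (a : ℤ) * ((N : ℤ) - a)) +
        ((a : ℤ) - a') * ((a : ℤ) * ((N : ℤ) - a) * (N - a - a')) := by ring
    rw [this]
    exact dvd_add (Dvd.dvd.mul_right k1 _) (Dvd.dvd.mul_right hA _)
  have m2 : (D2 : ℤ) ∣ (y : ℤ) ^ 2 - (a : ℤ) * ((N : ℤ) - a) * (a' * ((N : ℤ) - a')) := by
    have : (y : ℤ) ^ 2 - (a : ℤ) * ((N : ℤ) - a) * (a' * ((N : ℤ) - a')) =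
        ((y : ℤ) - (a : ℤ) * a') * ((y : ℤ) + (a : ℤ) * a') +
        (N : ℤ) * ((a : ℤ) * a' * (a + a' - N)) := by ring
    rw [this]
    exact dvd_add (Dvd.dvd.mul_right k2 _) (Dvd.dvd.mul_right hB _)
  have m3 : (D : ℤ) ∣ (y : ℤ) ^ 2 - (a : ℤ) * ((N : ℤ) - a) * (a' * ((N : ℤ) - a')) := by
    rw [hD]
    push_cast
    exact IsCoprime.mul_dvd (Nat.isCoprime_iff_coprime.2 hc) m1 m2
  have m4 : (y : ZMod D) ^ 2 = (a : ZMod D) * ((N - a : ℕ) : ZMod D) *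
      ((a' : ZMod D) * ((N - a' : ℕ) : ZMod D)) := by
    have h8 := (ZMod.intCast_zmod_eq_zero_iff_dvd _ D).2 m3
    rw [← e1, ← e2] at h8
    rw [Int.cast_sub, sub_eq_zero] at h8
    simpa using h8
  have m5 : χ (y : ZMod D) ^ 2 = χ (a : ZMod D) * χ ((N - a : ℕ) : ZMod D) *
      (χ (a' : ZMod D) * χ ((N - a' : ℕ) : ZMod D)) := by
    rw [← map_pow, m4, map_mul, map_mul, map_mul]
  rcases chi_val χ hχ (y : ZMod D) with h0 | h0 | h0 <;>
  rcases Cond_unit hχ u1 with v1 | v1 <;> rcases Cond_unit hχ u2 with v2 | v2 <;>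
  rcases Cond_unit hχ u3 with v3 | v3 <;> rcases Cond_unit hχ u4 with v4 | v4 <;>
  rw [h0, v1, v2, v3, v4] at m5 <;> rw [v1, v2, v3, v4] <;>
  first | (norm_num; done) | (exfalso; norm_num at m5)

end Pool.Agent.Lib.XE
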