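import Pool.Agent.Lib.MP_61161c_nt.XE.P6a
import Pool.Agent.Lib.MP_7b7e48_nt.SPV.A1

/-!
# a prime factor of the conductor which does not divide `N`   (module Jac, 70 minutes)

PROOF. `D = p * D1`, `p` and `D1` coprime (`p² ∤ D`). `SPV.crt_char'`: `χ x = χ₁ x χ₂ x` for integers `x`, `χ₁` primitive modulo `p`, so `χ₁ ≠ 1`, and `χ₁ ^ 2 = 1` (values of `χ` at `x ≡ 1 mod D1`). By CRT `VD N D` is the product of `VD N p` and `VD N D1` (`ZMod.chineseRemainder`; an element is a unit iff both components are). For `v = (v₁, v₂)`: `χ v χ (N-v) = χ₁(v₁ (N - v₁)) T₂`, `T₂ = χ₂ v₂ χ₂ (N-v₂) ∈ {1, -1}` (it is a unit and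
`χ₂ ^ 2 = 1` on these). Modulo `p` (`N ≠ 0` in `ZMod p`): `∑_{v₁} χ₁(v₁ (N - v₁)) = -χ₁(-1)` (`v₁ (N - v₁) = v₁² (N/v₁ - 1)`, `χ₁(v₁²) = 1`, `∑_{u ≠ 0} χ₁(N u - 1) = ∑_{x ≠ -1} χ₁ x = -χ₁(-1)`; or `jacobiSum_inv`). So among the `p - 2` elements of `VD N p` each sign occurs at least `(p-3)/2` times, and `3 (p-3)/2 ≥ p - 2` for `p ≥ 5`.
Sum over `v₂`.
-/

set_option autoImplicit false

open Finset
open Pool.Agent.Lib.GT (Rough pr V)
open Pool.Agent.Lib.MP_45349e_nt.LS (lam)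
open Pool.Agent.Lib.PQ (pw)

namespace Pool.Agent.Lib.XE

open Classical in
private theorem Jac_p (N p : ℕ) [Fact p.Prime] [NeZero p] (χ : DirichletCharacter ℂ p) (hχ : χ ≠ 1)
    (h2 : χ ^ 2 = 1) (hN : (N : ZMod p) ≠ 0) (h5 : 5 ≤ p) (κ : ℂ) (hκ : κ = 1 ∨ κ = -1) :
    (VD N p).card ≤ 3 * ((VD N p).filter fun a => χ a * χ ((N : ZMod p) - a) ≠ κ).card := by
  have hinv : χ⁻¹ = χ := by
    rw [inv_eq_iff_mul_eq_one, ← pow_two, h2]
  have hsq : ∀ a : ZMod p, a ≠ 0 → χ a * χ a = 1 := by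
    intro a ha
    have h := congrArg (fun ψ : DirichletCharacter ℂ p => ψ a) h2
    simp only [pow_two, MulChar.mul_apply] at h
    rw [h]
    exact MulChar.one_apply (isUnit_iff_ne_zero.mpr ha)
  have hval : ∀ a : ZMod p, a ≠ 0 → χ a = 1 ∨ χ a = -1 := fun a ha =>
    mul_self_eq_one_iff.mp (hsq a ha)
  have hsum : ∑ a : ZMod p, χ a * χ ((N : ZMod p) - a) = -χ (-1) := by
    have hJ : jacobiSum χ χ = -χ (-1) := by
      have := jacobiSum_nontrivial_inv hχ
      rw [hinv] at this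
      exact this
    rw [← hJ]
    unfold jacobiSum
    rw [← Equiv.sum_comp (Equiv.mulLeft₀ (N : ZMod p) hN)]
    refine Finset.sum_congr rfl fun a _ => ?_
    change χ ((N : ZMod p) * a) * χ ((N : ZMod p) - (N : ZMod p) * a) = χ a * χ (1 - a)
    have e : (N : ZMod p) - (N : ZMod p) * a = (N : ZMod p) * (1 - a) := by ring
    rw [e, map_mul, map_mul]
    calc χ (N : ZMod p) * χ a * (χ (N : ZMod p) * χ (1 - a))
        = (χ (N : ZMod p) * χ (N : ZMod p)) * (χ a * χ (1 - a)) := by ring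
      _ = χ a * χ (1 - a) := by rw [hsq _ hN, one_mul]
  have hmem : ∀ a : ZMod p, a ∈ VD N p ↔ a ≠ 0 ∧ (N : ZMod p) - a ≠ 0 := by
    intro a
    unfold VD
    rw [Finset.mem_filter]
    simp only [Finset.mem_univ, true_and, isUnit_iff_ne_zero]
  have hsumV : ∑ a ∈ VD N p, χ a * χ ((N : ZMod p) - a) = -χ (-1) := by
    rw [← hsum]
    refine Finset.sum_subset (Finset.subset_univ _) fun a _ ha => ?_
    rw [hmem] at ha
    by_cases h0 : a = 0
    · rw [h0, MulChar.map_zero, zero_mul]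
    · have h1 : (N : ZMod p) - a = 0 := by
        by_contra hc
        exact ha ⟨h0, hc⟩
      rw [h1, MulChar.map_zero, mul_zero]
  have hfv : ∀ a ∈ VD N p, χ a * χ ((N : ZMod p) - a) = κ ∨ χ a * χ ((N : ZMod p) - a) = -κ := by
    intro a ha
    rw [hmem] at ha
    rcases hval a ha.1 with h | h <;> rcases hval _ ha.2 with h' | h' <;> rcases hκ with hk | hk <;>
      rw [h, h', hk] <;> norm_num
  set P := (VD N p).filter fun a => χ a * χ ((N : ZMod p) - a) ≠ κ with hP
  set Q := (VD N p).filter fun a => ¬ (χ a * χ ((N : ZMod p) - a) ≠ κ) with hQ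
  have hcard : P.card + Q.card = (VD N p).card := Finset.card_filter_add_card_filter_not _
  have hsplit : ∑ a ∈ P, χ a * χ ((N : ZMod p) - a) + ∑ a ∈ Q, χ a * χ ((N : ZMod p) - a) = -χ (-1) := by
    rw [← hsumV]
    exact Finset.sum_filter_add_sum_filter_not _ _ _
  have hPs : ∑ a ∈ P, χ a * χ ((N : ZMod p) - a) = -κ * P.card := by
    rw [Finset.sum_congr rfl (g := fun _ => -κ)]
    · rw [Finset.sum_const, nsmul_eq_mul]; ring
    · intro a ha
      rw [hP, Finset.mem_filter] at ha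
      exact (hfv a ha.1).resolve_left ha.2
  have hQs : ∑ a ∈ Q, χ a * χ ((N : ZMod p) - a) = κ * Q.card := by
    rw [Finset.sum_congr rfl (g := fun _ => κ)]
    · rw [Finset.sum_const, nsmul_eq_mul]; ring
    · intro a ha
      rw [hQ, Finset.mem_filter] at ha
      exact not_not.mp ha.2
  have hm1 : χ (-1) * χ (-1) = 1 := hsq (-1) (neg_ne_zero.mpr one_ne_zero)
  have hκ2 : κ * κ = 1 := by rcases hκ with h | h <;> rw [h] <;> norm_num
  have hdiff : (((Q.card : ℤ) - P.card) * ((Q.card : ℤ) - P.card) : ℤ) = 1 := by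
    have h : (((Q.card : ℂ) - P.card) * ((Q.card : ℂ) - P.card)) = 1 := by
      rw [hPs, hQs] at hsplit
      calc ((Q.card : ℂ) - P.card) * ((Q.card : ℂ) - P.card)
          = (κ * κ) * (((Q.card : ℂ) - P.card) * ((Q.card : ℂ) - P.card)) := by rw [hκ2, one_mul]
        _ = (-κ * P.card + κ * Q.card) * (-κ * P.card + κ * Q.card) := by ring
        _ = (-χ (-1)) * (-χ (-1)) := by rw [hsplit]
        _ = 1 := by rw [neg_mul_neg, hm1]
    exact_mod_cast h
  have hle : Q.card ≤ P.card + 1 := by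
    by_contra hc
    push Not at hc
    have : (2 : ℤ) ≤ (Q.card : ℤ) - P.card := by omega
    nlinarith
  have h3 : 3 ≤ (VD N p).card := by
    have hsub : (Finset.univ : Finset (ZMod p)) \ {0, (N : ZMod p)} ⊆ VD N p := by
      intro a ha
      rw [Finset.mem_sdiff, Finset.mem_insert, Finset.mem_singleton, not_or] at ha
      rw [hmem]
      exact ⟨ha.2.1, fun h => ha.2.2 (sub_eq_zero.mp h).symm⟩
    have hc := Finset.card_le_card hsub
    have hc2 := Finset.le_card_sdiff ({0, (N : ZMod p)} : Finset (ZMod p)) (Finset.univ : Finset (ZMod p))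
    have hc3 : ({0, (N : ZMod p)} : Finset (ZMod p)).card ≤ 2 := Finset.card_le_two
    rw [Finset.card_univ, ZMod.card] at hc2
    omega
  omega

open Classical in
theorem jac (N D : ℕ) [NeZero D] (χ : DirichletCharacter ℂ D) (hχ : Pool.Agent.Lib.SPV.Prim χ)
    (h2 : χ ^ 2 = 1) (p : ℕ) (hp : p.Prime) (h5 : 5 ≤ p) (hpD : p ∣ D) (hp2 : ¬ p ^ 2 ∣ D)
    (hpN : ¬ p ∣ N) (κ : ℂ) (hκ : κ = 1 ∨ κ = -1) :
    (VD N D).card ≤ 3 * ((VD N D).filter fun v => χ v * χ ((N : ZMod D) - v) ≠ κ).card := by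
  obtain ⟨n, rfl⟩ := hpD
  have : Fact p.Prime := ⟨hp⟩
  have hn0 : NeZero n := ⟨fun h => NeZero.ne (p * n) (by rw [h, mul_zero])⟩
  have hp0 : NeZero p := ⟨hp.ne_zero⟩
  have hcop : p.Coprime n := by
    rw [hp.coprime_iff_not_dvd]
    intro h
    exact hp2 (by rw [pow_two]; exact Nat.mul_dvd_mul_left p h)
  obtain ⟨χ₁, χ₂, hP1, hP2, hmul⟩ := Pool.Agent.Lib.SPV.crt_char hcop χ hχ
  set e := ZMod.chineseRemainder hcop with he
  have hN : (N : ZMod p) ≠ 0 := by
    intro h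
    exact hpN ((ZMod.natCast_eq_zero_iff N p).mp h)
  -- the value of the character on a pair
  have hpair : ∀ (a : ZMod p) (b : ZMod n), χ (e.symm (a, b)) = χ₁ a * χ₂ b := by
    intro a b
    obtain ⟨x, hx⟩ := ZMod.intCast_surjective (e.symm (a, b))
    rw [← hx, hmul x]
    have h := congrArg e hx
    rw [RingEquiv.apply_symm_apply, map_intCast] at h
    have ha : ((x : ℤ) : ZMod p) = a := by
      have := congrArg Prod.fst h
      simpa using this
    have hb : ((x : ℤ) : ZMod n) = b := by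
      have := congrArg Prod.snd h
      simpa using this
    rw [ha, hb]
  have hunit : ∀ (a : ZMod p) (b : ZMod n), IsUnit (e.symm (a, b)) ↔ IsUnit a ∧ IsUnit b := by
    intro a b
    constructor
    · intro hab
      have h1 := hab.map e
      rw [RingEquiv.apply_symm_apply] at h1
      exact Prod.isUnit_iff.mp h1
    · intro h
      exact (Prod.isUnit_iff.mpr h : IsUnit ((a, b) : ZMod p × ZMod n)).map e.symm
  have hsqχ : ∀ v : ZMod (p * n), IsUnit v → χ v * χ v = 1 := by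
    intro v hv
    have h := congrArg (fun ψ : DirichletCharacter ℂ (p * n) => ψ v) h2
    simp only [pow_two, MulChar.mul_apply] at h
    rw [h]
    exact MulChar.one_apply hv
  have hsq1 : χ₁ ^ 2 = 1 := by
    refine MulChar.ext' fun a => ?_
    by_cases ha : IsUnit a
    · have h := hsqχ (e.symm (a, 1)) ((hunit a 1).mpr ⟨ha, isUnit_one⟩)
      rw [hpair, map_one, mul_one] at h
      rw [pow_two, MulChar.mul_apply, h, MulChar.one_apply ha]
    · rw [MulChar.map_nonunit _ ha, MulChar.map_nonunit _ ha]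
  have hsq2 : ∀ b : ZMod n, IsUnit b → χ₂ b * χ₂ b = 1 := by
    intro b hb
    have h := hsqχ (e.symm (1, b)) ((hunit 1 b).mpr ⟨isUnit_one, hb⟩)
    rw [hpair, map_one, one_mul] at h
    exact h
  have hne1 : χ₁ ≠ 1 := by
    intro h1
    obtain ⟨x, _, hx2, hx3⟩ := hP1 1 (one_dvd p) hp.one_lt
    apply hx3
    rw [h1]
    refine MulChar.one_apply ?_
    exact (ZMod.coe_int_isUnit_iff_isCoprime x p).mpr hx2.symm
  -- the set of pairs
  have hset : VD N (p * n) = ((VD N p) ×ˢ (VD N n)).map e.symm.toEquiv.toEmbedding := by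
    ext v
    rw [Finset.mem_map_equiv]
    rw [Finset.mem_product]
    unfold VD
    simp only [Finset.mem_filter, Finset.mem_univ, true_and]
    obtain ⟨⟨a, b⟩, rfl⟩ := e.symm.surjective v
    have e2 : e.symm.toEquiv.symm (e.symm (a, b)) = (a, b) := e.symm.toEquiv.symm_apply_apply (a, b)
    rw [e2]
    have e3 : (N : ZMod (p * n)) - e.symm (a, b) = e.symm ((N : ZMod p) - a, (N : ZMod n) - b) := by
      have e4 : (N : ZMod (p * n)) = e.symm ((N : ZMod p), (N : ZMod n)) := by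
        have : ((N : ZMod p), (N : ZMod n)) = ((N : ℕ) : ZMod p × ZMod n) := rfl
        rw [this, map_natCast]
      rw [e4, ← map_sub, Prod.mk_sub_mk]
    rw [e3, hunit, hunit]
    tauto
  rw [hset, Finset.filter_map, Finset.card_map, Finset.card_map]
  rw [Finset.card_eq_sum_ones, Finset.sum_product_right, Finset.card_filter, Finset.sum_product_right,
    Finset.mul_sum]
  refine Finset.sum_le_sum fun b hb => ?_
  rw [← Finset.card_eq_sum_ones, ← Finset.card_filter]
  unfold VD at hb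
  simp only [Finset.mem_filter, Finset.mem_univ, true_and] at hb
  have hT1 := hsq2 b hb.1
  have hT2 := hsq2 _ hb.2
  set T := χ₂ b * χ₂ ((N : ZMod n) - b) with hT
  have hTT : T * T = 1 := by
    rw [hT]
    calc χ₂ b * χ₂ ((N : ZMod n) - b) * (χ₂ b * χ₂ ((N : ZMod n) - b))
        = (χ₂ b * χ₂ b) * (χ₂ ((N : ZMod n) - b) * χ₂ ((N : ZMod n) - b)) := by ring
      _ = 1 := by rw [hT1, hT2, one_mul]
  have hκ' : κ * T = 1 ∨ κ * T = -1 := by
    rcases mul_self_eq_one_iff.mp hTT with h | h <;> rcases hκ with h' | h' <;> rw [h, h'] <;> norm_num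
  have hmain := Jac_p N p χ₁ hne1 hsq1 hN h5 (κ * T) hκ'
  refine hmain.trans ?_
  refine Nat.mul_le_mul_left 3 (Finset.card_le_card ?_)
  intro a ha
  rw [Finset.mem_filter] at ha ⊢
  refine ⟨ha.1, fun hc => ha.2 ?_⟩
  have hc' : χ (e.symm (a, b)) * χ ((N : ZMod (p * n)) - e.symm (a, b)) = κ := hc
  have e3 : (N : ZMod (p * n)) - e.symm (a, b) = e.symm ((N : ZMod p) - a, (N : ZMod n) - b) := by
    have e4 : (N : ZMod (p * n)) = e.symm ((N : ZMod p), (N : ZMod n)) := by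
      have : ((N : ZMod p), (N : ZMod n)) = ((N : ℕ) : ZMod p × ZMod n) := rfl
      rw [this, map_natCast]
    rw [e4, ← map_sub, Prod.mk_sub_mk]
  rw [e3, hpair, hpair] at hc'
  calc χ₁ a * χ₁ ((N : ZMod p) - a) = (χ₁ a * χ₁ ((N : ZMod p) - a)) * (T * T) := by rw [hTT, mul_one]
    _ = (χ₁ a * χ₂ b * (χ₁ ((N : ZMod p) - a) * χ₂ ((N : ZMod n) - b))) * T := by rw [hT]; ring
    _ = κ * T := by rw [hc']

end Pool.Agent.Lib.XE
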