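import Pool.Agent.Lib.MP_61161c_nt.XE.Asym

/-!
# matched numbers in classes   (module Jc, 60 minutes)

PROOF. `aa_asym` with `η = 1/100` and `min w (1/2)`, `q = 1`, `W = D`: for `v ∈ VD N D` the number `cnt v` of `a ∈ AA N z 1` with `(a : ZMod D) = v` is within `1/100` of `(N/D) VW N z D =: m` (condition at `p ∣ D`: `v` and `N - v` are units). `∑_{v ∈ VD} cnt v` = the number of `a ∈ AA N z 1` with `a`, `N - a` coprime to `D` `≥ #AA - ∑_{p ∣ D, p > z} 2 (N/p + 1) ≥ (98/100) N VN`
(`aa_asym` with `W = 1`; at most `log N/log 2` primes, `VN_low`; `VW N z 1 = VN N z`). So `(98/100) N VN ≤ |VD| (101/100) m`, and for `S ⊆ VD`: `cnt S ≥ |S| (99/100) m ≥ (9/10) |S| N VN/|VD|`.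
-/

set_option autoImplicit false

open Finset
open Pool.Agent.Lib.GT (Rough pr V)
open Pool.Agent.Lib.MP_45349e_nt.LS (lam)
open Pool.Agent.Lib.PQ (pw)

namespace Pool.Agent.Lib.XE

private theorem Jc_pf {n : ℕ} (hn : n ≠ 0) : (n.primeFactors.card : ℝ) ≤ 2 * Real.log n := by
  have h1 : 2 ^ n.primeFactors.card ≤ n := by
    calc 2 ^ n.primeFactors.card ≤ ∏ p ∈ n.primeFactors, p := by
          rw [← Finset.prod_const]
          exact Finset.prod_le_prod' fun p hp => (Nat.prime_of_mem_primeFactors hp).two_le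
      _ ≤ n := Nat.le_of_dvd (Nat.pos_of_ne_zero hn) (Nat.prod_primeFactors_dvd n)
  have h2 : ((2 : ℝ) ^ n.primeFactors.card) ≤ (n : ℝ) := by exact_mod_cast h1
  have h3 := Real.log_le_log (by positivity) h2
  rw [Real.log_pow] at h3
  have h4 : (1 / 2 : ℝ) ≤ Real.log 2 := by linarith [Real.log_two_gt_d9]
  nlinarith [Nat.cast_nonneg (α := ℝ) n.primeFactors.card]

private theorem Jc_mul (N p : ℕ) :
    (((Icc 1 N).filter fun a => p ∣ a).card : ℝ) ≤ N / p := by
  have h : (Icc 1 N).filter (fun a => p ∣ a) = (Ioc 0 N).filter (fun a => p ∣ a) := by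
    ext a; simp [Nat.lt_iff_add_one_le]
  rw [h, Nat.Ioc_filter_dvd_card_eq_div]
  exact Nat.cast_div_le

private theorem Jc_mul' (N p : ℕ) :
    (((Icc 1 N).filter fun a => p ∣ N - a).card : ℝ) ≤ N / p + 1 := by
  have h : ((Icc 1 N).filter (fun a => p ∣ N - a)).card ≤ (((Icc 1 N).filter fun a => p ∣ a) ∪ {0}).card := by
    refine Finset.card_le_card_of_injOn (fun a => N - a) ?_ ?_
    · intro a ha
      simp only [coe_filter, mem_Icc, Set.mem_ofPred_eq] at ha
      simp only [coe_union, coe_filter, mem_Icc, coe_singleton, Set.mem_union, Set.mem_ofPred_eq,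
        Set.mem_singleton_iff]
      by_cases h0 : N - a = 0
      · exact Or.inr h0
      · exact Or.inl ⟨⟨by omega, by omega⟩, ha.2⟩
    · intro a ha b hb hab
      simp only [coe_filter, mem_Icc, Set.mem_ofPred_eq] at ha hb
      simp only at hab
      omega
  have h2 : ((((Icc 1 N).filter fun a => p ∣ a) ∪ {0}).card : ℝ) ≤ ((Icc 1 N).filter fun a => p ∣ a).card + 1 := by
    exact_mod_cast (Finset.card_union_le _ _).trans (by simp)
  have h3 := Jc_mul N p
  have h1 : (((Icc 1 N).filter (fun a => p ∣ N - a)).card : ℝ) ≤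
      ((((Icc 1 N).filter fun a => p ∣ a) ∪ {0}).card : ℝ) := by exact_mod_cast h
  linarith

open Classical in
private theorem Jc_fil (N z D : ℕ) [NeZero D] (v : ZMod D) :
    (AA N z 1).filter (fun a : ℕ => (a : ZMod D) = v) = (AA N z 1).filter fun a => a ≡ v.val [MOD D] := by
  refine Finset.filter_congr fun a _ => ?_
  rw [← ZMod.natCast_eq_natCast_iff, ZMod.natCast_zmod_val]

open Classical in
private theorem Jc_sum (N z D : ℕ) [NeZero D] (S : Finset (ZMod D)) :
    (((AA N z 1).filter fun a : ℕ => (a : ZMod D) ∈ S).card : ℝ) =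
      ∑ v ∈ S, (((AA N z 1).filter fun a : ℕ => (a : ZMod D) = v).card : ℝ) := by
  have h := Finset.card_eq_sum_card_fiberwise (s := (AA N z 1).filter fun a : ℕ => (a : ZMod D) ∈ S)
    (t := S) (f := fun a : ℕ => (a : ZMod D)) (fun a ha => by
      simp only [coe_filter, Set.mem_ofPred_eq] at ha
      exact ha.2)
  rw [h]
  push_cast
  refine Finset.sum_congr rfl fun v hv => ?_
  congr 2
  ext a
  simp only [mem_filter]
  constructor
  · rintro ⟨⟨h1, -⟩, h2⟩; exact ⟨h1, h2⟩
  · rintro ⟨h1, h2⟩; exact ⟨⟨h1, by rw [h2]; exact hv⟩, h2⟩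

open Classical in
/-- all but few members of `AA` lie in the classes `VD` -/
private theorem Jc_rest {N z D : ℕ} [NeZero D] (hz : 1 ≤ z) (hzN : z ≤ N) (hDN : D ≤ N) :
    ((AA N z 1).card : ℝ) - 6 * Real.log N * (N / z) ≤
      (((AA N z 1).filter fun a : ℕ => (a : ZMod D) ∈ VD N D).card : ℝ) := by
  have hD0 : D ≠ 0 := NeZero.ne D
  have hz0 : (0 : ℝ) < z := by exact_mod_cast hz
  have h1 : (AA N z 1).card = ((AA N z 1).filter fun a : ℕ => (a : ZMod D) ∈ VD N D).card +
      ((AA N z 1).filter fun a : ℕ => ¬ (a : ZMod D) ∈ VD N D).card :=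
    (Finset.card_filter_add_card_filter_not _).symm
  have hsub : (AA N z 1).filter (fun a : ℕ => ¬ (a : ZMod D) ∈ VD N D) ⊆
      (D.primeFactors.filter fun p => z < p).biUnion fun p =>
        ((Icc 1 N).filter fun a => p ∣ a) ∪ ((Icc 1 N).filter fun a => p ∣ N - a) := by
    intro a ha
    simp only [mem_filter, AA, VD, mem_univ, true_and, one_mul, not_and_or] at ha
    obtain ⟨⟨haI, haN, hra, hrb⟩, hnot⟩ := ha
    simp only [mem_biUnion, mem_filter, mem_union]
    have key : ∀ b : ℕ, Rough z b → ¬ IsUnit ((b : ℕ) : ZMod D) →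
        ∃ p, (p ∈ D.primeFactors ∧ z < p) ∧ p ∣ b := by
      intro b hb hu
      rw [ZMod.isUnit_iff_coprime, Nat.Prime.not_coprime_iff_dvd] at hu
      obtain ⟨p, hp, hpb, hpD⟩ := hu
      exact ⟨p, ⟨Nat.mem_primeFactors.mpr ⟨hp, hpD, hD0⟩, hb p hp hpb⟩, hpb⟩
    rcases hnot with hnot | hnot
    · obtain ⟨p, hp, hpa⟩ := key a hra hnot
      exact ⟨p, hp, Or.inl ⟨haI, hpa⟩⟩
    · have hnot' : ¬ IsUnit (((N - a : ℕ)) : ZMod D) := by
        rw [Nat.cast_sub haN.le]; exact hnot
      obtain ⟨p, hp, hpa⟩ := key (N - a) hrb hnot'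
      exact ⟨p, hp, Or.inr ⟨haI, hpa⟩⟩
  have h2 : (((AA N z 1).filter fun a : ℕ => ¬ (a : ZMod D) ∈ VD N D).card : ℝ) ≤
      6 * Real.log N * (N / z) := by
    calc (((AA N z 1).filter fun a : ℕ => ¬ (a : ZMod D) ∈ VD N D).card : ℝ)
        ≤ (((D.primeFactors.filter fun p => z < p).biUnion fun p =>
        ((Icc 1 N).filter fun a => p ∣ a) ∪ ((Icc 1 N).filter fun a => p ∣ N - a)).card : ℝ) := by
          exact_mod_cast Finset.card_le_card hsub
      _ ≤ ∑ p ∈ D.primeFactors.filter (fun p => z < p), ((((Icc 1 N).filter fun a => p ∣ a) ∪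
          ((Icc 1 N).filter fun a => p ∣ N - a)).card : ℝ) := by
          exact_mod_cast Finset.card_biUnion_le
      _ ≤ ∑ p ∈ D.primeFactors.filter (fun p => z < p), 3 * ((N : ℝ) / z) := by
          refine Finset.sum_le_sum fun p hp => ?_
          rw [mem_filter] at hp
          have hp0 : 0 < p := (Nat.prime_of_mem_primeFactors hp.1).pos
          have hzp : (z : ℝ) ≤ p := by exact_mod_cast hp.2.le
          have h3 := Jc_mul N p
          have h4 := Jc_mul' N p
          have h5 : (((((Icc 1 N).filter fun a => p ∣ a) ∪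
              ((Icc 1 N).filter fun a => p ∣ N - a)).card : ℕ) : ℝ) ≤
              (((Icc 1 N).filter fun a => p ∣ a).card : ℝ) + (((Icc 1 N).filter fun a => p ∣ N - a).card : ℝ) := by
            exact_mod_cast Finset.card_union_le _ _
          have h6 : (N : ℝ) / p ≤ N / z := div_le_div_of_nonneg_left (by positivity) hz0 hzp
          have h7 : (1 : ℝ) ≤ N / z := by
            rw [le_div_iff₀ hz0, one_mul]; exact_mod_cast hzN
          linarith
      _ = ((D.primeFactors.filter fun p => z < p).card : ℝ) * (3 * ((N : ℝ) / z)) := by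
          rw [Finset.sum_const, nsmul_eq_mul]
      _ ≤ (2 * Real.log N) * (3 * ((N : ℝ) / z)) := by
          refine mul_le_mul_of_nonneg_right ?_ (by positivity)
          calc ((D.primeFactors.filter fun p => z < p).card : ℝ) ≤ (D.primeFactors.card : ℝ) := by
                exact_mod_cast Finset.card_filter_le _ _
            _ ≤ 2 * Real.log D := Jc_pf hD0
            _ ≤ 2 * Real.log N := by
                have : Real.log D ≤ Real.log N :=
                  Real.log_le_log (by exact_mod_cast Nat.pos_of_ne_zero hD0) (by exact_mod_cast hDN)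
                linarith
      _ = 6 * Real.log N * (N / z) := by ring
  have h1' : ((AA N z 1).card : ℝ) = (((AA N z 1).filter fun a : ℕ => (a : ZMod D) ∈ VD N D).card : ℝ) +
      (((AA N z 1).filter fun a : ℕ => ¬ (a : ZMod D) ∈ VD N D).card : ℝ) := by exact_mod_cast h1
  linarith

open Classical in
theorem jc (w : ℝ) (hw : 0 < w) : ∃ c1 : ℝ, 0 < c1 ∧ ∀ c0 : ℝ, 0 < c0 → c0 ≤ c1 → ∃ N0 : ℕ, ∀ N : ℕ,
    N0 ≤ N → Even N → ∀ z : ℕ, (N : ℝ) ^ (c0 / 2) ≤ z → (z : ℝ) ≤ (N : ℝ) ^ c0 →
    ∀ (D : ℕ) [NeZero D], (D : ℝ) ≤ (N : ℝ) ^ (1 - w) → ∀ S : Finset (ZMod D), S ⊆ VD N D →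
    9 / 10 * (S.card : ℝ) * (N * VN N z) ≤
      (VD N D).card * (((AA N z 1).filter fun a : ℕ => (a : ZMod D) ∈ S).card : ℝ) := by
  obtain ⟨c1, hc1, H⟩ := aa_asym (1 / 100) (min w (1 / 2)) (by norm_num) (lt_min hw (by norm_num))
  obtain ⟨C, hC, hlow⟩ := VN_low
  refine ⟨min c1 1, lt_min hc1 one_pos, fun c0 hc0 hc01 => ?_⟩
  obtain ⟨N0, HN⟩ := H c0 hc0 (hc01.trans (min_le_left _ _))
  have hc0' : c0 ≤ 1 := hc01.trans (min_le_right _ _)
  -- asymptotics
  have hc2 : 0 < c0 / 2 := by positivity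
  have e1 : ∀ᶠ N : ℕ in Filter.atTop, (4 : ℝ) ≤ (N : ℝ) ^ (c0 / 2) :=
    ((tendsto_rpow_atTop hc2).comp tendsto_natCast_atTop_atTop).eventually_ge_atTop 4
  have e2 : ∀ᶠ N : ℕ in Filter.atTop, (Real.log (N : ℝ)) ^ 3 ≤ C / 1200 * (N : ℝ) ^ (c0 / 2) := by
    have h := (isLittleO_log_rpow_rpow_atTop (3 : ℝ) hc2).bound (show (0 : ℝ) < C / 1200 by positivity)
    have h' := tendsto_natCast_atTop_atTop (R := ℝ) |>.eventually h
    filter_upwards [h', Filter.eventually_ge_atTop 1] with N hN hN1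
    have hN1' : (1 : ℝ) ≤ N := by exact_mod_cast hN1
    have hlog : 0 ≤ Real.log (N : ℝ) := Real.log_nonneg hN1'
    rw [Real.norm_of_nonneg (by positivity), Real.norm_of_nonneg (by positivity)] at hN
    have h3 : Real.log (N : ℝ) ^ (3 : ℝ) = Real.log (N : ℝ) ^ (3 : ℕ) := by
      rw [← Real.rpow_natCast]; norm_num
    rw [h3] at hN
    exact hN
  obtain ⟨N1, hN1⟩ := Filter.eventually_atTop.mp (e1.and e2)
  refine ⟨max (max N0 N1) 3, fun N hN hE z hzlo hzle D _ hD S hS => ?_⟩
  have hNN0 : N0 ≤ N := (le_max_left _ _).trans ((le_max_left _ _).trans hN)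
  have hNN1 : N1 ≤ N := (le_max_right _ _).trans ((le_max_left _ _).trans hN)
  have hN3 : 3 ≤ N := (le_max_right _ _).trans hN
  obtain ⟨f1, f2⟩ := hN1 N hNN1
  have hNr : (1 : ℝ) ≤ N := by exact_mod_cast (by omega : 1 ≤ N)
  have hN0 : (0 : ℝ) < N := by linarith
  have hzge : (N : ℝ) ^ (c0 / 2) / 2 ≤ z := by
    have : (0 : ℝ) ≤ (N : ℝ) ^ (c0 / 2) := by positivity
    linarith
  have hz2 : 2 ≤ z := by
    have : (2 : ℝ) ≤ z := by linarith
    exact_mod_cast this
  have hzN : z ≤ N := by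
    have : (z : ℝ) ≤ N := by
      calc (z : ℝ) ≤ (N : ℝ) ^ c0 := hzle
        _ ≤ (N : ℝ) ^ (1 : ℝ) := Real.rpow_le_rpow_of_exponent_le hNr hc0'
        _ = N := Real.rpow_one _
    exact_mod_cast this
  have hD0 : D ≠ 0 := NeZero.ne D
  have hDr : (0 : ℝ) < D := by exact_mod_cast Nat.pos_of_ne_zero hD0
  have hDN : D ≤ N := by
    have : (D : ℝ) ≤ N := by
      calc (D : ℝ) ≤ (N : ℝ) ^ (1 - w) := hD
        _ ≤ (N : ℝ) ^ (1 : ℝ) := Real.rpow_le_rpow_of_exponent_le hNr (by linarith)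
        _ = N := Real.rpow_one _
    exact_mod_cast this
  have hDw : ((1 * D : ℕ) : ℝ) ≤ (N : ℝ) ^ (1 - min w (1 / 2)) := by
    rw [one_mul]
    exact hD.trans (Real.rpow_le_rpow_of_exponent_le hNr (by linarith [min_le_left w (1 / 2)]))
  have hR1 : Rough z 1 := by
    intro p hp hp1
    exact absurd (Nat.dvd_one.mp hp1) hp.one_lt.ne'
  set m : ℝ := (N : ℝ) / D * VW N z D with hm
  have hVWpos := VW_pos hE z D
  have hm0 : 0 < m := by positivity
  -- each class
  have hcnt : ∀ v ∈ VD N D, |(((AA N z 1).filter fun a : ℕ => (a : ZMod D) = v).card : ℝ) - m| ≤ 1 / 100 * m := by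
    intro v hv
    have h := HN N hNN0 hE z hzlo hzle 1 D v.val le_rfl (Nat.pos_of_ne_zero hD0) hR1 hDw ?_
    · rw [Nat.cast_one, one_mul] at h
      rw [Jc_fil]
      exact h
    · intro p hp _ hpD
      simp only [VD, mem_filter, mem_univ, true_and] at hv
      have hcop : v.val.Coprime D := by
        rw [← ZMod.isUnit_iff_coprime, ZMod.natCast_zmod_val]; exact hv.1
      refine ⟨fun hpv => ?_, fun hc => ?_⟩
      · exact Nat.Prime.not_coprime_iff_dvd.mpr ⟨p, hp, hpv, hpD⟩ hcop
      · rw [one_mul] at hc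
        have hu := hv.2.map (ZMod.castHom hpD (ZMod p))
        have : Fact p.Prime := ⟨hp⟩
        have : (ZMod.castHom hpD (ZMod p)) ((N : ZMod D) - v) = 0 := by
          rw [map_sub, map_natCast]
          have hv' : (ZMod.castHom hpD (ZMod p)) v = (v.val : ZMod p) := by
            conv_lhs => rw [← ZMod.natCast_zmod_val v]
            rw [map_natCast]
          rw [hv', sub_eq_zero, ZMod.natCast_eq_natCast_iff]
          exact hc
        rw [this] at hu
        exact not_isUnit_zero hu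
  -- the total
  have htot : (((AA N z 1).filter fun a : ℕ => (a : ZMod D) ∈ VD N D).card : ℝ) ≤
      (VD N D).card * (101 / 100 * m) := by
    rw [Jc_sum]
    calc ∑ v ∈ VD N D, (((AA N z 1).filter fun a : ℕ => (a : ZMod D) = v).card : ℝ)
        ≤ ∑ _v ∈ VD N D, (101 / 100 * m) := by
          refine Finset.sum_le_sum fun v hv => ?_
          have := (abs_le.mp (hcnt v hv)).2
          linarith
      _ = (VD N D).card * (101 / 100 * m) := by rw [Finset.sum_const, nsmul_eq_mul]
  have hSlow : (S.card : ℝ) * (99 / 100 * m) ≤ (((AA N z 1).filter fun a : ℕ => (a : ZMod D) ∈ S).card : ℝ) := by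
    rw [Jc_sum]
    calc (S.card : ℝ) * (99 / 100 * m) = ∑ _v ∈ S, (99 / 100 * m) := by
          rw [Finset.sum_const, nsmul_eq_mul]
      _ ≤ _ := by
          refine Finset.sum_le_sum fun v hv => ?_
          have := (abs_le.mp (hcnt v (hS hv))).1
          linarith
  -- the whole set
  have hall : 99 / 100 * (N * VN N z) ≤ ((AA N z 1).card : ℝ) := by
    have h := HN N hNN0 hE z hzlo hzle 1 1 0 le_rfl le_rfl hR1 ?_ ?_
    · have hf : (AA N z 1).filter (fun a => a ≡ 0 [MOD 1]) = AA N z 1 :=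
        Finset.filter_true_of_mem fun a _ => Nat.modEq_one
      rw [hf] at h
      simp only [Nat.cast_one, mul_one, div_one] at h
      have h' : VW N z 1 = VN N z := rfl
      rw [h'] at h
      have := (abs_le.mp h).1
      linarith
    · rw [one_mul, Nat.cast_one]
      exact Real.one_le_rpow hNr (by linarith [min_le_right w (1 / 2 : ℝ)])
    · intro p hp _ hp1
      exact absurd (Nat.dvd_one.mp hp1) hp.one_lt.ne'
  have hrest := Jc_rest (D := D) (N := N) (z := z) (by omega) hzN hDN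
  have hVN := hlow N z hE hz2
  have hzr : (0 : ℝ) < z := by exact_mod_cast (by omega : 0 < z)
  have hlogz : 0 < Real.log z := Real.log_pos (by exact_mod_cast (by omega : 1 < z))
  have hlogzN : Real.log z ≤ Real.log N := Real.log_le_log hzr (by exact_mod_cast hzN)
  have hsmall : 6 * Real.log N * (N / z) ≤ 1 / 100 * (N * VN N z) := by
    have h1 : 600 * Real.log N * (Real.log z) ^ 2 ≤ C * z := by
      have hl : Real.log N * (Real.log z) ^ 2 ≤ (Real.log N) ^ 3 := by
        have h0 : 0 ≤ Real.log N := by linarith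
        have h3 : (Real.log z) ^ 2 ≤ (Real.log N) ^ 2 := pow_le_pow_left₀ hlogz.le hlogzN 2
        calc Real.log N * (Real.log z) ^ 2 ≤ Real.log N * (Real.log N) ^ 2 :=
              mul_le_mul_of_nonneg_left h3 h0
          _ = _ := by ring
      have hz' : C * ((N : ℝ) ^ (c0 / 2) / 2) ≤ C * z := mul_le_mul_of_nonneg_left hzge hC.le
      linarith
    have h2 : 6 * Real.log N / z ≤ 1 / 100 * (C / (Real.log z) ^ 2) := by
      rw [div_le_iff₀ hzr]
      have h4 : 1 / 100 * (C / (Real.log z) ^ 2) * z = (C * z) / (100 * (Real.log z) ^ 2) := by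
        field_simp
      rw [h4, le_div_iff₀ (by positivity)]
      linarith
    have h3 : 6 * Real.log N / z ≤ 1 / 100 * VN N z := h2.trans (by linarith)
    calc 6 * Real.log N * (N / z) = N * (6 * Real.log N / z) := by ring
      _ ≤ N * (1 / 100 * VN N z) := mul_le_mul_of_nonneg_left h3 hN0.le
      _ = _ := by ring
  have hmain : 98 / 100 * (N * VN N z) ≤ (VD N D).card * (101 / 100 * m) := by linarith
  have hSc : (0 : ℝ) ≤ S.card := Nat.cast_nonneg _
  have hVc : (0 : ℝ) ≤ (VD N D).card := Nat.cast_nonneg _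
  have hX : (N * VN N z) ≤ (VD N D).card * m * (101 / 98) := by linarith
  calc 9 / 10 * (S.card : ℝ) * (N * VN N z)
      ≤ 9 / 10 * (S.card : ℝ) * ((VD N D).card * m * (101 / 98)) :=
        mul_le_mul_of_nonneg_left hX (by positivity)
    _ = (9 / 10 * (101 / 98)) * ((VD N D).card * ((S.card : ℝ) * m)) := by ring
    _ ≤ (99 / 100) * ((VD N D).card * ((S.card : ℝ) * m)) := by
        refine mul_le_mul_of_nonneg_right (by norm_num) (by positivity)
    _ = (VD N D).card * ((S.card : ℝ) * (99 / 100 * m)) := by ring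
    _ ≤ _ := mul_le_mul_of_nonneg_left hSlow hVc

end Pool.Agent.Lib.XE
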