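import Pool.Agent.Lib.MP_61161c_nt.XE.Asym

/-!
# one large prime factor, upper bound   (module Bb, 40 minutes)

PROOF. `aa_asym` with `η = 1`, `w = μ`, `W = l` (`VW N z l = VN N z` by `VW_rough`, `l` is a prime `> z`): the condition at the `p ≤ z`, `p ∣ l` is empty. First bound: `v = 0`. Second bound: if `l ∣ q` and `l ∣ N - q a` (`q a < N`) then `l ∣ N`, against `q.Coprime N`: the set is empty. Otherwise `v` with `q v ≡ N [MOD l]`; `l ∣ N - q a` gives `q a ≡ N ≡ q v`, so `a ≡ v [MOD l]`.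
-/

set_option autoImplicit false

open Finset
open Pool.Agent.Lib.GT (Rough pr V)
open Pool.Agent.Lib.MP_45349e_nt.LS (lam)
open Pool.Agent.Lib.PQ (pw)

namespace Pool.Agent.Lib.XE

open Classical in
/-- both bounds follow from the bound for all classes modulo `l` -/
theorem bb_core {N z q l : ℕ} {B : ℝ} (hB : 0 ≤ B) (hqN : q.Coprime N) (hl : l.Prime)
    (core : ∀ v : ℕ, (((AA N z q).filter fun a => a ≡ v [MOD l]).card : ℝ) ≤ B) :
    (((AA N z q).filter fun a => l ∣ a).card : ℝ) ≤ B ∧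
    (((AA N z q).filter fun a => l ∣ N - q * a).card : ℝ) ≤ B := by
  constructor
  · refine le_trans ?_ (core 0)
    have : ((AA N z q).filter fun a => l ∣ a) ⊆ ((AA N z q).filter fun a => a ≡ 0 [MOD l]) := by
      intro a ha
      rw [mem_filter] at ha ⊢
      exact ⟨ha.1, (Nat.modEq_zero_iff_dvd).2 ha.2⟩
    exact_mod_cast card_le_card this
  · by_cases hlq : l ∣ q
    · have : ((AA N z q).filter fun a => l ∣ N - q * a) = ∅ := by
        apply filter_eq_empty_iff.2
        intro a ha hd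
        have haN : q * a < N := (mem_filter.1 ha).2.1
        have h1 : l ∣ q * a := Dvd.dvd.mul_right hlq a
        have h2 : l ∣ N := by
          have h3 := Nat.dvd_add hd h1
          rwa [Nat.sub_add_cancel haN.le] at h3
        have h4 : l ∣ Nat.gcd q N := Nat.dvd_gcd hlq h2
        rw [hqN] at h4
        exact hl.one_lt.ne' (Nat.dvd_one.1 h4)
      rw [this]
      simpa using hB
    · have hcop : Nat.Coprime q l := ((Nat.Prime.coprime_iff_not_dvd hl).2 hlq).symm
      obtain ⟨m, hm⟩ := Nat.exists_mul_mod_eq_one_of_coprime hcop hl.one_lt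
      have hm1 : q * m ≡ 1 [MOD l] := by
        show q * m % l = 1 % l
        have h1 : 1 % l = 1 := Nat.mod_eq_of_lt hl.one_lt
        rw [h1]; exact hm.2
      refine le_trans ?_ (core (m * N))
      have : ((AA N z q).filter fun a => l ∣ N - q * a) ⊆
          ((AA N z q).filter fun a => a ≡ m * N [MOD l]) := by
        intro a ha
        rw [mem_filter] at ha ⊢
        refine ⟨ha.1, ?_⟩
        have haN : q * a < N := (mem_filter.1 ha.1).2.1
        have h1 : q * a ≡ N [MOD l] := (Nat.modEq_iff_dvd' haN.le).2 ha.2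
        have h2 : m * (q * a) ≡ m * N [MOD l] := h1.mul_left m
        have h3 : m * (q * a) ≡ a [MOD l] := by
          have h4 : q * m * a ≡ 1 * a [MOD l] := hm1.mul_right a
          rw [one_mul] at h4
          have h5 : m * (q * a) = q * m * a := by ring
          rw [h5]; exact h4
        exact h3.symm.trans h2
      exact_mod_cast card_le_card this

open Classical in
theorem bb (μ : ℝ) (hμ : 0 < μ) : ∃ c1 : ℝ, 0 < c1 ∧ ∀ c0 : ℝ, 0 < c0 → c0 ≤ c1 → ∃ N0 : ℕ, ∀ N : ℕ,
    N0 ≤ N → Even N → ∀ z : ℕ, (N : ℝ) ^ (c0 / 2) ≤ z → (z : ℝ) ≤ (N : ℝ) ^ c0 → ∀ q l : ℕ, 1 ≤ q →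
    Rough z q → q.Coprime N → l.Prime → z < l → ((q * l : ℕ) : ℝ) ≤ (N : ℝ) ^ (1 - μ) →
    (((AA N z q).filter fun a => l ∣ a).card : ℝ) ≤ 2 * ((N : ℝ) / ((q : ℝ) * l)) * VN N z ∧
    (((AA N z q).filter fun a => l ∣ N - q * a).card : ℝ) ≤
      2 * ((N : ℝ) / ((q : ℝ) * l)) * VN N z := by
  obtain ⟨c1, hc1, H⟩ := aa_asym 1 μ one_pos hμ
  refine ⟨c1, hc1, fun c0 h0 h1 => ?_⟩
  obtain ⟨N0, H0⟩ := H c0 h0 h1
  refine ⟨N0, fun N hN hE z hz1 hz2 q l hq hqr hqN hl hzl hql => ?_⟩
  have hrl : Rough z l := fun p hp hpl => by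
    rw [(Nat.prime_dvd_prime_iff_eq hp hl).1 hpl]; exact hzl
  have hV : 0 < VN N z := VW_pos hE _ _
  refine bb_core (by positivity) hqN hl fun v => ?_
  have h := H0 N hN hE z hz1 hz2 q l v hq hl.one_le hqr hql (fun p hp hpz hpl =>
    absurd (hrl p hp hpl) (not_lt.2 hpz))
  rw [VW_rough N hrl] at h
  have := (abs_le.1 h).2
  linarith

end Pool.Agent.Lib.XE
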