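import Pool.Agent.Lib.MP_61161c_nt.XE.Vl

/-!
# the harmonic sum over the rough numbers   (module Hr, 35 minutes)

PROOF. If `M ≤ z` the only rough `m ≤ M` is `1` (a rough `m > 1` has a prime factor `> z`). For `M > z`: `∑_{m ≤ M, rough} 1/m ≤ ∏_{z < p ≤ M} (1 - 1/p)⁻¹ = V z / V M ≤ C log M/log z` (`V_ratio`). For the first inequality: Mathlib `EulerProduct`/`Nat.smoothNumbers`, or the library (`grep -rn smooth Pool/Agent/Lib`), or by induction on the set of primes:
for a finite set `S` of primes the sum of `1/m` over the `m ≤ M` all of whose primes lie in `S` is `≤ ∏_{p ∈ S} (1 - 1/p)⁻¹`: insert `p`: `m = p^k m'`, `∑_k p^(-k) = (1 - 1/p)⁻¹`.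
-/

set_option autoImplicit false

open Finset
open Pool.Agent.Lib.GT (Rough pr V)
open Pool.Agent.Lib.MP_45349e_nt.LS (lam)
open Pool.Agent.Lib.PQ (pw)

namespace Pool.Agent.Lib.XE

private noncomputable def hrF : ℕ →* ℝ where
  toFun n := 1 / (n : ℝ)
  map_one' := by norm_num
  map_mul' a b := by
    rw [Nat.cast_mul, one_div_mul_one_div]

private lemma hrF_apply (n : ℕ) : hrF n = 1 / (n : ℝ) := rfl

private lemma hr_mem_pr {z p : ℕ} : p ∈ pr z ↔ p.Prime ∧ p ≤ z := by
  unfold pr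
  rw [Finset.mem_filter, Finset.mem_range]
  constructor
  · rintro ⟨h1, h2⟩
    exact ⟨h2, by omega⟩
  · rintro ⟨h1, h2⟩
    exact ⟨by omega, h1⟩

private lemma hr_pos {p : ℕ} (hp : p.Prime) : 0 < 1 - 1 / (p : ℝ) := by
  have h2 : (2 : ℝ) ≤ p := by exact_mod_cast hp.two_le
  have : 1 / (p : ℝ) ≤ 1 / 2 := one_div_le_one_div_of_le (by norm_num) h2
  linarith

private lemma hr_V_pos (M : ℕ) : 0 < V M := by
  unfold V
  exact Finset.prod_pos fun p hp => hr_pos (hr_mem_pr.mp hp).1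

private lemma hr_split {z M : ℕ} (h : z ≤ M) :
    V M = V z * ∏ p ∈ (pr M).filter (fun p => z < p), (1 - 1 / (p : ℝ)) := by
  unfold V
  have h1 : pr z = (pr M).filter (fun p => ¬ z < p) := by
    ext p
    rw [Finset.mem_filter, hr_mem_pr, hr_mem_pr]
    constructor
    · rintro ⟨a, b⟩
      exact ⟨⟨a, by omega⟩, by omega⟩
    · rintro ⟨⟨a, b⟩, c⟩
      exact ⟨a, by omega⟩
  rw [h1, mul_comm]
  exact (Finset.prod_filter_mul_prod_filter_not (pr M) (fun p => z < p) _).symm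

open Classical in
private lemma hr_sum {z M : ℕ} :
    ∑ m ∈ (Icc 1 M).filter (Rough z), 1 / (m : ℝ) ≤
      ∏ p ∈ (pr M).filter (fun p => z < p), (1 - 1 / (p : ℝ))⁻¹ := by
  obtain ⟨S, hS⟩ : ∃ S : Finset ℕ, S = (pr M).filter (fun p => z < p) := ⟨_, rfl⟩
  have hf : ∀ {p : ℕ}, p.Prime → ‖hrF p‖ < 1 := by
    intro p hp
    have h2 : (1 : ℝ) < p := by exact_mod_cast hp.one_lt
    rw [hrF_apply, Real.norm_eq_abs, abs_of_nonneg (by positivity), div_lt_one (by linarith)]
    exact h2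
  obtain ⟨-, h2⟩ := EulerProduct.summable_and_hasSum_factoredNumbers_prod_filter_prime_geometric hf S
  have hprod : ∏ p ∈ S with p.Prime, (1 - hrF p)⁻¹ = ∏ p ∈ S, (1 - 1 / (p : ℝ))⁻¹ := by
    have : S.filter Nat.Prime = S := by
      rw [Finset.filter_eq_self, hS]
      intro p hp
      rw [Finset.mem_filter, hr_mem_pr] at hp
      exact hp.1.1
    rw [this]
    rfl
  rw [hprod] at h2
  rw [← hS]
  have hmem : ∀ m ∈ (Icc 1 M).filter (Rough z), m ∈ Nat.factoredNumbers S := by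
    intro m hm
    rw [Finset.mem_filter, Finset.mem_Icc] at hm
    obtain ⟨⟨h3, h4⟩, h5⟩ := hm
    rw [Nat.mem_factoredNumbers]
    refine ⟨by omega, fun p hp => ?_⟩
    have hpp := Nat.prime_of_mem_primeFactorsList hp
    have hpd := Nat.dvd_of_mem_primeFactorsList hp
    have hpm := Nat.le_of_dvd (by omega) hpd
    rw [hS, Finset.mem_filter, hr_mem_pr]
    exact ⟨⟨hpp, by omega⟩, h5 p hpp hpd⟩
  have hnn : ∀ m : Nat.factoredNumbers S, 0 ≤ hrF m := fun m => by
    rw [hrF_apply]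
    positivity
  let g : ((Icc 1 M).filter (Rough z) : Finset ℕ) ↪ Nat.factoredNumbers S :=
    ⟨fun m => ⟨m.1, hmem _ m.2⟩, fun a b hab => by
      have := congrArg (fun x : Nat.factoredNumbers S => (x : ℕ)) hab
      exact Subtype.ext this⟩
  have h6 : ∑ m ∈ (Icc 1 M).filter (Rough z), 1 / (m : ℝ) =
      ∑ m ∈ (Finset.univ.map g), hrF (m : ℕ) := by
    rw [Finset.sum_map, ← Finset.sum_coe_sort]
    rfl
  rw [h6]
  exact sum_le_hasSum _ (fun m _ => hnn m) h2

open Classical in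
theorem rough_harm : ∃ C : ℝ, 0 < C ∧ ∀ z M : ℕ, 2 ≤ z →
    ∑ m ∈ (Icc 1 M).filter (Rough z), 1 / (m : ℝ) ≤ 1 + C * Real.log M / Real.log z := by
  obtain ⟨C, hC, h⟩ := V_ratio
  refine ⟨C, hC, fun z M hz => ?_⟩
  have hlz : 0 < Real.log z := Real.log_pos (by exact_mod_cast hz)
  have hlM : 0 ≤ Real.log M := Real.log_natCast_nonneg M
  have hq : 0 ≤ C * Real.log M / Real.log z := by positivity
  rcases le_or_gt M z with hMz | hMz
  · have hsub : (Icc 1 M).filter (Rough z) ⊆ {1} := by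
      intro m hm
      rw [Finset.mem_filter, Finset.mem_Icc] at hm
      obtain ⟨⟨h3, h4⟩, h5⟩ := hm
      rw [Finset.mem_singleton]
      by_contra h1
      have h6 := h5 _ (Nat.minFac_prime h1) (Nat.minFac_dvd m)
      have h7 := Nat.minFac_le (by omega : 0 < m)
      omega
    calc ∑ m ∈ (Icc 1 M).filter (Rough z), 1 / (m : ℝ) ≤ ∑ m ∈ ({1} : Finset ℕ), 1 / (m : ℝ) :=
          Finset.sum_le_sum_of_subset_of_nonneg hsub fun m _ _ => by positivity
      _ = 1 := by norm_num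
      _ ≤ _ := by linarith
  · have h1 := (h z M hz hMz.le).2
    have h2 := hr_sum (z := z) (M := M)
    have h3 := hr_split hMz.le
    have hVM := hr_V_pos M
    have hP : 0 < ∏ p ∈ (pr M).filter (fun p => z < p), (1 - 1 / (p : ℝ)) := by
      refine Finset.prod_pos fun p hp => hr_pos ?_
      rw [Finset.mem_filter, hr_mem_pr] at hp
      exact hp.1.1
    rw [Finset.prod_inv_distrib] at h2
    have h4 : (∏ p ∈ (pr M).filter (fun p => z < p), (1 - 1 / (p : ℝ)))⁻¹ = V z / V M := by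
      rw [eq_div_iff hVM.ne', h3, mul_comm (V z), ← mul_assoc, inv_mul_cancel₀ hP.ne', one_mul]
    have h5 : V z / V M ≤ C * Real.log M / Real.log z := by
      rw [div_le_iff₀ hVM]
      calc V z ≤ C * V M * (Real.log M / Real.log z) := h1
        _ = C * Real.log M / Real.log z * V M := by ring
    linarith [h2.trans (h4.le.trans h5)]

end Pool.Agent.Lib.XE
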