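import Pool.Agent.Lib.MP_61161c_nt.XE.Two
import Pool.Agent.Lib.MP_61161c_nt.XE.Hr

/-!
# very large prime factors   (module Cc, 60 minutes)

PROOF. `c1 = c5` (constants of `two_up`; `log N ≤ N^(c0/2) ≤ z ≤ N^c0` gives `z ≤ pw N c5`), `log z/log N ≤ c0`, `log z ≥ (c0/2) log N`.
(1) `a = l m` with `l` a prime, `q l > N^(1-μ)`: `q a < N` gives `m < N^μ`; `m` is rough, `l > N^(1-μ)/q ≥ N^(4/10)` is `pw N c5`-rough, `q m ≤ N^(1/2+μ) ≤ N^(3/4)`. The map `a ↦ (m, l)`: the count is `≤ ∑_{m ≤ N^μ, rough}` (first bound of `two_up`) `≤ C N/q VN c0 ∑ 1/m`, and `∑ 1/m ≤ 1 + C' μ log N/log z ≤ 1 + 2 C' μ/c0` (`rough_harm`; `log z ≥ (c0/2) log N`). So `≤ C'' (c0 + μ) (N/q) VN`.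
(2) `N - q a = l m`, `l > N^(1-μ)`: `m < N^μ`, `m` rough (it divides `N - q a`), coprime to `q` (a common prime divides `N`), second bound of `two_up` (`(N - q a)/m = l`).
-/

set_option autoImplicit false

open Finset
open Pool.Agent.Lib.GT (Rough pr V)
open Pool.Agent.Lib.MP_45349e_nt.LS (lam)
open Pool.Agent.Lib.PQ (pw)

namespace Pool.Agent.Lib.XE

private theorem Cc_large (c0 : ℝ) (hc0 : 0 < c0) : ∃ N1 : ℕ, ∀ N : ℕ, N1 ≤ N →
    (2 : ℝ) ≤ (N : ℝ) ^ c0 ∧ Real.log N ≤ (N : ℝ) ^ c0 := by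
  have h1 : ∀ᶠ x : ℝ in Filter.atTop, Real.log x ≤ 1 / 2 * x ^ c0 := by
    have h2 := (isLittleO_log_rpow_atTop hc0).bound (show (0 : ℝ) < 1 / 2 by norm_num)
    filter_upwards [h2, Filter.eventually_ge_atTop (1 : ℝ)] with x hx hx1
    rw [Real.norm_eq_abs, Real.norm_eq_abs, abs_of_nonneg (Real.log_nonneg hx1),
      abs_of_nonneg (Real.rpow_nonneg (by linarith) _)] at hx
    exact hx
  have h3 : ∀ᶠ x : ℝ in Filter.atTop, 2 ≤ x ^ c0 := (tendsto_rpow_atTop hc0).eventually_ge_atTop 2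
  have h4 : ∀ᶠ N : ℕ in Filter.atTop, Real.log (N : ℝ) ≤ 1 / 2 * (N : ℝ) ^ c0 ∧ 2 ≤ (N : ℝ) ^ c0 :=
    tendsto_natCast_atTop_atTop.eventually (h1.and h3)
  obtain ⟨N1, hN1⟩ := Filter.eventually_atTop.1 h4
  refine ⟨N1, fun N hN => ?_⟩
  obtain ⟨h5, h6⟩ := hN1 N hN
  exact ⟨h6, by linarith⟩

private theorem Cc_sum {N z q M : ℕ} {C C' c0 μ : ℝ} (hC : 0 < C) (hC' : 0 < C') (hc0 : 0 < c0)
    (hμ : 0 < μ) (hN : 3 ≤ N) (hz : 2 ≤ z) (hV : 0 < VN N z) (hlz : Real.log z ≤ c0 * Real.log N)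
    (hlM : Real.log M ≤ μ * Real.log N)
    (hh : ∑ m ∈ (Icc 1 M).filter (fun m => Rough z m), 1 / (m : ℝ) ≤
      1 + C' * Real.log M / Real.log z)
    (S : Finset ℕ) (hS : S ⊆ (Icc 1 M).filter (fun m => Rough z m)) (f : ℕ → ℝ)
    (hf : ∀ m ∈ S, f m ≤ C * ((N : ℝ) / ((q : ℝ) * m)) * VN N z * (Real.log z / Real.log N)) :
    ∑ m ∈ S, f m ≤ C * (1 + C') * (c0 + μ) * ((N : ℝ) / q) * VN N z := by
  have hlN : 0 < Real.log N := Real.log_pos (by exact_mod_cast (by omega : 1 < N))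
  have hlzp : 0 < Real.log z := Real.log_pos (by exact_mod_cast (by omega : 1 < z))
  have hNq : 0 ≤ (N : ℝ) / q := by positivity
  calc ∑ m ∈ S, f m ≤ ∑ m ∈ S, C * ((N : ℝ) / ((q : ℝ) * m)) * VN N z * (Real.log z / Real.log N) :=
        sum_le_sum hf
    _ = (C * ((N : ℝ) / q) * VN N z * (Real.log z / Real.log N)) * ∑ m ∈ S, 1 / (m : ℝ) := by
        rw [mul_sum]
        refine sum_congr rfl fun m _ => ?_
        rw [← div_div]
        ring
    _ ≤ (C * ((N : ℝ) / q) * VN N z * (Real.log z / Real.log N)) *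
        (1 + C' * Real.log M / Real.log z) := by
        refine mul_le_mul_of_nonneg_left ?_ (by positivity)
        exact (sum_le_sum_of_subset_of_nonneg hS fun m _ _ => by positivity).trans hh
    _ = (C * ((N : ℝ) / q) * VN N z) * ((Real.log z + C' * Real.log M) / Real.log N) := by
        field_simp
    _ ≤ (C * ((N : ℝ) / q) * VN N z) * ((1 + C') * (c0 + μ)) := by
        refine mul_le_mul_of_nonneg_left ?_ (by positivity)
        rw [div_le_iff₀ hlN]
        have h1 : C' * Real.log M ≤ C' * (μ * Real.log N) := mul_le_mul_of_nonneg_left hlM hC'.le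
        have h2 : 0 ≤ C' * c0 * Real.log N := by positivity
        have h3 : 0 ≤ μ * Real.log N := by positivity
        nlinarith
    _ = C * (1 + C') * (c0 + μ) * ((N : ℝ) / q) * VN N z := by ring

open Classical in
theorem cc : ∃ C : ℝ, 0 < C ∧ ∀ μ : ℝ, 0 < μ → μ ≤ 1 / 10 → ∃ c1 : ℝ, 0 < c1 ∧ ∀ c0 : ℝ, 0 < c0 →
    c0 ≤ c1 → ∃ N0 : ℕ, ∀ N : ℕ, N0 ≤ N → Even N → ∀ z : ℕ, (N : ℝ) ^ (c0 / 2) ≤ z →
    (z : ℝ) ≤ (N : ℝ) ^ c0 → ∀ q : ℕ, 1 ≤ q → (q : ℝ) ≤ (N : ℝ) ^ (1 / 2 : ℝ) →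
    Rough z q → q.Coprime N →
    (((AA N z q).filter fun a => ∃ l : ℕ, l.Prime ∧
      (N : ℝ) ^ (1 - μ) < ((q * l : ℕ) : ℝ) ∧ l ∣ a).card : ℝ) ≤
      C * (c0 + μ) * ((N : ℝ) / q) * VN N z ∧
    (((AA N z q).filter fun a => ∃ l : ℕ, l.Prime ∧
      (N : ℝ) ^ (1 - μ) < (l : ℝ) ∧ l ∣ N - q * a).card : ℝ) ≤
      C * (c0 + μ) * ((N : ℝ) / q) * VN N z := by
  obtain ⟨C, c5, hC, hc5, hc5', N2, h2up⟩ := two_up
  obtain ⟨C', hC', hrh⟩ := rough_harm
  refine ⟨C * (1 + C'), by positivity, fun μ hμ hμ' => ⟨c5, hc5, fun c0 hc0 hc0' => ?_⟩⟩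
  obtain ⟨N1, hN1⟩ := Cc_large (c0 / 2) (by positivity)
  refine ⟨max N2 (max N1 3), fun N hN hNe z hzl hzu q hq1 hq2 hqr hqc => ?_⟩
  have hN2 : N2 ≤ N := (le_max_left _ _).trans hN
  have hN1' : N1 ≤ N := ((le_max_left _ _).trans (le_max_right _ _)).trans hN
  have hN3 : 3 ≤ N := ((le_max_right _ _).trans (le_max_right _ _)).trans hN
  obtain ⟨hz2', hlogz'⟩ := hN1 N hN1'
  have hz2 : 2 ≤ z := by exact_mod_cast hz2'.trans hzl
  have hlogz : Real.log N ≤ z := hlogz'.trans hzl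
  have hNr : (1 : ℝ) ≤ (N : ℝ) := by exact_mod_cast (by omega : 1 ≤ N)
  have hNpos : (0 : ℝ) < (N : ℝ) := by linarith
  have hzle : z ≤ pw N c5 := by
    unfold pw
    exact Nat.le_floor (hzu.trans (Real.rpow_le_rpow_of_exponent_le hNr hc0'))
  have hV : 0 < VN N z := VW_pos hNe _ _
  have hlz : Real.log z ≤ c0 * Real.log N := by
    rw [← Real.log_rpow hNpos]
    exact Real.log_le_log (by exact_mod_cast (by omega : 0 < z)) hzu
  have hM1 : 1 ≤ pw N μ := by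
    unfold pw
    exact Nat.le_floor (by rw [Nat.cast_one]; exact Real.one_le_rpow hNr hμ.le)
  have hMle : ((pw N μ : ℕ) : ℝ) ≤ (N : ℝ) ^ μ := by
    unfold pw
    exact Nat.floor_le (by positivity)
  have hlM : Real.log (pw N μ) ≤ μ * Real.log N := by
    rw [← Real.log_rpow hNpos]
    exact Real.log_le_log (by exact_mod_cast hM1) hMle
  have hh := hrh z (pw N μ) hz2
  have hy : ((pw N c5 : ℕ) : ℝ) ≤ (N : ℝ) ^ (1 / 100 : ℝ) := by
    unfold pw
    exact (Nat.floor_le (by positivity)).trans (Real.rpow_le_rpow_of_exponent_le hNr hc5')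
  -- large primes are rough
  have hlr : ∀ l : ℕ, l.Prime → (N : ℝ) ^ (1 / 100 : ℝ) < (l : ℝ) → Rough (pw N c5) l := by
    intro l hl hl2 p hp hpl
    rw [(Nat.prime_dvd_prime_iff_eq hp hl).1 hpl]
    exact_mod_cast hy.trans_lt hl2
  have hmul : (N : ℝ) ^ (1 - μ) * (N : ℝ) ^ μ = N := by
    rw [← Real.rpow_add hNpos, sub_add_cancel, Real.rpow_one]
  have hqm : ∀ m : ℕ, m ≤ pw N μ → ((q * m : ℕ) : ℝ) ≤ (N : ℝ) ^ (3 / 4 : ℝ) := by
    intro m hm
    have h1 : (m : ℝ) ≤ (N : ℝ) ^ μ := le_trans (by exact_mod_cast hm) hMle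
    push_cast
    calc (q : ℝ) * m ≤ (N : ℝ) ^ (1 / 2 : ℝ) * (N : ℝ) ^ μ :=
          mul_le_mul hq2 h1 (by positivity) (by positivity)
      _ = (N : ℝ) ^ (1 / 2 + μ) := by rw [Real.rpow_add hNpos]
      _ ≤ (N : ℝ) ^ (3 / 4 : ℝ) := Real.rpow_le_rpow_of_exponent_le hNr (by linarith)
  constructor
  · set S := (Icc 1 (pw N μ)).filter (fun m => Rough z m) with hS
    set F : ℕ → Finset ℕ := fun m => (Icc 1 N).filter fun l => q * m * l < N ∧
      Rough (pw N c5) l ∧ Rough z (N - q * m * l) with hF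
    have hsub : ((AA N z q).filter fun a => ∃ l : ℕ, l.Prime ∧
        (N : ℝ) ^ (1 - μ) < ((q * l : ℕ) : ℝ) ∧ l ∣ a) ⊆
        S.biUnion (fun m => (F m).image (fun l => m * l)) := by
      intro a ha
      rw [mem_filter] at ha
      obtain ⟨ha, l, hl, hl2, m, rfl⟩ := ha
      unfold AA at ha
      rw [mem_filter, mem_Icc] at ha
      obtain ⟨⟨ha1, ha2⟩, ha3, ha4, ha5⟩ := ha
      have hm0 : 0 < m := Nat.pos_of_ne_zero (by rintro rfl; simp at ha1)
      have hml : ((q * l : ℕ) : ℝ) * m < N := by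
        have : q * l * m < N := by rw [mul_assoc]; exact ha3
        exact_mod_cast this
      have hmM : m ≤ pw N μ := by
        unfold pw
        refine Nat.le_floor ?_
        by_contra hcon
        push Not at hcon
        have h1 : (N : ℝ) ^ (1 - μ) * (N : ℝ) ^ μ < ((q * l : ℕ) : ℝ) * m :=
          mul_lt_mul'' hl2 hcon (by positivity) (by positivity)
        linarith
      rw [mem_biUnion]
      refine ⟨m, ?_, ?_⟩
      · rw [hS, mem_filter, mem_Icc]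
        exact ⟨⟨hm0, hmM⟩, fun p hp hpm => ha4 p hp (Dvd.dvd.mul_left hpm l)⟩
      · rw [mem_image]
        refine ⟨l, ?_, mul_comm m l⟩
        have e : q * m * l = q * (l * m) := by ring
        rw [hF, mem_filter, mem_Icc, e]
        refine ⟨⟨hl.pos, ?_⟩, ha3, ?_, ha5⟩
        · exact (Nat.le_mul_of_pos_right l hm0).trans ha2
        · refine hlr l hl ?_
          by_contra hcon
          push Not at hcon
          have h1 : ((q * l : ℕ) : ℝ) ≤ (N : ℝ) ^ (1 / 2 : ℝ) * (N : ℝ) ^ (1 / 100 : ℝ) := by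
            push_cast
            exact mul_le_mul hq2 hcon (by positivity) (by positivity)
          rw [← Real.rpow_add hNpos] at h1
          have h2 : (N : ℝ) ^ ((1 / 2 : ℝ) + 1 / 100) ≤ (N : ℝ) ^ (1 - μ) :=
            Real.rpow_le_rpow_of_exponent_le hNr (by linarith)
          linarith
    have hc : (((AA N z q).filter fun a => ∃ l : ℕ, l.Prime ∧
        (N : ℝ) ^ (1 - μ) < ((q * l : ℕ) : ℝ) ∧ l ∣ a).card : ℝ) ≤ ∑ m ∈ S, ((F m).card : ℝ) := by
      have h1 := (card_le_card hsub).trans card_biUnion_le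
      have h2 : ∑ m ∈ S, ((F m).image (fun l => m * l)).card ≤ ∑ m ∈ S, (F m).card :=
        sum_le_sum fun m _ => card_image_le
      exact_mod_cast h1.trans h2
    refine hc.trans (Cc_sum hC hC' hc0 hμ hN3 hz2 hV hlz hlM hh S (le_refl _) _ fun m hm => ?_)
    rw [hS, mem_filter, mem_Icc] at hm
    exact (h2up N hN2 hNe z hlogz hzle q m hq1 hm.1.1 hqr hm.2 (hqm m hm.1.2)).1
  · set S := ((Icc 1 (pw N μ)).filter (fun m => Rough z m)).filter (fun m => m.Coprime q)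
      with hS
    set F : ℕ → Finset ℕ := fun m => (AA N z q).filter fun a => m ∣ N - q * a ∧
      Rough (pw N c5) ((N - q * a) / m) with hF
    have hsub : ((AA N z q).filter fun a => ∃ l : ℕ, l.Prime ∧
        (N : ℝ) ^ (1 - μ) < (l : ℝ) ∧ l ∣ N - q * a) ⊆ S.biUnion F := by
      intro a ha
      rw [mem_filter] at ha
      obtain ⟨ha0, l, hl, hl2, m, hlm⟩ := ha
      have ha := ha0
      unfold AA at ha
      rw [mem_filter, mem_Icc] at ha
      obtain ⟨⟨ha1, ha2⟩, ha3, ha4, ha5⟩ := ha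
      have hb : 0 < N - q * a := Nat.sub_pos_of_lt ha3
      have hm0 : 0 < m := Nat.pos_of_ne_zero (by rintro rfl; simp at hlm; omega)
      have hmM : m ≤ pw N μ := by
        unfold pw
        refine Nat.le_floor ?_
        by_contra hcon
        push Not at hcon
        have h1 : (N : ℝ) ^ (1 - μ) * (N : ℝ) ^ μ < (l : ℝ) * m :=
          mul_lt_mul'' hl2 hcon (by positivity) (by positivity)
        have h2 : (l : ℝ) * m ≤ N := by
          have : l * m ≤ N := by rw [← hlm]; exact Nat.sub_le _ _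
          exact_mod_cast this
        linarith
      have hmd : m ∣ N - q * a := ⟨l, by rw [hlm]; ring⟩
      rw [mem_biUnion]
      refine ⟨m, ?_, ?_⟩
      · rw [hS, mem_filter, mem_filter, mem_Icc]
        refine ⟨⟨⟨hm0, hmM⟩, fun p hp hpm => ha5 p hp (hpm.trans hmd)⟩, ?_⟩
        refine Nat.Coprime.symm (Nat.Coprime.coprime_dvd_right hmd ?_)
        refine Nat.eq_one_of_dvd_coprimes hqc (Nat.gcd_dvd_left _ _) ?_
        have h1 : N = (N - q * a) + q * a := (Nat.sub_add_cancel ha3.le).symm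
        rw [h1, Nat.add_sub_cancel]
        exact dvd_add (Nat.gcd_dvd_right _ _) ((Nat.gcd_dvd_left _ _).trans (dvd_mul_right q a))
      · rw [hF, mem_filter]
        refine ⟨ha0, hmd, ?_⟩
        rw [hlm, Nat.mul_div_cancel _ hm0]
        refine hlr l hl (lt_of_le_of_lt ?_ hl2)
        exact Real.rpow_le_rpow_of_exponent_le hNr (by linarith)
    have hc : (((AA N z q).filter fun a => ∃ l : ℕ, l.Prime ∧
        (N : ℝ) ^ (1 - μ) < (l : ℝ) ∧ l ∣ N - q * a).card : ℝ) ≤ ∑ m ∈ S, ((F m).card : ℝ) := by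
      exact_mod_cast (card_le_card hsub).trans card_biUnion_le
    refine hc.trans (Cc_sum hC hC' hc0 hμ hN3 hz2 hV hlz hlM hh S (filter_subset _ _) _
      fun m hm => ?_)
    rw [hS, mem_filter, mem_filter, mem_Icc] at hm
    exact (h2up N hN2 hNe z hlogz hzle q m hq1 hm.1.1.1 hqr hm.1.2 (hqm m hm.1.1.2)).2 hm.2

end Pool.Agent.Lib.XE
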