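import Pool.Agent.Lib.MP_61161c_nt.XE.P6a
import Pool.Agent.Lib.MP_61161c_nt.XE.Bb
import Pool.Agent.Lib.MP_61161c_nt.XE.Cc

/-!
# the character and the Liouville function agree on most matched numbers   (module Jg, 60 minutes)

PROOF. `q = 1` in `bb μ` and `cc μ`. If `a ∈ AA N z 1` is in the set then some prime `l` divides `a` or `N - a` with `χ l ≠ -1` (`lam_eq_chi`), `l > z`. `χ l = 1`, `l ≤ pw N (1-μ)`: `bb`: `≤ 4 (N/l) VN`, sum `≤ 4 δ N VN`. `l > pw N (1-μ)` (so `l > N^(1-μ)`): `cc`: `≤ 2 C (c0 + μ) N VN`. `χ l = 0`: `l ∣ G`, at most `log N/log 2` such primes, all `> z`: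
`l ≤ N^(1-μ)`: `bb`: `≤ 4 (N/l) VN ≤ 4 (N/z) VN`, sum `≤ 8 log N/z N VN ≤ c0 N VN` for `N` large. (`1 - μ`: `(N : ℝ) ^ (1 - μ) < l` iff `pw N (1 - μ) < l`.)
-/

set_option autoImplicit false

open Finset
open Pool.Agent.Lib.GT (Rough pr V)
open Pool.Agent.Lib.MP_45349e_nt.LS (lam)
open Pool.Agent.Lib.PQ (pw)

namespace Pool.Agent.Lib.XE

private theorem jg_card {G N : ℕ} (hG : G ≠ 0) (hGN : G ≤ N) :
    (G.primeFactors.card : ℝ) ≤ 2 * Real.log N := by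
  have h1 : 2 ^ G.primeFactors.card ≤ G := by
    calc 2 ^ G.primeFactors.card ≤ ∏ p ∈ G.primeFactors, p :=
          Finset.pow_card_le_prod _ _ _ (fun p hp => (Nat.prime_of_mem_primeFactors hp).two_le)
      _ ≤ G := Nat.le_of_dvd (Nat.pos_of_ne_zero hG) (Nat.prod_primeFactors_dvd G)
  have h2 : (2 : ℝ) ^ G.primeFactors.card ≤ N := by exact_mod_cast h1.trans hGN
  have h3 := Real.log_le_log (by positivity) h2
  rw [Real.log_pow] at h3
  have h4 : (1 : ℝ) / 2 ≤ Real.log 2 := by linarith [Real.log_two_gt_d9]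
  have h5 : (0 : ℝ) ≤ G.primeFactors.card := Nat.cast_nonneg _
  nlinarith

open Classical in
private theorem jg_un {N z : ℕ} {V0 : ℝ} (S : Finset ℕ)
    (hb : ∀ l ∈ S, (((AA N z 1).filter fun a => l ∣ a).card : ℝ) ≤
        2 * ((N : ℝ) / (((1 : ℕ) : ℝ) * l)) * V0 ∧
      (((AA N z 1).filter fun a => l ∣ N - 1 * a).card : ℝ) ≤
        2 * ((N : ℝ) / (((1 : ℕ) : ℝ) * l)) * V0) :
    (((AA N z 1).filter fun a => ∃ l ∈ S, l ∣ a ∨ l ∣ N - 1 * a).card : ℝ) ≤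
      4 * (∑ l ∈ S, 1 / (l : ℝ)) * N * V0 := by
  have h1 : ((AA N z 1).filter fun a => ∃ l ∈ S, l ∣ a ∨ l ∣ N - 1 * a) ⊆
      S.biUnion (fun l => ((AA N z 1).filter fun a => l ∣ a) ∪
        ((AA N z 1).filter fun a => l ∣ N - 1 * a)) := by
    intro a ha
    obtain ⟨h2, l, h3, h4⟩ := Finset.mem_filter.mp ha
    rw [Finset.mem_biUnion]
    refine ⟨l, h3, ?_⟩
    rw [Finset.mem_union, Finset.mem_filter, Finset.mem_filter]
    rcases h4 with h4 | h4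
    · exact Or.inl ⟨h2, h4⟩
    · exact Or.inr ⟨h2, h4⟩
  have h2 := (Finset.card_le_card h1).trans Finset.card_biUnion_le
  have h3 : (((AA N z 1).filter fun a => ∃ l ∈ S, l ∣ a ∨ l ∣ N - 1 * a).card : ℝ) ≤
      ∑ l ∈ S, ((((AA N z 1).filter fun a => l ∣ a) ∪
        ((AA N z 1).filter fun a => l ∣ N - 1 * a)).card : ℝ) := by exact_mod_cast h2
  refine h3.trans ?_
  rw [Finset.mul_sum, Finset.sum_mul, Finset.sum_mul]
  refine Finset.sum_le_sum fun l hl => ?_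
  obtain ⟨h4, h5⟩ := hb l hl
  have h6 : ((((AA N z 1).filter fun a => l ∣ a) ∪
        ((AA N z 1).filter fun a => l ∣ N - 1 * a)).card : ℝ) ≤
      (((AA N z 1).filter fun a => l ∣ a).card : ℝ) +
        (((AA N z 1).filter fun a => l ∣ N - 1 * a).card : ℝ) := by
    exact_mod_cast Finset.card_union_le _ _
  have h7 : 2 * ((N : ℝ) / (((1 : ℕ) : ℝ) * l)) * V0 = 2 * (1 / (l : ℝ)) * N * V0 := by
    rw [Nat.cast_one, one_mul]; ring
  rw [h7] at h4 h5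
  linarith

private theorem jg_log (c0 : ℝ) (hc0 : 0 < c0) : ∃ N0 : ℕ, ∀ N : ℕ, N0 ≤ N →
    8 * Real.log N ≤ c0 * (N : ℝ) ^ (c0 / 2) ∧ (2 : ℝ) ≤ (N : ℝ) ^ (c0 / 2) := by
  have h1 := (isLittleO_log_rpow_atTop (show 0 < c0 / 2 by positivity)).def
    (show 0 < c0 / 16 by positivity)
  have h2 := (tendsto_rpow_atTop (show 0 < c0 / 2 by positivity)).eventually_ge_atTop 2
  have h3 := tendsto_natCast_atTop_atTop.eventually (h1.and (h2.and (Filter.eventually_ge_atTop (1 : ℝ))))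
  obtain ⟨N0, hN0⟩ := Filter.eventually_atTop.mp h3
  refine ⟨N0, fun N hN => ?_⟩
  obtain ⟨h4, h5, h6⟩ := hN0 N hN
  rw [Real.norm_of_nonneg (Real.log_nonneg h6), Real.norm_of_nonneg (by positivity)] at h4
  exact ⟨by nlinarith, h5⟩

open Classical in
theorem jg : ∃ C : ℝ, 0 < C ∧ ∀ μ : ℝ, 0 < μ → μ ≤ 1 / 10 → ∃ c1 : ℝ, 0 < c1 ∧ ∀ c0 : ℝ, 0 < c0 →
    c0 ≤ c1 → ∃ N0 : ℕ, ∀ N : ℕ, N0 ≤ N → Even N → ∀ z : ℕ, (N : ℝ) ^ (c0 / 2) ≤ z →
    (z : ℝ) ≤ (N : ℝ) ^ c0 → ∀ (G : ℕ) [NeZero G], G ≤ N →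
    ∀ χ : DirichletCharacter ℂ G, χ ^ 2 = 1 → ∀ δ : ℝ,
    ∑ l ∈ (range (pw N (1 - μ) + 1)).filter (fun l => l.Prime ∧ z < l ∧ χ (l : ZMod G) = 1),
      1 / (l : ℝ) ≤ δ →
    (((AA N z 1).filter fun a : ℕ => ¬ (χ (a : ZMod G) = (lam a : ℂ) ∧
      χ ((N - a : ℕ) : ZMod G) = (lam (N - a) : ℂ))).card : ℝ) ≤
      C * (δ + μ + c0) * N * VN N z := by
  obtain ⟨C, hC, hcc⟩ := cc
  refine ⟨5 + 2 * C, by positivity, fun μ hμ hμ1 => ?_⟩
  obtain ⟨c1, hc1, hcc1⟩ := hcc μ hμ hμ1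
  obtain ⟨c2, hc2, hbb⟩ := bb μ hμ
  refine ⟨min c1 c2, lt_min hc1 hc2, fun c0 hc0 hc01 => ?_⟩
  obtain ⟨N1, hN1⟩ := hcc1 c0 hc0 (hc01.trans (min_le_left _ _))
  obtain ⟨N2, hN2⟩ := hbb c0 hc0 (hc01.trans (min_le_right _ _))
  obtain ⟨N3, hN3⟩ := jg_log c0 hc0
  refine ⟨max (max N1 N2) (max N3 1), fun N hN hev z hzl hzu G _ hGN χ hχ δ hδ => ?_⟩
  have hNa : N1 ≤ N := ((le_max_left _ _).trans (le_max_left _ _)).trans hN
  have hNb : N2 ≤ N := ((le_max_right _ _).trans (le_max_left _ _)).trans hN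
  have hNc : N3 ≤ N := ((le_max_left _ _).trans (le_max_right _ _)).trans hN
  have hNd : 1 ≤ N := ((le_max_right _ _).trans (le_max_right _ _)).trans hN
  obtain ⟨hz1', hz2'⟩ := hN3 N hNc
  have hz1 : 8 * Real.log N ≤ c0 * (z : ℝ) := hz1'.trans (mul_le_mul_of_nonneg_left hzl hc0.le)
  have hz2 : 1 ≤ z := by
    have : (1 : ℝ) ≤ z := by linarith
    exact_mod_cast this
  have hNr : (1 : ℝ) ≤ N := by exact_mod_cast hNd
  have hR1 : Rough z 1 := fun p hp hp1 => absurd (Nat.dvd_one.mp hp1) hp.one_lt.ne'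
  obtain ⟨hA1, hA2⟩ := hN1 N hNa hev z hzl hzu 1 le_rfl
    (by rw [Nat.cast_one]; exact Real.one_le_rpow hNr (by norm_num)) hR1 (Nat.coprime_one_left N)
  have hV : 0 < VN N z := VW_pos hev _ _
  set S1 := (range (pw N (1 - μ) + 1)).filter (fun l => l.Prime ∧ z < l ∧ χ (l : ZMod G) = 1)
    with hS1
  set S0 := G.primeFactors.filter (fun l => z < l ∧ l ≤ pw N (1 - μ)) with hS0
  have hle : ∀ l : ℕ, l ≤ pw N (1 - μ) ↔ (l : ℝ) ≤ (N : ℝ) ^ (1 - μ) := fun l =>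
    Nat.le_floor_iff (by positivity)
  have hT1 := jg_un (N := N) (z := z) (V0 := VN N z) S1 (fun l hl => by
    obtain ⟨h1, h2, h3, h4⟩ := Finset.mem_filter.mp hl
    rw [Finset.mem_range] at h1
    exact hN2 N hNb hev z hzl hzu 1 l le_rfl hR1 (Nat.coprime_one_left N) h2 h3
      (by rw [one_mul]; exact (hle l).mp (by omega)))
  have hT0 := jg_un (N := N) (z := z) (V0 := VN N z) S0 (fun l hl => by
    obtain ⟨h1, h2, h3⟩ := Finset.mem_filter.mp hl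
    exact hN2 N hNb hev z hzl hzu 1 l le_rfl hR1 (Nat.coprime_one_left N)
      (Nat.prime_of_mem_primeFactors h1) h2 (by rw [one_mul]; exact (hle l).mp h3))
  have hzr : (1 : ℝ) ≤ z := by exact_mod_cast hz2
  have hS0s : ∑ l ∈ S0, 1 / (l : ℝ) ≤ c0 / 4 := by
    calc ∑ l ∈ S0, 1 / (l : ℝ) ≤ ∑ _l ∈ S0, 1 / (z : ℝ) := by
          refine Finset.sum_le_sum fun l hl => ?_
          have h1 := (Finset.mem_filter.mp hl).2.1
          exact one_div_le_one_div_of_le (by linarith) (by exact_mod_cast h1.le)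
      _ = (S0.card : ℝ) * (1 / (z : ℝ)) := by rw [Finset.sum_const, nsmul_eq_mul]
      _ ≤ (2 * Real.log N) * (1 / (z : ℝ)) := by
          refine mul_le_mul_of_nonneg_right ?_ (by positivity)
          refine le_trans ?_ (jg_card (NeZero.ne G) hGN)
          exact_mod_cast Finset.card_filter_le _ _
      _ ≤ c0 / 4 := by
          rw [mul_one_div, div_le_iff₀ (by linarith)]
          linarith
  have hsub : ((AA N z 1).filter fun a : ℕ => ¬ (χ (a : ZMod G) = (lam a : ℂ) ∧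
      χ ((N - a : ℕ) : ZMod G) = (lam (N - a) : ℂ))) ⊆
      (((AA N z 1).filter fun a => ∃ l ∈ S1, l ∣ a ∨ l ∣ N - 1 * a) ∪
        ((AA N z 1).filter fun a => ∃ l ∈ S0, l ∣ a ∨ l ∣ N - 1 * a)) ∪
      (((AA N z 1).filter fun a => ∃ l : ℕ, l.Prime ∧
          (N : ℝ) ^ (1 - μ) < ((1 * l : ℕ) : ℝ) ∧ l ∣ a) ∪
        ((AA N z 1).filter fun a => ∃ l : ℕ, l.Prime ∧
          (N : ℝ) ^ (1 - μ) < (l : ℝ) ∧ l ∣ N - 1 * a)) := by
    intro a ha
    obtain ⟨h1, h2⟩ := Finset.mem_filter.mp ha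
    have h1' := h1
    unfold AA at h1'
    obtain ⟨h3, h4, h5, h6⟩ := Finset.mem_filter.mp h1'
    rw [Finset.mem_Icc] at h3
    have h7 : ∃ l : ℕ, l.Prime ∧ (l ∣ a ∨ l ∣ N - 1 * a) ∧ χ (l : ZMod G) ≠ -1 := by
      by_contra h8
      have h9 : ∀ l : ℕ, l.Prime → (l ∣ a ∨ l ∣ N - 1 * a) → χ (l : ZMod G) = -1 := by
        intro l hl hla
        by_contra h10
        exact h8 ⟨l, hl, hla, h10⟩
      refine h2 ⟨lam_eq_chi χ a (by omega) (fun l hl hla => h9 l hl (Or.inl hla)), ?_⟩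
      refine lam_eq_chi χ (N - a) (by omega) (fun l hl hla => h9 l hl (Or.inr ?_))
      rw [one_mul]; exact hla
    obtain ⟨l, hl, hla, hlχ⟩ := h7
    have hzl : z < l := by
      rcases hla with h | h
      · exact h5 l hl h
      · exact h6 l hl h
    simp only [Finset.mem_union, Finset.mem_filter]
    by_cases hlN : l ≤ pw N (1 - μ)
    · left
      rcases chi_val χ hχ (l : ZMod G) with h8 | h8 | h8
      · right
        refine ⟨h1, l, ?_, hla⟩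
        rw [hS0, Finset.mem_filter, Nat.mem_primeFactors]
        refine ⟨⟨hl, ?_, NeZero.ne G⟩, hzl, hlN⟩
        by_contra hlG
        have h9 : IsUnit (l : ZMod G) := by
          rw [ZMod.isUnit_iff_coprime]
          exact (Nat.Prime.coprime_iff_not_dvd hl).mpr hlG
        have h10 : IsUnit (χ (l : ZMod G)) := h9.map χ
        rw [h8] at h10
        exact not_isUnit_zero h10
      · left
        refine ⟨h1, l, ?_, hla⟩
        rw [hS1, Finset.mem_filter, Finset.mem_range]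
        exact ⟨by omega, hl, hzl, h8⟩
      · exact absurd h8 hlχ
    · right
      have h8 : (N : ℝ) ^ (1 - μ) < (l : ℝ) := by
        rw [hle l] at hlN
        exact not_le.mp hlN
      rcases hla with h | h
      · left
        exact ⟨h1, l, hl, by rw [one_mul]; exact h8, h⟩
      · right
        exact ⟨h1, l, hl, h8, h⟩
  have hcard := (Finset.card_le_card hsub).trans ((Finset.card_union_le _ _).trans
    (Nat.add_le_add (Finset.card_union_le _ _) (Finset.card_union_le _ _)))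
  have hcard' : (((AA N z 1).filter fun a : ℕ => ¬ (χ (a : ZMod G) = (lam a : ℂ) ∧
      χ ((N - a : ℕ) : ZMod G) = (lam (N - a) : ℂ))).card : ℝ) ≤
      ((((AA N z 1).filter fun a => ∃ l ∈ S1, l ∣ a ∨ l ∣ N - 1 * a).card : ℝ) +
        (((AA N z 1).filter fun a => ∃ l ∈ S0, l ∣ a ∨ l ∣ N - 1 * a).card : ℝ)) +
      ((((AA N z 1).filter fun a => ∃ l : ℕ, l.Prime ∧
          (N : ℝ) ^ (1 - μ) < ((1 * l : ℕ) : ℝ) ∧ l ∣ a).card : ℝ) +
        (((AA N z 1).filter fun a => ∃ l : ℕ, l.Prime ∧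
          (N : ℝ) ^ (1 - μ) < (l : ℝ) ∧ l ∣ N - 1 * a).card : ℝ)) := by
    exact_mod_cast hcard
  refine hcard'.trans ?_
  rw [Nat.cast_one, div_one] at hA1 hA2
  have hδ0 : 0 ≤ ∑ l ∈ S1, 1 / (l : ℝ) := Finset.sum_nonneg fun l _ => by positivity
  have hW : 0 ≤ (N : ℝ) * VN N z := by positivity
  have e1 : 4 * (∑ l ∈ S1, 1 / (l : ℝ)) * N * VN N z ≤ 4 * δ * (N * VN N z) := by
    calc 4 * (∑ l ∈ S1, 1 / (l : ℝ)) * N * VN N z
        = 4 * (∑ l ∈ S1, 1 / (l : ℝ)) * (N * VN N z) := by ring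
      _ ≤ 4 * δ * (N * VN N z) := mul_le_mul_of_nonneg_right (by linarith) hW
  have e0 : 4 * (∑ l ∈ S0, 1 / (l : ℝ)) * N * VN N z ≤ c0 * (N * VN N z) := by
    calc 4 * (∑ l ∈ S0, 1 / (l : ℝ)) * N * VN N z
        = 4 * (∑ l ∈ S0, 1 / (l : ℝ)) * (N * VN N z) := by ring
      _ ≤ c0 * (N * VN N z) := mul_le_mul_of_nonneg_right (by linarith) hW
  have e2 : C * (c0 + μ) * (N : ℝ) * VN N z = C * (c0 + μ) * (N * VN N z) := by ring
  rw [e2] at hA1 hA2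
  have e3 : (5 + 2 * C) * (δ + μ + c0) * N * VN N z =
      4 * δ * (N * VN N z) + c0 * (N * VN N z) + 2 * (C * (c0 + μ) * (N * VN N z)) +
        (δ + 5 * μ + 4 * c0 + 2 * C * δ) * (N * VN N z) := by ring
  have hδ1 : 0 ≤ δ := hδ0.trans hδ
  have e4 : 0 ≤ (δ + 5 * μ + 4 * c0 + 2 * C * δ) * (N * VN N z) := by positivity
  rw [e3]
  linarith

end Pool.Agent.Lib.XE
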