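import Pool.Agent.Lib.MP_61161c_nt.XE.P6b
import Pool.Agent.Lib.MP_61161c_nt.XE.Jg
import Pool.Agent.Lib.MP_61161c_nt.XE.Jc
import Pool.Agent.Lib.MP_61161c_nt.XE.Jac
import Pool.Agent.Lib.MP_61161c_nt.XE.Cond
import Pool.Agent.Lib.MP_7b7e48_nt.SPV.D2

/-!
# the end of THEOREM EX   (module Xend, 90 minutes)

PROOF. `C` the constant of `jg`; `μ0 ≤` the number of `p6`, `2 C μ0 ≤ 1/200`; `δ` `≤` the `δ` of `p6` divided by `2`, `(C + 1) δ ≤ 1/200`; `c1` with `C c1 ≤ 1/200` and `≤` the numbers of `p6`, `jg (μ/10)`, `jc w`, `jc (1/2)`. `κ = -(s t)`. Let `D`, `χ₀` be the primitive character (`SPV.exists_prim`): `D ∣ G`, `χ n = χ₀ n` for `n` coprime to `G`, `χ₀ ^ 2 = 1` (every unit modulo `D` lifts to a unit modulo `G`; or `χ₀ x ∈ {±1}` by the formula), `χ₀ ≠ 1` (`D ≥ 2`, primitive).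
GOOD `a ∈ AA N z 1`: `χ a = lam a`, `χ (N-a) = lam (N-a)` and `lam a lam (N-a) = κ`: all but `(C (δ + μ/10 + c0) + δ) N VN ≤ (1/40) N VN` of them (`jg (μ/10)`). For a good `a`: `a`, `N-a` are coprime to `G`, `(a : ZMod D) ∈ VD N D`, `χ₀ a χ₀ (N-a) = κ`. `#AA ≥ (9/10) N VN` (`jc` with `D = 1`), so good `a` exist and `VD N D` is not empty.
STEP 1: `p ≥ 5` prime, `p ∣ D` implies `p ∣ N`: otherwise `jac` (`cond`: `p² ∤ D`): `|VD| ≤ 3 |S|`, `S = {v : χ₀ v χ₀(N-v) ≠ κ}`; `jc`: `(9/10) |S| N VN ≤ |VD| #{a ∈ AA : a ∈ S} ≤ |VD| (1/40) N VN`: `|S| ≤ |VD|/36`, contradiction.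
STEP 2: `split24`; `D ∣ 24 N`; `lift` to `χ' ` modulo `24 N`. `hT` of `p6`: let `a' < N`, `a'`, `N - a'` coprime to `24 N`. `jc (1/2)` with `D = 24`, `S = {a'}`: `#{a ∈ AA : a ≡ a' [MOD 24]} ≥ (9/10)/8 N VN > (1/40) N VN` (`|VD N 24| ≤ 8`, `decide` or `≤ φ(24)`), so there is a good `a ≡ a' [MOD 24]`, and `tconst` gives `χ' a' χ' (N-a') = χ₀ a χ₀ (N-a) = κ`.
STEP 3: the primes `l` with `χ' l = 1`: `χ₀ l = 1`, so `χ l = 1` or `l ∣ G` (at most `log N/log 2` primes `> z`, sum `≤ 2 log N/z ≤ δ`): the sum of `1/l` is `≤ 2 δ`. `p6`.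
-/

set_option autoImplicit false

open Finset
open Pool.Agent.Lib.GT (Rough pr V)
open Pool.Agent.Lib.MP_45349e_nt.LS (lam)
open Pool.Agent.Lib.PQ (pw)

namespace Pool.Agent.Lib.XE

private theorem Xend_pf {n : ℕ} (hn : n ≠ 0) : (n.primeFactors.card : ℝ) ≤ 2 * Real.log n := by
  have h1 : 2 ^ n.primeFactors.card ≤ n := by
    calc 2 ^ n.primeFactors.card ≤ ∏ p ∈ n.primeFactors, p := by
          rw [← Finset.prod_const]
          exact Finset.prod_le_prod' fun p hp => (Nat.prime_of_mem_primeFactors hp).two_le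
      _ ≤ n := Nat.le_of_dvd (Nat.pos_of_ne_zero hn) (Nat.prod_primeFactors_dvd n)
  have h2 : ((2 : ℝ) ^ n.primeFactors.card) ≤ (n : ℝ) := by exact_mod_cast h1
  have h3 := Real.log_le_log (by positivity) h2
  rw [Real.log_pow] at h3
  have h4 : (1 / 2 : ℝ) ≤ Real.log 2 := by linarith [Real.log_two_gt_d9]
  nlinarith [Nat.cast_nonneg (α := ℝ) n.primeFactors.card]

open Classical in
private theorem Xend_sum (R z G : ℕ) (hG : G ≠ 0) (hz : 0 < z) (P P' : ℕ → Prop)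
    (h : ∀ l : ℕ, l.Prime → z < l → P' l → P l ∨ l ∣ G) :
    ∑ l ∈ (range R).filter (fun l => l.Prime ∧ z < l ∧ P' l), 1 / (l : ℝ) ≤
      ∑ l ∈ (range R).filter (fun l => l.Prime ∧ z < l ∧ P l), 1 / (l : ℝ) +
        2 * Real.log G / z := by
  have hz' : (0 : ℝ) < z := by exact_mod_cast hz
  have hsub : (range R).filter (fun l => l.Prime ∧ z < l ∧ P' l) ⊆
      (range R).filter (fun l => l.Prime ∧ z < l ∧ P l) ∪ G.primeFactors.filter (fun l => z < l) := by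
    intro l hl
    rw [mem_filter] at hl
    obtain ⟨h1, h2, h3, h4⟩ := hl
    rw [mem_union, mem_filter, mem_filter]
    rcases h l h2 h3 h4 with h5 | h5
    · exact Or.inl ⟨h1, h2, h3, h5⟩
    · exact Or.inr ⟨Nat.mem_primeFactors.mpr ⟨h2, h5, hG⟩, h3⟩
  have h0 : ∀ l : ℕ, (0 : ℝ) ≤ 1 / (l : ℝ) := fun l => by positivity
  have h1 : ∑ l ∈ G.primeFactors.filter (fun l => z < l), 1 / (l : ℝ) ≤ 2 * Real.log G / z := by
    calc ∑ l ∈ G.primeFactors.filter (fun l => z < l), 1 / (l : ℝ)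
        ≤ ∑ l ∈ G.primeFactors.filter (fun l => z < l), 1 / (z : ℝ) := by
          refine sum_le_sum fun l hl => ?_
          rw [mem_filter] at hl
          exact one_div_le_one_div_of_le hz' (by exact_mod_cast hl.2.le)
      _ = ((G.primeFactors.filter (fun l => z < l)).card : ℝ) * (1 / (z : ℝ)) := by
          rw [sum_const, nsmul_eq_mul]
      _ ≤ (G.primeFactors.card : ℝ) * (1 / (z : ℝ)) := by
          refine mul_le_mul_of_nonneg_right ?_ (by positivity)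
          exact_mod_cast card_filter_le _ _
      _ ≤ (2 * Real.log G) * (1 / (z : ℝ)) :=
          mul_le_mul_of_nonneg_right (Xend_pf hG) (by positivity)
      _ = 2 * Real.log G / z := by ring
  calc ∑ l ∈ (range R).filter (fun l => l.Prime ∧ z < l ∧ P' l), 1 / (l : ℝ)
      ≤ ∑ l ∈ (range R).filter (fun l => l.Prime ∧ z < l ∧ P l) ∪
          G.primeFactors.filter (fun l => z < l), 1 / (l : ℝ) :=
        sum_le_sum_of_subset_of_nonneg hsub fun l _ _ => h0 l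
    _ ≤ ∑ l ∈ (range R).filter (fun l => l.Prime ∧ z < l ∧ P l), 1 / (l : ℝ) +
          ∑ l ∈ G.primeFactors.filter (fun l => z < l), 1 / (l : ℝ) := by
        have h2 := sum_union_inter (s₁ := (range R).filter (fun l => l.Prime ∧ z < l ∧ P l))
          (s₂ := G.primeFactors.filter (fun l => z < l)) (f := fun l : ℕ => 1 / (l : ℝ))
        have h3 : (0 : ℝ) ≤ ∑ l ∈ (range R).filter (fun l => l.Prime ∧ z < l ∧ P l) ∩
          G.primeFactors.filter (fun l => z < l), 1 / (l : ℝ) := sum_nonneg fun l _ => h0 l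
        linarith
    _ ≤ _ := by linarith

private theorem Xend_lam (n : ℕ) : lam n = 1 ∨ lam n = -1 := by
  unfold lam
  exact neg_one_pow_eq_or ℝ _

/-- the primitive character -/
private theorem Xend_prim {G : ℕ} [NeZero G] (χ : DirichletCharacter ℂ G) (h2 : χ ^ 2 = 1) (h1 : χ ≠ 1) :
    ∃ D : ℕ, ∃ _ : NeZero D, D ∣ G ∧ ∃ χ₀ : DirichletCharacter ℂ D, Pool.Agent.Lib.SPV.Prim χ₀ ∧
      χ₀ ^ 2 = 1 ∧ χ₀ ≠ 1 ∧ ∀ n : ℕ, n.Coprime G → χ (n : ZMod G) = χ₀ (n : ZMod D) := by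
  obtain ⟨D, hD2, hDG, χ₀, hP, hval⟩ := Pool.Agent.Lib.SPV.exists_prim χ h1
  have hD : NeZero D := ⟨by omega⟩
  have hval' : ∀ n : ℕ, n.Coprime G → χ (n : ZMod G) = χ₀ (n : ZMod D) := by
    intro n hn
    have h := hval (n : ℤ)
    rw [if_pos (Nat.isCoprime_iff_coprime.mpr hn)] at h
    simpa using h
  have hch : DirichletCharacter.changeLevel hDG χ₀ = χ := by
    refine MulChar.ext fun u => ?_
    have e1 : ((u : ZMod G).val : ZMod G) = (u : ZMod G) := ZMod.natCast_zmod_val _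
    have hc : (u : ZMod G).val.Coprime G := by
      rw [← ZMod.isUnit_iff_coprime, e1]
      exact u.isUnit
    rw [DirichletCharacter.changeLevel_eq_cast_of_dvd, ← e1, hval' _ hc]
    congr 1
    rw [ZMod.cast_natCast hDG]
  refine ⟨D, hD, hDG, χ₀, hP, ?_, ?_, hval'⟩
  · apply DirichletCharacter.changeLevel_injective hDG
    rw [map_pow, hch, h2, map_one]
  · intro h
    apply h1
    rw [← hch, h, map_one]

open Classical in
theorem x_end : ∃ μ0 : ℝ, 0 < μ0 ∧ ∀ μ : ℝ, 0 < μ → μ ≤ μ0 → ∃ δ : ℝ, 0 < δ ∧ ∀ w : ℝ, 0 < w →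
    ∃ c1 : ℝ, 0 < c1 ∧ ∀ c0 : ℝ, 0 < c0 → c0 ≤ c1 → ∃ N0 : ℕ, ∀ N : ℕ, N0 ≤ N → Even N →
    ∀ z : ℕ, (N : ℝ) ^ (c0 / 2) ≤ z → (z : ℝ) ≤ (N : ℝ) ^ c0 →
    ∀ (G : ℕ) [NeZero G], (G : ℝ) ≤ (N : ℝ) ^ (1 - w) → ∀ χ : DirichletCharacter ℂ G, χ ^ 2 = 1 → χ ≠ 1 →
    ∑ l ∈ (range (pw N (1 - μ / 10) + 1)).filter (fun l => l.Prime ∧ z < l ∧
      χ (l : ZMod G) = 1), 1 / (l : ℝ) ≤ δ →
    ∀ s t : ℝ, (s = 1 ∨ s = -1) → (t = 1 ∨ t = -1) →
    (((AA N z 1).filter fun a => lam a * lam (N - a) ≠ -(s * t)).card : ℝ) ≤ δ * N * VN N z →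
    (N : ℝ) ^ (1 - μ / 40) ≤ ((RP N z s t).card : ℝ) := by
  obtain ⟨C, hC, Hjg⟩ := jg
  obtain ⟨μp, hμp, Hp6⟩ := p6
  refine ⟨min μp (min 1 (1 / (20 * C))), by positivity, fun μ hμ hμ0 => ?_⟩
  have hμ1 : μ ≤ μp := hμ0.trans (min_le_left _ _)
  have hμ2 : μ ≤ 1 := hμ0.trans ((min_le_right _ _).trans (min_le_left _ _))
  have hμ3 : μ ≤ 1 / (20 * C) := hμ0.trans ((min_le_right _ _).trans (min_le_right _ _))
  have hμ3' : C * (μ / 10) ≤ 1 / 200 := by
    have h := mul_le_mul_of_nonneg_left hμ3 hC.le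
    have e : C * (1 / (20 * C)) = 1 / 20 := by field_simp
    linarith
  obtain ⟨δp, cp, hδp, hcp, Hp6'⟩ := Hp6 μ hμ hμ1
  obtain ⟨cj, hcj, Hjg'⟩ := Hjg (μ / 10) (by positivity) (by linarith)
  obtain ⟨δ, hδdef⟩ : ∃ δ : ℝ, δ = min (δp / 2) (1 / (200 * (C + 1))) := ⟨_, rfl⟩
  have hδ : 0 < δ := by rw [hδdef]; positivity
  have hδ1 : δ ≤ δp / 2 := hδdef ▸ min_le_left _ _
  have hδ2 : δ ≤ 1 / (200 * (C + 1)) := hδdef ▸ min_le_right _ _
  have hδ2' : (C + 1) * δ ≤ 1 / 200 := by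
    have h := mul_le_mul_of_nonneg_left hδ2 (by positivity : 0 ≤ C + 1)
    have e : (C + 1) * (1 / (200 * (C + 1))) = 1 / 200 := by field_simp
    linarith
  refine ⟨δ, hδ, fun w hw => ?_⟩
  obtain ⟨cw, hcw, Hjc⟩ := jc w hw
  obtain ⟨ch, hch, Hjh⟩ := jc (1 / 2) (by norm_num)
  refine ⟨min (min cp cj) (min (min cw ch) (1 / (200 * C))), by positivity, fun c0 hc0 hc01 => ?_⟩
  have hc2 : c0 ≤ min cp cj := hc01.trans (min_le_left _ _)
  have hc3 : c0 ≤ min cw ch := hc01.trans ((min_le_right _ _).trans (min_le_left _ _))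
  have hc4 : c0 ≤ 1 / (200 * C) := hc01.trans ((min_le_right _ _).trans (min_le_right _ _))
  have hc4' : C * c0 ≤ 1 / 200 := by
    have h := mul_le_mul_of_nonneg_left hc4 hC.le
    have e : C * (1 / (200 * C)) = 1 / 200 := by field_simp
    linarith
  obtain ⟨Np, HNp⟩ := Hp6' c0 hc0 (hc2.trans (min_le_left _ _))
  obtain ⟨Nj, HNj⟩ := Hjg' c0 hc0 (hc2.trans (min_le_right _ _))
  obtain ⟨Nw, HNw⟩ := Hjc c0 hc0 (hc3.trans (min_le_left _ _))
  obtain ⟨Nh, HNh⟩ := Hjh c0 hc0 (hc3.trans (min_le_right _ _))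
  have hc2' : 0 < c0 / 2 := by positivity
  have e1 : ∀ᶠ N : ℕ in Filter.atTop, 2 * Real.log (N : ℝ) ≤ δ * (N : ℝ) ^ (c0 / 2) := by
    have h := (isLittleO_log_rpow_atTop hc2').bound (show (0 : ℝ) < δ / 2 by positivity)
    have h' := tendsto_natCast_atTop_atTop (R := ℝ) |>.eventually
      (h.and (Filter.eventually_ge_atTop (1 : ℝ)))
    filter_upwards [h'] with N hN
    obtain ⟨h3, h4⟩ := hN
    rw [Real.norm_eq_abs, Real.norm_eq_abs, abs_of_nonneg (Real.log_nonneg h4),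
      abs_of_nonneg (Real.rpow_nonneg (by linarith) _)] at h3
    linarith
  obtain ⟨Ne, HNe⟩ := Filter.eventually_atTop.1 e1
  refine ⟨max (max Np Nj) (max (max Nw Nh) (max Ne 576)), ?_⟩
  intro N hN hNe z hz1 hz2 G _ hGN χ hχ2 hχ1 hsum s t hs ht hB
  have k1 : Np ≤ N := (le_max_left _ _).trans ((le_max_left _ _).trans hN)
  have k2 : Nj ≤ N := (le_max_right _ _).trans ((le_max_left _ _).trans hN)
  have k3 : Nw ≤ N := (le_max_left _ _).trans ((le_max_left _ _).trans ((le_max_right _ _).trans hN))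
  have k4 : Nh ≤ N := (le_max_right _ _).trans ((le_max_left _ _).trans ((le_max_right _ _).trans hN))
  have k5 : Ne ≤ N := (le_max_left _ _).trans ((le_max_right _ _).trans ((le_max_right _ _).trans hN))
  have k6 : 576 ≤ N := (le_max_right _ _).trans ((le_max_right _ _).trans ((le_max_right _ _).trans hN))
  have hlog := HNe N k5
  have hNr : (576 : ℝ) ≤ (N : ℝ) := by exact_mod_cast k6
  have hNpos : (0 : ℝ) < (N : ℝ) := by linarith
  have hG0 : G ≠ 0 := NeZero.ne G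
  have hG1 : (1 : ℝ) ≤ (G : ℝ) := by exact_mod_cast Nat.one_le_iff_ne_zero.mpr hG0
  have hGleN : (G : ℝ) ≤ (N : ℝ) := by
    refine hGN.trans ?_
    calc (N : ℝ) ^ (1 - w) ≤ (N : ℝ) ^ (1 : ℝ) :=
          Real.rpow_le_rpow_of_exponent_le (by linarith) (by linarith)
      _ = N := Real.rpow_one _
  have hGleN' : G ≤ N := by exact_mod_cast hGleN
  have hz0 : (0 : ℝ) < z := lt_of_lt_of_le (Real.rpow_pos_of_pos hNpos _) hz1
  have hz0' : 0 < z := by exact_mod_cast hz0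
  have hV : 0 < VN N z := VW_pos hNe z 1
  obtain ⟨X, hX⟩ : ∃ X : ℝ, X = N * VN N z := ⟨_, rfl⟩
  have hX0 : 0 < X := by rw [hX]; positivity
  -- the exceptional set
  have hB1 := HNj N k2 hNe z hz1 hz2 G hGleN' χ hχ2 δ hsum
  have hbad : ∀ T : Finset ℕ, T ⊆ AA N z 1 →
      (∀ a ∈ T, ¬ ((χ (a : ZMod G) = (lam a : ℂ) ∧ χ ((N - a : ℕ) : ZMod G) = (lam (N - a) : ℂ)) ∧
        lam a * lam (N - a) = -(s * t))) → (T.card : ℝ) ≤ 1 / 40 * X := by
    intro T hT hTb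
    have hsub : T ⊆ ((AA N z 1).filter fun a : ℕ => ¬ (χ (a : ZMod G) = (lam a : ℂ) ∧
        χ ((N - a : ℕ) : ZMod G) = (lam (N - a) : ℂ))) ∪
        ((AA N z 1).filter fun a => lam a * lam (N - a) ≠ -(s * t)) := by
      intro a ha
      have h := hTb a ha
      rw [mem_union, mem_filter, mem_filter]
      by_cases h1 : (χ (a : ZMod G) = (lam a : ℂ) ∧ χ ((N - a : ℕ) : ZMod G) = (lam (N - a) : ℂ))
      · exact Or.inr ⟨hT ha, fun h2 => h ⟨h1, h2⟩⟩
      · exact Or.inl ⟨hT ha, h1⟩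
    have h1 : (T.card : ℝ) ≤ (((AA N z 1).filter fun a : ℕ => ¬ (χ (a : ZMod G) = (lam a : ℂ) ∧
        χ ((N - a : ℕ) : ZMod G) = (lam (N - a) : ℂ))).card : ℝ) +
        (((AA N z 1).filter fun a => lam a * lam (N - a) ≠ -(s * t)).card : ℝ) := by
      exact_mod_cast (card_le_card hsub).trans (card_union_le _ _)
    have h2 : C * (δ + μ / 10 + c0) * N * VN N z + δ * N * VN N z ≤ 1 / 40 * X := by
      have h3 : C * (δ + μ / 10 + c0) * N * VN N z + δ * N * VN N z =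
          ((C + 1) * δ + C * (μ / 10) + C * c0) * X := by rw [hX]; ring
      rw [h3]
      exact mul_le_mul_of_nonneg_right (by linarith) hX0.le
    linarith
  obtain ⟨D, hDne, hDG, χ₀, hP, hχ₀2, hχ₀1, hval⟩ := Xend_prim χ hχ2 hχ1
  have hD0 : D ≠ 0 := NeZero.ne D
  have hDN : (D : ℝ) ≤ (N : ℝ) ^ (1 - w) :=
    le_trans (by exact_mod_cast Nat.le_of_dvd (Nat.pos_of_ne_zero hG0) hDG) hGN
  -- good numbers
  have hcop : ∀ n : ℕ, χ (n : ZMod G) = (lam n : ℂ) → n.Coprime G := by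
    intro n hn
    rw [← ZMod.isUnit_iff_coprime]
    by_contra hu
    rw [MulChar.map_nonunit χ hu] at hn
    rcases Xend_lam n with h | h <;> rw [h] at hn <;> norm_num at hn
  have hgood : ∀ a ∈ AA N z 1, ((χ (a : ZMod G) = (lam a : ℂ) ∧
      χ ((N - a : ℕ) : ZMod G) = (lam (N - a) : ℂ)) ∧ lam a * lam (N - a) = -(s * t)) →
      a.Coprime G ∧ (N - a).Coprime G ∧
        χ₀ (a : ZMod D) * χ₀ ((N - a : ℕ) : ZMod D) = -((s * t : ℝ) : ℂ) := by
    rintro a - ⟨⟨h1, h2⟩, h3⟩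
    refine ⟨hcop _ h1, hcop _ h2, ?_⟩
    rw [← hval _ (hcop _ h1), ← hval _ (hcop _ h2), h1, h2, ← Complex.ofReal_mul, h3]
    push_cast
    ring
  have hAAlt : ∀ a ∈ AA N z 1, a < N := by
    intro a ha
    unfold AA at ha
    rw [mem_filter] at ha
    simpa using ha.2.1
  have hVDmem : ∀ a : ℕ, a ≤ N → a.Coprime D → (N - a).Coprime D → (a : ZMod D) ∈ VD N D := by
    intro a ha h1 h2
    unfold VD
    rw [mem_filter]
    refine ⟨mem_univ _, (ZMod.isUnit_iff_coprime _ _).mpr h1, ?_⟩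
    rw [← Nat.cast_sub ha]
    exact (ZMod.isUnit_iff_coprime _ _).mpr h2
  -- many numbers
  have hAA : 9 / 10 * X ≤ ((AA N z 1).card : ℝ) := by
    have h := HNw N k3 hNe z hz1 hz2 1 (by rw [Nat.cast_one]; exact hG1.trans hGN) (VD N 1)
      (Subset.refl _)
    have hc : (VD N 1).card = 1 := by
      unfold VD
      rw [filter_true_of_mem]
      · simp
      · intro v _
        exact ⟨isUnit_of_subsingleton _, isUnit_of_subsingleton _⟩
    rw [hc, ← hX] at h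
    have h2 : ((((AA N z 1).filter fun a : ℕ => (a : ZMod 1) ∈ VD N 1).card : ℕ) : ℝ) ≤
        ((AA N z 1).card : ℝ) := by exact_mod_cast card_filter_le _ _
    push_cast at h
    linarith
  have hex : ∃ a ∈ AA N z 1, ((χ (a : ZMod G) = (lam a : ℂ) ∧
      χ ((N - a : ℕ) : ZMod G) = (lam (N - a) : ℂ)) ∧ lam a * lam (N - a) = -(s * t)) := by
    by_contra hcon
    push Not at hcon
    have h := hbad (AA N z 1) (Subset.refl _) (fun a ha h1 => hcon a ha h1.1 h1.2)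
    linarith
  have hVDpos : 0 < (VD N D).card := by
    obtain ⟨a, ha, hg⟩ := hex
    obtain ⟨h1, h2, -⟩ := hgood a ha hg
    exact card_pos.mpr ⟨_, hVDmem a (hAAlt a ha).le (h1.coprime_dvd_right hDG) (h2.coprime_dvd_right hDG)⟩
  have hκ : (-((s * t : ℝ) : ℂ)) = 1 ∨ (-((s * t : ℝ) : ℂ)) = -1 := by
    rcases hs with h | h <;> rcases ht with h' | h' <;> rw [h, h'] <;> norm_num
  obtain ⟨hcond1, hcond2⟩ := cond D χ₀ hP hχ₀2
  -- step 1
  have step1 : ∀ p : ℕ, p.Prime → 5 ≤ p → p ∣ D → p ∣ N := by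
    intro p hp h5 hpD
    by_contra hpN
    have hj := jac N D χ₀ hP hχ₀2 p hp h5 hpD (hcond1 p hp (by omega)) hpN _ hκ
    obtain ⟨S, hS⟩ : ∃ S : Finset (ZMod D), S = (VD N D).filter fun v =>
      χ₀ v * χ₀ ((N : ZMod D) - v) ≠ -((s * t : ℝ) : ℂ) := ⟨_, rfl⟩
    rw [← hS] at hj
    have h1 := HNw N k3 hNe z hz1 hz2 D hDN S (by rw [hS]; exact filter_subset _ _)
    rw [← hX] at h1
    have h2 : ((((AA N z 1).filter fun a : ℕ => (a : ZMod D) ∈ S).card : ℕ) : ℝ) ≤ 1 / 40 * X := by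
      refine hbad _ (filter_subset _ _) fun a ha hg => ?_
      rw [mem_filter] at ha
      obtain ⟨-, -, h3⟩ := hgood a ha.1 hg
      have h4 := ha.2
      rw [hS, mem_filter] at h4
      apply h4.2
      rw [← Nat.cast_sub (hAAlt a ha.1).le]
      exact h3
    have h3 : 9 / 10 * (S.card : ℝ) * X ≤ (VD N D).card * (1 / 40 * X) :=
      h1.trans (mul_le_mul_of_nonneg_left h2 (by positivity))
    have h4 : (0 : ℝ) < (VD N D).card := by exact_mod_cast hVDpos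
    have h5' : ((VD N D).card : ℝ) ≤ 3 * (S.card : ℝ) := by exact_mod_cast hj
    have h6 : 9 / 10 * (S.card : ℝ) ≤ (VD N D).card * (1 / 40) := by
      by_contra hcon
      push Not at hcon
      have := mul_lt_mul_of_pos_right hcon hX0
      linarith
    linarith
  -- step 2
  obtain ⟨D1, D2, hD12, hDc, hD24, hD2N⟩ := split24 N D hD0 hcond1 hcond2 step1
  have hDM : D ∣ 24 * N := by rw [hD12]; exact mul_dvd_mul hD24 hD2N
  have hM : NeZero (24 * N) := ⟨by omega⟩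
  obtain ⟨χ', hχ'2, hχ'1, hχ'v⟩ := lift D (24 * N) hDM χ₀ hχ₀2 hχ₀1
  refine HNp N k1 hNe z hz1 hz2 χ' hχ'1 hχ'2 ?_ s t hs ht ?_
  · -- step 3
    have h1 := Xend_sum (pw N (1 - μ / 10) + 1) z G hG0 hz0' (fun l => χ (l : ZMod G) = 1)
      (fun l => χ' (l : ZMod (24 * N)) = 1) (by
        intro l hl _ hl1
        by_cases hlG : l ∣ G
        · exact Or.inr hlG
        · left
          have hcG : l.Coprime G := (Nat.Prime.coprime_iff_not_dvd hl).mpr hlG
          have hcM : l.Coprime (24 * N) := by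
            rw [← ZMod.isUnit_iff_coprime]
            by_contra hu
            rw [MulChar.map_nonunit χ' hu] at hl1
            norm_num at hl1
          rw [hval l hcG, ← hχ'v l hcM, hl1])
    refine h1.trans ?_
    have h2 : 2 * Real.log G / z ≤ δ := by
      rw [div_le_iff₀ hz0]
      have h3 : Real.log G ≤ Real.log N := Real.log_le_log (by linarith) hGleN
      have h4 : δ * (N : ℝ) ^ (c0 / 2) ≤ δ * z := mul_le_mul_of_nonneg_left hz1 hδ.le
      linarith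
    linarith
  · intro a' ha' hc1 hc2
    have h24 : (24 : ℕ) ∣ 24 * N := dvd_mul_right _ _
    have hv : (a' : ZMod 24) ∈ VD N 24 := by
      unfold VD
      rw [mem_filter]
      refine ⟨mem_univ _, (ZMod.isUnit_iff_coprime _ _).mpr (hc1.coprime_dvd_right h24), ?_⟩
      rw [← Nat.cast_sub ha'.le]
      exact (ZMod.isUnit_iff_coprime _ _).mpr (hc2.coprime_dvd_right h24)
    have h24N : ((24 : ℕ) : ℝ) ≤ (N : ℝ) ^ (1 - 1 / 2 : ℝ) := by
      have e : (1 - 1 / 2 : ℝ) = 1 / 2 := by norm_num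
      rw [e, ← Real.sqrt_eq_rpow]
      refine Real.le_sqrt_of_sq_le ?_
      push_cast
      linarith
    have h1 := HNh N k4 hNe z hz1 hz2 24 h24N {(a' : ZMod 24)} (by
      intro v hv'
      rw [mem_singleton] at hv'
      rw [hv']; exact hv)
    rw [← hX, card_singleton] at h1
    have h2 : ((VD N 24).card : ℝ) ≤ 24 := by
      have : (VD N 24).card ≤ 24 := by
        refine (card_le_univ _).trans ?_
        rw [ZMod.card]
      exact_mod_cast this
    have h3 : ∃ a ∈ (AA N z 1).filter (fun a : ℕ => (a : ZMod 24) ∈ ({(a' : ZMod 24)} : Finset (ZMod 24))),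
        ((χ (a : ZMod G) = (lam a : ℂ) ∧
      χ ((N - a : ℕ) : ZMod G) = (lam (N - a) : ℂ)) ∧ lam a * lam (N - a) = -(s * t)) := by
      by_contra hcon
      push Not at hcon
      have h4 := hbad _ (filter_subset _ _) (fun a ha h5 => hcon a ha h5.1 h5.2)
      have h5 : ((VD N 24).card : ℝ) * ((((AA N z 1).filter (fun a : ℕ => (a : ZMod 24) ∈
          ({(a' : ZMod 24)} : Finset (ZMod 24)))).card : ℕ) : ℝ) ≤ 24 * (1 / 40 * X) :=
        mul_le_mul h2 h4 (by positivity) (by norm_num)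
      push_cast at h1
      linarith
    obtain ⟨a, ha, hg⟩ := h3
    rw [mem_filter, mem_singleton] at ha
    obtain ⟨haA, ha24⟩ := ha
    obtain ⟨g1, g2, g3⟩ := hgood a haA hg
    have haa : a ≡ a' [MOD 24] := (ZMod.natCast_eq_natCast_iff _ _ _).mp ha24
    have ht2 := tconst N D D1 D2 hD12 hDc hD24 hD2N χ₀ hχ₀2 a a' (hAAlt a haA).le ha'.le haa
      (g1.coprime_dvd_right hDG) (g2.coprime_dvd_right hDG) (hc1.coprime_dvd_right hDM)
      (hc2.coprime_dvd_right hDM)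
    rw [hχ'v _ hc1, hχ'v _ hc2, ← ht2]
    exact g3

end Pool.Agent.Lib.XE
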