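import Pool.Agent.Lib.MP_61161c_nt.XE.Defs
import Pool.Agent.Lib.Sieve.Mertens3
import Pool.Agent.Lib.Sieve.Smooth

/-!
# the density `VW`   (module Vl, 60 minutes)

PROOF. A factor of `VW` is `1/2` for `p = 2` (`N` is even), at least `1 - 2/3` for `p ≥ 3`, at most `1`.
`VN_low`: by induction on `z ≥ 2`, `VN N z ≥ (9/10) (1 + 2/z) (V z)^2` (the step is
`(1 - 2/p) (1 + 2/(p-1)) ≥ (1 - 1/p)^2 (1 + 2/p)` for primes `p = z + 1 ≥ 5`), and `V z ≥ c/log z`.
`V_ratio`: `log z * V z` lies between two positive constants for `z ≥ 2`.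
-/

set_option autoImplicit false

open Finset
open Pool.Agent.Lib.GT (Rough pr V)
open Pool.Agent.Lib.MP_45349e_nt.LS (lam)
open Pool.Agent.Lib.PQ (pw)

namespace Pool.Agent.Lib.XE

private theorem vl_fac_low {N p : ℕ} (hN : Even N) (hp : p.Prime) : 1 / 3 ≤ 1 - (rh N p : ℝ) / p := by
  rcases hp.eq_two_or_odd with h | h
  · subst h
    have : rh N 2 = 1 := by
      unfold rh
      rw [if_pos hN.two_dvd]
    rw [this]
    norm_num
  · have h3 : 3 ≤ p := by
      have := hp.two_le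
      omega
    have h3' : (3 : ℝ) ≤ p := by exact_mod_cast h3
    have h1 : (rh N p : ℝ) ≤ 2 := by
      unfold rh
      split_ifs <;> norm_num
    have h4 : (rh N p : ℝ) / p ≤ 2 / 3 := by
      rw [div_le_div_iff₀ (by linarith) (by norm_num)]
      nlinarith
    linarith

private theorem vl_fac_le {N p : ℕ} : 1 - (rh N p : ℝ) / p ≤ 1 := by
  have : 0 ≤ (rh N p : ℝ) / p := by positivity
  linarith

private theorem vl_prime {z p : ℕ} (hp : p ∈ pr z) : p.Prime := (Finset.mem_filter.mp hp).2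

theorem VW_pos {N : ℕ} (hN : Even N) (z W : ℕ) : 0 < VW N z W := by
  unfold VW
  refine Finset.prod_pos fun p hp => ?_
  have := vl_fac_low hN (vl_prime (Finset.mem_filter.mp hp).1)
  linarith

theorem VW_le_one {N : ℕ} (hN : Even N) (z W : ℕ) : VW N z W ≤ 1 := by
  unfold VW
  refine Finset.prod_le_one (fun p hp => ?_) (fun p hp => vl_fac_le)
  have := vl_fac_low hN (vl_prime (Finset.mem_filter.mp hp).1)
  linarith

private theorem vl_VN (N z : ℕ) : VN N z = ∏ p ∈ pr z, (1 - (rh N p : ℝ) / p) := by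
  unfold VN VW
  refine Finset.prod_congr ?_ fun _ _ => rfl
  refine Finset.filter_true_of_mem fun p hp => ?_
  rw [Nat.dvd_one]
  exact (vl_prime hp).one_lt.ne'

/-- fewer conditions, larger density -/
theorem VN_le_VW {N : ℕ} (hN : Even N) (z W : ℕ) : VN N z ≤ VW N z W := by
  rw [vl_VN, ← Finset.prod_filter_mul_prod_filter_not (pr z) (fun p => ¬ p ∣ W)]
  have h1 : (∏ p ∈ (pr z).filter (fun p => ¬ ¬ p ∣ W), (1 - (rh N p : ℝ) / p)) ≤ 1 := by
    refine Finset.prod_le_one (fun p hp => ?_) (fun p hp => vl_fac_le)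
    have := vl_fac_low hN (vl_prime (Finset.mem_filter.mp hp).1)
    linarith
  have h2 := VW_pos hN z W
  calc _ = VW N z W * (∏ p ∈ (pr z).filter (fun p => ¬ ¬ p ∣ W), (1 - (rh N p : ℝ) / p)) := rfl
    _ ≤ VW N z W * 1 := mul_le_mul_of_nonneg_left h1 h2.le
    _ = VW N z W := mul_one _

/-- the primes which divide `W` do not matter if they are `> z` -/
theorem VW_rough {z W : ℕ} (N : ℕ) (hW : Rough z W) : VW N z W = VN N z := by
  rw [vl_VN]
  unfold VW
  refine Finset.prod_congr ?_ fun _ _ => rfl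
  refine Finset.filter_true_of_mem fun p hp hpW => ?_
  have h1 := hW p (vl_prime hp) hpW
  have h2 := Finset.mem_range.mp (Finset.mem_filter.mp hp).1
  omega

private theorem vl_pr_succ (z : ℕ) (h : (z + 1).Prime) : pr (z + 1) = insert (z + 1) (pr z) := by
  unfold pr
  rw [Finset.range_add_one (n := z + 1), Finset.filter_insert, if_pos h]

private theorem vl_pr_succ' (z : ℕ) (h : ¬ (z + 1).Prime) : pr (z + 1) = pr z := by
  unfold pr
  rw [Finset.range_add_one (n := z + 1), Finset.filter_insert, if_neg h]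

private theorem vl_not_mem (z : ℕ) : z + 1 ∉ pr z := by
  intro h
  have := Finset.mem_range.mp (Finset.mem_filter.mp h).1
  omega

private theorem vl_step (q v w : ℝ) (hq : 5 ≤ q) (hw : 0 ≤ w) (h : 9 / 10 * (1 + 2 / (q - 1)) * v ^ 2 ≤ w) :
    9 / 10 * (1 + 2 / q) * ((1 - 1 / q) * v) ^ 2 ≤ (1 - 2 / q) * w := by
  have hq0 : 0 < q := by linarith
  have hq1 : 0 < q - 1 := by linarith
  have h1 : 0 ≤ 1 - 2 / q := by
    rw [sub_nonneg, div_le_one hq0]
    linarith
  have h2 : (1 + 2 / q) * (1 - 1 / q) ^ 2 ≤ (1 - 2 / q) * (1 + 2 / (q - 1)) := by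
    have e1 : (1 + 2 / q) * (1 - 1 / q) ^ 2 = (q + 2) * (q - 1) ^ 2 / q ^ 3 := by
      field_simp
    have e2 : (1 - 2 / q) * (1 + 2 / (q - 1)) = (q - 2) * (q + 1) / (q * (q - 1)) := by
      field_simp
      ring
    rw [e1, e2, div_le_div_iff₀ (by positivity) (by positivity)]
    have : (q - 2) * (q + 1) * q ^ 3 - (q + 2) * (q - 1) ^ 2 * (q * (q - 1)) = q * (q ^ 2 - 5 * q + 2) := by
      ring
    have h3 : 0 ≤ q * (q ^ 2 - 5 * q + 2) := by
      apply mul_nonneg hq0.le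
      nlinarith
    linarith
  calc 9 / 10 * (1 + 2 / q) * ((1 - 1 / q) * v) ^ 2 = 9 / 10 * v ^ 2 * ((1 + 2 / q) * (1 - 1 / q) ^ 2) := by ring
    _ ≤ 9 / 10 * v ^ 2 * ((1 - 2 / q) * (1 + 2 / (q - 1))) :=
      mul_le_mul_of_nonneg_left h2 (by positivity)
    _ = (1 - 2 / q) * (9 / 10 * (1 + 2 / (q - 1)) * v ^ 2) := by ring
    _ ≤ (1 - 2 / q) * w := mul_le_mul_of_nonneg_left h h1

private theorem vl_pr2 : pr 2 = {2} := by
  decide

private theorem vl_pr3 : pr 3 = {2, 3} := by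
  decide

private theorem vl_two {N : ℕ} (hN : Even N) : 1 - (rh N 2 : ℝ) / (2 : ℕ) = 1 / 2 := by
  have : rh N 2 = 1 := by
    unfold rh
    rw [if_pos hN.two_dvd]
  rw [this]
  norm_num

private theorem vl_main {N : ℕ} (hN : Even N) : ∀ z : ℕ, 2 ≤ z →
    9 / 10 * (1 + 2 / (z : ℝ)) * (V z) ^ 2 ≤ VN N z := by
  intro z hz
  induction z, hz using Nat.le_induction with
  | base =>
    rw [vl_VN]
    unfold V
    rw [vl_pr2, Finset.prod_singleton, Finset.prod_singleton, vl_two hN]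
    norm_num
  | succ z hz ih =>
    by_cases hp : (z + 1).Prime
    · rcases Nat.lt_or_ge z 3 with h3 | h3
      · have : z = 2 := by omega
        subst this
        rw [vl_VN]
        unfold V
        have e : (2 : ℕ) + 1 = 3 := rfl
        rw [e, vl_pr3, Finset.prod_pair (by norm_num), Finset.prod_pair (by norm_num), vl_two hN]
        have h1 := vl_fac_low hN Nat.prime_three
        norm_num at h1 ⊢
        linarith
      · have h5 : 5 ≤ z + 1 := by
          rcases Nat.lt_or_ge z 4 with h4 | h4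
          · have : z = 3 := by omega
            subst this
            exact absurd hp (by decide)
          · omega
        have hV : V (z + 1) = (1 - 1 / ((z + 1 : ℕ) : ℝ)) * V z := by
          unfold V
          rw [vl_pr_succ z hp, Finset.prod_insert (vl_not_mem z)]
        have hVN : VN N (z + 1) = (1 - (rh N (z + 1) : ℝ) / ((z + 1 : ℕ) : ℝ)) * VN N z := by
          rw [vl_VN, vl_VN, vl_pr_succ z hp, Finset.prod_insert (vl_not_mem z)]
        have hpos : 0 ≤ VN N z := (VW_pos hN z 1).le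
        have hq5 : (5 : ℝ) ≤ ((z + 1 : ℕ) : ℝ) := by exact_mod_cast h5
        have hcast : (z : ℝ) = ((z + 1 : ℕ) : ℝ) - 1 := by push_cast; ring
        have h4 := vl_step ((z + 1 : ℕ) : ℝ) (V z) (VN N z) hq5 hpos (by rw [← hcast]; exact ih)
        rw [hV, hVN]
        refine h4.trans (mul_le_mul_of_nonneg_right ?_ hpos)
        have h1 : (rh N (z + 1) : ℝ) ≤ 2 := by
          unfold rh
          split_ifs <;> norm_num
        have h2 : (rh N (z + 1) : ℝ) / ((z + 1 : ℕ) : ℝ) ≤ 2 / ((z + 1 : ℕ) : ℝ) :=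
          div_le_div_of_nonneg_right h1 (by linarith)
        linarith
    · have hV : V (z + 1) = V z := by
        unfold V
        rw [vl_pr_succ' z hp]
      have hVN : VN N (z + 1) = VN N z := by
        rw [vl_VN, vl_VN, vl_pr_succ' z hp]
      rw [hV, hVN]
      refine le_trans ?_ ih
      have hz0 : (0 : ℝ) < z := by
        have : 0 < z := by omega
        exact_mod_cast this
      have h1 : 2 / ((z + 1 : ℕ) : ℝ) ≤ 2 / (z : ℝ) := by
        apply div_le_div_of_nonneg_left (by norm_num) hz0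
        push_cast
        linarith
      have h2 : 0 ≤ (V z) ^ 2 := by positivity
      nlinarith

private theorem vl_V_inv_eq (z : ℕ) :
    (V z)⁻¹ = ∏ p ∈ (Finset.Icc 1 z).filter Nat.Prime, (1 - (1 : ℝ) / p)⁻¹ := by
  unfold V
  rw [← Finset.prod_inv_distrib]
  refine Finset.prod_congr ?_ fun _ _ => rfl
  ext p
  rw [pr, mem_filter, mem_filter, mem_range, mem_Icc]
  constructor
  · rintro ⟨h1, h2⟩
    exact ⟨⟨h2.one_le, by omega⟩, h2⟩
  · rintro ⟨⟨h1, h2⟩, h3⟩
    exact ⟨by omega, h3⟩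

private theorem vl_V_le (z : ℕ) (hz : 2 ≤ z) : V z * Real.log z ≤ 1 := by
  have hzr : (2 : ℝ) ≤ z := by exact_mod_cast hz
  have h := Pool.Agent.Lib.Sieve.log_le_prod z
  rw [← vl_V_inv_eq] at h
  have h1 : Real.log z ≤ (V z)⁻¹ := (Real.log_le_log (by linarith) (by linarith)).trans h
  have hV := Pool.Agent.Lib.GT.V_pos z
  have h2 := mul_le_mul_of_nonneg_left h1 hV.le
  rwa [mul_inv_cancel₀ hV.ne'] at h2

private theorem vl_V_ge : ∃ C : ℝ, 0 < C ∧ ∀ z : ℕ, 2 ≤ z → 1 ≤ C * (V z * Real.log z) := by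
  obtain ⟨C, hC, h⟩ := Pool.Agent.Lib.Sieve.mertens_product_upper
  refine ⟨C, hC, fun z hz => ?_⟩
  have h1 := h z hz
  rw [← vl_V_inv_eq] at h1
  have hV := Pool.Agent.Lib.GT.V_pos z
  have h2 := mul_le_mul_of_nonneg_left h1 hV.le
  rw [mul_inv_cancel₀ hV.ne'] at h2
  linarith

theorem VN_low : ∃ C : ℝ, 0 < C ∧ ∀ N z : ℕ, Even N → 2 ≤ z → C / (Real.log z) ^ 2 ≤ VN N z := by
  obtain ⟨C, hC, h⟩ := vl_V_ge
  refine ⟨9 / 10 / C ^ 2, by positivity, fun N z hN hz => ?_⟩
  have hzr : (2 : ℝ) ≤ z := by exact_mod_cast hz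
  have hl : 0 < Real.log z := Real.log_pos (by linarith)
  have hV := Pool.Agent.Lib.GT.V_pos z
  have h1 := vl_main hN z hz
  have h2 : 9 / 10 * (V z) ^ 2 ≤ 9 / 10 * (1 + 2 / (z : ℝ)) * (V z) ^ 2 := by
    have : 0 ≤ 2 / (z : ℝ) := by positivity
    have h3 : 0 ≤ (V z) ^ 2 := by positivity
    nlinarith
  refine le_trans ?_ (h2.trans h1)
  rw [div_div, div_le_iff₀ (by positivity)]
  have h3 := h z hz
  have h4 : 1 ≤ (C * (V z * Real.log z)) ^ 2 := one_le_pow₀ h3
  nlinarith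

theorem V_ratio : ∃ C : ℝ, 0 < C ∧ ∀ z y : ℕ, 2 ≤ z → z ≤ y → V y ≤ C * V z * (Real.log z / Real.log y) ∧
    V z ≤ C * V y * (Real.log y / Real.log z) := by
  obtain ⟨C, hC, h⟩ := vl_V_ge
  have key : ∀ a b : ℕ, 2 ≤ a → 2 ≤ b → V b ≤ C * V a * (Real.log a / Real.log b) := by
    intro a b ha hb
    have hbr : (2 : ℝ) ≤ b := by exact_mod_cast hb
    have hl : 0 < Real.log b := Real.log_pos (by linarith)
    rw [← mul_div_assoc, le_div_iff₀ hl]
    have h1 := vl_V_le b hb
    have h2 := h a ha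
    calc V b * Real.log b ≤ 1 := h1
      _ ≤ C * (V a * Real.log a) := h2
      _ = C * V a * Real.log a := by ring
  exact ⟨C, hC, fun z y hz hzy => ⟨key z y hz (hz.trans hzy), key y z (hz.trans hzy) hz⟩⟩

end Pool.Agent.Lib.XE
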