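import Pool.Agent.Lib.MP_61161c_nt.XE.Sv2
import Pool.Agent.Lib.MP_61161c_nt.XE.Vl

/-!
# asymptotics for a class of multipliers   (module Asym, 70 minutes)

PROOF. The `a ∈ AA N z q`, `a ≡ v [MOD W]`, are the `a ∈ Ioc 0 A`, `A = (N-1)/q`, with `a ≡ v [MOD W]` and `a % p ∉ Z p` for `p ∈ P = {p ≤ z, p ∤ W}`, `Z p = {0, N q' mod p}`, `q'` an inverse of `q` modulo `p` (`p ∤ q` since `q` is rough): `Rough z a` and `Rough z (N - q a)` mean `p ∤ a`, `¬ N ≡ q a [MOD p]` for all `p ≤ z`, and for `p ∣ W` this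
holds by hypothesis. `|Z p| = rh N p` (`N q' ≡ 0` iff `p ∣ N`), `3 |Z p| ≤ 2 p` (`p = 2`: `N` even, `|Z 2| = 1`). `sv2 2`: choose `b` with `K 2^(-b) ≤ η/4`; the error `z^E + 1` (`A` against `N/q`: the difference is `≤ 1`) is `≤ (η/2) main` since `main ≥ N^w VW ≥ N^w C/(log N)^2` (`VN_low`, `VN_le_VW`) and `z^E ≤ N^(c0 E) ≤ N^(w/2)` for
`c0 ≤ c1 = w/(2E)`, `N` large. (`z ≥ 3` for `N` large.)
-/

set_option autoImplicit false

open Finset
open Pool.Agent.Lib.GT (Rough pr V)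
open Pool.Agent.Lib.MP_45349e_nt.LS (lam)
open Pool.Agent.Lib.PQ (pw)

namespace Pool.Agent.Lib.XE

open Classical in
/-- the excluded classes -/
private noncomputable def zcl (N q p : ℕ) : Finset ℕ :=
  (range p).filter fun r => r = 0 ∨ N ≡ q * r [MOD p]

private theorem zcl_card {N q p : ℕ} (hp : p.Prime) (hq : ¬ p ∣ q) : (zcl N q p).card = rh N p := by
  classical
  have : Fact p.Prime := ⟨hp⟩
  have hq0 : (q : ZMod p) ≠ 0 := by
    intro h
    exact hq ((ZMod.natCast_eq_zero_iff q p).1 h)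
  set s : ℕ := ((N : ZMod p) * (q : ZMod p)⁻¹).val with hs
  have hs1 : s < p := ZMod.val_lt _
  have hs2 : ∀ r : ℕ, r < p → (N ≡ q * r [MOD p] ↔ r = s) := by
    intro r hr
    rw [← ZMod.natCast_eq_natCast_iff]
    push_cast
    constructor
    · intro h
      have h1 : (r : ZMod p) = (N : ZMod p) * (q : ZMod p)⁻¹ := by
        rw [h]
        field_simp
      rw [hs, ← h1, ZMod.val_natCast, Nat.mod_eq_of_lt hr]
    · intro h
      have h1 : (r : ZMod p) = (N : ZMod p) * (q : ZMod p)⁻¹ := by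
        rw [h, hs, ZMod.natCast_zmod_val]
      rw [h1]
      field_simp
  have hz : zcl N q p = {0, s} := by
    ext r
    unfold zcl
    rw [mem_filter, mem_range, mem_insert, mem_singleton]
    constructor
    · rintro ⟨h1, h2 | h2⟩
      · exact Or.inl h2
      · exact Or.inr ((hs2 r h1).1 h2)
    · rintro (h | h)
      · subst h
        exact ⟨hp.pos, Or.inl rfl⟩
      · subst h
        exact ⟨hs1, Or.inr ((hs2 _ hs1).2 rfl)⟩
  have h0 : s = 0 ↔ p ∣ N := by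
    have h1 := hs2 0 hp.pos
    rw [mul_zero, Nat.modEq_zero_iff_dvd] at h1
    rw [h1]
    exact eq_comm
  rw [hz]
  unfold rh
  split_ifs with h
  · rw [h0.2 h]
    rfl
  · rw [card_insert_of_notMem, card_singleton]
    rw [mem_singleton]
    intro h'
    exact h (h0.1 h'.symm)

private theorem zcl_mem {N q p n : ℕ} (hp : p.Prime) :
    n % p ∈ zcl N q p ↔ p ∣ n ∨ N ≡ q * n [MOD p] := by
  classical
  unfold zcl
  rw [mem_filter, mem_range]
  have h1 : n % p < p := Nat.mod_lt _ hp.pos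
  have h2 : n % p = 0 ↔ p ∣ n := by rw [Nat.dvd_iff_mod_eq_zero]
  have h3 : (N ≡ q * (n % p) [MOD p]) ↔ (N ≡ q * n [MOD p]) := by
    have h4 : q * (n % p) ≡ q * n [MOD p] := Nat.ModEq.mul_left q (Nat.mod_modEq n p)
    exact ⟨fun h => h.trans h4, fun h => h.trans h4.symm⟩
  rw [h2, h3]
  exact ⟨fun h => h.2, fun h => ⟨h1, h⟩⟩

open Classical in
private theorem aa_set {N z q W v : ℕ} (hN : 1 ≤ N) (hq : 1 ≤ q)
    (hv : ∀ p : ℕ, p.Prime → p ≤ z → p ∣ W → ¬ p ∣ v ∧ ¬ N ≡ q * v [MOD p]) :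
    ((AA N z q).filter fun a => a ≡ v [MOD W]) =
      (Ioc 0 ((N - 1) / q)).filter fun n => n ≡ v [MOD W] ∧
        ∀ p ∈ (pr z).filter (fun p => ¬ p ∣ W), n % p ∉ zcl N q p := by
  ext a
  rw [mem_filter, mem_filter, mem_Ioc]
  unfold AA
  rw [mem_filter, mem_Icc]
  have hA : a ≤ (N - 1) / q ↔ q * a < N := by
    rw [Nat.le_div_iff_mul_le (by omega), mul_comm a q]
    omega
  rw [hA]
  have hR : q * a < N → a ≡ v [MOD W] → ((Rough z a ∧ Rough z (N - q * a)) ↔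
      ∀ p ∈ (pr z).filter (fun p => ¬ p ∣ W), a % p ∉ zcl N q p) := by
    intro h1 h2
    rw [Pool.Agent.Lib.GT.rough_iff, Pool.Agent.Lib.GT.rough_iff]
    have hd : ∀ p : ℕ, p ∣ N - q * a ↔ N ≡ q * a [MOD p] := by
      intro p
      rw [← Nat.modEq_iff_dvd' h1.le]
      exact ⟨fun h => h.symm, fun h => h.symm⟩
    constructor
    · rintro ⟨h3, h4⟩ p hp
      rw [mem_filter] at hp
      have hpp : p.Prime := by
        have := hp.1
        unfold pr at this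
        exact (mem_filter.1 this).2
      rw [zcl_mem hpp]
      rintro (h5 | h5)
      · exact h3 p hp.1 h5
      · exact h4 p hp.1 ((hd p).2 h5)
    · intro h3
      have key : ∀ p ∈ pr z, ¬ p ∣ a ∧ ¬ N ≡ q * a [MOD p] := by
        intro p hp
        have hpp : p.Prime ∧ p ≤ z := by
          unfold pr at hp
          rw [mem_filter, mem_range] at hp
          exact ⟨hp.2, by omega⟩
        by_cases hW : p ∣ W
        · obtain ⟨h4, h5⟩ := hv p hpp.1 hpp.2 hW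
          have h6 : a ≡ v [MOD p] := h2.of_dvd hW
          refine ⟨fun h7 => h4 ?_, fun h7 => h5 ?_⟩
          · exact (h6.dvd_iff (dvd_refl p)).1 h7
          · exact h7.trans (Nat.ModEq.mul_left q h6)
        · have h4 := h3 p (mem_filter.2 ⟨hp, hW⟩)
          rw [zcl_mem hpp.1] at h4
          push Not at h4
          exact h4
      exact ⟨fun p hp => (key p hp).1, fun p hp h => (key p hp).2 ((hd p).1 h)⟩
  constructor
  · rintro ⟨⟨⟨h1, h2⟩, h3, h4, h5⟩, h6⟩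
    exact ⟨⟨by omega, h3⟩, h6, (hR h3 h6).1 ⟨h4, h5⟩⟩
  · rintro ⟨⟨h1, h3⟩, h6, h7⟩
    have h8 := (hR h3 h6).2 h7
    have h9 : a ≤ q * a := Nat.le_mul_of_pos_left a (by omega)
    exact ⟨⟨⟨by omega, by omega⟩, h3, h8.1, h8.2⟩, h6⟩

open Classical in
/-- the count with the error of the sieve -/
private theorem aa_core : ∃ K : ℝ, 1 ≤ K ∧ ∀ b : ℕ, 1 ≤ b → ∃ E : ℕ, ∀ z : ℕ, 2 ≤ z → ∀ N : ℕ, 1 ≤ N →
    Even N → ∀ q W v : ℕ, 1 ≤ q → 1 ≤ W → Rough z q →
    (∀ p : ℕ, p.Prime → p ≤ z → p ∣ W → ¬ p ∣ v ∧ ¬ N ≡ q * v [MOD p]) →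
    |(((AA N z q).filter fun a => a ≡ v [MOD W]).card : ℝ) -
      (N : ℝ) / ((q : ℝ) * W) * VW N z W| ≤
      K * (1 / 2) ^ b * ((N : ℝ) / ((q : ℝ) * W) * VW N z W) + ((z : ℝ) ^ E + 1) := by
  obtain ⟨K, hK, h⟩ := sv2 2
  refine ⟨K, hK, fun b hb => ?_⟩
  obtain ⟨E, hE⟩ := h b hb
  refine ⟨E, fun z hz N hN hev q W v hq hW hqz hv => ?_⟩
  have hmem : ∀ p ∈ (pr z).filter (fun p => ¬ p ∣ W), p.Prime ∧ p ≤ z ∧ ¬ p ∣ W := by
    intro p hp
    rw [mem_filter] at hp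
    have := hp.1
    unfold pr at this
    rw [mem_filter, mem_range] at this
    exact ⟨this.2, by omega, hp.2⟩
  have hqp : ∀ p ∈ (pr z).filter (fun p => ¬ p ∣ W), ¬ p ∣ q := by
    intro p hp hd
    have h1 := hmem p hp
    have := hqz p h1.1 hd
    omega
  have hcard : ∀ p ∈ (pr z).filter (fun p => ¬ p ∣ W), (zcl N q p).card = rh N p :=
    fun p hp => zcl_card (hmem p hp).1 (hqp p hp)
  have h1 := hE z hz ((pr z).filter (fun p => ¬ p ∣ W)) (fun p hp => ⟨(hmem p hp).1, (hmem p hp).2.1⟩)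
    W hW (fun p hp => (hmem p hp).2.2) v (zcl N q) (by
      intro p hp
      have hpp := (hmem p hp).1
      have hc := hcard p hp
      have hr : rh N p ≤ 2 := by
        unfold rh
        split_ifs <;> omega
      refine ⟨by omega, ?_, ?_⟩
      · rcases hpp.eq_two_or_odd with h2 | h2
        · have : rh N p = 1 := by
            unfold rh
            rw [if_pos]
            rw [h2]
            exact hev.two_dvd
          omega
        · have := hpp.two_le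
          omega
      · intro r hr
        unfold zcl at hr
        exact mem_range.1 (mem_filter.1 hr).1) 0 ((N - 1) / q) (Nat.zero_le _)
  rw [← aa_set hN hq hv] at h1
  have hprod : (∏ p ∈ (pr z).filter (fun p => ¬ p ∣ W), (1 - ((zcl N q p).card : ℝ) / p)) = VW N z W := by
    unfold VW
    refine prod_congr rfl fun p hp => ?_
    rw [hcard p hp]
  rw [hprod] at h1
  set A : ℕ := (N - 1) / q with hA
  set X : ℝ := (((AA N z q).filter fun a => a ≡ v [MOD W]).card : ℝ) with hX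
  set D : ℝ := VW N z W with hD
  have hD0 : 0 < D := VW_pos hev z W
  have hD1 : D ≤ 1 := VW_le_one hev z W
  have hq0 : (0 : ℝ) < q := by exact_mod_cast hq
  have hW0 : (0 : ℝ) < W := by exact_mod_cast hW
  have hW1 : (1 : ℝ) ≤ W := by exact_mod_cast hW
  have hA1 : (A : ℝ) ≤ (N : ℝ) / q := by
    rw [le_div_iff₀ hq0]
    have : A * q ≤ N := by
      have := Nat.div_mul_le_self (N - 1) q
      rw [← hA] at this
      omega
    exact_mod_cast this
  have hA2 : (N : ℝ) / q ≤ A + 1 := by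
    rw [div_le_iff₀ hq0]
    have : N ≤ (A + 1) * q := by
      have := Nat.lt_div_mul_add (a := N - 1) (b := q) (by omega)
      rw [← hA] at this
      have h2 : (A + 1) * q = A * q + q := by ring
      omega
    exact_mod_cast this
  have hm1 : ((A : ℝ) - ((0 : ℕ) : ℝ)) / W * D ≤ (N : ℝ) / (q * W) * D := by
    rw [Nat.cast_zero, sub_zero]
    have : (A : ℝ) / W ≤ (N : ℝ) / (q * W) := by
      rw [← div_div]
      exact div_le_div_of_nonneg_right hA1 hW0.le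
    exact mul_le_mul_of_nonneg_right this hD0.le
  have hm2 : (N : ℝ) / (q * W) * D ≤ ((A : ℝ) - ((0 : ℕ) : ℝ)) / W * D + 1 := by
    rw [Nat.cast_zero, sub_zero]
    have h2 : (N : ℝ) / (q * W) ≤ (A : ℝ) / W + 1 := by
      rw [← div_div, div_add' _ _ _ hW0.ne']
      refine div_le_div_of_nonneg_right ?_ hW0.le
      linarith
    calc (N : ℝ) / (q * W) * D ≤ ((A : ℝ) / W + 1) * D := mul_le_mul_of_nonneg_right h2 hD0.le
      _ = (A : ℝ) / W * D + D := by ring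
      _ ≤ (A : ℝ) / W * D + 1 := by linarith
  have hKb : 0 ≤ K * (1 / 2) ^ b := by positivity
  have h2 : K * (1 / 2) ^ b * (((A : ℝ) - ((0 : ℕ) : ℝ)) / W * D) ≤
      K * (1 / 2) ^ b * ((N : ℝ) / (q * W) * D) := mul_le_mul_of_nonneg_left hm1 hKb
  rw [abs_le] at h1 ⊢
  constructor
  · linarith [h1.1]
  · linarith [h1.2]

open Classical in
theorem aa_asym (η w : ℝ) (hη : 0 < η) (hw : 0 < w) : ∃ c1 : ℝ, 0 < c1 ∧ ∀ c0 : ℝ, 0 < c0 → c0 ≤ c1 →
    ∃ N0 : ℕ, ∀ N : ℕ, N0 ≤ N → Even N → ∀ z : ℕ, (N : ℝ) ^ (c0 / 2) ≤ z → (z : ℝ) ≤ (N : ℝ) ^ c0 →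
    ∀ q W v : ℕ, 1 ≤ q → 1 ≤ W → Rough z q → ((q * W : ℕ) : ℝ) ≤ (N : ℝ) ^ (1 - w) →
    (∀ p : ℕ, p.Prime → p ≤ z → p ∣ W → ¬ p ∣ v ∧ ¬ N ≡ q * v [MOD p]) →
    |(((AA N z q).filter fun a => a ≡ v [MOD W]).card : ℝ) -
      (N : ℝ) / ((q : ℝ) * W) * VW N z W| ≤ η * ((N : ℝ) / ((q : ℝ) * W) * VW N z W) := by
  obtain ⟨K, hK, h⟩ := aa_core
  obtain ⟨b, hb⟩ : ∃ b : ℕ, (1 / 2 : ℝ) ^ b < η / (2 * K) :=
    exists_pow_lt_of_lt_one (by positivity) (by norm_num)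
  have hb' : K * (1 / 2) ^ (b + 1) ≤ η / 2 := by
    have h1 : (1 / 2 : ℝ) ^ (b + 1) ≤ (1 / 2 : ℝ) ^ b := pow_le_pow_of_le_one (by norm_num) (by norm_num) (by omega)
    have h2 : K * (1 / 2) ^ (b + 1) ≤ K * (η / (2 * K)) :=
      mul_le_mul_of_nonneg_left (h1.trans hb.le) (by linarith)
    have h3 : K * (η / (2 * K)) = η / 2 := by
      have : K ≠ 0 := by linarith [hK] |> ne_of_gt
      field_simp
    linarith
  obtain ⟨E, hE⟩ := h (b + 1) (by omega)
  obtain ⟨C, hC, hlow⟩ := VN_low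
  refine ⟨min 1 (w / (2 * (E + 1))), by positivity, fun c0 hc0 hc1 => ?_⟩
  have hc2 : c0 ≤ 1 := hc1.trans (min_le_left _ _)
  have hc3 : c0 * E ≤ w / 2 := by
    have h1 : c0 ≤ w / (2 * (E + 1)) := hc1.trans (min_le_right _ _)
    have hE0 : (0 : ℝ) < 2 * (E + 1) := by positivity
    rw [le_div_iff₀ hE0] at h1
    nlinarith
  have ev1 : ∀ᶠ N : ℕ in Filter.atTop, (2 : ℝ) ≤ (N : ℝ) ^ (c0 / 2) :=
    ((tendsto_rpow_atTop (by positivity : 0 < c0 / 2)).comp tendsto_natCast_atTop_atTop).eventually_ge_atTop 2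
  have ev2 : ∀ᶠ N : ℕ in Filter.atTop, (Real.log N) ^ 2 ≤ (η * C / 4) * (N : ℝ) ^ (w / 2) := by
    have h1 := (isLittleO_log_rpow_rpow_atTop (2 : ℝ) (by positivity : 0 < w / 2)).bound
      (by positivity : 0 < η * C / 4)
    have h2 := tendsto_natCast_atTop_atTop (R := ℝ) |>.eventually h1
    filter_upwards [h2, Filter.eventually_ge_atTop 1] with N hN h1N
    have h3 : (1 : ℝ) ≤ N := by exact_mod_cast h1N
    have h4 : 0 ≤ Real.log N := Real.log_nonneg h3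
    rw [Real.norm_of_nonneg (by positivity), Real.norm_of_nonneg (by positivity)] at hN
    have h5 : Real.log (N : ℝ) ^ (2 : ℝ) = Real.log N ^ 2 := by
      rw [← Real.rpow_natCast]
      norm_num
    rw [h5] at hN
    exact hN
  obtain ⟨N0, hN0⟩ := Filter.eventually_atTop.1 ((ev1.and ev2).and (Filter.eventually_ge_atTop 2))
  refine ⟨N0, fun N hN hev z hz1 hz2 q W v hq hW hqz hqW hv => ?_⟩
  obtain ⟨⟨e1, e2⟩, e3⟩ := hN0 N hN
  have hN1 : (1 : ℝ) ≤ N := by exact_mod_cast (by omega : 1 ≤ N)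
  have hNpos : (0 : ℝ) < N := by linarith
  have hz : 2 ≤ z := by exact_mod_cast e1.trans hz1
  have hmain := hE z hz N (by omega) hev q W v hq hW hqz hv
  set D : ℝ := VW N z W with hD
  have hq0 : (0 : ℝ) < q := by exact_mod_cast hq
  have hW0 : (0 : ℝ) < W := by exact_mod_cast hW
  have hzpos : (0 : ℝ) < z := by exact_mod_cast (by omega : 0 < z)
  have hlz : 0 < Real.log z := Real.log_pos (by exact_mod_cast (by omega : 1 < z))
  have hzN : (z : ℝ) ≤ N := by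
    refine hz2.trans ?_
    calc (N : ℝ) ^ c0 ≤ (N : ℝ) ^ (1 : ℝ) := Real.rpow_le_rpow_of_exponent_le hN1 hc2
      _ = N := Real.rpow_one _
  have hlzN : Real.log z ≤ Real.log N := Real.log_le_log hzpos hzN
  have hD1 : C / (Real.log N) ^ 2 ≤ D := by
    have h1 := hlow N z hev hz
    have h2 := VN_le_VW hev z W
    have h3 : C / (Real.log N) ^ 2 ≤ C / (Real.log z) ^ 2 := by
      apply div_le_div_of_nonneg_left hC.le (by positivity)
      exact pow_le_pow_left₀ hlz.le hlzN 2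
    linarith
  have hlN : 0 < Real.log N := lt_of_lt_of_le hlz hlzN
  have hqW' : (N : ℝ) ^ w ≤ (N : ℝ) / (q * W) := by
    rw [le_div_iff₀ (by positivity)]
    push_cast at hqW
    calc (N : ℝ) ^ w * (q * W) ≤ (N : ℝ) ^ w * (N : ℝ) ^ (1 - w) :=
          mul_le_mul_of_nonneg_left hqW (by positivity)
      _ = N := by
          rw [← Real.rpow_add hNpos]
          simp
  have hzE : (z : ℝ) ^ E ≤ (N : ℝ) ^ (w / 2) := by
    calc (z : ℝ) ^ E ≤ ((N : ℝ) ^ c0) ^ E := pow_le_pow_left₀ hzpos.le hz2 E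
      _ = (N : ℝ) ^ (c0 * E) := by
          rw [Real.rpow_mul hNpos.le, Real.rpow_natCast]
      _ ≤ (N : ℝ) ^ (w / 2) := Real.rpow_le_rpow_of_exponent_le hN1 hc3
  have h1w : (1 : ℝ) ≤ (N : ℝ) ^ (w / 2) := Real.one_le_rpow hN1 (by positivity)
  have hsq : (N : ℝ) ^ w = (N : ℝ) ^ (w / 2) * (N : ℝ) ^ (w / 2) := by
    rw [← Real.rpow_add hNpos]
    ring_nf
  have herr : (z : ℝ) ^ E + 1 ≤ η / 2 * ((N : ℝ) / (q * W) * D) := by
    have h1 : (N : ℝ) ^ w * (C / (Real.log N) ^ 2) ≤ (N : ℝ) / (q * W) * D :=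
      mul_le_mul hqW' hD1 (by positivity) (by positivity)
    have h2 : 2 * (N : ℝ) ^ (w / 2) ≤ η / 2 * ((N : ℝ) ^ w * (C / (Real.log N) ^ 2)) := by
      rw [hsq]
      have h3 : η / 2 * ((N : ℝ) ^ (w / 2) * (N : ℝ) ^ (w / 2) * (C / (Real.log N) ^ 2)) =
          (η * C / 4 * (N : ℝ) ^ (w / 2)) * (2 * (N : ℝ) ^ (w / 2)) / (Real.log N) ^ 2 := by
        field_simp
        ring
      rw [h3, le_div_iff₀ (by positivity)]
      calc 2 * (N : ℝ) ^ (w / 2) * (Real.log N) ^ 2 = (Real.log N) ^ 2 * (2 * (N : ℝ) ^ (w / 2)) := by ring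
        _ ≤ (η * C / 4 * (N : ℝ) ^ (w / 2)) * (2 * (N : ℝ) ^ (w / 2)) :=
          mul_le_mul_of_nonneg_right e2 (by positivity)
    have h4 : η / 2 * ((N : ℝ) ^ w * (C / (Real.log N) ^ 2)) ≤ η / 2 * ((N : ℝ) / (q * W) * D) :=
      mul_le_mul_of_nonneg_left h1 (by positivity)
    linarith
  have hM0 : 0 ≤ (N : ℝ) / (q * W) * D := by
    have : 0 < D := VW_pos hev z W
    positivity
  have hfin : K * (1 / 2) ^ (b + 1) * ((N : ℝ) / (q * W) * D) ≤ η / 2 * ((N : ℝ) / (q * W) * D) :=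
    mul_le_mul_of_nonneg_right hb' hM0
  calc _ ≤ K * (1 / 2) ^ (b + 1) * ((N : ℝ) / (q * W) * D) + ((z : ℝ) ^ E + 1) := hmain
    _ ≤ η * ((N : ℝ) / (q * W) * D) := by linarith

end Pool.Agent.Lib.XE
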