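import Pool.Agent.Lib.MP_61161c_nt.XE.Dd1
import Pool.Agent.Lib.MP_61161c_nt.XE.Vl

/-!
# large prime factors of `N - q a` on average over `q`   (module Dd, 70 minutes)

PROOF. Constants `K`, `E` of `dd1` for `b = 1`; `C = 8 (1 + K)`. Split `LL` into the blocks `(2^j, 2^(j+1)]`, `j ≤ 2 log N` blocks with `2^j ≤ N^(1-μ/10)` and `2^(j+1) ≥ N^(1/2)`, so `Λ = 2^j ≥ N^(1/2)/2 ≥ 2 Q` (`2 Q ≤ (24 N)^(1/2-μ)`, `N` large), `z < N^μ ≤ Q`, `q ∤ N`. Main term: `(N/Λ) |LL_j| ≤ 2 N ∑_{l ∈ LL_j} 1/l`.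
Error: `|LL_j| ≤ Λ`, so `z^E (Λ + (1/Q) √((Λ + Q²) Λ) √((N/Λ + Q²) (N/Λ + 1)))`; `√(x + y) ≤ √x + √y`: `≤ z^E 4 (Λ + N/Q + √N √(max Λ (N/Λ)) + Q √N)` (`Λ ≤ N`, `N/Λ ≥ 1`); `Λ, N/Λ ≤ 2 N^(1-μ/10)`, `Q ≥ N^μ`, `Q ≤ 24 N^(1/2-μ)`: `≤ 100 z^E N^(1-μ/20)`. `z^E ≤ N^(c0 E) ≤ N^(μ/100)` for `c0 ≤ c1 = μ/(100 E + 100)`; the sum over the blocks is `≤ N^(1-μ/50)` for `N` large.
-/

set_option autoImplicit false

open Finset
open Pool.Agent.Lib.GT (Rough pr V)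
open Pool.Agent.Lib.MP_45349e_nt.LS (lam)
open Pool.Agent.Lib.PQ (pw)

namespace Pool.Agent.Lib.XE

private theorem dd_err (N Q Λ L μ : ℝ) (hN : 1 ≤ N) (hμ : 0 < μ) (hμ1 : μ ≤ 1 / 10) (hΛ0 : 0 < Λ)
    (hΛ : Λ ≤ N ^ (1 - μ / 10)) (hΛ2 : N ^ (1 / 2 : ℝ) ≤ 2 * Λ) (hL0 : 0 ≤ L) (hL : L ≤ Λ)
    (hQ1 : N ^ μ ≤ Q) (hQ2 : 2 * Q ≤ 5 * N ^ (1 / 2 - μ)) :
    L + 1 / Q * (√((Λ + Q ^ 2) * L) * √((N / Λ + Q ^ 2) * (N / Λ + 1))) ≤ 6 * N ^ (1 - μ / 20) := by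
  have hN0 : 0 < N := by linarith
  obtain ⟨X, hX⟩ : ∃ X : ℝ, X = N ^ (1 - μ / 10) := ⟨_, rfl⟩
  obtain ⟨Y, hY⟩ : ∃ Y : ℝ, Y = N ^ (1 - μ / 20) := ⟨_, rfl⟩
  rw [← hY]
  rw [← hX] at hΛ
  have hX0 : 0 < X := by rw [hX]; positivity
  have hY0 : 0 < Y := by rw [hY]; positivity
  have hQ0 : 0 < Q := lt_of_lt_of_le (by positivity) hQ1
  have h1 : N ≤ Q ^ 2 * X := by
    have h11 : N ^ (2 * μ) ≤ Q ^ 2 := by
      have h12 : N ^ (2 * μ) = (N ^ μ) ^ 2 := by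
        rw [← Real.rpow_natCast (N ^ μ) 2, ← Real.rpow_mul hN0.le]
        push_cast
        rw [mul_comm]
      rw [h12]
      exact pow_le_pow_left₀ (by positivity) hQ1 2
    calc N = N ^ (1 : ℝ) := (Real.rpow_one N).symm
      _ ≤ N ^ (2 * μ + (1 - μ / 10)) := Real.rpow_le_rpow_of_exponent_le hN (by linarith)
      _ = N ^ (2 * μ) * X := by rw [Real.rpow_add hN0, hX]
      _ ≤ _ := mul_le_mul_of_nonneg_right h11 hX0.le
  have h2 : N / Λ ≤ 2 * X := by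
    rw [div_le_iff₀ hΛ0]
    calc N = N ^ (1 / 2 : ℝ) * N ^ (1 / 2 : ℝ) := by rw [← Real.rpow_add hN0]; norm_num
      _ ≤ X * (2 * Λ) := by
        refine mul_le_mul ?_ hΛ2 (by positivity) hX0.le
        rw [hX]
        exact Real.rpow_le_rpow_of_exponent_le hN (by linarith)
      _ = 2 * X * Λ := by ring
  have h3 : Q ^ 2 ≤ 7 * X := by
    have h31 : Q ≤ 5 / 2 * N ^ (1 / 2 - μ) := by linarith
    have h32 : (N ^ (1 / 2 - μ)) ^ 2 ≤ X := by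
      rw [← Real.rpow_natCast (N ^ (1 / 2 - μ)) 2, ← Real.rpow_mul hN0.le, hX]
      refine Real.rpow_le_rpow_of_exponent_le hN ?_
      push_cast
      linarith
    calc Q ^ 2 ≤ (5 / 2 * N ^ (1 / 2 - μ)) ^ 2 := pow_le_pow_left₀ hQ0.le h31 2
      _ = 25 / 4 * (N ^ (1 / 2 - μ)) ^ 2 := by ring
      _ ≤ 25 / 4 * X := mul_le_mul_of_nonneg_left h32 (by norm_num)
      _ ≤ 7 * X := by linarith
  have hXN : X ≤ N := by
    calc X ≤ N ^ (1 : ℝ) := by rw [hX]; exact Real.rpow_le_rpow_of_exponent_le hN (by linarith)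
      _ = N := Real.rpow_one N
  have h4 : 1 ≤ N / Λ := by
    rw [le_div_iff₀ hΛ0, one_mul]
    exact hΛ.trans hXN
  have h5 : N * X = Y ^ 2 := by
    calc N * X = N ^ (1 : ℝ) * N ^ (1 - μ / 10) := by rw [Real.rpow_one, hX]
      _ = N ^ (1 + (1 - μ / 10)) := (Real.rpow_add hN0 _ _).symm
      _ = N ^ ((1 - μ / 20) * (2 : ℕ)) := by
        congr 1
        push_cast
        ring
      _ = Y ^ 2 := by rw [Real.rpow_mul hN0.le, Real.rpow_natCast, hY]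
  have h6 : ((Λ + Q ^ 2) * L) * ((N / Λ + Q ^ 2) * (N / Λ + 1)) ≤ (5 * Y * Q) ^ 2 := by
    have hnl : 0 ≤ N / Λ := by positivity
    calc ((Λ + Q ^ 2) * L) * ((N / Λ + Q ^ 2) * (N / Λ + 1))
        ≤ ((Λ + Q ^ 2) * Λ) * ((N / Λ + Q ^ 2) * (N / Λ + N / Λ)) := by gcongr
      _ = 2 * N * (N + Λ * Q ^ 2 + Q ^ 2 * (N / Λ) + Q ^ 2 * Q ^ 2) := by field_simp; ring
      _ ≤ 2 * N * (Q ^ 2 * X + X * Q ^ 2 + Q ^ 2 * (2 * X) + Q ^ 2 * (7 * X)) := by gcongr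
      _ = 22 * ((N * X) * Q ^ 2) := by ring
      _ ≤ 25 * ((N * X) * Q ^ 2) := mul_le_mul_of_nonneg_right (by norm_num) (by positivity)
      _ = (5 * Y * Q) ^ 2 := by rw [h5]; ring
  have h7 : √((Λ + Q ^ 2) * L) * √((N / Λ + Q ^ 2) * (N / Λ + 1)) ≤ 5 * Y * Q := by
    rw [← Real.sqrt_mul (by positivity)]
    exact Real.sqrt_le_iff.2 ⟨by positivity, h6⟩
  have h8 : L ≤ Y := by
    refine hL.trans (hΛ.trans ?_)
    rw [hX, hY]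
    exact Real.rpow_le_rpow_of_exponent_le hN (by linarith)
  calc L + 1 / Q * (√((Λ + Q ^ 2) * L) * √((N / Λ + Q ^ 2) * (N / Λ + 1)))
      ≤ Y + 1 / Q * (5 * Y * Q) := add_le_add h8 (mul_le_mul_of_nonneg_left h7 (by positivity))
    _ = 6 * Y := by field_simp; ring

/-- the number of blocks -/
private theorem dd_blk (e : ℝ) (he : 0 < e) : ∃ N0 : ℕ, ∀ N : ℕ, N0 ≤ N →
    6 * ((Nat.log 2 N : ℝ) + 1) ≤ (N : ℝ) ^ e := by
  have h1 : Filter.Tendsto (fun x : ℝ => Real.log x / x ^ (e / 2)) Filter.atTop (nhds 0) := by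
    have := isLittleO_log_rpow_atTop (show 0 < e / 2 by linarith)
    exact this.tendsto_div_nhds_zero
  have h2 : Filter.Tendsto (fun x : ℝ => x ^ (e / 2)) Filter.atTop Filter.atTop :=
    tendsto_rpow_atTop (by linarith)
  have h3 : ∀ᶠ x : ℝ in Filter.atTop, Real.log x / x ^ (e / 2) ≤ 1 :=
    (h1.eventually (gt_mem_nhds (show (0 : ℝ) < 1 by norm_num))).mono fun x hx => hx.le
  have h4 : ∀ᶠ x : ℝ in Filter.atTop, (18 : ℝ) ≤ x ^ (e / 2) := h2.eventually_ge_atTop 18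
  have h5 := (h3.and (h4.and (Filter.eventually_ge_atTop (1 : ℝ))))
  have h6 := (tendsto_natCast_atTop_atTop (R := ℝ)).eventually h5
  obtain ⟨N0, hN0⟩ := Filter.eventually_atTop.1 h6
  refine ⟨N0, fun N hN => ?_⟩
  obtain ⟨ha, hb, hc⟩ := hN0 N hN
  have hpos : 0 < (N : ℝ) ^ (e / 2) := by linarith
  rw [div_le_iff₀ hpos, one_mul] at ha
  have hlog : (Nat.log 2 N : ℝ) ≤ 2 * Real.log N := by
    have h7 : (Nat.log 2 N : ℝ) ≤ Real.log N / Real.log 2 := by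
      have := Real.natLog_le_logb N 2
      rw [Real.logb] at this
      exact_mod_cast this
    have h8 : (1 : ℝ) / 2 ≤ Real.log 2 := by have := Real.log_two_gt_d9; linarith
    have h9 : 0 ≤ Real.log N := Real.log_nonneg hc
    refine h7.trans ?_
    rw [div_le_iff₀ (by linarith)]
    nlinarith
  have hsq : (N : ℝ) ^ e = (N : ℝ) ^ (e / 2) * (N : ℝ) ^ (e / 2) := by
    rw [← Real.rpow_add (by linarith)]
    congr 1
    ring
  rw [hsq]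
  have h10 : 6 * ((Nat.log 2 N : ℝ) + 1) ≤ 18 * (N : ℝ) ^ (e / 2) := by
    have : 6 * ((Nat.log 2 N : ℝ) + 1) ≤ 12 * (N : ℝ) ^ (e / 2) + 6 := by linarith
    linarith
  exact h10.trans (mul_le_mul_of_nonneg_right hb hpos.le)

private theorem dd_ev (e B : ℝ) (he : 0 < e) : ∃ N0 : ℕ, ∀ N : ℕ, N0 ≤ N → B ≤ (N : ℝ) ^ e := by
  have h2 : Filter.Tendsto (fun x : ℝ => x ^ e) Filter.atTop Filter.atTop := tendsto_rpow_atTop he
  have h6 := (tendsto_natCast_atTop_atTop (R := ℝ)).eventually (h2.eventually_ge_atTop B)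
  obtain ⟨N0, hN0⟩ := Filter.eventually_atTop.1 h6
  exact ⟨N0, fun N hN => hN0 N hN⟩

/-- the bounds for `Q` -/
private theorem dd_Q (N Q μ : ℝ) (hN : 1 ≤ N) (hμ : 0 < μ) (hμ1 : μ ≤ 1 / 10)
    (h2 : 2 * Q ≤ (24 * N) ^ (1 / 2 - μ)) : 2 * Q ≤ 5 * N ^ (1 / 2 - μ) := by
  have h3 : (24 : ℝ) ^ (1 / 2 - μ) ≤ 5 := by
    calc (24 : ℝ) ^ (1 / 2 - μ) ≤ (24 : ℝ) ^ (1 / 2 : ℝ) :=
          Real.rpow_le_rpow_of_exponent_le (by norm_num) (by linarith)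
      _ = √24 := (Real.sqrt_eq_rpow 24).symm
      _ ≤ 5 := Real.sqrt_le_iff.2 ⟨by norm_num, by norm_num⟩
  refine h2.trans ?_
  rw [Real.mul_rpow (by norm_num) (by linarith)]
  exact mul_le_mul_of_nonneg_right h3 (by positivity)

open Classical in
theorem dd : ∃ C : ℝ, 0 < C ∧ ∀ μ : ℝ, 0 < μ → μ ≤ 1 / 10 → ∃ c1 : ℝ, 0 < c1 ∧ ∀ c0 : ℝ, 0 < c0 →
    c0 ≤ c1 → ∃ N0 : ℕ, ∀ N : ℕ, N0 ≤ N → Even N → ∀ z : ℕ, (N : ℝ) ^ (c0 / 2) ≤ z →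
    (z : ℝ) ≤ (N : ℝ) ^ c0 → ∀ (Q : ℕ) (QQ : Finset ℕ),
    Pool.Agent.Lib.PX.QS (24 * N) μ Q QQ → ∀ LL : Finset ℕ,
    (∀ l ∈ LL, l.Prime ∧ (N : ℝ) ^ (1 / 2 : ℝ) ≤ l ∧ (l : ℝ) ≤ (N : ℝ) ^ (1 - μ / 10)) →
    ∑ q ∈ QQ, ∑ l ∈ LL, (((AA N z q).filter fun a => l ∣ N - q * a).card : ℝ) ≤
      C * (∑ l ∈ LL, 1 / (l : ℝ)) * (∑ q ∈ QQ, (N : ℝ) / q) * VN N z +
      (N : ℝ) ^ (1 - μ / 50) := by
  obtain ⟨K, hK, hdd⟩ := dd1
  obtain ⟨E, hE⟩ := hdd 1 le_rfl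
  refine ⟨8 * (1 + K), by positivity, fun μ hμ hμ1 => ?_⟩
  refine ⟨μ / (100 * ((E : ℝ) + 1)), by positivity, fun c0 hc0 hc01 => ?_⟩
  obtain ⟨N1, hN1⟩ := dd_blk (μ / 50) (by positivity)
  obtain ⟨N2, hN2⟩ := dd_ev (c0 / 2) 3 (by positivity)
  obtain ⟨N3, hN3⟩ := dd_ev μ 10 hμ
  refine ⟨max (max N1 N2) (max N3 1), fun N hN hev z hz1 hz2 Q QQ hQS LL hLL => ?_⟩
  have hNN1 : N1 ≤ N := le_trans (le_trans (le_max_left _ _) (le_max_left _ _)) hN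
  have hNN2 : N2 ≤ N := le_trans (le_trans (le_max_right _ _) (le_max_left _ _)) hN
  have hNN3 : N3 ≤ N := le_trans (le_trans (le_max_left _ _) (le_max_right _ _)) hN
  have hNN4 : 1 ≤ N := le_trans (le_trans (le_max_right _ _) (le_max_right _ _)) hN
  have hN1r : (1 : ℝ) ≤ N := by exact_mod_cast hNN4
  have hN0r : (0 : ℝ) < N := by linarith
  have hblk := hN1 N hNN1
  have h3 := hN2 N hNN2
  have h10 := hN3 N hNN3
  have hz3 : 3 ≤ z := by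
    have : (3 : ℝ) ≤ z := h3.trans hz1
    exact_mod_cast this
  -- the exponent `E`
  have hcE : c0 * E ≤ μ / 100 := by
    have h1 : c0 * E ≤ μ / (100 * ((E : ℝ) + 1)) * ((E : ℝ) + 1) := by
      refine mul_le_mul hc01 (by linarith) (by positivity) (by positivity)
    have h2 : μ / (100 * ((E : ℝ) + 1)) * ((E : ℝ) + 1) = μ / 100 := by field_simp
    linarith
  have hc0μ : c0 ≤ μ := by
    refine hc01.trans ?_
    rw [div_le_iff₀ (by positivity)]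
    have : (0 : ℝ) ≤ E := by positivity
    nlinarith
  have hzE : (z : ℝ) ^ E ≤ (N : ℝ) ^ (μ / 100) := by
    calc (z : ℝ) ^ E ≤ ((N : ℝ) ^ c0) ^ E := pow_le_pow_left₀ (by positivity) hz2 E
      _ = (N : ℝ) ^ (c0 * E) := by rw [Real.rpow_mul hN0r.le, Real.rpow_natCast]
      _ ≤ (N : ℝ) ^ (μ / 100) := Real.rpow_le_rpow_of_exponent_le hN1r hcE
  -- `Q`
  have hlow : ((24 : ℝ) * N) ^ μ ≤ Q := by
    have := hQS.low
    push_cast at this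
    exact this
  have hupp : 2 * (Q : ℝ) ≤ ((24 : ℝ) * N) ^ (1 / 2 - μ) := by
    have := hQS.upp
    push_cast at this
    exact this
  have hQ2 : 2 * (Q : ℝ) ≤ 5 * (N : ℝ) ^ (1 / 2 - μ) := dd_Q N Q μ hN1r hμ hμ1 hupp
  have hNμ : (N : ℝ) ^ μ < ((24 : ℝ) * N) ^ μ :=
    Real.rpow_lt_rpow hN0r.le (by linarith) hμ
  have hQ1 : (N : ℝ) ^ μ ≤ Q := hNμ.le.trans hlow
  have hzQ : z < Q := by
    have : (z : ℝ) < Q := by
      calc (z : ℝ) ≤ (N : ℝ) ^ c0 := hz2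
        _ ≤ (N : ℝ) ^ μ := Real.rpow_le_rpow_of_exponent_le hN1r hc0μ
        _ < _ := hNμ
        _ ≤ Q := hlow
    exact_mod_cast this
  have hmem : ∀ q ∈ QQ, q.Prime ∧ Q < q ∧ q ≤ 2 * Q ∧ ¬ q ∣ N := by
    intro q hq
    obtain ⟨ha, hb, hc, hd⟩ := hQS.mem q hq
    exact ⟨ha, hb, hc, fun h => hd (h.mul_left 24)⟩
  have hVN : 0 ≤ VN N z := (VW_pos hev z 1).le
  have hSq : ∑ q ∈ QQ, (N : ℝ) / q = N * ∑ q ∈ QQ, 1 / (q : ℝ) := by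
    rw [Finset.mul_sum]
    exact Finset.sum_congr rfl fun q _ => by ring
  have hSq0 : 0 ≤ ∑ q ∈ QQ, 1 / (q : ℝ) := Finset.sum_nonneg fun q _ => by positivity
  have hERR : 0 ≤ (z : ℝ) ^ E * (6 * (N : ℝ) ^ (1 - μ / 20)) := by positivity
  -- the blocks
  have hfib : ∀ l ∈ LL, Nat.log 2 (l - 1) ∈ Finset.range (Nat.log 2 N + 1) := by
    intro l hl
    obtain ⟨hlp, -, hl2⟩ := hLL l hl
    have hlN : l ≤ N := by
      have : (l : ℝ) ≤ N := by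
        calc (l : ℝ) ≤ (N : ℝ) ^ (1 - μ / 10) := hl2
          _ ≤ (N : ℝ) ^ (1 : ℝ) := Real.rpow_le_rpow_of_exponent_le hN1r (by linarith)
          _ = N := Real.rpow_one _
      exact_mod_cast this
    rw [Finset.mem_range]
    exact Nat.lt_succ_of_le (Nat.log_mono_right (by omega))
  have hsplit : ∀ G : ℕ → ℝ, ∑ l ∈ LL, G l =
      ∑ j ∈ Finset.range (Nat.log 2 N + 1), ∑ l ∈ LL.filter (fun l => Nat.log 2 (l - 1) = j), G l :=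
    fun G => (Finset.sum_fiberwise_of_maps_to hfib G).symm
  have hblock : ∀ j ∈ Finset.range (Nat.log 2 N + 1),
      ∑ q ∈ QQ, ∑ l ∈ LL.filter (fun l => Nat.log 2 (l - 1) = j),
        (((AA N z q).filter fun a => l ∣ N - q * a).card : ℝ) ≤
      8 * (1 + K) * (∑ l ∈ LL.filter (fun l => Nat.log 2 (l - 1) = j), 1 / (l : ℝ)) *
        (∑ q ∈ QQ, (N : ℝ) / q) * VN N z + (z : ℝ) ^ E * (6 * (N : ℝ) ^ (1 - μ / 20)) := by
    intro j _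
    obtain ⟨B, hB⟩ : ∃ B : Finset ℕ, B = LL.filter (fun l => Nat.log 2 (l - 1) = j) := ⟨_, rfl⟩
    rw [← hB]
    have hBm : ∀ l ∈ B, l.Prime ∧ 2 ^ j < l ∧ l ≤ 2 * 2 ^ j ∧ (N : ℝ) ^ (1 / 2 : ℝ) ≤ l ∧
        (l : ℝ) ≤ (N : ℝ) ^ (1 - μ / 10) := by
      intro l hl
      rw [hB, Finset.mem_filter] at hl
      obtain ⟨hlL, hlj⟩ := hl
      obtain ⟨hlp, hl1, hl2⟩ := hLL l hlL
      have h2l := hlp.two_le
      have h4 := (Nat.log_eq_iff (b := 2) (m := j) (n := l - 1) (Or.inr ⟨by norm_num, by omega⟩)).1 hlj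
      rw [pow_succ] at h4
      exact ⟨hlp, by omega, by omega, hl1, hl2⟩
    have hL0 : 0 ≤ ∑ l ∈ B, 1 / (l : ℝ) := Finset.sum_nonneg fun l _ => by positivity
    have hmain0 : 0 ≤ 8 * (1 + K) * (∑ l ∈ B, 1 / (l : ℝ)) * (∑ q ∈ QQ, (N : ℝ) / q) * VN N z := by
      rw [hSq]
      have h5 : 0 ≤ (N : ℝ) * ∑ q ∈ QQ, 1 / (q : ℝ) := mul_nonneg hN0r.le hSq0
      have h6 : 0 ≤ 8 * (1 + K) := by linarith
      exact mul_nonneg (mul_nonneg (mul_nonneg h6 hL0) h5) hVN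
    rcases B.eq_empty_or_nonempty with hBe | ⟨l0, hl0⟩
    · rw [hBe] at hmain0 ⊢
      simp only [Finset.sum_empty, Finset.sum_const_zero] at hmain0 ⊢
      linarith
    obtain ⟨Λ, hΛ⟩ : ∃ Λ : ℕ, Λ = 2 ^ j := ⟨_, rfl⟩
    rw [← hΛ] at hBm
    obtain ⟨-, hla, hlb, hlc, hld⟩ := hBm l0 hl0
    have hΛ0 : 0 < Λ := by rw [hΛ]; positivity
    have hΛ0r : (0 : ℝ) < Λ := by exact_mod_cast hΛ0
    have hΛup : (Λ : ℝ) ≤ (N : ℝ) ^ (1 - μ / 10) := by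
      have : (Λ : ℝ) ≤ l0 := by exact_mod_cast hla.le
      exact this.trans hld
    have hΛlow : (N : ℝ) ^ (1 / 2 : ℝ) ≤ 2 * Λ := by
      have : (l0 : ℝ) ≤ 2 * Λ := by exact_mod_cast hlb
      exact hlc.trans this
    have hQΛ : 2 * Q ≤ Λ := by
      have h5 : 2 * (Q : ℝ) ≤ Λ := by
        have h6 : (N : ℝ) ^ (1 / 2 : ℝ) = (N : ℝ) ^ (1 / 2 - μ) * (N : ℝ) ^ μ := by
          rw [← Real.rpow_add hN0r]
          congr 1
          ring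
        have h7 : 10 * (N : ℝ) ^ (1 / 2 - μ) ≤ (N : ℝ) ^ (1 / 2 : ℝ) := by
          rw [h6, mul_comm]
          exact mul_le_mul_of_nonneg_left h10 (by positivity)
        linarith
      exact_mod_cast h5
    have hcard : B.card ≤ Λ := by
      have h5 : B ⊆ Finset.Ioc Λ (2 * Λ) := fun l hl =>
        Finset.mem_Ioc.2 ⟨(hBm l hl).2.1, (hBm l hl).2.2.1⟩
      have h6 := Finset.card_le_card h5
      rw [Nat.card_Ioc] at h6
      omega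
    have hcard2 : (B.card : ℝ) / Λ ≤ 2 * ∑ l ∈ B, 1 / (l : ℝ) := by
      rw [Finset.mul_sum, div_eq_mul_inv, ← nsmul_eq_mul, ← Finset.sum_const]
      refine Finset.sum_le_sum fun l hl => ?_
      have h5 : (l : ℝ) ≤ 2 * Λ := by exact_mod_cast (hBm l hl).2.2.1
      have h6 : (0 : ℝ) < l := by exact_mod_cast (hBm l hl).1.pos
      rw [mul_one_div, inv_eq_one_div, div_le_div_iff₀ hΛ0r h6]
      linarith
    have key := hE N z hev hz3 Q QQ hzQ hmem Λ B hQΛ fun l hl =>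
      ⟨(hBm l hl).1, (hBm l hl).2.1, (hBm l hl).2.2.1⟩
    refine key.trans (add_le_add ?_ ?_)
    · have h5 : (1 + K * (1 / 2) ^ 1) * VN N z * ((N : ℝ) / Λ) * B.card * ∑ q ∈ QQ, 1 / (q : ℝ) =
          (1 + K / 2) * VN N z * (N * ∑ q ∈ QQ, 1 / (q : ℝ)) * ((B.card : ℝ) / Λ) := by ring
      rw [h5, hSq]
      have h6 : 0 ≤ (N : ℝ) * ∑ q ∈ QQ, 1 / (q : ℝ) := mul_nonneg hN0r.le hSq0
      have h7 : 0 ≤ 1 + K / 2 := by linarith
      calc (1 + K / 2) * VN N z * (N * ∑ q ∈ QQ, 1 / (q : ℝ)) * ((B.card : ℝ) / Λ)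
          ≤ (1 + K / 2) * VN N z * (N * ∑ q ∈ QQ, 1 / (q : ℝ)) * (2 * ∑ l ∈ B, 1 / (l : ℝ)) :=
            mul_le_mul_of_nonneg_left hcard2 (mul_nonneg (mul_nonneg h7 hVN) h6)
        _ = (2 + K) * ((∑ l ∈ B, 1 / (l : ℝ)) * (N * ∑ q ∈ QQ, 1 / (q : ℝ)) * VN N z) := by ring
        _ ≤ (8 * (1 + K)) * ((∑ l ∈ B, 1 / (l : ℝ)) * (N * ∑ q ∈ QQ, 1 / (q : ℝ)) * VN N z) :=
            mul_le_mul_of_nonneg_right (by linarith) (mul_nonneg (mul_nonneg hL0 h6) hVN)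
        _ = _ := by ring
    · refine mul_le_mul_of_nonneg_left ?_ (by positivity)
      exact dd_err N Q Λ B.card μ hN1r hμ hμ1 hΛ0r hΛup hΛlow (by positivity)
        (by exact_mod_cast hcard) hQ1 hQ2
  calc ∑ q ∈ QQ, ∑ l ∈ LL, (((AA N z q).filter fun a => l ∣ N - q * a).card : ℝ)
      = ∑ q ∈ QQ, ∑ j ∈ Finset.range (Nat.log 2 N + 1),
          ∑ l ∈ LL.filter (fun l => Nat.log 2 (l - 1) = j),
          (((AA N z q).filter fun a => l ∣ N - q * a).card : ℝ) :=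
        Finset.sum_congr rfl fun q _ => hsplit _
    _ = ∑ j ∈ Finset.range (Nat.log 2 N + 1), ∑ q ∈ QQ,
          ∑ l ∈ LL.filter (fun l => Nat.log 2 (l - 1) = j),
          (((AA N z q).filter fun a => l ∣ N - q * a).card : ℝ) := Finset.sum_comm
    _ ≤ ∑ j ∈ Finset.range (Nat.log 2 N + 1),
        (8 * (1 + K) * (∑ l ∈ LL.filter (fun l => Nat.log 2 (l - 1) = j), 1 / (l : ℝ)) *
          (∑ q ∈ QQ, (N : ℝ) / q) * VN N z + (z : ℝ) ^ E * (6 * (N : ℝ) ^ (1 - μ / 20))) :=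
        Finset.sum_le_sum hblock
    _ = 8 * (1 + K) * (∑ l ∈ LL, 1 / (l : ℝ)) * (∑ q ∈ QQ, (N : ℝ) / q) * VN N z +
        (6 * ((Nat.log 2 N : ℝ) + 1)) * ((z : ℝ) ^ E * (N : ℝ) ^ (1 - μ / 20)) := by
        have h9 : ∀ S : ℝ, ∑ j ∈ Finset.range (Nat.log 2 N + 1),
            8 * (1 + K) * (∑ l ∈ LL.filter (fun l => Nat.log 2 (l - 1) = j), 1 / (l : ℝ)) * S *
              VN N z = 8 * (1 + K) * (∑ l ∈ LL, 1 / (l : ℝ)) * S * VN N z := by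
          intro S
          rw [hsplit (fun l => 1 / (l : ℝ)), Finset.mul_sum, Finset.sum_mul, Finset.sum_mul]
        rw [Finset.sum_add_distrib, h9, Finset.sum_const, Finset.card_range, nsmul_eq_mul]
        push_cast
        ring
    _ ≤ 8 * (1 + K) * (∑ l ∈ LL, 1 / (l : ℝ)) * (∑ q ∈ QQ, (N : ℝ) / q) * VN N z +
        (N : ℝ) ^ (1 - μ / 50) := by
        refine add_le_add le_rfl ?_
        calc (6 * ((Nat.log 2 N : ℝ) + 1)) * ((z : ℝ) ^ E * (N : ℝ) ^ (1 - μ / 20))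
            ≤ (N : ℝ) ^ (μ / 50) * ((N : ℝ) ^ (μ / 100) * (N : ℝ) ^ (1 - μ / 20)) :=
              mul_le_mul hblk (mul_le_mul_of_nonneg_right hzE (by positivity)) (by positivity)
                (by positivity)
          _ = (N : ℝ) ^ (1 - μ / 50) := by
              rw [← Real.rpow_add hN0r, ← Real.rpow_add hN0r]
              congr 1
              ring

end Pool.Agent.Lib.XE
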