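import Pool.Agent.Lib.MP_61161c_nt.XE.Ls
import Pool.Agent.Lib.MP_7b7e48_nt.TC.FLM
import Pool.Agent.Lib.MP_7b7e48_nt.OW.LFC

/-!
# large prime factors of `N - q a` on average over `q`: one block   (module Dd1, 110 minutes)

PROOF. `M = N/Λ` (natural division). For `q ∈ QQ`, `l ∈ LL` and `a ∈ AA N z q` with `l ∣ N - q a` put `m = (N - q a)/l ∈ Icc 1 M` (`l > Λ`): `l m ≡ N [MOD q]`, and `p ∤ m`, `¬ l m ≡ N [MOD p]` for the primes `p ≤ z` (`N - l m = q a`, `a` rough, `q > z`); `a ↦ m` is injective. So the number of `a` is `≤ ∑_{m ≤ M, l m ≡ N [MOD q]} 1[B l m = ∅]`, `B l m = {p ∈ pr z : p ∣ m ∨ l m ≡ N [MOD p]}`.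
`TC.flm 2` for `P = pr z`, `g p = rh N p/p`: `1[B = ∅] ≤ ∑_{d ⊆ B} up d`. Exchange the sums: `∑_d up d S_d`, `S_d = ∑_q ∑_{l, m} 1[l m ≡ N [MOD q]] 1[d ⊆ B l m]`, only `d` with `D = ∏ d ≤ z^(12 b)`. `1[d ⊆ B l m]` depends on `h = l mod D`, `r = m mod D`. For each pair `(h, r)` apply `ls_bil` with `L = 2 Λ`, `α = 1[l ∈ LL, l ≡ h]`, `β = 1[m ≡ r]`. Main term: for fixed `q` and `l` the number of `m ≤ M`, `q ∤ m`, `d ⊆ B l m` is `M (1 - 1/q) ∏ rh/p + O(2 D)` by `OW.crt_count`; divide by `q - 1` and sum over `q` (`∑_q 1/(q-1) ≤ 1`).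
-/

set_option autoImplicit false

open Finset
open Pool.Agent.Lib.GT (Rough pr V)
open Pool.Agent.Lib.MP_45349e_nt.LS (lam)
open Pool.Agent.Lib.PQ (pw)

namespace Pool.Agent.Lib.XE

/-- the number of the subsets of a set of primes with product at most `D` -/
theorem Dd1_card_small (P : Finset ℕ) (hP : ∀ p ∈ P, p.Prime) (D : ℕ) :
    (P.powerset.filter fun d => ∏ r ∈ d, r ≤ D).card ≤ D := by
  have h := Finset.card_le_card_of_injOn (s := P.powerset.filter fun d => ∏ r ∈ d, r ≤ D) (t := Icc 1 D)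
    (fun d => ∏ r ∈ d, r) (by
      intro d hd
      rw [mem_coe, mem_filter, mem_powerset] at hd
      rw [mem_coe, mem_Icc]
      exact ⟨Nat.one_le_iff_ne_zero.mpr (Finset.prod_ne_zero_iff.mpr fun r hr => (hP r (hd.1 hr)).ne_zero), hd.2⟩) (by
      intro d hd e he hde
      rw [mem_coe, mem_filter, mem_powerset] at hd he
      have hh : ∀ s ⊆ P, (∏ r ∈ s, r).primeFactors = s := fun s hs =>
        Nat.primeFactors_prod fun p hp => hP p (hs hp)
      have h1 : (∏ r ∈ d, r) = ∏ r ∈ e, r := hde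
      rw [← hh d hd.1, ← hh e he.1, h1])
  simpa using h

/-- all primes of `d` hit the pair `l`, `m` -/
def Dd1G (N : ℕ) (d : Finset ℕ) (l m : ℕ) : Prop := ∀ p ∈ d, p ∣ m ∨ l * m ≡ N [MOD p]

theorem Dd1_mod (N : ℕ) (d : Finset ℕ) (D : ℕ) (hD : ∀ p ∈ d, p ∣ D) (l m : ℕ) :
    Dd1G N d (l % D) (m % D) ↔ Dd1G N d l m := by
  unfold Dd1G
  refine forall₂_congr fun p hp => ?_
  have h := hD p hp
  have e1 : l % D ≡ l [MOD p] := (Nat.mod_modEq l D).of_dvd h
  have e2 : m % D ≡ m [MOD p] := (Nat.mod_modEq m D).of_dvd h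
  have e3 : p ∣ m % D ↔ p ∣ m := Nat.dvd_mod_iff h
  rw [e3]
  refine or_congr_right ?_
  constructor
  · intro h5
    exact (e1.mul e2).symm.trans h5
  · intro h5
    exact (e1.mul e2).trans h5

open Classical in
theorem Dd1_split (N : ℕ) (d : Finset ℕ) (D : ℕ) (hD0 : 0 < D) (hD : ∀ p ∈ d, p ∣ D)
    (A B : Finset ℕ) (w : ℕ → ℕ → ℝ) :
    ∑ t ∈ ((range D) ×ˢ (range D)).filter (fun t => Dd1G N d t.1 t.2),
      ∑ l ∈ A, ∑ m ∈ B, w l m * ((if l % D = t.1 then (1 : ℝ) else 0) * (if m % D = t.2 then 1 else 0)) =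
    ∑ l ∈ A, ∑ m ∈ B, if Dd1G N d l m then w l m else 0 := by
  rw [Finset.sum_comm]
  refine Finset.sum_congr rfl fun l _ => ?_
  rw [Finset.sum_comm]
  refine Finset.sum_congr rfl fun m _ => ?_
  rw [← Finset.mul_sum]
  have h : ∑ t ∈ ((range D) ×ˢ (range D)).filter (fun t => Dd1G N d t.1 t.2),
      ((if l % D = t.1 then (1 : ℝ) else 0) * (if m % D = t.2 then 1 else 0)) =
      if Dd1G N d l m then 1 else 0 := by
    by_cases hg : Dd1G N d l m
    · rw [if_pos hg, Finset.sum_eq_single (l % D, m % D)]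
      · simp
      · rintro ⟨a, b⟩ _ hne
        by_cases h1 : l % D = a
        · by_cases h2 : m % D = b
          · exact absurd (by rw [h1, h2]) hne
          · simp [h2]
        · simp [h1]
      · intro hn
        exact absurd (mem_filter.2 ⟨mem_product.2 ⟨mem_range.2 (Nat.mod_lt _ hD0),
          mem_range.2 (Nat.mod_lt _ hD0)⟩, (Dd1_mod N d D hD l m).2 hg⟩) hn
    · rw [if_neg hg]
      refine Finset.sum_eq_zero ?_
      rintro ⟨a, b⟩ ht
      obtain ⟨_, h2⟩ := mem_filter.1 ht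
      by_cases h3 : l % D = a
      · by_cases h4 : m % D = b
        · subst h3 h4
          exact absurd ((Dd1_mod N d D hD l m).1 h2) hg
        · simp [h4]
      · simp [h3]
  rw [h, mul_ite, mul_one, mul_zero]

/-- the classes modulo `p` -/
noncomputable def Dd1Z (N l p : ℕ) : Finset ℕ := by
  classical
  exact (range p).filter fun r => p ∣ r ∨ l * r ≡ N [MOD p]

theorem Dd1_mem (N l p : ℕ) (hp : 0 < p) (m : ℕ) :
    m % p ∈ Dd1Z N l p ↔ p ∣ m ∨ l * m ≡ N [MOD p] := by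
  unfold Dd1Z
  rw [mem_filter, mem_range]
  have e2 : m % p ≡ m [MOD p] := Nat.mod_modEq m p
  have e3 : p ∣ m % p ↔ p ∣ m := Nat.dvd_mod_iff (dvd_refl p)
  rw [e3]
  constructor
  · rintro ⟨_, h⟩
    rcases h with h | h
    · exact Or.inl h
    · exact Or.inr ((Nat.ModEq.mul_left l e2).symm.trans h)
  · intro h
    refine ⟨Nat.mod_lt _ hp, ?_⟩
    rcases h with h | h
    · exact Or.inl h
    · exact Or.inr ((Nat.ModEq.mul_left l e2).trans h)

theorem Dd1_cardZ (N p l : ℕ) (hp : p.Prime) (hl : ¬ p ∣ l) : (Dd1Z N l p).card = rh N p := by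
  classical
  have : Fact p.Prime := ⟨hp⟩
  have hl0 : (l : ZMod p) ≠ 0 := by
    rw [Ne, ZMod.natCast_eq_zero_iff]
    exact hl
  set c := ((N : ZMod p) / (l : ZMod p)).val with hc
  have hcp : c < p := ZMod.val_lt _
  have hiff : ∀ r : ℕ, r < p → (l * r ≡ N [MOD p] ↔ r = c) := by
    intro r hr
    rw [← ZMod.natCast_eq_natCast_iff]
    push_cast
    constructor
    · intro h
      have h1 : (r : ZMod p) = (N : ZMod p) / (l : ZMod p) := by
        rw [eq_div_iff hl0, mul_comm]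
        exact h
      rw [hc, ← h1, ZMod.val_natCast, Nat.mod_eq_of_lt hr]
    · intro h
      rw [h, hc, ZMod.natCast_zmod_val]
      field_simp
  have hZ : Dd1Z N l p = {0, c} := by
    unfold Dd1Z
    ext r
    rw [mem_filter, mem_range, mem_insert, mem_singleton]
    constructor
    · rintro ⟨h1, h2⟩
      rcases h2 with h2 | h2
      · left
        exact Nat.eq_zero_of_dvd_of_lt h2 h1
      · right
        exact (hiff r h1).1 h2
    · intro h
      rcases h with h | h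
      · rw [h]
        exact ⟨hp.pos, Or.inl (dvd_zero p)⟩
      · rw [h]
        exact ⟨hcp, Or.inr ((hiff c hcp).2 rfl)⟩
  rw [hZ]
  unfold rh
  have hc0 : c = 0 ↔ p ∣ N := by
    rw [hc, ZMod.val_eq_zero, div_eq_zero_iff, ZMod.natCast_eq_zero_iff]
    constructor
    · intro h
      rcases h with h | h
      · exact h
      · exact absurd h hl0
    · intro h
      exact Or.inl h
  by_cases h : p ∣ N
  · rw [if_pos h, hc0.2 h]
    simp
  · rw [if_neg h]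
    exact Finset.card_pair fun h0 => h (hc0.1 h0.symm)

theorem Dd1_rh (N p : ℕ) : rh N p ≤ 2 ∧ 1 ≤ rh N p := by
  unfold rh
  split_ifs <;> omega

open Classical in
theorem Dd1_count (N l : ℕ) (d : Finset ℕ) (hd : ∀ p ∈ d, p.Prime ∧ ¬ p ∣ l) (W M : ℕ) (hW : 1 ≤ W)
    (hWc : ∀ p ∈ d, W.Coprime p) :
    |∑ m ∈ (Icc 1 M).filter (fun m => W ∣ m), (if Dd1G N d l m then (1 : ℝ) else 0) -
      (M : ℝ) / W * ∏ p ∈ d, ((rh N p : ℝ) / p)| ≤ ∏ p ∈ d, (p : ℝ) := by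
  have h := Pool.Agent.Lib.OW.crt_count d (fun p hp => (hd p hp).1) (fun p => Dd1Z N l p)
    (fun p _ r hr => by
      unfold Dd1Z at hr
      exact mem_range.1 (mem_filter.1 hr).1) 0 M (Nat.zero_le _) W hW hWc 0
  have e1 : ∀ p ∈ d, (((Dd1Z N l p).card : ℝ)) = (rh N p : ℝ) := by
    intro p hp
    rw [Dd1_cardZ N p l (hd p hp).1 (hd p hp).2]
  have e2 : ∏ p ∈ d, (((Dd1Z N l p).card : ℝ) / p) = ∏ p ∈ d, ((rh N p : ℝ) / p) :=
    Finset.prod_congr rfl fun p hp => by rw [e1 p hp]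
  have e3 : ∏ p ∈ d, ((Dd1Z N l p).card : ℝ) ≤ ∏ p ∈ d, (p : ℝ) := by
    refine Finset.prod_le_prod (fun p _ => Nat.cast_nonneg _) fun p hp => ?_
    rw [e1 p hp]
    exact_mod_cast (Dd1_rh N p).1.trans (hd p hp).1.two_le
  have e4 : (((Finset.Ioc 0 M).filter fun n => n ≡ 0 [MOD W] ∧ ∀ p ∈ d, n % p ∈ Dd1Z N l p).card : ℝ) =
      ∑ m ∈ (Icc 1 M).filter (fun m => W ∣ m), (if Dd1G N d l m then (1 : ℝ) else 0) := by
    rw [← Finset.sum_filter, Finset.filter_filter, Finset.sum_const, nsmul_eq_mul, mul_one]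
    congr 2
    ext n
    rw [mem_filter, mem_filter, mem_Ioc, mem_Icc]
    unfold Dd1G
    have h1 : (∀ p ∈ d, n % p ∈ Dd1Z N l p) ↔ ∀ p ∈ d, p ∣ n ∨ l * n ≡ N [MOD p] :=
      forall₂_congr fun p hp => Dd1_mem N l p (hd p hp).1.pos n
    rw [h1, Nat.modEq_zero_iff_dvd]
    constructor
    · rintro ⟨⟨h2, h3⟩, h4, h5⟩
      exact ⟨⟨h2, h3⟩, h4, h5⟩
    · rintro ⟨⟨h2, h3⟩, h4, h5⟩
      exact ⟨⟨h2, h3⟩, h4, h5⟩
  rw [e4, e2] at h
  rw [Nat.cast_zero, sub_zero] at h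
  exact h.trans e3

open Classical in
theorem Dd1_count' (N l : ℕ) (d : Finset ℕ) (hd : ∀ p ∈ d, p.Prime ∧ ¬ p ∣ l) (q M : ℕ) (hq : 2 ≤ q)
    (hqc : ∀ p ∈ d, q.Coprime p) :
    |1 / ((q : ℝ) - 1) * ∑ m ∈ (Icc 1 M).filter (fun m => ¬ q ∣ m), (if Dd1G N d l m then (1 : ℝ) else 0) -
      (M : ℝ) * (∏ p ∈ d, ((rh N p : ℝ) / p)) * (1 / (q : ℝ))| ≤ 1 / ((q : ℝ) - 1) * (2 * ∏ p ∈ d, (p : ℝ)) := by
  have h1 := Dd1_count N l d hd 1 M le_rfl (fun p _ => Nat.coprime_one_left p)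
  have h2 := Dd1_count N l d hd q M (by omega) hqc
  have e1 : (Icc 1 M).filter (fun m => 1 ∣ m) = Icc 1 M := by
    apply Finset.filter_true_of_mem
    intro m _
    exact one_dvd m
  rw [e1, Nat.cast_one, div_one] at h1
  have e2 := Finset.sum_filter_add_sum_filter_not (Icc 1 M) (fun m => q ∣ m)
    (fun m => if Dd1G N d l m then (1 : ℝ) else 0)
  have hqR : (2 : ℝ) ≤ q := by exact_mod_cast hq
  set X := ∑ m ∈ Icc 1 M, (if Dd1G N d l m then (1 : ℝ) else 0) with hX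
  set Y := ∑ m ∈ (Icc 1 M).filter (fun m => q ∣ m), (if Dd1G N d l m then (1 : ℝ) else 0) with hY
  set U := ∑ m ∈ (Icc 1 M).filter (fun m => ¬ q ∣ m), (if Dd1G N d l m then (1 : ℝ) else 0) with hU
  set G := ∏ p ∈ d, ((rh N p : ℝ) / p) with hG
  set D := ∏ p ∈ d, (p : ℝ) with hD
  have hq1 : (0 : ℝ) < (q : ℝ) - 1 := by linarith
  have e3 : 1 / ((q : ℝ) - 1) * U - (M : ℝ) * G * (1 / (q : ℝ)) =
      1 / ((q : ℝ) - 1) * ((X - M * G) - (Y - M / q * G)) := by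
    have : U = X - Y := by linarith
    rw [this]
    field_simp
    ring
  rw [e3, abs_mul, abs_of_pos (by positivity : (0 : ℝ) < 1 / ((q : ℝ) - 1))]
  refine mul_le_mul_of_nonneg_left ?_ (by positivity)
  refine (abs_sub _ _).trans ?_
  linarith

open Classical in
theorem Dd1_Sd : ∃ C : ℝ, 0 < C ∧ ∀ (N z Q : ℕ) (QQ : Finset ℕ), z < Q →
    (∀ q ∈ QQ, q.Prime ∧ Q < q ∧ q ≤ 2 * Q ∧ ¬ q ∣ N) →
    ∀ (Λ : ℕ) (LL : Finset ℕ), 2 * Q ≤ Λ → (∀ l ∈ LL, l.Prime ∧ Λ < l ∧ l ≤ 2 * Λ) →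
    ∀ (M : ℕ) (d : Finset ℕ), d ⊆ pr z →
    |∑ q ∈ QQ, ∑ l ∈ LL, ∑ m ∈ Icc 1 M, (if Dd1G N d l m then (if l * m ≡ N [MOD q] then (1 : ℝ) else 0)
        else 0) - LL.card * (M * (∏ p ∈ d, ((rh N p : ℝ) / p))) * ∑ q ∈ QQ, 1 / (q : ℝ)| ≤
      2 * (∏ p ∈ d, (p : ℝ)) * LL.card + (∏ p ∈ d, (p : ℝ)) ^ 2 *
        (C / Q * (√((((2 * Λ : ℕ) : ℝ) + (Q : ℝ) ^ 2) * LL.card) * √(((M : ℝ) + (Q : ℝ) ^ 2) * M))) := by
  obtain ⟨C, hC, hls⟩ := ls_bil
  refine ⟨C, hC, fun N z Q QQ hzQ hQQ Λ LL hΛ hLL M d hd => ?_⟩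
  have hQ1 : 1 ≤ Q := by omega
  have hQR : (1 : ℝ) ≤ Q := by exact_mod_cast hQ1
  have hdp : ∀ p ∈ d, p.Prime ∧ p ≤ z := by
    intro p hp
    have h := hd hp
    unfold pr at h
    rw [mem_filter, mem_range] at h
    exact ⟨h.2, by omega⟩
  set D := ∏ p ∈ d, p with hDdef
  have hDpos : 0 < D := Finset.prod_pos fun p hp => (hdp p hp).1.pos
  have hDdvd : ∀ p ∈ d, p ∣ D := fun p hp => Finset.dvd_prod_of_mem _ hp
  have hDR : ∏ p ∈ d, (p : ℝ) = (D : ℝ) := by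
    rw [hDdef, Nat.cast_prod]
  rw [hDR]
  set T := ((range D) ×ˢ (range D)).filter (fun t => Dd1G N d t.1 t.2) with hT
  have hTcard : (T.card : ℝ) ≤ (D : ℝ) ^ 2 := by
    have h1 : T.card ≤ ((range D) ×ˢ (range D)).card := card_filter_le _ _
    rw [card_product, card_range] at h1
    rw [pow_two]
    exact_mod_cast h1
  have hLLs : LL ⊆ Icc 1 (2 * Λ) := by
    intro l hl
    obtain ⟨h1, h2, h3⟩ := hLL l hl
    rw [mem_Icc]
    exact ⟨h1.one_le, h3⟩
  have hql : ∀ q ∈ QQ, ∀ l ∈ LL, ¬ q ∣ l := by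
    intro q hq l hl h
    obtain ⟨h1, h2, h3⟩ := hLL l hl
    obtain ⟨g1, g2, g3, _⟩ := hQQ q hq
    have := (Nat.prime_dvd_prime_iff_eq g1 h1).1 h
    omega
  have hpl : ∀ l ∈ LL, ∀ p ∈ d, p.Prime ∧ ¬ p ∣ l := by
    intro l hl p hp
    obtain ⟨h1, h2, h3⟩ := hLL l hl
    obtain ⟨g1, g2⟩ := hdp p hp
    refine ⟨g1, fun h => ?_⟩
    have := (Nat.prime_dvd_prime_iff_eq g1 h1).1 h
    omega
  have hqp : ∀ q ∈ QQ, ∀ p ∈ d, q.Coprime p := by
    intro q hq p hp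
    obtain ⟨g1, g2, g3, _⟩ := hQQ q hq
    obtain ⟨h1, h2⟩ := hdp p hp
    rw [Nat.coprime_primes g1 h1]
    omega
  -- the functions
  set α : ℕ × ℕ → ℕ → ℝ := fun t l => if l ∈ LL then (if l % D = t.1 then (1 : ℝ) else 0) else 0 with hα
  set β : ℕ × ℕ → ℕ → ℝ := fun t m => if m % D = t.2 then (1 : ℝ) else 0 with hβ
  set X : ℕ → ℕ × ℕ → ℝ := fun q t => ∑ l ∈ Icc 1 (2 * Λ), ∑ m ∈ Icc 1 M,
    (if l * m ≡ N [MOD q] then α t l * β t m else 0) with hX
  set Y : ℕ → ℕ × ℕ → ℝ := fun q t => 1 / ((q : ℝ) - 1) *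
    ((∑ l ∈ (Icc 1 (2 * Λ)).filter (fun l => ¬ q ∣ l), α t l) *
        ∑ m ∈ (Icc 1 M).filter (fun m => ¬ q ∣ m), β t m) with hY
  have hXs : ∀ q, ∑ t ∈ T, X q t = ∑ l ∈ LL, ∑ m ∈ Icc 1 M,
      (if Dd1G N d l m then (if l * m ≡ N [MOD q] then (1 : ℝ) else 0) else 0) := by
    intro q
    rw [← Dd1_split N d D hDpos hDdvd LL (Icc 1 M) (fun l m => if l * m ≡ N [MOD q] then (1 : ℝ) else 0)]
    refine Finset.sum_congr rfl fun t _ => ?_
    have h1 : ∀ l ∈ Icc 1 (2 * Λ), ∑ m ∈ Icc 1 M, (if l * m ≡ N [MOD q] then α t l * β t m else 0) =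
        if l ∈ LL then ∑ m ∈ Icc 1 M, ((if l * m ≡ N [MOD q] then (1 : ℝ) else 0) *
          ((if l % D = t.1 then (1 : ℝ) else 0) * (if m % D = t.2 then 1 else 0))) else 0 := by
      intro l _
      by_cases hl : l ∈ LL
      · rw [if_pos hl]
        refine Finset.sum_congr rfl fun m _ => ?_
        simp only [hα, hβ, if_pos hl]
        split_ifs <;> simp
      · rw [if_neg hl]
        refine Finset.sum_eq_zero fun m _ => ?_
        simp only [hα, if_neg hl]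
        split_ifs <;> simp
    simp only [hX]
    rw [Finset.sum_congr rfl h1, Finset.sum_ite_mem, Finset.inter_eq_right.2 hLLs]
  have hYs : ∀ q ∈ QQ, ∑ t ∈ T, Y q t = 1 / ((q : ℝ) - 1) * ∑ l ∈ LL,
      ∑ m ∈ (Icc 1 M).filter (fun m => ¬ q ∣ m), (if Dd1G N d l m then (1 : ℝ) else 0) := by
    intro q hq
    rw [← Dd1_split N d D hDpos hDdvd LL ((Icc 1 M).filter (fun m => ¬ q ∣ m)) (fun _ _ => (1 : ℝ)),
      Finset.mul_sum]
    refine Finset.sum_congr rfl fun t _ => ?_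
    simp only [hY]
    congr 1
    have h1 : ∑ l ∈ (Icc 1 (2 * Λ)).filter (fun l => ¬ q ∣ l), α t l =
        ∑ l ∈ LL, (if l % D = t.1 then (1 : ℝ) else 0) := by
      simp only [hα]
      rw [Finset.sum_ite_mem]
      congr 1
      ext l
      rw [mem_inter, mem_filter]
      constructor
      · rintro ⟨_, h⟩
        exact h
      · intro h
        exact ⟨⟨hLLs h, hql q hq l h⟩, h⟩
    rw [h1, Finset.sum_mul_sum]
    refine Finset.sum_congr rfl fun l _ => Finset.sum_congr rfl fun m _ => ?_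
    simp only [hβ, one_mul]
  -- the error of the large sieve
  have hE1 : |∑ q ∈ QQ, ∑ t ∈ T, (X q t - Y q t)| ≤ (D : ℝ) ^ 2 *
      (C / Q * (√((((2 * Λ : ℕ) : ℝ) + (Q : ℝ) ^ 2) * LL.card) * √(((M : ℝ) + (Q : ℝ) ^ 2) * M))) := by
    rw [Finset.sum_comm]
    refine (Finset.abs_sum_le_sum_abs _ _).trans ?_
    have h1 : ∀ t ∈ T, |∑ q ∈ QQ, (X q t - Y q t)| ≤
        C / Q * (√((((2 * Λ : ℕ) : ℝ) + (Q : ℝ) ^ 2) * LL.card) * √(((M : ℝ) + (Q : ℝ) ^ 2) * M)) := by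
      intro t _
      refine (Finset.abs_sum_le_sum_abs _ _).trans ?_
      refine (hls Q QQ hQ1 (fun q hq => ⟨(hQQ q hq).1, (hQQ q hq).2.1, (hQQ q hq).2.2.1⟩) N (2 * Λ) M
        (α t) (β t) (fun q hq => (hQQ q hq).2.2.2)).trans ?_
      have ha : ∑ l ∈ Icc 1 (2 * Λ), α t l ^ 2 ≤ LL.card := by
        have h2 : ∀ l ∈ Icc 1 (2 * Λ), α t l ^ 2 ≤ if l ∈ LL then (1 : ℝ) else 0 := by
          intro l _
          simp only [hα]
          split_ifs <;> norm_num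
        refine (Finset.sum_le_sum h2).trans ?_
        rw [Finset.sum_ite_mem, Finset.inter_eq_right.2 hLLs]
        simp
      have hb : ∑ m ∈ Icc 1 M, β t m ^ 2 ≤ M := by
        have h2 : ∀ m ∈ Icc 1 M, β t m ^ 2 ≤ (1 : ℝ) := by
          intro m _
          simp only [hβ]
          split_ifs <;> norm_num
        refine (Finset.sum_le_sum h2).trans ?_
        simp
      gcongr
    refine (Finset.sum_le_sum h1).trans ?_
    rw [Finset.sum_const, nsmul_eq_mul]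
    refine mul_le_mul_of_nonneg_right hTcard (by positivity)
  -- the error of the count
  have hE2 : |∑ q ∈ QQ, ∑ t ∈ T, Y q t - LL.card * (M * (∏ p ∈ d, ((rh N p : ℝ) / p))) *
      ∑ q ∈ QQ, 1 / (q : ℝ)| ≤ 2 * (D : ℝ) * LL.card := by
    rw [Finset.mul_sum, ← Finset.sum_sub_distrib]
    refine (Finset.abs_sum_le_sum_abs _ _).trans ?_
    have h1 : ∀ q ∈ QQ, |∑ t ∈ T, Y q t - LL.card * (M * (∏ p ∈ d, ((rh N p : ℝ) / p))) * (1 / (q : ℝ))| ≤
        1 / (Q : ℝ) * (2 * (D : ℝ) * LL.card) := by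
      intro q hq
      obtain ⟨g1, g2, g3, _⟩ := hQQ q hq
      rw [hYs q hq, Finset.mul_sum]
      have h2 : (LL.card : ℝ) * (M * (∏ p ∈ d, ((rh N p : ℝ) / p))) * (1 / (q : ℝ)) =
          ∑ l ∈ LL, (M : ℝ) * (∏ p ∈ d, ((rh N p : ℝ) / p)) * (1 / (q : ℝ)) := by
        rw [Finset.sum_const, nsmul_eq_mul]
        ring
      rw [h2, ← Finset.sum_sub_distrib]
      refine (Finset.abs_sum_le_sum_abs _ _).trans ?_
      have h3 : ∀ l ∈ LL, |1 / ((q : ℝ) - 1) * ∑ m ∈ (Icc 1 M).filter (fun m => ¬ q ∣ m),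
          (if Dd1G N d l m then (1 : ℝ) else 0) - (M : ℝ) * (∏ p ∈ d, ((rh N p : ℝ) / p)) * (1 / (q : ℝ))| ≤
          1 / (Q : ℝ) * (2 * D) := by
        intro l hl
        refine (Dd1_count' N l d (hpl l hl) q M g1.two_le (hqp q hq)).trans ?_
        rw [hDR]
        refine mul_le_mul_of_nonneg_right ?_ (by positivity)
        apply one_div_le_one_div_of_le (by linarith)
        have : (Q : ℝ) + 1 ≤ q := by exact_mod_cast g2
        linarith
      refine (Finset.sum_le_sum h3).trans ?_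
      rw [Finset.sum_const, nsmul_eq_mul]
      apply le_of_eq
      ring
    refine (Finset.sum_le_sum h1).trans ?_
    rw [Finset.sum_const, nsmul_eq_mul]
    have hcard : (QQ.card : ℝ) ≤ Q := by
      have h2 : QQ ⊆ Ioc Q (2 * Q) := by
        intro q hq
        obtain ⟨g1, g2, g3, _⟩ := hQQ q hq
        exact mem_Ioc.2 ⟨g2, g3⟩
      have h3 := card_le_card h2
      rw [Nat.card_Ioc] at h3
      have h4 : QQ.card ≤ Q := by omega
      exact_mod_cast h4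
    have h5 : (QQ.card : ℝ) * (1 / (Q : ℝ)) ≤ 1 := by
      rw [mul_one_div, div_le_one (by linarith)]
      exact hcard
    have h6 : 0 ≤ 2 * (D : ℝ) * LL.card := by positivity
    calc (QQ.card : ℝ) * (1 / (Q : ℝ) * (2 * (D : ℝ) * LL.card)) =
        (QQ.card : ℝ) * (1 / (Q : ℝ)) * (2 * (D : ℝ) * LL.card) := by ring
      _ ≤ 1 * (2 * (D : ℝ) * LL.card) := mul_le_mul_of_nonneg_right h5 h6
      _ = _ := one_mul _
  have e1 : ∑ q ∈ QQ, ∑ l ∈ LL, ∑ m ∈ Icc 1 M, (if Dd1G N d l m then (if l * m ≡ N [MOD q] then (1 : ℝ) else 0)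
        else 0) = ∑ q ∈ QQ, ∑ t ∈ T, (X q t - Y q t) + ∑ q ∈ QQ, ∑ t ∈ T, Y q t := by
    rw [← Finset.sum_add_distrib]
    refine Finset.sum_congr rfl fun q _ => ?_
    rw [← Finset.sum_add_distrib, ← hXs q]
    refine Finset.sum_congr rfl fun t _ => ?_
    ring
  rw [e1, add_sub_assoc]
  refine (abs_add_le _ _).trans ?_
  linarith

open Classical in
theorem Dd1_one (N z q l Λ : ℕ) (hq : q.Prime) (hzq : z < q) (hl : l.Prime) (hΛ : Λ < l) (hΛ0 : 0 < Λ) :
    (((AA N z q).filter fun a => l ∣ N - q * a).card : ℝ) ≤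
      ∑ m ∈ Icc 1 (N / Λ), (if l * m ≡ N [MOD q] then
        (if (pr z).filter (fun p => p ∣ m ∨ l * m ≡ N [MOD p]) = ∅ then (1 : ℝ) else 0) else 0) := by
  have h1 : ((AA N z q).filter fun a => l ∣ N - q * a).card ≤
      ((Icc 1 (N / Λ)).filter fun m => l * m ≡ N [MOD q] ∧
        (pr z).filter (fun p => p ∣ m ∨ l * m ≡ N [MOD p]) = ∅).card := by
    apply Finset.card_le_card_of_injOn (fun a => (N - q * a) / l)
    · intro a ha
      obtain ⟨ha1, hdvd⟩ := mem_filter.1 (mem_coe.1 ha)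
      unfold AA at ha1
      obtain ⟨ha2, ha3, ha4, ha5⟩ := mem_filter.1 ha1
      obtain ⟨m, hm⟩ := hdvd
      have e : (N - q * a) / l = m := by
        rw [hm]
        exact Nat.mul_div_cancel_left m hl.pos
      have hN : l * m + q * a = N := by omega
      have hm0 : m ≠ 0 := by
        rintro rfl
        rw [mul_zero] at hm
        omega
      rw [mem_coe, mem_filter, mem_Icc]
      change (1 ≤ (N - q * a) / l ∧ (N - q * a) / l ≤ N / Λ) ∧ l * ((N - q * a) / l) ≡ N [MOD q] ∧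
        (pr z).filter (fun p => p ∣ (N - q * a) / l ∨ l * ((N - q * a) / l) ≡ N [MOD p]) = ∅
      rw [e]
      refine ⟨⟨Nat.one_le_iff_ne_zero.2 hm0, ?_⟩, ?_, ?_⟩
      · rw [Nat.le_div_iff_mul_le hΛ0]
        calc m * Λ ≤ m * l := Nat.mul_le_mul_left _ hΛ.le
          _ = l * m := mul_comm _ _
          _ ≤ N := by omega
      · have h2 : l * m ≡ l * m + q * a [MOD q] := by
          rw [Nat.modEq_iff_dvd]
          exact ⟨a, by push_cast; ring⟩
        rwa [hN] at h2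
      · rw [Finset.filter_eq_empty_iff]
        intro p hp h
        unfold pr at hp
        rw [mem_filter, mem_range] at hp
        rcases h with h | h
        · have h3 : p ∣ N - q * a := by
            rw [hm]
            exact Dvd.dvd.mul_left h l
          have := ha5 p hp.2 h3
          omega
        · have h3 : p ∣ q * a := by
            have h4 : l * m ≡ l * m + q * a [MOD p] := by
              rw [hN]
              exact h
            rw [Nat.modEq_iff_dvd] at h4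
            have h5 : ((l * m + q * a : ℕ) : ℤ) - ((l * m : ℕ) : ℤ) = ((q * a : ℕ) : ℤ) := by
              push_cast
              ring
            rw [h5] at h4
            exact_mod_cast h4
          rcases (hp.2.dvd_mul).1 h3 with h4 | h4
          · have := (Nat.prime_dvd_prime_iff_eq hp.2 hq).1 h4
            omega
          · have := ha4 p hp.2 h4
            omega
    · intro a ha b hb hab
      obtain ⟨ha1, hdvd⟩ := mem_filter.1 (mem_coe.1 ha)
      obtain ⟨hb1, hdvdb⟩ := mem_filter.1 (mem_coe.1 hb)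
      unfold AA at ha1 hb1
      obtain ⟨ha2, ha3, ha4, ha5⟩ := mem_filter.1 ha1
      obtain ⟨hb2, hb3, hb4, hb5⟩ := mem_filter.1 hb1
      have h2 : (N - q * a) / l = (N - q * b) / l := hab
      have h3 : N - q * a = N - q * b := by
        rw [← Nat.div_mul_cancel hdvd, ← Nat.div_mul_cancel hdvdb, h2]
      have h4 : q * a = q * b := by omega
      exact Nat.eq_of_mul_eq_mul_left hq.pos h4
  have h2 : ∑ m ∈ Icc 1 (N / Λ), (if l * m ≡ N [MOD q] then
        (if (pr z).filter (fun p => p ∣ m ∨ l * m ≡ N [MOD p]) = ∅ then (1 : ℝ) else 0) else 0) =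
      (((Icc 1 (N / Λ)).filter fun m => l * m ≡ N [MOD q] ∧
        (pr z).filter (fun p => p ∣ m ∨ l * m ≡ N [MOD p]) = ∅).card : ℝ) := by
    rw [← Finset.sum_filter, ← Finset.sum_filter, Finset.filter_filter, Finset.sum_const, nsmul_eq_mul,
      mul_one]
  rw [h2]
  exact_mod_cast h1

theorem Dd1_VN (N z : ℕ) : VN N z = ∏ p ∈ pr z, (1 - (rh N p : ℝ) / p) := by
  unfold VN VW
  congr 1
  apply Finset.filter_true_of_mem
  intro p hp
  unfold pr at hp
  rw [mem_filter] at hp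
  intro h
  exact hp.2.one_lt.ne' (Nat.dvd_one.1 h)

open Classical in
theorem dd1 : ∃ K : ℝ, 1 ≤ K ∧ ∀ b : ℕ, 1 ≤ b → ∃ E : ℕ, ∀ N z : ℕ, Even N → 3 ≤ z →
    ∀ (Q : ℕ) (QQ : Finset ℕ), z < Q → (∀ q ∈ QQ, q.Prime ∧ Q < q ∧ q ≤ 2 * Q ∧ ¬ q ∣ N) →
    ∀ (Λ : ℕ) (LL : Finset ℕ), 2 * Q ≤ Λ → (∀ l ∈ LL, l.Prime ∧ Λ < l ∧ l ≤ 2 * Λ) →
    ∑ q ∈ QQ, ∑ l ∈ LL, (((AA N z q).filter fun a => l ∣ N - q * a).card : ℝ) ≤
      (1 + K * (1 / 2) ^ b) * VN N z * ((N : ℝ) / Λ) * LL.card * ∑ q ∈ QQ, 1 / (q : ℝ) +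
      (z : ℝ) ^ E * (LL.card + 1 / (Q : ℝ) * (√(((Λ : ℝ) + (Q : ℝ) ^ 2) * LL.card) *
        √(((N : ℝ) / Λ + (Q : ℝ) ^ 2) * ((N : ℝ) / Λ + 1)))) := by
  obtain ⟨K, hK, hflm⟩ := Pool.Agent.Lib.TC.flm 2 (by norm_num)
  obtain ⟨C, hC, hSd⟩ := Dd1_Sd
  obtain ⟨C0, hC0⟩ := pow_unbounded_of_one_lt (2 + 2 * C) (show (1 : ℝ) < 3 by norm_num)
  refine ⟨K, hK, fun b hb => ⟨36 * b + C0, fun N z hN hz Q QQ hzQ hQQ Λ LL hΛ hLL => ?_⟩⟩
  have hP : ∀ r ∈ pr z, r.Prime ∧ r ≤ z := by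
    intro r hr
    unfold pr at hr
    rw [mem_filter, mem_range] at hr
    exact ⟨hr.2, by omega⟩
  obtain ⟨up, lo, hw1, hw2, hw3, hw4⟩ := hflm b hb z (by omega) (pr z) hP
  have hzR : (3 : ℝ) ≤ z := by exact_mod_cast hz
  have hΛ0 : 0 < Λ := by omega
  have hΛR : (0 : ℝ) < Λ := by exact_mod_cast hΛ0
  have hQR : (0 : ℝ) < Q := by exact_mod_cast (by omega : 0 < Q)
  set g : ℕ → ℝ := fun p => (rh N p : ℝ) / p with hg
  have hgP : ∀ r ∈ pr z, 0 ≤ g r ∧ g r ≤ 2 / r ∧ g r ≤ 2 / 3 := by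
    intro r hr
    obtain ⟨h1, h2⟩ := hP r hr
    have hrR : (0 : ℝ) < r := by exact_mod_cast h1.pos
    have h3 : (rh N r : ℝ) ≤ 2 := by exact_mod_cast (Dd1_rh N r).1
    refine ⟨by positivity, div_le_div_of_nonneg_right h3 hrR.le, ?_⟩
    simp only [hg]
    rw [div_le_div_iff₀ hrR (by norm_num)]
    by_cases hr2 : r = 2
    · have h4 : rh N r = 1 := by
        unfold rh
        rw [if_pos]
        rw [hr2]
        exact hN.two_dvd
      rw [h4, hr2]
      norm_num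
    · have h4 : 3 ≤ r := by
        have := h1.two_le
        omega
      have h5 : (3 : ℝ) ≤ r := by exact_mod_cast h4
      linarith
  have hdens := (abs_le.1 (hw4 g hgP).1).2
  have hVN : VN N z = ∏ p ∈ pr z, (1 - g p) := Dd1_VN N z
  rw [← hVN] at hdens
  have hVN0 : 0 ≤ VN N z := by
    rw [hVN]
    exact Finset.prod_nonneg fun r hr => by linarith [(hgP r hr).2.2]
  set M := N / Λ with hM
  have hMR : (M : ℝ) ≤ (N : ℝ) / Λ := Nat.cast_div_le
  set S : Finset ℕ → ℝ := fun d => ∑ q ∈ QQ, ∑ l ∈ LL, ∑ m ∈ Icc 1 M,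
    (if Dd1G N d l m then (if l * m ≡ N [MOD q] then (1 : ℝ) else 0) else 0) with hS
  set H := ∑ q ∈ QQ, 1 / (q : ℝ) with hH
  have hH0 : 0 ≤ H := Finset.sum_nonneg fun q _ => by positivity
  -- the upper bound by the weights
  have hup : ∑ q ∈ QQ, ∑ l ∈ LL, (((AA N z q).filter fun a => l ∣ N - q * a).card : ℝ) ≤
      ∑ d ∈ (pr z).powerset, up d * S d := by
    have h1 : ∀ q ∈ QQ, ∀ l ∈ LL, (((AA N z q).filter fun a => l ∣ N - q * a).card : ℝ) ≤
        ∑ m ∈ Icc 1 M, ∑ d ∈ (pr z).powerset, up d *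
          (if Dd1G N d l m then (if l * m ≡ N [MOD q] then (1 : ℝ) else 0) else 0) := by
      intro q hq l hl
      obtain ⟨g1, g2, g3, g4⟩ := hQQ q hq
      obtain ⟨h1, h2, h3⟩ := hLL l hl
      refine (Dd1_one N z q l Λ g1 (by omega) h1 h2 hΛ0).trans ?_
      refine Finset.sum_le_sum fun m _ => ?_
      by_cases hc : l * m ≡ N [MOD q]
      · rw [if_pos hc]
        refine ((hw3 _ (filter_subset _ _)).2).trans (le_of_eq ?_)
        have h4 : ∀ d ∈ (pr z).powerset, up d *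
          (if Dd1G N d l m then (if l * m ≡ N [MOD q] then (1 : ℝ) else 0) else 0) =
            if d ⊆ (pr z).filter (fun p => p ∣ m ∨ l * m ≡ N [MOD p]) then up d else 0 := by
          intro d hd
          rw [mem_powerset] at hd
          rw [if_pos hc]
          have h5 : Dd1G N d l m ↔ d ⊆ (pr z).filter (fun p => p ∣ m ∨ l * m ≡ N [MOD p]) := by
            unfold Dd1G
            constructor
            · intro h6 p hp
              exact mem_filter.2 ⟨hd hp, h6 p hp⟩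
            · intro h6 p hp
              exact (mem_filter.1 (h6 hp)).2
          by_cases h6 : Dd1G N d l m
          · rw [if_pos h6, if_pos (h5.1 h6), mul_one]
          · rw [if_neg h6, if_neg (fun h => h6 (h5.2 h)), mul_zero]
        rw [Finset.sum_congr rfl h4, ← Finset.sum_filter]
        refine Finset.sum_congr ?_ fun _ _ => rfl
        ext d
        rw [mem_filter, mem_powerset, mem_powerset]
        constructor
        · intro h5
          exact ⟨h5.trans (filter_subset _ _), h5⟩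
        · rintro ⟨_, h5⟩
          exact h5
      · rw [if_neg hc]
        apply le_of_eq
        symm
        refine Finset.sum_eq_zero fun d _ => ?_
        rw [if_neg hc]
        split_ifs <;> simp
    refine (Finset.sum_le_sum fun q hq => Finset.sum_le_sum fun l hl => h1 q hq l hl).trans (le_of_eq ?_)
    have h2 : ∀ d ∈ (pr z).powerset, up d * S d = ∑ q ∈ QQ, ∑ l ∈ LL, ∑ m ∈ Icc 1 M, up d *
          (if Dd1G N d l m then (if l * m ≡ N [MOD q] then (1 : ℝ) else 0) else 0) := by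
      intro d _
      simp only [hS]
      rw [Finset.mul_sum]
      refine Finset.sum_congr rfl fun q _ => ?_
      rw [Finset.mul_sum]
      refine Finset.sum_congr rfl fun l _ => ?_
      rw [Finset.mul_sum]
    symm
    rw [Finset.sum_congr rfl h2, Finset.sum_comm]
    refine Finset.sum_congr rfl fun q _ => ?_
    rw [Finset.sum_comm]
    refine Finset.sum_congr rfl fun l _ => ?_
    rw [Finset.sum_comm]
  refine hup.trans ?_
  -- the errors
  set Z : ℕ := z ^ (12 * b) with hZ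
  set R : ℝ := √(((Λ : ℝ) + (Q : ℝ) ^ 2) * LL.card) * √(((N : ℝ) / Λ + (Q : ℝ) ^ 2) * ((N : ℝ) / Λ + 1)) with hR
  have hR0 : 0 ≤ R := by positivity
  have hND : (0 : ℝ) ≤ (N : ℝ) / Λ := by positivity
  have hZR : (1 : ℝ) ≤ Z := by
    rw [hZ]
    push_cast
    exact one_le_pow₀ (by linarith)
  have hRR : √((((2 * Λ : ℕ) : ℝ) + (Q : ℝ) ^ 2) * LL.card) * √(((M : ℝ) + (Q : ℝ) ^ 2) * M) ≤ 2 * R := by
    have h1 : √((((2 * Λ : ℕ) : ℝ) + (Q : ℝ) ^ 2) * LL.card) ≤ 2 * √(((Λ : ℝ) + (Q : ℝ) ^ 2) * LL.card) := by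
      have h2 : (2 : ℝ) * √(((Λ : ℝ) + (Q : ℝ) ^ 2) * LL.card) =
          √(2 ^ 2 * (((Λ : ℝ) + (Q : ℝ) ^ 2) * LL.card)) := by
        rw [Real.sqrt_mul (by norm_num : (0 : ℝ) ≤ 2 ^ 2), Real.sqrt_sq (by norm_num : (0 : ℝ) ≤ 2)]
      rw [h2]
      apply Real.sqrt_le_sqrt
      rw [← mul_assoc]
      refine mul_le_mul_of_nonneg_right ?_ (Nat.cast_nonneg _)
      push_cast
      nlinarith [sq_nonneg (Q : ℝ)]
    have h3 : √(((M : ℝ) + (Q : ℝ) ^ 2) * M) ≤ √(((N : ℝ) / Λ + (Q : ℝ) ^ 2) * ((N : ℝ) / Λ + 1)) := by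
      apply Real.sqrt_le_sqrt
      refine mul_le_mul (by linarith) (by linarith) (Nat.cast_nonneg _) (by positivity)
    calc _ ≤ (2 * √(((Λ : ℝ) + (Q : ℝ) ^ 2) * LL.card)) *
          √(((N : ℝ) / Λ + (Q : ℝ) ^ 2) * ((N : ℝ) / Λ + 1)) :=
          mul_le_mul h1 h3 (Real.sqrt_nonneg _) (by positivity)
      _ = 2 * R := by rw [hR]; ring
  set Err : ℝ := 2 * Z * LL.card + (Z : ℝ) ^ 2 * (C / Q * (2 * R)) with hErr
  have hErr0 : 0 ≤ Err := by positivity
  have hd1 : ∀ d ∈ (pr z).powerset, up d * S d ≤ up d * (LL.card * (M * ∏ p ∈ d, g p) * H) +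
      (if ∏ r ∈ d, r ≤ Z then Err else 0) := by
    intro d hd
    rw [mem_powerset] at hd
    by_cases h0 : up d = 0
    · rw [h0, zero_mul, zero_mul, zero_add]
      split_ifs
      · exact hErr0
      · exact le_rfl
    · have h1 := hw2 d hd (Or.inl h0)
      have h2 : ∏ r ∈ d, r ≤ Z := by
        have h3 : ((∏ r ∈ d, r : ℕ) : ℝ) ≤ ((Z : ℕ) : ℝ) := by
          rw [hZ]
          push_cast
          push_cast at h1
          exact h1
        exact_mod_cast h3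
      rw [if_pos h2]
      have h3 := hSd N z Q QQ hzQ hQQ Λ LL hΛ hLL M d hd
      have h4 : ∏ p ∈ d, (p : ℝ) ≤ Z := by
        have : ((∏ r ∈ d, r : ℕ) : ℝ) ≤ ((Z : ℕ) : ℝ) := by exact_mod_cast h2
        rwa [Nat.cast_prod] at this
      have h40 : 0 ≤ ∏ p ∈ d, (p : ℝ) := Finset.prod_nonneg fun _ _ => Nat.cast_nonneg _
      have h5 : |S d - LL.card * (M * ∏ p ∈ d, g p) * H| ≤ Err := by
        refine h3.trans ?_
        rw [hErr]
        have h6 : (∏ p ∈ d, (p : ℝ)) ^ 2 ≤ (Z : ℝ) ^ 2 := pow_le_pow_left₀ h40 h4 2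
        have h7 : C / Q * (√((((2 * Λ : ℕ) : ℝ) + (Q : ℝ) ^ 2) * LL.card) * √(((M : ℝ) + (Q : ℝ) ^ 2) * M)) ≤
            C / Q * (2 * R) := mul_le_mul_of_nonneg_left hRR (by positivity)
        have h8 : 2 * (∏ p ∈ d, (p : ℝ)) * LL.card ≤ 2 * Z * LL.card :=
          mul_le_mul_of_nonneg_right (by linarith) (Nat.cast_nonneg _)
        exact add_le_add h8 (mul_le_mul h6 h7 (by positivity) (by positivity))
      have h9 : up d * (S d - LL.card * (M * ∏ p ∈ d, g p) * H) ≤ Err := by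
        refine (le_abs_self _).trans ?_
        rw [abs_mul]
        calc |up d| * |S d - LL.card * (M * ∏ p ∈ d, g p) * H| ≤ 1 * Err :=
              mul_le_mul (hw1 d).1 h5 (abs_nonneg _) (by norm_num)
          _ = Err := one_mul _
      linarith
  refine (Finset.sum_le_sum hd1).trans ?_
  rw [Finset.sum_add_distrib]
  have hmain : ∑ d ∈ (pr z).powerset, up d * (LL.card * (M * ∏ p ∈ d, g p) * H) ≤
      (1 + K * (1 / 2) ^ b) * VN N z * ((N : ℝ) / Λ) * LL.card * H := by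
    have h1 : ∑ d ∈ (pr z).powerset, up d * (LL.card * (M * ∏ p ∈ d, g p) * H) =
        (LL.card * M * H) * ∑ d ∈ (pr z).powerset, up d * ∏ p ∈ d, g p := by
      rw [Finset.mul_sum]
      refine Finset.sum_congr rfl fun d _ => ?_
      ring
    rw [h1]
    have h2 : ∑ d ∈ (pr z).powerset, up d * ∏ p ∈ d, g p ≤ (1 + K * (1 / 2) ^ b) * VN N z := by linarith
    have h3 : 0 ≤ (1 + K * (1 / 2) ^ b) * VN N z := by positivity
    calc (LL.card * M * H) * ∑ d ∈ (pr z).powerset, up d * ∏ p ∈ d, g p ≤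
          (LL.card * M * H) * ((1 + K * (1 / 2) ^ b) * VN N z) :=
          mul_le_mul_of_nonneg_left h2 (by positivity)
      _ ≤ (LL.card * ((N : ℝ) / Λ) * H) * ((1 + K * (1 / 2) ^ b) * VN N z) := by
          refine mul_le_mul_of_nonneg_right ?_ h3
          refine mul_le_mul_of_nonneg_right ?_ hH0
          exact mul_le_mul_of_nonneg_left hMR (Nat.cast_nonneg _)
      _ = _ := by ring
  have herr : ∑ d ∈ (pr z).powerset, (if ∏ r ∈ d, r ≤ Z then Err else 0) ≤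
      (z : ℝ) ^ (36 * b + C0) * (LL.card + 1 / (Q : ℝ) * R) := by
    rw [← Finset.sum_filter, Finset.sum_const, nsmul_eq_mul]
    have h1 : (((pr z).powerset.filter fun d => ∏ r ∈ d, r ≤ Z).card : ℝ) ≤ Z := by
      exact_mod_cast Dd1_card_small (pr z) (fun p hp => (hP p hp).1) Z
    have h2 : (z : ℝ) ^ (36 * b + C0) = (Z : ℝ) ^ 3 * (z : ℝ) ^ C0 := by
      rw [hZ]
      push_cast
      rw [← pow_mul, ← pow_add]
      congr 1
      ring
    have h3 : 2 + 2 * C ≤ (z : ℝ) ^ C0 :=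
      hC0.le.trans (pow_le_pow_left₀ (by norm_num) hzR C0)
    rw [h2]
    have h4 : Err ≤ (Z : ℝ) ^ 2 * ((2 + 2 * C) * (LL.card + 1 / (Q : ℝ) * R)) := by
      rw [hErr]
      have h5 : (Z : ℝ) ≤ (Z : ℝ) ^ 2 := by nlinarith
      have h6 : 2 * (Z : ℝ) * LL.card ≤ 2 * (Z : ℝ) ^ 2 * LL.card :=
        mul_le_mul_of_nonneg_right (by linarith) (Nat.cast_nonneg _)
      have h7 : (Z : ℝ) ^ 2 * ((2 + 2 * C) * (LL.card + 1 / (Q : ℝ) * R)) =
          2 * (Z : ℝ) ^ 2 * LL.card + (Z : ℝ) ^ 2 * (C / Q * (2 * R)) +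
            (Z : ℝ) ^ 2 * (2 * C * LL.card) + (Z : ℝ) ^ 2 * (2 * (1 / (Q : ℝ) * R)) := by
        field_simp
        ring
      have h8 : 0 ≤ (Z : ℝ) ^ 2 * (2 * C * LL.card) := by positivity
      have h9 : 0 ≤ (Z : ℝ) ^ 2 * (2 * (1 / (Q : ℝ) * R)) := by positivity
      linarith
    have h10 : 0 ≤ LL.card + 1 / (Q : ℝ) * R := by positivity
    calc _ ≤ (Z : ℝ) * ((Z : ℝ) ^ 2 * ((2 + 2 * C) * (LL.card + 1 / (Q : ℝ) * R))) :=
          mul_le_mul h1 h4 hErr0 (by positivity)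
      _ ≤ (Z : ℝ) * ((Z : ℝ) ^ 2 * ((z : ℝ) ^ C0 * (LL.card + 1 / (Q : ℝ) * R))) := by
          refine mul_le_mul_of_nonneg_left ?_ (by positivity)
          refine mul_le_mul_of_nonneg_left ?_ (by positivity)
          exact mul_le_mul_of_nonneg_right h3 h10
      _ = _ := by ring
  exact add_le_add hmain herr

end Pool.Agent.Lib.XE
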