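import Pool.Agent.Lib.MP_61161c_nt.XE.Defs
import Pool.Agent.Lib.MP_7b7e48_nt.TC.FLM
import Pool.Agent.Lib.MP_7b7e48_nt.OW.LFC
import Pool.Agent.Lib.MP_7b7e48_nt.TE.Defs

/-!
# the sum of the Liouville function over the multipliers: reduction to classes   (module La1, 90 minutes)

PROOF. `A = (N-1)/q`, `P` = the odd primes `≤ z`, `flm 2` for `P` (`g p = rh N p/p`, `3 rh ≤ 2 p`), `B a = {p ∈ P : p ∣ a ∨ q a ≡ N [MOD p]}`. `a ∈ AA N z q` iff `a ∈ Icc 1 A`, `a` odd, `B a = ∅` (`N` even: `N - q a` is odd iff `q a` is odd, `q` is odd because it is `z`-rough). With `0 ≤ 1[B a = ∅] - ∑_{d ⊆ B a} lo d ≤ ∑ up - ∑ lo`: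
`|∑_{a ∈ AA} lam a| ≤ |∑_{a ≤ A odd} lam a ∑_{d ⊆ B a} up d| + ∑_{a ≤ A odd} ∑_{d ⊆ B a} (up d - lo d)`. The second sum is `≤ (A/2) 2 K 2^(-b) ∏_{p ∈ P} (1 - rh/p) + z^E` as in `Sv2` (`OW.crt_count` with `W = 2`, class `1`), and `(1/2) ∏_{p ∈ P} (1 - rh N p/p) = VN N z`. First sum: for `p ∈ d` exactly one of `p ∣ a` and (`p ∤ N` and `q a ≡ N [MOD p]`)
holds; so `1[d ⊆ B a] = ∑_{e f = ∏ d, f coprime to N} 1[e ∣ a, q a ≡ N [MOD f]]`. For `a = e n`: `lam a = lam e lam n`, `n ≤ A/e`, `n ≡ c e f [MOD f]` where `q e (c e f) ≡ N [MOD f]` (`q e` is coprime to `f`), `c e f` is coprime to `f`; `a` odd iff `n` odd, `FN (2^k) n = lam n` for odd `n` and `0` for even `n`. `|up d| ≤ 1`, `d ↦ (e, f)` injective, `e f ≤ z^(12 b)`.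
-/

set_option autoImplicit false

open Finset
open Pool.Agent.Lib.GT (Rough pr V)
open Pool.Agent.Lib.MP_45349e_nt.LS (lam)
open Pool.Agent.Lib.PQ (pw)

namespace Pool.Agent.Lib.XE

/-- the odd squarefree numbers up to `B` with primes `≤ z` -/
def SD (z B : ℕ) : Finset ℕ :=
  (Icc 1 B).filter fun d => Squarefree d ∧ Odd d ∧ ∀ p ∈ d.primeFactors, p ≤ z

/-- the odd primes up to `z` -/
private def La1P (z : ℕ) : Finset ℕ := (pr z).erase 2

private theorem La1P_mem {z p : ℕ} : p ∈ La1P z ↔ p ≠ 2 ∧ p ≤ z ∧ p.Prime := by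
  unfold La1P pr
  rw [mem_erase, mem_filter, mem_range]
  exact ⟨fun h => ⟨h.1, by omega, h.2.2⟩, fun h => ⟨h.1, by omega, h.2.2⟩⟩

/-- the relation: `p ∣ n` or `q n ≡ N` modulo `p` -/
private def La1R (N q n p : ℕ) : Prop := p ∣ n ∨ q * n ≡ N [MOD p]

open Classical in
private noncomputable def La1Z (N q p : ℕ) : Finset ℕ := (range p).filter fun r => La1R N q r p

open Classical in
private theorem La1Z_mem {N q p n : ℕ} (hp : 0 < p) : n % p ∈ La1Z N q p ↔ La1R N q n p := by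
  unfold La1Z
  rw [mem_filter, mem_range]
  have h1 : n % p < p := Nat.mod_lt _ hp
  have h2 : p ∣ n % p ↔ p ∣ n := by
    rw [Nat.dvd_iff_mod_eq_zero, Nat.mod_mod, ← Nat.dvd_iff_mod_eq_zero]
  have h3 : q * (n % p) ≡ N [MOD p] ↔ q * n ≡ N [MOD p] := by
    have : q * (n % p) ≡ q * n [MOD p] := (Nat.mod_modEq n p).mul_left q
    exact ⟨fun h => this.symm.trans h, fun h => this.trans h⟩
  unfold La1R
  rw [h2, h3]
  exact and_iff_right h1

open Classical in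
private theorem La1Z_card {N q p : ℕ} (hp : p.Prime) (hq : ¬ p ∣ q) : (La1Z N q p).card = rh N p := by
  have hcop : Nat.Coprime p q := (hp.coprime_iff_not_dvd).mpr hq
  obtain ⟨r0, hr0, hr0'⟩ : ∃ r0 < p, q * r0 ≡ N [MOD p] := by
    have : Fact p.Prime := ⟨hp⟩
    refine ⟨((N : ZMod p) * ((q : ZMod p))⁻¹).val, ZMod.val_lt _, ?_⟩
    rw [← ZMod.natCast_eq_natCast_iff]
    push_cast
    rw [ZMod.natCast_zmod_val]
    have hq0 : (q : ZMod p) ≠ 0 := by rwa [Ne, ZMod.natCast_eq_zero_iff]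
    field_simp
  have huniq : ∀ r < p, q * r ≡ N [MOD p] → r = r0 := by
    intro r hr h
    have h1 : q * r ≡ q * r0 [MOD p] := h.trans hr0'.symm
    have h2 : r ≡ r0 [MOD p] := Nat.ModEq.cancel_left_of_coprime hcop h1
    exact Nat.ModEq.eq_of_lt_of_lt h2 hr hr0
  have hset : La1Z N q p = {0, r0} := by
    ext r
    unfold La1Z
    rw [mem_filter, mem_range, mem_insert, mem_singleton]
    unfold La1R
    constructor
    · rintro ⟨hr, h | h⟩
      · left; exact Nat.eq_zero_of_dvd_of_lt h hr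
      · right; exact huniq r hr h
    · rintro (rfl | rfl)
      · exact ⟨hp.pos, Or.inl (dvd_zero _)⟩
      · exact ⟨hr0, Or.inr hr0'⟩
  unfold rh
  rw [hset]
  by_cases hN : p ∣ N
  · rw [if_pos hN]
    have h0 : (0 : ℕ) = r0 := huniq 0 hp.pos (by simpa using (Nat.modEq_zero_iff_dvd.mpr hN).symm)
    rw [← h0]; simp
  · rw [if_neg hN]
    have : (0 : ℕ) ≠ r0 := by
      rintro h
      rw [← h] at hr0'
      exact hN (Nat.modEq_zero_iff_dvd.mp (by simpa using hr0'.symm))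
    rw [card_pair this]

open Classical in
/-- the odd numbers up to `A` -/
private noncomputable def La1O (A : ℕ) : Finset ℕ := (Ioc 0 A).filter fun n => n ≡ 1 [MOD 2]

open Classical in
private theorem La1_AA {N z q : ℕ} (hE : Even N) (hz : 3 ≤ z) (hq : 1 ≤ q) (hR : Rough z q) :
    AA N z q = (La1O ((N - 1) / q)).filter fun a => (La1P z).filter (fun p => La1R N q a p) = ∅ := by
  have hq2 : q % 2 = 1 := by
    by_contra h
    have h2 : 2 ∣ q := by omega
    have := hR 2 Nat.prime_two h2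
    omega
  obtain ⟨M, hM⟩ := hE
  ext a
  unfold AA La1O
  rw [mem_filter, mem_Icc, mem_filter, mem_filter, mem_Ioc, Nat.le_div_iff_mul_le (by omega),
    Finset.filter_eq_empty_iff]
  constructor
  · rintro ⟨⟨h1, h2⟩, h3, h4, h5⟩
    have ha : a % 2 = 1 := by
      by_contra h
      have h2 : 2 ∣ a := by omega
      have := h4 2 Nat.prime_two h2
      omega
    refine ⟨⟨⟨by omega, ?_⟩, ?_⟩, ?_⟩
    · rw [mul_comm]; omega
    · rw [Nat.ModEq, ha]
    · intro p hp hr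
      obtain ⟨hp2, hpz, hpp⟩ := La1P_mem.mp hp
      rcases hr with hr | hr
      · have := h4 p hpp hr
        omega
      · have := h5 p hpp ((Nat.modEq_iff_dvd' h3.le).mp hr)
        omega
  · rintro ⟨⟨⟨h1, h2⟩, h3⟩, h4⟩
    have ha : a % 2 = 1 := h3
    have hpos : 0 < a * q := Nat.mul_pos h1 (by omega)
    have hlt : q * a < N := by rw [mul_comm]; omega
    have hle : a ≤ N := by nlinarith
    refine ⟨⟨by omega, hle⟩, hlt, ?_, ?_⟩
    · intro p hpp hpa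
      by_contra hpz
      push Not at hpz
      by_cases hp2 : p = 2
      · rw [hp2] at hpa; omega
      · exact h4 (La1P_mem.mpr ⟨hp2, hpz, hpp⟩) (Or.inl hpa)
    · intro p hpp hpa
      by_contra hpz
      push Not at hpz
      by_cases hp2 : p = 2
      · rw [hp2] at hpa
        have h5 : (q * a) % 2 = 1 := by rw [Nat.mul_mod, hq2, ha]
        omega
      · exact h4 (La1P_mem.mpr ⟨hp2, hpz, hpp⟩) (Or.inr ((Nat.modEq_iff_dvd' hlt.le).mpr hpa))

open Classical in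
/-- exchange of the sums -/
private theorem La1_exch (O P : Finset ℕ) (R : ℕ → ℕ → Prop) (u : Finset ℕ → ℝ) (h : ℕ → ℝ) :
    ∑ n ∈ O, h n * ∑ d ∈ (P.filter (fun p => R n p)).powerset, u d =
      ∑ d ∈ P.powerset, u d * ∑ n ∈ O.filter (fun n => ∀ p ∈ d, R n p), h n := by
  have h1 : ∀ n ∈ O, h n * ∑ d ∈ (P.filter (fun p => R n p)).powerset, u d =
      ∑ d ∈ P.powerset, if (∀ p ∈ d, R n p) then u d * h n else 0 := by
    intro n _
    rw [Finset.mul_sum, ← Finset.sum_filter]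
    refine Finset.sum_congr ?_ fun d _ => mul_comm _ _
    ext d
    rw [mem_filter, mem_powerset, mem_powerset]
    constructor
    · intro h3
      exact ⟨h3.trans (filter_subset _ _), fun p hp => (mem_filter.mp (h3 hp)).2⟩
    · rintro ⟨h3, h4⟩ p hp
      exact mem_filter.mpr ⟨h3 hp, h4 p hp⟩
  rw [Finset.sum_congr rfl h1, Finset.sum_comm]
  refine Finset.sum_congr rfl fun d _ => ?_
  rw [← Finset.sum_filter, Finset.mul_sum]

/-- the number of the subsets of a set of primes with product at most `D` -/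
private theorem La1_small (P : Finset ℕ) (hP : ∀ p ∈ P, p.Prime) (D : ℕ) :
    (P.powerset.filter fun d => ∏ r ∈ d, r ≤ D).card ≤ D := by
  have h := Finset.card_le_card_of_injOn (s := P.powerset.filter fun d => ∏ r ∈ d, r ≤ D) (t := Icc 1 D)
    (fun d => ∏ r ∈ d, r) (by
      intro d hd
      rw [mem_coe, mem_filter, mem_powerset] at hd
      rw [mem_coe, mem_Icc]
      exact ⟨Nat.one_le_iff_ne_zero.mpr (Finset.prod_ne_zero_iff.mpr fun r hr => (hP r (hd.1 hr)).ne_zero), hd.2⟩) (by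
      intro d hd e he hde
      rw [mem_coe, mem_filter, mem_powerset] at hd he
      have hh : ∀ s ⊆ P, (∏ r ∈ s, r).primeFactors = s := fun s hs =>
        Nat.primeFactors_prod fun p hp => hP p (hs hp)
      have h1 : (∏ r ∈ d, r) = ∏ r ∈ e, r := hde
      rw [← hh d hd.1, ← hh e he.1, h1])
  simpa using h

/-- the density -/
private theorem La1_VN {N z : ℕ} (hE : Even N) (hz : 3 ≤ z) :
    1 / 2 * ∏ p ∈ La1P z, (1 - (rh N p : ℝ) / p) = VN N z := by
  unfold VN VW La1P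
  have h1 : (pr z).filter (fun p => ¬ p ∣ 1) = pr z := by
    refine Finset.filter_true_of_mem fun p hp h => ?_
    unfold pr at hp
    exact (mem_filter.mp hp).2.one_lt.ne' (Nat.dvd_one.mp h)
  rw [h1]
  have h2 : 2 ∈ pr z := by
    unfold pr
    rw [mem_filter, mem_range]
    exact ⟨by omega, Nat.prime_two⟩
  rw [← Finset.mul_prod_erase (pr z) _ h2]
  congr 1
  have h3 : rh N 2 = 1 := by
    unfold rh
    rw [if_pos hE.two_dvd]
  rw [h3]; norm_num

private theorem La1_rh_le (N p : ℕ) : rh N p ≤ 2 := by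
  unfold rh
  split_ifs <;> norm_num

open Classical in
/-- the difference of the two sieves -/
private theorem La1_second (b : ℕ) (K0 : ℝ) (N z q : ℕ) (hE : Even N) (hz : 3 ≤ z)
    (hR : Rough z q) (A : ℕ) (up lo : Finset ℕ → ℝ)
    (h1 : ∀ d, |up d| ≤ 1 ∧ |lo d| ≤ Pool.Agent.Lib.GT.NJ z + 1)
    (h2 : ∀ d ⊆ La1P z, up d ≠ 0 ∨ lo d ≠ 0 → ((∏ r ∈ d, r : ℕ) : ℝ) ≤ (z : ℝ) ^ (12 * b))
    (h4 : |∑ d ∈ (La1P z).powerset, up d * ∏ r ∈ d, ((rh N r : ℝ) / r) - ∏ r ∈ La1P z, (1 - (rh N r : ℝ) / r)| ≤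
        K0 * (1 / 2) ^ b * ∏ r ∈ La1P z, (1 - (rh N r : ℝ) / r))
    (h5 : |∑ d ∈ (La1P z).powerset, lo d * ∏ r ∈ d, ((rh N r : ℝ) / r) - ∏ r ∈ La1P z, (1 - (rh N r : ℝ) / r)| ≤
        K0 * (1 / 2) ^ b * ∏ r ∈ La1P z, (1 - (rh N r : ℝ) / r)) :
    ∑ d ∈ (La1P z).powerset, (up d - lo d) *
      (((Ioc 0 A).filter fun n => n ≡ 1 [MOD 2] ∧ ∀ p ∈ d, n % p ∈ La1Z N q p).card : ℝ) ≤
      2 * K0 * (1 / 2) ^ b * ((A : ℝ) * VN N z) + (z : ℝ) ^ (24 * b + 3) := by
  set P := La1P z with hPdef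
  have hPm : ∀ p ∈ P, p ≠ 2 ∧ p ≤ z ∧ p.Prime := fun p hp => La1P_mem.mp hp
  have hPq : ∀ p ∈ P, ¬ p ∣ q := fun p hp h => by
    have := hR p (hPm p hp).2.2 h
    have := (hPm p hp).2.1
    omega
  have hz0 : (3 : ℝ) ≤ z := by exact_mod_cast hz
  set cn : Finset ℕ → ℝ := fun d =>
    (((Ioc 0 A).filter fun n => n ≡ 1 [MOD 2] ∧ ∀ p ∈ d, n % p ∈ La1Z N q p).card : ℝ) with hcn
  have hcnt : ∀ d ∈ P.powerset, |cn d - (A : ℝ) / 2 * ∏ p ∈ d, ((rh N p : ℝ) / p)| ≤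
      ((∏ r ∈ d, r : ℕ) : ℝ) := by
    intro d hd
    have hd' := mem_powerset.mp hd
    have h := Pool.Agent.Lib.OW.crt_count d (fun p hp => (hPm p (hd' hp)).2.2) (La1Z N q)
      (fun p _ r hr => by unfold La1Z at hr; exact mem_range.mp (mem_filter.mp hr).1) 0 A (Nat.zero_le _) 2 (by norm_num)
      (fun p hp => by
        have h0 := hPm p (hd' hp)
        exact (Nat.coprime_primes Nat.prime_two h0.2.2).mpr (Ne.symm h0.1)) 1
    have e1 : ∏ p ∈ d, (((La1Z N q p).card : ℝ) / p) = ∏ p ∈ d, ((rh N p : ℝ) / p) :=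
      Finset.prod_congr rfl fun p hp => by rw [La1Z_card (hPm p (hd' hp)).2.2 (hPq p (hd' hp))]
    have e2 : ∏ p ∈ d, ((La1Z N q p).card : ℝ) ≤ ((∏ r ∈ d, r : ℕ) : ℝ) := by
      push_cast
      refine Finset.prod_le_prod (fun _ _ => by positivity) fun p hp => ?_
      rw [La1Z_card (hPm p (hd' hp)).2.2 (hPq p (hd' hp))]
      exact_mod_cast (La1_rh_le N p).trans (hPm p (hd' hp)).2.2.two_le
    rw [e1, Nat.cast_zero, sub_zero] at h
    have e3 : ((2 : ℕ) : ℝ) = 2 := by norm_num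
    rw [e3] at h
    exact h.trans e2
  have herr : ∑ d ∈ P.powerset, |up d - lo d| * ((∏ r ∈ d, r : ℕ) : ℝ) ≤ (z : ℝ) ^ (24 * b + 3) := by
    have h6 : ∀ d ∈ P.powerset, |up d - lo d| * ((∏ r ∈ d, r : ℕ) : ℝ) ≤
        if ∏ r ∈ d, r ≤ z ^ (12 * b) then (z : ℝ) ^ (3 + 12 * b) else 0 := by
      intro d hd
      have hd' := mem_powerset.mp hd
      by_cases h7 : ∏ r ∈ d, r ≤ z ^ (12 * b)
      · rw [if_pos h7]
        have h8 : ((∏ r ∈ d, r : ℕ) : ℝ) ≤ (z : ℝ) ^ (12 * b) := by exact_mod_cast h7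
        have h9 : |up d - lo d| ≤ (z : ℝ) ^ 3 := by
          have h10 := Pool.Agent.Lib.GT.NJ_le z (by omega)
          have h11 : |up d - lo d| ≤ |up d| + |lo d| := abs_sub _ _
          have h12 := (h1 d).1
          have h13 := (h1 d).2
          nlinarith [sq_nonneg (z : ℝ)]
        calc |up d - lo d| * ((∏ r ∈ d, r : ℕ) : ℝ) ≤ (z : ℝ) ^ 3 * (z : ℝ) ^ (12 * b) :=
              mul_le_mul h9 h8 (by positivity) (by positivity)
          _ = (z : ℝ) ^ (3 + 12 * b) := by rw [← pow_add]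
      · rw [if_neg h7]
        have h8 : up d = 0 := by
          by_contra h9
          exact h7 (by exact_mod_cast h2 d hd' (Or.inl h9))
        have h9 : lo d = 0 := by
          by_contra h9
          exact h7 (by exact_mod_cast h2 d hd' (Or.inr h9))
        rw [h8, h9, sub_zero, abs_zero, zero_mul]
    refine (Finset.sum_le_sum h6).trans ?_
    rw [← Finset.sum_filter, Finset.sum_const, nsmul_eq_mul]
    have h7 : ((P.powerset.filter fun d => ∏ r ∈ d, r ≤ z ^ (12 * b)).card : ℝ) ≤ (z : ℝ) ^ (12 * b) := by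
      exact_mod_cast La1_small P (fun p hp => (hPm p hp).2.2) (z ^ (12 * b))
    calc ((P.powerset.filter fun d => ∏ r ∈ d, r ≤ z ^ (12 * b)).card : ℝ) * (z : ℝ) ^ (3 + 12 * b)
        ≤ (z : ℝ) ^ (12 * b) * (z : ℝ) ^ (3 + 12 * b) := mul_le_mul_of_nonneg_right h7 (by positivity)
      _ = (z : ℝ) ^ (24 * b + 3) := by rw [← pow_add]; congr 1; ring
  have hsplit : ∑ d ∈ P.powerset, (up d - lo d) * cn d =
      (A : ℝ) / 2 * (∑ d ∈ P.powerset, up d * ∏ r ∈ d, ((rh N r : ℝ) / r) -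
        ∑ d ∈ P.powerset, lo d * ∏ r ∈ d, ((rh N r : ℝ) / r)) +
      ∑ d ∈ P.powerset, (up d - lo d) * (cn d - (A : ℝ) / 2 * ∏ p ∈ d, ((rh N p : ℝ) / p)) := by
    rw [← Finset.sum_sub_distrib, Finset.mul_sum, ← Finset.sum_add_distrib]
    refine Finset.sum_congr rfl fun d _ => ?_
    ring
  have herr2 : ∑ d ∈ P.powerset, (up d - lo d) * (cn d - (A : ℝ) / 2 * ∏ p ∈ d, ((rh N p : ℝ) / p)) ≤
      (z : ℝ) ^ (24 * b + 3) := by
    refine (Finset.sum_le_sum fun d hd => ?_).trans herr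
    calc (up d - lo d) * (cn d - (A : ℝ) / 2 * ∏ p ∈ d, ((rh N p : ℝ) / p))
        ≤ |(up d - lo d) * (cn d - (A : ℝ) / 2 * ∏ p ∈ d, ((rh N p : ℝ) / p))| := le_abs_self _
      _ = |up d - lo d| * |cn d - (A : ℝ) / 2 * ∏ p ∈ d, ((rh N p : ℝ) / p)| := abs_mul _ _
      _ ≤ _ := mul_le_mul_of_nonneg_left (hcnt d hd) (abs_nonneg _)
  rw [hsplit, ← La1_VN hE hz]
  have h6 := (abs_le.mp h4).2
  have h7 := (abs_le.mp h5).1
  have h8 : ∑ d ∈ P.powerset, up d * ∏ r ∈ d, ((rh N r : ℝ) / r) -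
        ∑ d ∈ P.powerset, lo d * ∏ r ∈ d, ((rh N r : ℝ) / r) ≤
      2 * (K0 * (1 / 2) ^ b * ∏ r ∈ P, (1 - (rh N r : ℝ) / r)) := by linarith
  have h9 := mul_le_mul_of_nonneg_left h8 (show (0 : ℝ) ≤ (A : ℝ) / 2 by positivity)
  have h10 : (A : ℝ) / 2 * (2 * (K0 * (1 / 2) ^ b * ∏ r ∈ P, (1 - (rh N r : ℝ) / r))) =
      2 * K0 * (1 / 2) ^ b * ((A : ℝ) * (1 / 2 * ∏ p ∈ P, (1 - (rh N p : ℝ) / p))) := by ring
  linarith

/-- the class of the complementary variable -/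
private noncomputable def La1c (N q e f : ℕ) : ℕ := ((N : ZMod f) * (((q * e : ℕ) : ZMod f))⁻¹).val

private theorem La1c_iff {N q e f : ℕ} (hf : f ≠ 0) (hc : (q * e).Coprime f) (n : ℕ) :
    n ≡ La1c N q e f [MOD f] ↔ q * (e * n) ≡ N [MOD f] := by
  have : NeZero f := ⟨hf⟩
  rw [← ZMod.natCast_eq_natCast_iff, ← ZMod.natCast_eq_natCast_iff]
  unfold La1c
  rw [ZMod.natCast_zmod_val]
  have h1 : ((q * e : ℕ) : ZMod f) * (((q * e : ℕ) : ZMod f))⁻¹ = 1 := ZMod.coe_mul_inv_eq_one _ hc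
  have h2 : ((q * (e * n) : ℕ) : ZMod f) = ((q * e : ℕ) : ZMod f) * (n : ZMod f) := by push_cast; ring
  constructor
  · intro h
    rw [h2, h]
    calc ((q * e : ℕ) : ZMod f) * ((N : ZMod f) * (((q * e : ℕ) : ZMod f))⁻¹)
        = (N : ZMod f) * (((q * e : ℕ) : ZMod f) * (((q * e : ℕ) : ZMod f))⁻¹) := by ring
      _ = N := by rw [h1, mul_one]
  · intro h
    rw [← h, h2]
    calc (n : ZMod f) = (n : ZMod f) * (((q * e : ℕ) : ZMod f) * (((q * e : ℕ) : ZMod f))⁻¹) := by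
          rw [h1, mul_one]
      _ = ((q * e : ℕ) : ZMod f) * (n : ZMod f) * (((q * e : ℕ) : ZMod f))⁻¹ := by ring

private theorem La1c_cop {N q e f : ℕ} (hf : f ≠ 0) (hc : (q * e).Coprime f) (hN : f.Coprime N) :
    (La1c N q e f).Coprime f := by
  have : NeZero f := ⟨hf⟩
  rw [← ZMod.isUnit_iff_coprime]
  unfold La1c
  rw [ZMod.natCast_zmod_val]
  have h1 : ((q * e : ℕ) : ZMod f) * (((q * e : ℕ) : ZMod f))⁻¹ = 1 := ZMod.coe_mul_inv_eq_one _ hc
  refine IsUnit.mul ((ZMod.isUnit_iff_coprime N f).mpr hN.symm) ?_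
  exact IsUnit.of_mul_eq_one _ (by rw [mul_comm]; exact h1)

private theorem La1_modprod (t : Finset ℕ) (ht : ∀ p ∈ t, p.Prime) {a b : ℕ}
    (h : ∀ p ∈ t, a ≡ b [MOD p]) : a ≡ b [MOD ∏ p ∈ t, p] := by
  classical
  induction t using Finset.induction_on with
  | empty => rw [Finset.prod_empty]; exact Nat.modEq_one
  | insert p t hp ih =>
    rw [Finset.prod_insert hp]
    refine (Nat.modEq_and_modEq_iff_modEq_mul ?_).mp
      ⟨h p (mem_insert_self p t), ih (fun r hr => ht r (mem_insert_of_mem hr)) fun r hr => h r (mem_insert_of_mem hr)⟩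
    refine Nat.Coprime.prod_right fun r hr => ?_
    exact (Nat.coprime_primes (ht p (mem_insert_self p t)) (ht r (mem_insert_of_mem hr))).mpr
      fun h => hp (h ▸ hr)

open Classical in
private theorem La1_split {N q : ℕ} (O d : Finset ℕ) (hd : ∀ p ∈ d, p.Prime ∧ ¬ p ∣ q) (h : ℕ → ℝ) :
    ∑ n ∈ O.filter (fun n => ∀ p ∈ d, La1R N q n p), h n =
      ∑ s ∈ d.powerset, ∑ n ∈ O.filter (fun n => (∀ p ∈ s, p ∣ n) ∧
        ∀ p ∈ d \ s, ¬ p ∣ N ∧ q * n ≡ N [MOD p]), h n := by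
  rw [← Finset.sum_fiberwise_of_maps_to (g := fun n => d.filter (fun p => p ∣ n)) (t := d.powerset)
    (fun n _ => mem_powerset.mpr (filter_subset _ _))]
  refine Finset.sum_congr rfl fun s hs => Finset.sum_congr ?_ fun _ _ => rfl
  rw [Finset.filter_filter]
  refine Finset.filter_congr fun n _ => ?_
  rw [mem_powerset] at hs
  constructor
  · rintro ⟨h1, h2⟩
    refine ⟨fun p hp => ?_, fun p hp => ?_⟩
    · rw [← h2] at hp; exact (mem_filter.mp hp).2
    · rw [mem_sdiff] at hp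
      have h3 : ¬ p ∣ n := fun h4 => hp.2 (by rw [← h2]; exact mem_filter.mpr ⟨hp.1, h4⟩)
      have h4 : q * n ≡ N [MOD p] := (h1 p hp.1).resolve_left h3
      refine ⟨fun h5 => ?_, h4⟩
      have h6 : p ∣ q * n := (Nat.modEq_zero_iff_dvd.mp (h4.trans (Nat.modEq_zero_iff_dvd.mpr h5)))
      rcases (hd p hp.1).1.dvd_mul.mp h6 with h7 | h7
      · exact (hd p hp.1).2 h7
      · exact h3 h7
  · rintro ⟨h1, h2⟩
    constructor
    · intro p hp
      by_cases hps : p ∈ s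
      · exact Or.inl (h1 p hps)
      · exact Or.inr (h2 p (mem_sdiff.mpr ⟨hp, hps⟩)).2
    · ext p
      rw [mem_filter]
      constructor
      · rintro ⟨hp, hpn⟩
        by_contra hps
        have h3 := h2 p (mem_sdiff.mpr ⟨hp, hps⟩)
        exact h3.1 (Nat.modEq_zero_iff_dvd.mp
          (h3.2.symm.trans (Nat.modEq_zero_iff_dvd.mpr (hpn.mul_left q))))
      · intro hp; exact ⟨hs hp, h1 p hp⟩

private theorem La1_odd {z : ℕ} {s : Finset ℕ} (hs : ∀ p ∈ s, p ∈ La1P z) : Odd (∏ p ∈ s, p) := by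
  refine Finset.prod_induction _ Odd (fun _ _ h1 h2 => h1.mul h2) odd_one fun p hp => ?_
  have h := La1P_mem.mp (hs p hp)
  exact h.2.2.odd_of_ne_two h.1

private theorem La1_qcop {z q : ℕ} (hR : Rough z q) {s t : Finset ℕ} (hs : ∀ p ∈ s, p ∈ La1P z)
    (ht : ∀ p ∈ t, p ∈ La1P z) (hst : Disjoint s t) : (q * ∏ p ∈ s, p).Coprime (∏ p ∈ t, p) := by
  refine Nat.Coprime.mul_left ?_ ?_
  · refine Nat.Coprime.prod_right fun p hp => ?_
    have h := La1P_mem.mp (ht p hp)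
    refine ((h.2.2.coprime_iff_not_dvd).mpr fun h1 => ?_).symm
    have := hR p h.2.2 h1
    omega
  · refine Nat.Coprime.prod_left fun p hp => Nat.Coprime.prod_right fun r hr => ?_
    exact (Nat.coprime_primes (La1P_mem.mp (hs p hp)).2.2 (La1P_mem.mp (ht r hr)).2.2).mpr fun h =>
      Finset.disjoint_left.mp hst hp (h ▸ hr)

open Classical in
private theorem La1_inner {N z q k A : ℕ} (hk : 1 ≤ k) (hR : Rough z q) {s t : Finset ℕ}
    (hs : ∀ p ∈ s, p ∈ La1P z) (ht : ∀ p ∈ t, p ∈ La1P z) (hst : Disjoint s t) :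
    |∑ n ∈ (La1O A).filter (fun n => (∀ p ∈ s, p ∣ n) ∧ ∀ p ∈ t, ¬ p ∣ N ∧ q * n ≡ N [MOD p]), lam n| ≤
      if (∏ p ∈ t, p).Coprime N then
        |∑ n ∈ (Icc 1 (A / ∏ p ∈ s, p)).filter (fun n => n ≡ La1c N q (∏ p ∈ s, p) (∏ p ∈ t, p) [MOD ∏ p ∈ t, p]),
          Pool.Agent.Lib.TE.FN (2 ^ k) n|
      else 0 := by
  have hsp : ∀ p ∈ s, p.Prime := fun p hp => (La1P_mem.mp (hs p hp)).2.2
  have htp : ∀ p ∈ t, p.Prime := fun p hp => (La1P_mem.mp (ht p hp)).2.2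
  have he0 : 0 < ∏ p ∈ s, p := Finset.prod_pos fun p hp => (hsp p hp).pos
  have hf0 : 0 < ∏ p ∈ t, p := Finset.prod_pos fun p hp => (htp p hp).pos
  have hcop := La1_qcop hR hs ht hst
  have heodd : (∏ p ∈ s, p) % 2 = 1 := Nat.odd_iff.mp (La1_odd hs)
  by_cases hN : (∏ p ∈ t, p).Coprime N
  · rw [if_pos hN]
    generalize he : ∏ p ∈ s, p = e at *
    generalize hf : ∏ p ∈ t, p = f at *
    have hset : (La1O A).filter (fun n => (∀ p ∈ s, p ∣ n) ∧ ∀ p ∈ t, ¬ p ∣ N ∧ q * n ≡ N [MOD p]) =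
        (((Icc 1 (A / e)).filter (fun n => n ≡ La1c N q e f [MOD f])).filter
          fun n => n.Coprime (2 ^ k)).image fun m => e * m := by
      ext n
      unfold La1O
      rw [mem_filter, mem_filter, mem_Ioc, mem_image]
      constructor
      · rintro ⟨⟨⟨h1, h2⟩, h3⟩, h4, h5⟩
        have h6 : e ∣ n := by
          rw [← he]
          exact Finset.prod_primes_dvd n (fun p hp => (hsp p hp).prime) h4
        obtain ⟨m, hm⟩ := h6
        have hmpos : 0 < m := by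
          rcases Nat.eq_zero_or_pos m with h7 | h7
          · rw [h7, mul_zero] at hm; omega
          · exact h7
        refine ⟨m, ?_, hm.symm⟩
        rw [mem_filter, mem_filter, mem_Icc, Nat.le_div_iff_mul_le he0]
        refine ⟨⟨⟨hmpos, by rw [mul_comm, ← hm]; exact h2⟩, ?_⟩, ?_⟩
        · rw [La1c_iff hf0.ne' hcop, ← hm, ← hf]
          exact La1_modprod t htp fun p hp => (h5 p hp).2
        · have hmo : m % 2 = 1 := by
            have h8 : n % 2 = 1 := h3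
            rcases Nat.mod_two_eq_zero_or_one m with h9 | h9
            · rw [hm, Nat.mul_mod, h9] at h8
              simp at h8
            · exact h9
          exact Nat.Coprime.pow_right k (Nat.coprime_two_right.mpr (Nat.odd_iff.mpr hmo))
      · rintro ⟨m, hm, rfl⟩
        rw [mem_filter, mem_filter, mem_Icc, Nat.le_div_iff_mul_le he0] at hm
        obtain ⟨⟨⟨h1, h2⟩, h3⟩, h4⟩ := hm
        rw [La1c_iff hf0.ne' hcop] at h3
        have hmo : m % 2 = 1 := by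
          have h5 : m.Coprime 2 := (Nat.coprime_pow_right_iff (by omega) _ _).mp h4
          exact Nat.odd_iff.mp (Nat.coprime_two_right.mp h5)
        refine ⟨⟨⟨Nat.mul_pos he0 h1, by rw [mul_comm]; exact h2⟩, ?_⟩, ?_, ?_⟩
        · show (e * m) % 2 = 1 % 2
          rw [Nat.mul_mod, heodd, hmo]
        · intro p hp
          refine Dvd.dvd.mul_right ?_ m
          rw [← he]
          exact Finset.dvd_prod_of_mem _ hp
        · intro p hp
          have hpf : p ∣ f := by rw [← hf]; exact Finset.dvd_prod_of_mem _ hp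
          refine ⟨fun h5 => ?_, h3.of_dvd hpf⟩
          exact Nat.Prime.not_coprime_iff_dvd.mpr ⟨p, htp p hp, hpf, h5⟩ hN
    rw [hset, Finset.sum_image (fun a _ b _ hab => Nat.eq_of_mul_eq_mul_left he0 hab)]
    have hlam : ∀ m ∈ ((Icc 1 (A / e)).filter (fun n => n ≡ La1c N q e f [MOD f])).filter
          (fun n => n.Coprime (2 ^ k)), lam (e * m) = lam e * lam m := by
      intro m hm
      rw [mem_filter, mem_filter, mem_Icc] at hm
      exact Pool.Agent.Lib.MP_45349e_nt.LS.lam_mul e m he0.ne' (by omega)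
    rw [Finset.sum_congr rfl hlam, ← Finset.mul_sum, abs_mul, Pool.Agent.Lib.MP_45349e_nt.LS.abs_lam, one_mul,
      Finset.sum_filter]
    refine le_of_eq ?_
    congr 1
  · rw [if_neg hN]
    have hex : ∃ p ∈ t, p ∣ N := by
      by_contra hno
      push Not at hno
      exact hN (Nat.Coprime.prod_left fun p hp => ((htp p hp).coprime_iff_not_dvd).mpr (hno p hp))
    obtain ⟨p, hp, hpN⟩ := hex
    have hempty : (La1O A).filter (fun n => (∀ p ∈ s, p ∣ n) ∧ ∀ p ∈ t, ¬ p ∣ N ∧ q * n ≡ N [MOD p]) = ∅ := by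
      rw [Finset.filter_eq_empty_iff]
      intro n _ h
      exact (h.2 p hp).1 hpN
    rw [hempty, Finset.sum_empty, abs_zero]

open Classical in
private theorem La1_map (z B N : ℕ) (G : ℕ → ℕ → ℝ) (hG : ∀ e f, 0 ≤ G e f) :
    ∑ d ∈ (La1P z).powerset.filter (fun d => ∏ r ∈ d, r ≤ B),
      ∑ s ∈ d.powerset.filter (fun s => (∏ p ∈ d \ s, p).Coprime N), G (∏ p ∈ s, p) (∏ p ∈ d \ s, p) ≤
    ∑ e ∈ SD z B, ∑ f ∈ (SD z B).filter (fun f => f.Coprime N ∧ e.Coprime f), G e f := by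
  rw [Finset.sum_sigma', Finset.sum_sigma']
  set S1 := ((La1P z).powerset.filter (fun d => ∏ r ∈ d, r ≤ B)).sigma
    (fun d => d.powerset.filter (fun s => (∏ p ∈ d \ s, p).Coprime N)) with hS1
  have hmem : ∀ x ∈ S1, (∀ p ∈ x.1, p ∈ La1P z) ∧ (∏ r ∈ x.1, r ≤ B) ∧ x.2 ⊆ x.1 ∧
      (∏ p ∈ x.1 \ x.2, p).Coprime N := by
    intro x hx
    rw [hS1, mem_sigma, mem_filter, mem_powerset, mem_filter, mem_powerset] at hx
    exact ⟨fun p hp => hx.1.1 hp, hx.1.2, hx.2.1, hx.2.2⟩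
  have hpf : ∀ s : Finset ℕ, (∀ p ∈ s, p ∈ La1P z) → (∏ p ∈ s, p).primeFactors = s := fun s hs =>
    Nat.primeFactors_prod fun p hp => (La1P_mem.mp (hs p hp)).2.2
  have hSD : ∀ s : Finset ℕ, (∀ p ∈ s, p ∈ La1P z) → (∏ r ∈ s, r ≤ B) → ∏ p ∈ s, p ∈ SD z B := by
    intro s hs hB
    unfold SD
    rw [mem_filter, mem_Icc]
    refine ⟨⟨Finset.prod_pos fun p hp => (La1P_mem.mp (hs p hp)).2.2.pos, hB⟩, ?_, La1_odd hs, ?_⟩
    · refine Finset.squarefree_prod_of_pairwise_isCoprime (fun p hp q hq hpq => ?_) fun p hp => ?_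
      · rw [Function.onFun, ← Nat.coprime_iff_isRelPrime,
          Nat.coprime_primes (La1P_mem.mp (hs p hp)).2.2 (La1P_mem.mp (hs q hq)).2.2]
        exact hpq
      · exact (La1P_mem.mp (hs p hp)).2.2.squarefree
    · rw [hpf s hs]
      exact fun p hp => (La1P_mem.mp (hs p hp)).2.1
  set φ : (Σ _ : Finset ℕ, Finset ℕ) → (Σ _ : ℕ, ℕ) := fun x => ⟨∏ p ∈ x.2, p, ∏ p ∈ x.1 \ x.2, p⟩ with hφ
  have hinj : Set.InjOn φ S1 := by
    intro x hx y hy hxy
    obtain ⟨hx1, -, hx3, -⟩ := hmem x hx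
    obtain ⟨hy1, -, hy3, -⟩ := hmem y hy
    have e1 : ∏ p ∈ x.2, p = ∏ p ∈ y.2, p := congrArg Sigma.fst hxy
    have e2 : ∏ p ∈ x.1 \ x.2, p = ∏ p ∈ y.1 \ y.2, p := by
      have := hxy
      simp only [hφ] at this
      exact eq_of_heq (Sigma.mk.inj this).2
    have f1 : x.2 = y.2 := by
      rw [← hpf x.2 (fun p hp => hx1 p (hx3 hp)), ← hpf y.2 (fun p hp => hy1 p (hy3 hp)), e1]
    have f2 : x.1 \ x.2 = y.1 \ y.2 := by
      rw [← hpf (x.1 \ x.2) (fun p hp => hx1 p (mem_sdiff.mp hp).1),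
        ← hpf (y.1 \ y.2) (fun p hp => hy1 p (mem_sdiff.mp hp).1), e2]
    have f3 : x.1 = y.1 := by
      rw [← Finset.sdiff_union_of_subset hx3, ← Finset.sdiff_union_of_subset hy3, f2, f1]
    exact Sigma.ext f3 (heq_of_eq f1)
  have h1 : ∑ x ∈ S1, G (∏ p ∈ x.2, p) (∏ p ∈ x.1 \ x.2, p) = ∑ y ∈ S1.image φ, G y.1 y.2 :=
    (Finset.sum_image (f := fun y : (Σ _ : ℕ, ℕ) => G y.1 y.2) hinj).symm
  rw [h1]
  refine Finset.sum_le_sum_of_subset_of_nonneg ?_ (fun _ _ _ => hG _ _)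
  intro y hy
  rw [mem_image] at hy
  obtain ⟨x, hx, rfl⟩ := hy
  obtain ⟨hx1, hx2, hx3, hx4⟩ := hmem x hx
  have hs1 : ∀ p ∈ x.2, p ∈ La1P z := fun p hp => hx1 p (hx3 hp)
  have hs2 : ∀ p ∈ x.1 \ x.2, p ∈ La1P z := fun p hp => hx1 p (mem_sdiff.mp hp).1
  have hpos : 0 < ∏ p ∈ x.1, p := Finset.prod_pos fun p hp => (La1P_mem.mp (hx1 p hp)).2.2.pos
  rw [mem_sigma, mem_filter]
  refine ⟨hSD _ hs1 ?_, hSD _ hs2 ?_, hx4, ?_⟩
  · exact (Nat.le_of_dvd hpos (Finset.prod_dvd_prod_of_subset _ _ _ hx3)).trans hx2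
  · exact (Nat.le_of_dvd hpos (Finset.prod_dvd_prod_of_subset _ _ _ Finset.sdiff_subset)).trans hx2
  · show (∏ p ∈ x.2, p).Coprime (∏ p ∈ x.1 \ x.2, p)
    refine Nat.Coprime.prod_left fun p hp => Nat.Coprime.prod_right fun r hr => ?_
    exact (Nat.coprime_primes (La1P_mem.mp (hs1 p hp)).2.2 (La1P_mem.mp (hs2 r hr)).2.2).mpr fun h =>
      (mem_sdiff.mp hr).2 (h ▸ hp)

open Classical in
private theorem La1_first {b N z q k A : ℕ} (hk : 1 ≤ k) (hR : Rough z q) (up : Finset ℕ → ℝ)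
    (h1 : ∀ d, |up d| ≤ 1)
    (h2 : ∀ d ⊆ La1P z, up d ≠ 0 → ((∏ r ∈ d, r : ℕ) : ℝ) ≤ (z : ℝ) ^ (12 * b)) :
    |∑ d ∈ (La1P z).powerset, up d * ∑ n ∈ (La1O A).filter (fun n => ∀ p ∈ d, La1R N q n p), lam n| ≤
      ∑ e ∈ SD z (z ^ (12 * b)), ∑ f ∈ (SD z (z ^ (12 * b))).filter (fun f => f.Coprime N ∧ e.Coprime f),
        |∑ n ∈ (Icc 1 (A / e)).filter (fun n => n ≡ La1c N q e f [MOD f]),
          Pool.Agent.Lib.TE.FN (2 ^ k) n| := by
  set G : ℕ → ℕ → ℝ := fun e f => |∑ n ∈ (Icc 1 (A / e)).filter (fun n => n ≡ La1c N q e f [MOD f]),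
          Pool.Agent.Lib.TE.FN (2 ^ k) n| with hG
  refine le_trans ?_ (La1_map z (z ^ (12 * b)) N G fun e f => abs_nonneg _)
  refine (Finset.abs_sum_le_sum_abs _ _).trans ?_
  rw [Finset.sum_filter]
  refine Finset.sum_le_sum fun d hd => ?_
  rw [mem_powerset] at hd
  rw [abs_mul]
  by_cases h3 : ∏ r ∈ d, r ≤ z ^ (12 * b)
  · rw [if_pos h3]
    have h4 : |∑ n ∈ (La1O A).filter (fun n => ∀ p ∈ d, La1R N q n p), lam n| ≤
        ∑ s ∈ d.powerset.filter (fun s => (∏ p ∈ d \ s, p).Coprime N), G (∏ p ∈ s, p) (∏ p ∈ d \ s, p) := by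
      rw [La1_split (La1O A) d (fun p hp => by
        have h := La1P_mem.mp (hd hp)
        refine ⟨h.2.2, fun h5 => ?_⟩
        have := hR p h.2.2 h5
        omega) lam]
      refine (Finset.abs_sum_le_sum_abs _ _).trans ?_
      rw [Finset.sum_filter]
      refine Finset.sum_le_sum fun s hs => ?_
      rw [mem_powerset] at hs
      exact La1_inner hk hR (fun p hp => hd (hs hp)) (fun p hp => hd (mem_sdiff.mp hp).1) disjoint_sdiff
    calc |up d| * |∑ n ∈ (La1O A).filter (fun n => ∀ p ∈ d, La1R N q n p), lam n|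
        ≤ 1 * |∑ n ∈ (La1O A).filter (fun n => ∀ p ∈ d, La1R N q n p), lam n| :=
          mul_le_mul_of_nonneg_right (h1 d) (abs_nonneg _)
      _ ≤ _ := by rw [one_mul]; exact h4
  · rw [if_neg h3]
    have h4 : up d = 0 := by
      by_contra h5
      exact h3 (by exact_mod_cast h2 d hd h5)
    rw [h4, abs_zero, zero_mul]

theorem la_red : ∃ K : ℝ, 1 ≤ K ∧ ∀ b : ℕ, 1 ≤ b → ∃ E : ℕ, ∀ N z q k : ℕ, Even N → 3 ≤ z → 1 ≤ q →
    Rough z q → 1 ≤ k → ∃ c : ℕ → ℕ → ℕ,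
    (∀ e ∈ SD z (z ^ (12 * b)), ∀ f ∈ SD z (z ^ (12 * b)), f.Coprime N → e.Coprime f →
      (c e f).Coprime f) ∧
    |∑ a ∈ AA N z q, lam a| ≤
      ∑ e ∈ SD z (z ^ (12 * b)), ∑ f ∈ (SD z (z ^ (12 * b))).filter (fun f => f.Coprime N ∧ e.Coprime f),
        |∑ n ∈ (Icc 1 (((N - 1) / q) / e)).filter (fun n => n ≡ c e f [MOD f]),
          Pool.Agent.Lib.TE.FN (2 ^ k) n| +
      K * (1 / 2) ^ b * ((N : ℝ) / q * VN N z) + (z : ℝ) ^ E := by
  classical
  obtain ⟨K0, hK0, H⟩ := Pool.Agent.Lib.TC.flm 2 (by norm_num)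
  refine ⟨2 * K0, by linarith, fun b hb => ⟨24 * b + 3, fun N z q k hE hz hq hR hk => ?_⟩⟩
  refine ⟨La1c N q, fun e he f hf hfN hef => ?_, ?_⟩
  · unfold SD at he hf
    rw [mem_filter, mem_Icc] at he hf
    refine La1c_cop (by omega) ?_ hfN
    refine Nat.Coprime.mul_left ?_ hef
    by_contra hno
    obtain ⟨p, hp, hpq, hpf⟩ := Nat.Prime.not_coprime_iff_dvd.mp hno
    have h1 := hR p hp hpq
    have h2 := hf.2.2.2 p (Nat.mem_primeFactors.mpr ⟨hp, hpf, by omega⟩)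
    omega
  · set A := (N - 1) / q with hA
    obtain ⟨up, lo, h1, h2, h3, h4⟩ := H b hb z (by omega) (La1P z)
      (fun r hr => ⟨(La1P_mem.mp hr).2.2, (La1P_mem.mp hr).2.1⟩)
    obtain ⟨h5, h6⟩ := h4 (fun p => (rh N p : ℝ) / p) (fun r hr => by
      obtain ⟨hr2, hrz, hrp⟩ := La1P_mem.mp hr
      have hr3 : 3 ≤ r := by
        have := hrp.two_le
        omega
      have hrR : (3 : ℝ) ≤ r := by exact_mod_cast hr3
      have h7 : (rh N r : ℝ) ≤ 2 := by exact_mod_cast La1_rh_le N r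
      refine ⟨by positivity, ?_, ?_⟩
      · exact div_le_div_of_nonneg_right h7 (by linarith)
      · rw [div_le_iff₀ (by linarith)]
        linarith)
    have hfirst := La1_first (b := b) (N := N) (A := A) hk hR up (fun d => (h1 d).1)
      (fun d hd h => h2 d hd (Or.inl h))
    have hsecond := La1_second b K0 N z q hE hz hR A up lo h1 h2 h5 h6
    rw [La1_AA hE hz hq hR, ← hA, Finset.sum_filter]
    -- the two sums
    have hB : ∀ n : ℕ, (La1P z).filter (fun p => La1R N q n p) ⊆ La1P z := fun n => filter_subset _ _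
    have e1 : ∑ n ∈ La1O A, (if (La1P z).filter (fun p => La1R N q n p) = ∅ then lam n else 0) =
        ∑ n ∈ La1O A, lam n * ∑ d ∈ ((La1P z).filter (fun p => La1R N q n p)).powerset, up d -
        ∑ n ∈ La1O A, lam n * (∑ d ∈ ((La1P z).filter (fun p => La1R N q n p)).powerset, up d -
          if (La1P z).filter (fun p => La1R N q n p) = ∅ then (1 : ℝ) else 0) := by
      rw [← Finset.sum_sub_distrib]
      refine Finset.sum_congr rfl fun n _ => ?_
      split_ifs <;> ring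
    have e2 : |∑ n ∈ La1O A, lam n * (∑ d ∈ ((La1P z).filter (fun p => La1R N q n p)).powerset, up d -
          if (La1P z).filter (fun p => La1R N q n p) = ∅ then (1 : ℝ) else 0)| ≤
        ∑ n ∈ La1O A, (1 : ℝ) * ∑ d ∈ ((La1P z).filter (fun p => La1R N q n p)).powerset, (up d - lo d) := by
      refine (Finset.abs_sum_le_sum_abs _ _).trans (Finset.sum_le_sum fun n _ => ?_)
      rw [abs_mul, Pool.Agent.Lib.MP_45349e_nt.LS.abs_lam, Finset.sum_sub_distrib]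
      obtain ⟨g1, g2⟩ := h3 _ (hB n)
      rw [abs_of_nonneg (by linarith)]
      linarith
    rw [La1_exch (La1O A) (La1P z) (fun n p => La1R N q n p) (fun d => up d - lo d) (fun _ => 1)] at e2
    have e3 : ∑ d ∈ (La1P z).powerset, (up d - lo d) *
        ∑ n ∈ (La1O A).filter (fun n => ∀ p ∈ d, La1R N q n p), (1 : ℝ) =
        ∑ d ∈ (La1P z).powerset, (up d - lo d) *
      (((Ioc 0 A).filter fun n => n ≡ 1 [MOD 2] ∧ ∀ p ∈ d, n % p ∈ La1Z N q p).card : ℝ) := by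
      refine Finset.sum_congr rfl fun d hd => ?_
      rw [mem_powerset] at hd
      rw [Finset.sum_const, nsmul_eq_mul, mul_one]
      unfold La1O
      rw [Finset.filter_filter]
      congr 3
      refine Finset.filter_congr fun n _ => ?_
      refine and_congr_right fun _ => forall₂_congr fun p hp => ?_
      exact (La1Z_mem (La1P_mem.mp (hd hp)).2.2.pos).symm
    rw [e3] at e2
    rw [La1_exch (La1O A) (La1P z) (fun n p => La1R N q n p) up lam] at e1
    rw [e1]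
    have hAq : (A : ℝ) ≤ (N : ℝ) / q := by
      have h7 : ((A : ℕ) : ℝ) ≤ ((N - 1 : ℕ) : ℝ) / q := Nat.cast_div_le
      have h8 : ((N - 1 : ℕ) : ℝ) ≤ N := by exact_mod_cast Nat.sub_le N 1
      exact h7.trans (div_le_div_of_nonneg_right h8 (by positivity))
    have hVN0 : 0 ≤ VN N z := by
      rw [← La1_VN hE hz]
      refine mul_nonneg (by norm_num) (Finset.prod_nonneg fun p hp => ?_)
      obtain ⟨hr2, hrz, hrp⟩ := La1P_mem.mp hp
      have hr3 : (2 : ℝ) ≤ p := by exact_mod_cast hrp.two_le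
      have h7 : (rh N p : ℝ) ≤ 2 := by exact_mod_cast La1_rh_le N p
      have h8 : (rh N p : ℝ) / p ≤ 1 := by
        rw [div_le_one (by linarith)]
        linarith
      linarith
    have h9 : 2 * K0 * (1 / 2) ^ b * ((A : ℝ) * VN N z) ≤ 2 * K0 * (1 / 2) ^ b * ((N : ℝ) / q * VN N z) := by
      refine mul_le_mul_of_nonneg_left (mul_le_mul_of_nonneg_right hAq hVN0) ?_
      have : 0 ≤ K0 := by linarith
      positivity
    refine (abs_sub _ _).trans ?_
    linarith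

end Pool.Agent.Lib.XE
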