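import Pool.Agent.Lib.MP_61161c_nt.XE.La1
import Pool.Agent.Lib.MP_61161c_nt.XE.Vl
import Pool.Agent.Lib.MP_7b7e48_nt.TE.GBV

/-!
# the sum of the Liouville function over the multipliers is small   (module La2, 70 minutes)

PROOF. `la_red`: choose `b` with `K 2^(-b) ≤ η/4`, then `E`; `c1 ≤ 1/(10000 b)` and `c1 ≤ 1/(8 E)`. `A = (N-1)/q ≥ N^(1/2)/2`, `2^(k-1) ≤ A < 2^k =: N'`. `TE.gbv` for `N'`, `A_exp = 8`, `e = 1/100`: family `X` of the pairs `(e, f)` of `la_red`, `m = f`, `c = c e f`, `T = A/e` (`≤ N'`, `≥ N'^(1/7)` since `e ≤ z^(12b) ≤ N^(12 b c0) ≤ N'^(1/1000)`), `f ≤ N'^(1/1000)`.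
Spread: `∑_{j ∣ f} T/f ≤ A (∑_{e ≤ N} 1/e) (1/j) (∑_{f ≤ N} 1/f) ≤ A (2 log N)^2 j^(-1) ≤ Th j^(-1/4)` with `Th = 4 A (log N)^2`. So the first sum is `≤ 4 A (log N)^2/(log N')^8 ≤ (η/4) (N/q) VN` (`VN_low`: `VN ≥ C/(log N)^2`, `log N' ≥ (1/2) log N - 1`). `z^E ≤ N^(1/8)`, `(N/q) VN ≥ N^(1/2) C/(log N)^2`.
-/

set_option autoImplicit false

open Finset
open Pool.Agent.Lib.GT (Rough pr V)
open Pool.Agent.Lib.MP_45349e_nt.LS (lam)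
open Pool.Agent.Lib.PQ (pw)

namespace Pool.Agent.Lib.XE

private theorem la2_ev_log_pow (A : ℕ) (δ : ℝ) (hδ : 0 < δ) (C : ℝ) (hC : 0 < C) :
    ∀ᶠ N : ℕ in Filter.atTop, C * (Real.log N) ^ A ≤ (N : ℝ) ^ δ := by
  have h1 := isLittleO_log_rpow_rpow_atTop (A : ℝ) hδ
  have h2 := h1.bound (show (0 : ℝ) < 1 / C by positivity)
  have h3 := tendsto_natCast_atTop_atTop (R := ℝ) |>.eventually h2
  filter_upwards [h3, Filter.eventually_ge_atTop 1] with N h4 hN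
  have hN1 : (1 : ℝ) ≤ N := by exact_mod_cast hN
  have h5 : 0 ≤ Real.log N := Real.log_nonneg hN1
  rw [Real.rpow_natCast, Real.norm_of_nonneg (pow_nonneg h5 _),
    Real.norm_of_nonneg (Real.rpow_nonneg (by linarith) _)] at h4
  calc C * (Real.log N) ^ A ≤ C * (1 / C * (N : ℝ) ^ δ) := mul_le_mul_of_nonneg_left h4 hC.le
    _ = _ := by field_simp

private theorem la2_ev_log_ge (T : ℝ) : ∀ᶠ N : ℕ in Filter.atTop, T ≤ Real.log N :=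
  (Real.tendsto_log_atTop.comp tendsto_natCast_atTop_atTop).eventually_ge_atTop T

private theorem la2_ev_rpow_ge (δ : ℝ) (hδ : 0 < δ) (T : ℝ) : ∀ᶠ N : ℕ in Filter.atTop, T ≤ (N : ℝ) ^ δ :=
  ((tendsto_rpow_atTop hδ).comp tendsto_natCast_atTop_atTop).eventually_ge_atTop T

private theorem la2_harm (B : ℕ) : ∑ n ∈ Icc 1 B, 1 / (n : ℝ) ≤ 1 + Real.log B := by
  have h := harmonic_le_one_add_log B
  rw [harmonic_eq_sum_Icc] at h
  push_cast at h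
  simpa [one_div] using h

private theorem la2_harm_dvd (B j : ℕ) (hj : 1 ≤ j) :
    ∑ n ∈ (Icc 1 B).filter (fun n => j ∣ n), 1 / (n : ℝ) ≤ (1 + Real.log B) * (1 / j) := by
  have h1 : (Icc 1 B).filter (fun n => j ∣ n) ⊆ (Icc 1 B).image (fun g => j * g) := by
    intro n hn
    obtain ⟨h2, g, rfl⟩ := mem_filter.mp hn
    have h3 := mem_Icc.mp h2
    rw [mem_image]
    refine ⟨g, mem_Icc.mpr ⟨?_, ?_⟩, rfl⟩
    · rcases Nat.eq_zero_or_pos g with h | h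
      · subst h; simp at h3
      · exact h
    · exact (Nat.le_mul_of_pos_left g (by omega)).trans h3.2
  refine (sum_le_sum_of_subset_of_nonneg h1 (fun _ _ _ => by positivity)).trans ?_
  rw [sum_image (fun a _ b _ h => Nat.eq_of_mul_eq_mul_left (by omega) h)]
  calc ∑ g ∈ Icc 1 B, 1 / ((j * g : ℕ) : ℝ) = (∑ g ∈ Icc 1 B, 1 / (g : ℝ)) * (1 / j) := by
        rw [sum_mul]
        refine sum_congr rfl fun g _ => ?_
        push_cast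
        rw [one_div_mul_one_div, mul_comm]
    _ ≤ _ := mul_le_mul_of_nonneg_right (la2_harm B) (by positivity)

private theorem la2_spread (B A j : ℕ) (hj : 1 ≤ j) (X : Finset (ℕ × ℕ)) (hX : X ⊆ Icc 1 B ×ˢ Icc 1 B) :
    ∑ x ∈ X.filter (fun x => j ∣ x.2), ((A / x.1 : ℕ) : ℝ) / x.2 ≤ A * (1 + Real.log B) ^ 2 * (1 / j) := by
  have h1 : X.filter (fun x => j ∣ x.2) ⊆ Icc 1 B ×ˢ (Icc 1 B).filter (fun n => j ∣ n) := by
    intro x hx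
    obtain ⟨h2, h3⟩ := mem_filter.mp hx
    have h4 := mem_product.mp (hX h2)
    exact mem_product.mpr ⟨h4.1, mem_filter.mpr ⟨h4.2, h3⟩⟩
  have h5 : ∀ x ∈ Icc 1 B ×ˢ (Icc 1 B).filter (fun n => j ∣ n), ((A / x.1 : ℕ) : ℝ) / x.2 ≤
      A * ((1 / (x.1 : ℝ)) * (1 / (x.2 : ℝ))) := by
    intro x _
    have h6 : ((A / x.1 : ℕ) : ℝ) ≤ (A : ℝ) / x.1 := Nat.cast_div_le
    calc ((A / x.1 : ℕ) : ℝ) / x.2 ≤ ((A : ℝ) / x.1) / x.2 :=
          div_le_div_of_nonneg_right h6 (Nat.cast_nonneg _)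
      _ = _ := by ring
  have hB : 0 ≤ 1 + Real.log B := (sum_nonneg (fun _ _ => by positivity)).trans (la2_harm B)
  calc _ ≤ ∑ x ∈ Icc 1 B ×ˢ (Icc 1 B).filter (fun n => j ∣ n), ((A / x.1 : ℕ) : ℝ) / x.2 :=
        sum_le_sum_of_subset_of_nonneg h1 (fun _ _ _ => by positivity)
    _ ≤ ∑ x ∈ Icc 1 B ×ˢ (Icc 1 B).filter (fun n => j ∣ n),
        (A : ℝ) * ((1 / (x.1 : ℝ)) * (1 / (x.2 : ℝ))) := sum_le_sum h5
    _ = A * ((∑ e ∈ Icc 1 B, 1 / (e : ℝ)) * ∑ f ∈ (Icc 1 B).filter (fun n => j ∣ n), 1 / (f : ℝ)) := by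
        rw [← mul_sum, sum_mul_sum, sum_product]
    _ ≤ A * ((1 + Real.log B) * ((1 + Real.log B) * (1 / j))) := by
        refine mul_le_mul_of_nonneg_left ?_ (Nat.cast_nonneg _)
        exact mul_le_mul (la2_harm B) (la2_harm_dvd B j hj) (sum_nonneg (fun _ _ => by positivity)) hB
    _ = _ := by ring

private theorem la2_first : ∃ M0 : ℕ, ∀ k A B N : ℕ, M0 ≤ 2 ^ k → A < 2 ^ k → 2 ^ k ≤ 2 * A →
    (B : ℝ) ≤ ((2 ^ k : ℕ) : ℝ) ^ ((1 : ℝ) / 1000) → ∀ S : Finset ℕ, S ⊆ Icc 1 B → ∀ c : ℕ → ℕ → ℕ,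
    (∀ e ∈ S, ∀ f ∈ S, f.Coprime N → e.Coprime f → (c e f).Coprime f) →
    ∑ e ∈ S, ∑ f ∈ S.filter (fun f => f.Coprime N ∧ e.Coprime f),
      |∑ n ∈ (Icc 1 (A / e)).filter (fun n => n ≡ c e f [MOD f]), Pool.Agent.Lib.TE.FN (2 ^ k) n| ≤
      A / (Real.log ((2 ^ k : ℕ) : ℝ)) ^ 6 := by
  obtain ⟨M1, hM1⟩ := Pool.Agent.Lib.TE.gbv 8 (1 / 100) (by norm_num)
  obtain ⟨M2, hM2⟩ := Filter.eventually_atTop.mp ((la2_ev_log_ge 2).and (Filter.eventually_ge_atTop 16))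
  refine ⟨max M1 M2, fun k A B N hM hA1 hA2 hB S hS c hc => ?_⟩
  obtain ⟨hL2, h16⟩ := hM2 _ ((le_max_right _ _).trans hM)
  have hg := hM1 _ ((le_max_left _ _).trans hM)
  generalize 2 ^ k = M at *
  have hMr : (16 : ℝ) ≤ M := by exact_mod_cast h16
  have hM1' : (1 : ℝ) ≤ M := by linarith
  have hMp : (0 : ℝ) < M := by linarith
  have hAr : (M : ℝ) ≤ 2 * A := by exact_mod_cast hA2
  set L := Real.log (M : ℝ) with hL
  have hL0 : 0 < L := by linarith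
  have hsum : ∑ e ∈ S, ∑ f ∈ S.filter (fun f => f.Coprime N ∧ e.Coprime f),
      |∑ n ∈ (Icc 1 (A / e)).filter (fun n => n ≡ c e f [MOD f]), Pool.Agent.Lib.TE.FN M n| =
      ∑ x ∈ (S ×ˢ S).filter (fun x => x.2.Coprime N ∧ x.1.Coprime x.2),
      |∑ n ∈ (Icc 1 (A / x.1)).filter (fun n => n ≡ c x.1 x.2 [MOD x.2]), Pool.Agent.Lib.TE.FN M n| := by
    rw [sum_filter, sum_product]
    refine sum_congr rfl fun e _ => ?_
    rw [sum_filter]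
  rw [hsum]
  have hY1 : (1 : ℝ) ≤ (M : ℝ) ^ ((1 : ℝ) / 7) := Real.one_le_rpow hM1' (by norm_num)
  have hR1 : (1 : ℝ) ≤ (M : ℝ) ^ ((1 : ℝ) / 1000) := Real.one_le_rpow hM1' (by norm_num)
  have h4 : (4 : ℝ) ≤ (M : ℝ) ^ ((1 : ℝ) / 2) := by
    have : (4 : ℝ) = (16 : ℝ) ^ ((1 : ℝ) / 2) := by
      rw [show (16 : ℝ) = 4 ^ (2 : ℝ) by norm_num, ← Real.rpow_mul (by norm_num)]
      norm_num
    rw [this]
    exact Real.rpow_le_rpow (by norm_num) hMr (by norm_num)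
  have hYR : (M : ℝ) ^ ((1 : ℝ) / 7) * (M : ℝ) ^ ((1 : ℝ) / 1000) ≤ (M : ℝ) ^ ((1 : ℝ) / 2) := by
    rw [← Real.rpow_add hMp]
    exact Real.rpow_le_rpow_of_exponent_le hM1' (by norm_num)
  have hMM : (M : ℝ) ^ ((1 : ℝ) / 2) * (M : ℝ) ^ ((1 : ℝ) / 2) = M := by
    rw [← Real.rpow_add hMp]; norm_num
  have hmemS : ∀ e ∈ S, 1 ≤ e ∧ (e : ℝ) ≤ (M : ℝ) ^ ((1 : ℝ) / 1000) := by
    intro e he
    have h := mem_Icc.mp (hS he)
    exact ⟨h.1, le_trans (by exact_mod_cast h.2) hB⟩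
  have hmain := hg (ℕ × ℕ) ((S ×ˢ S).filter (fun x => x.2.Coprime N ∧ x.1.Coprime x.2)) (fun x => x.2)
    (fun x => c x.1 x.2) (fun x => A / x.1) (A * (1 + Real.log B) ^ 2) (by positivity) ?_ ?_
  · refine hmain.trans ?_
    have hlB0 : 0 ≤ Real.log B := Real.log_natCast_nonneg B
    have hlB : Real.log B ≤ L / 1000 := by
      rcases Nat.eq_zero_or_pos B with h | h
      · rw [h]; simp; positivity
      · have hBp : (0 : ℝ) < B := by exact_mod_cast h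
        have := Real.log_le_log hBp hB
        rw [Real.log_rpow hMp] at this
        linarith
    have h1 : (1 + Real.log B) ^ 2 ≤ L ^ 2 := pow_le_pow_left₀ (by linarith) (by linarith) 2
    rw [div_le_div_iff₀ (by positivity) (by positivity)]
    calc (A : ℝ) * (1 + Real.log B) ^ 2 * L ^ 6 ≤ A * L ^ 2 * L ^ 6 := by gcongr
      _ = A * L ^ 8 := by ring
  · intro x hx
    obtain ⟨h1, h2, h3⟩ := mem_filter.mp hx
    obtain ⟨h5, h6⟩ := mem_product.mp h1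
    obtain ⟨he1, heR⟩ := hmemS _ h5
    obtain ⟨hf1, hfR⟩ := hmemS _ h6
    refine ⟨hf1, hfR, hc _ h5 _ h6 h2 h3, ?_, ?_⟩
    · have h7 : ⌈(M : ℝ) ^ ((1 : ℝ) / 7)⌉₊ ≤ A / x.1 := by
        rw [Nat.le_div_iff_mul_le (by omega)]
        have h8 : ((⌈(M : ℝ) ^ ((1 : ℝ) / 7)⌉₊ : ℕ) : ℝ) < (M : ℝ) ^ ((1 : ℝ) / 7) + 1 :=
          Nat.ceil_lt_add_one (by positivity)
        have h9 : ((⌈(M : ℝ) ^ ((1 : ℝ) / 7)⌉₊ : ℕ) : ℝ) ≤ 2 * (M : ℝ) ^ ((1 : ℝ) / 7) := by linarith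
        have h10 : ((⌈(M : ℝ) ^ ((1 : ℝ) / 7)⌉₊ : ℕ) : ℝ) * x.1 ≤
            (2 * (M : ℝ) ^ ((1 : ℝ) / 7)) * (M : ℝ) ^ ((1 : ℝ) / 1000) :=
          mul_le_mul h9 heR (Nat.cast_nonneg _) (by positivity)
        have h11 : (2 * (M : ℝ) ^ ((1 : ℝ) / 7)) * (M : ℝ) ^ ((1 : ℝ) / 1000) ≤
            2 * (M : ℝ) ^ ((1 : ℝ) / 2) := by
          rw [mul_assoc]; exact mul_le_mul_of_nonneg_left hYR (by norm_num)
        have h12 : 4 * (M : ℝ) ^ ((1 : ℝ) / 2) ≤ M := by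
          have := mul_le_mul_of_nonneg_right h4 (show 0 ≤ (M : ℝ) ^ ((1 : ℝ) / 2) by positivity)
          linarith
        have h13 : ((⌈(M : ℝ) ^ ((1 : ℝ) / 7)⌉₊ : ℕ) : ℝ) * x.1 ≤ A := by linarith
        exact_mod_cast h13
      exact (Nat.le_ceil _).trans (by exact_mod_cast h7)
    · exact (Nat.div_le_self _ _).trans hA1.le
  · intro j hj
    refine (la2_spread B A j hj _ ?_).trans ?_
    · intro x hx
      obtain ⟨h5, h6⟩ := mem_product.mp (mem_filter.mp hx).1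
      exact mem_product.mpr ⟨hS h5, hS h6⟩
    · refine mul_le_mul_of_nonneg_left ?_ (by positivity)
      have hj1 : (1 : ℝ) ≤ j := by exact_mod_cast hj
      have h1 : (1 : ℝ) / j = (j : ℝ) ^ (-1 : ℝ) := by rw [Real.rpow_neg_one, one_div]
      rw [h1]
      have h2 : (j : ℝ) ^ (-1 : ℝ) ≤ (j : ℝ) ^ (-(1 / 4) : ℝ) :=
        Real.rpow_le_rpow_of_exponent_le hj1 (by norm_num)
      have h3 : 0 ≤ (M : ℝ) ^ (-(1 / 100) : ℝ) := by positivity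
      linarith

theorem la (η : ℝ) (hη : 0 < η) : ∃ c1 : ℝ, 0 < c1 ∧ ∀ c0 : ℝ, 0 < c0 → c0 ≤ c1 → ∃ N0 : ℕ, ∀ N : ℕ,
    N0 ≤ N → Even N → ∀ z : ℕ, (N : ℝ) ^ (c0 / 2) ≤ z → (z : ℝ) ≤ (N : ℝ) ^ c0 → ∀ q : ℕ, 1 ≤ q →
    (q : ℝ) ≤ (N : ℝ) ^ (1 / 2 : ℝ) → Rough z q →
    |∑ a ∈ AA N z q, lam a| ≤ η * ((N : ℝ) / q) * VN N z := by
  obtain ⟨K, hK1, hred⟩ := la_red
  obtain ⟨C, hC, hVN⟩ := VN_low
  have hK0 : 0 < K := by linarith
  obtain ⟨b0, hb0⟩ := exists_pow_lt_of_lt_one (show 0 < η / (4 * K) by positivity)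
    (show (1 / 2 : ℝ) < 1 by norm_num)
  obtain ⟨b, hbdef⟩ : ∃ b : ℕ, b = b0 + 1 := ⟨_, rfl⟩
  have hb1 : 1 ≤ b := by omega
  have hbr : (1 : ℝ) ≤ b := by exact_mod_cast hb1
  have hbK : K * (1 / 2) ^ b ≤ η / 4 := by
    have h1 : (1 / 2 : ℝ) ^ b ≤ (1 / 2) ^ b0 := by
      rw [hbdef, pow_succ]
      have : (0 : ℝ) ≤ (1 / 2) ^ b0 := by positivity
      linarith
    calc K * (1 / 2) ^ b ≤ K * (η / (4 * K)) := by
          exact mul_le_mul_of_nonneg_left (h1.trans hb0.le) hK0.le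
      _ = η / 4 := by field_simp
  obtain ⟨E, hE⟩ := hred b hb1
  obtain ⟨M0, hM0⟩ := la2_first
  refine ⟨min (1 / (100000 * (b : ℝ))) (1 / (8 * ((E : ℝ) + 1))), lt_min (by positivity) (by positivity),
    fun c0 hc0 hc1 => ?_⟩
  have hcb : c0 * ((12 * b : ℕ) : ℝ) ≤ 1 / 4000 := by
    have h1 := hc1.trans (min_le_left _ _)
    rw [le_div_iff₀ (by positivity)] at h1
    push_cast
    nlinarith
  have hcE : c0 * (E : ℝ) ≤ 1 / 8 := by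
    have h1 := hc1.trans (min_le_right _ _)
    rw [le_div_iff₀ (by positivity)] at h1
    nlinarith
  have hc01 : c0 ≤ 1 := by
    have h1 : c0 * 1 ≤ c0 * ((12 * b : ℕ) : ℝ) := by
      refine mul_le_mul_of_nonneg_left ?_ hc0.le
      push_cast; linarith
    linarith
  obtain ⟨N0, hN0⟩ := Filter.eventually_atTop.mp (((la2_ev_log_ge 8).and (la2_ev_log_ge (4 ^ 7 / (η * C)))).and
    ((la2_ev_log_pow 2 (3 / 8) (by norm_num) (4 / (η * C)) (by positivity)).and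
    ((la2_ev_rpow_ge (c0 / 2) (by positivity) 3).and
    ((la2_ev_rpow_ge (1 / 2) (by norm_num) (2 * (M0 : ℝ) + 2)).and
    ((la2_ev_rpow_ge (1 / 4) (by norm_num) 2).and (Filter.eventually_ge_atTop 1))))))
  refine ⟨N0, fun N hN hNe z hz1 hz2 q hq1 hq2 hqR => ?_⟩
  obtain ⟨⟨hL8, hLC⟩, hlog, hz3', hN12, hN14, hN1⟩ := hN0 N hN
  set L := Real.log (N : ℝ) with hL
  have hL0 : 0 < L := by linarith
  have hNr : (1 : ℝ) ≤ N := by exact_mod_cast hN1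
  have hNp : (0 : ℝ) < N := by linarith
  have hz3r : (3 : ℝ) ≤ z := hz3'.trans hz1
  have hz3 : 3 ≤ z := by exact_mod_cast hz3r
  have hqp : (0 : ℝ) < q := by exact_mod_cast hq1
  have hNN : (N : ℝ) ^ (1 / 2 : ℝ) * (N : ℝ) ^ (1 / 2 : ℝ) = N := by
    rw [← Real.rpow_add hNp]; norm_num
  have hN44 : (N : ℝ) ^ (1 / 4 : ℝ) * (N : ℝ) ^ (1 / 4 : ℝ) = (N : ℝ) ^ (1 / 2 : ℝ) := by
    rw [← Real.rpow_add hNp]; norm_num
  -- the length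
  obtain ⟨A, hA⟩ : ∃ A : ℕ, A = (N - 1) / q := ⟨_, rfl⟩
  have hA1 : N ≤ q * (A + 1) := by
    have := Nat.lt_mul_div_succ (N - 1) (show 0 < q by omega)
    rw [← hA] at this
    omega
  have hA1r : (N : ℝ) ≤ q * (A + 1) := by exact_mod_cast hA1
  have hA2 : (N : ℝ) ^ (1 / 2 : ℝ) ≤ A + 1 := by
    have h1 : (N : ℝ) ^ (1 / 2 : ℝ) * (N : ℝ) ^ (1 / 2 : ℝ) ≤ (N : ℝ) ^ (1 / 2 : ℝ) * (A + 1) := by
      rw [hNN]
      exact hA1r.trans (mul_le_mul_of_nonneg_right hq2 (by positivity))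
    exact le_of_mul_le_mul_left h1 (by positivity)
  have hM0' : (0 : ℝ) ≤ M0 := Nat.cast_nonneg _
  have hA3 : (N : ℝ) ^ (1 / 2 : ℝ) / 2 ≤ A := by linarith
  have hA4 : (N : ℝ) ^ (1 / 4 : ℝ) ≤ A := by
    have := mul_le_mul_of_nonneg_right hN14 (show 0 ≤ (N : ℝ) ^ (1 / 4 : ℝ) by positivity)
    rw [hN44] at this
    linarith
  have hA5 : A ≠ 0 := by
    rintro h
    rw [h] at hA4
    push_cast at hA4
    linarith
  have hA6 : (A : ℝ) ≤ (N : ℝ) / q := by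
    rw [hA]
    refine Nat.cast_div_le.trans ?_
    refine div_le_div_of_nonneg_right ?_ hqp.le
    exact_mod_cast Nat.sub_le _ _
  have hAM : M0 ≤ A := by
    have : (M0 : ℝ) ≤ A := by linarith
    exact_mod_cast this
  obtain ⟨k, hk⟩ : ∃ k : ℕ, k = Nat.log 2 A + 1 := ⟨_, rfl⟩
  have hk1 : 1 ≤ k := by omega
  have hAk : A < 2 ^ k := by rw [hk]; exact Nat.lt_pow_succ_log_self (by norm_num) A
  have hkA : 2 ^ k ≤ 2 * A := by
    rw [hk, pow_succ, mul_comm]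
    exact Nat.mul_le_mul_left 2 (Nat.pow_log_le_self 2 hA5)
  have hAkr : (A : ℝ) ≤ ((2 ^ k : ℕ) : ℝ) := by exact_mod_cast hAk.le
  -- the level
  have hBr : ((z ^ (12 * b) : ℕ) : ℝ) ≤ (N : ℝ) ^ (1 / 4000 : ℝ) := by
    push_cast
    calc (z : ℝ) ^ (12 * b) ≤ ((N : ℝ) ^ c0) ^ (12 * b) := pow_le_pow_left₀ (by positivity) hz2 _
      _ = (N : ℝ) ^ (c0 * ((12 * b : ℕ) : ℝ)) := by rw [Real.rpow_mul hNp.le, Real.rpow_natCast]
      _ ≤ (N : ℝ) ^ (1 / 4000 : ℝ) := Real.rpow_le_rpow_of_exponent_le hNr hcb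
  have hB2 : ((z ^ (12 * b) : ℕ) : ℝ) ≤ ((2 ^ k : ℕ) : ℝ) ^ ((1 : ℝ) / 1000) := by
    refine hBr.trans ?_
    have h1 : (N : ℝ) ^ (1 / 4000 : ℝ) = ((N : ℝ) ^ (1 / 4 : ℝ)) ^ ((1 : ℝ) / 1000) := by
      rw [← Real.rpow_mul hNp.le]; norm_num
    rw [h1]
    exact Real.rpow_le_rpow (by positivity) (hA4.trans hAkr) (by norm_num)
  obtain ⟨c, hc, hsum⟩ := hE N z q k hNe hz3 hq1 hqR hk1
  rw [← hA] at hsum
  have hfirst := hM0 k A (z ^ (12 * b)) N (hAM.trans hAk.le) hAk hkA hB2 (SD z (z ^ (12 * b)))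
    (filter_subset _ _) c hc
  -- logarithm of `2 ^ k`
  have hlogk : L / 4 ≤ Real.log ((2 ^ k : ℕ) : ℝ) := by
    have h1 := Real.log_le_log (show 0 < (N : ℝ) ^ (1 / 4 : ℝ) by positivity) (hA4.trans hAkr)
    rw [Real.log_rpow hNp] at h1
    linarith
  -- the density
  have hlz0 : 0 < Real.log z := Real.log_pos (by linarith)
  have hlz : Real.log z ≤ L := by
    have h1 := Real.log_le_log (show (0 : ℝ) < z by linarith) hz2
    rw [Real.log_rpow hNp] at h1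
    nlinarith
  have hV : C / L ^ 2 ≤ VN N z := by
    refine le_trans ?_ (hVN N z hNe (by omega))
    exact div_le_div_of_nonneg_left hC.le (by positivity) (pow_le_pow_left₀ hlz0.le hlz 2)
  have hNq0 : 0 < (N : ℝ) / q := by positivity
  have hW : (N : ℝ) / q * (C / L ^ 2) ≤ (N : ℝ) / q * VN N z := mul_le_mul_of_nonneg_left hV hNq0.le
  -- the first term
  have hF : (A : ℝ) / (Real.log ((2 ^ k : ℕ) : ℝ)) ^ 6 ≤ η / 4 * ((N : ℝ) / q * (C / L ^ 2)) := by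
    have h1 : (A : ℝ) / (Real.log ((2 ^ k : ℕ) : ℝ)) ^ 6 ≤ ((N : ℝ) / q) / (L / 4) ^ 6 :=
      div_le_div₀ hNq0.le hA6 (by positivity) (pow_le_pow_left₀ (by positivity) hlogk 6)
    refine h1.trans ?_
    have hL4 : 4 ^ 7 / (η * C) ≤ L ^ 4 := by
      refine hLC.trans ?_
      calc L = L ^ 1 := (pow_one L).symm
        _ ≤ L ^ 4 := pow_le_pow_right₀ (by linarith) (by norm_num)
    rw [div_le_iff₀ (by positivity)] at hL4
    have h2 : ((N : ℝ) / q) / (L / 4) ^ 6 = ((N : ℝ) / q) * (4 ^ 6 / L ^ 6) := by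
      field_simp
    have h3 : (4 : ℝ) ^ 6 / L ^ 6 ≤ η / 4 * (C / L ^ 2) := by
      rw [div_le_iff₀ (by positivity)]
      have h4 : η / 4 * (C / L ^ 2) * L ^ 6 = L ^ 4 * (η * C) / 4 := by
        field_simp
      rw [h4]
      linarith
    rw [h2]
    calc ((N : ℝ) / q) * (4 ^ 6 / L ^ 6) ≤ ((N : ℝ) / q) * (η / 4 * (C / L ^ 2)) :=
          mul_le_mul_of_nonneg_left h3 hNq0.le
      _ = _ := by ring
  -- the third term
  have hZ : (z : ℝ) ^ E ≤ η / 4 * ((N : ℝ) / q * (C / L ^ 2)) := by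
    have h1 : (z : ℝ) ^ E ≤ (N : ℝ) ^ (1 / 8 : ℝ) := by
      calc (z : ℝ) ^ E ≤ ((N : ℝ) ^ c0) ^ E := pow_le_pow_left₀ (by positivity) hz2 _
        _ = (N : ℝ) ^ (c0 * (E : ℝ)) := by rw [Real.rpow_mul hNp.le, Real.rpow_natCast]
        _ ≤ (N : ℝ) ^ (1 / 8 : ℝ) := Real.rpow_le_rpow_of_exponent_le hNr hcE
    have h2 : (N : ℝ) ^ (1 / 8 : ℝ) * (N : ℝ) ^ (3 / 8 : ℝ) = (N : ℝ) ^ (1 / 2 : ℝ) := by
      rw [← Real.rpow_add hNp]; norm_num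
    have h3 : (N : ℝ) ^ (1 / 2 : ℝ) ≤ (N : ℝ) / q := by
      rw [le_div_iff₀ hqp]
      calc (N : ℝ) ^ (1 / 2 : ℝ) * q ≤ (N : ℝ) ^ (1 / 2 : ℝ) * (N : ℝ) ^ (1 / 2 : ℝ) :=
            mul_le_mul_of_nonneg_left hq2 (by positivity)
        _ = N := hNN
    have h4 : (N : ℝ) ^ (1 / 8 : ℝ) * (4 / (η * C) * L ^ 2) ≤ (N : ℝ) / q := by
      calc (N : ℝ) ^ (1 / 8 : ℝ) * (4 / (η * C) * L ^ 2) ≤ (N : ℝ) ^ (1 / 8 : ℝ) * (N : ℝ) ^ (3 / 8 : ℝ) :=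
            mul_le_mul_of_nonneg_left hlog (by positivity)
        _ = (N : ℝ) ^ (1 / 2 : ℝ) := h2
        _ ≤ _ := h3
    refine h1.trans ?_
    have h5 : (N : ℝ) ^ (1 / 8 : ℝ) =
        η / 4 * (((N : ℝ) ^ (1 / 8 : ℝ) * (4 / (η * C) * L ^ 2)) * (C / L ^ 2)) := by
      field_simp
    rw [h5]
    gcongr
  have hη4 : (0 : ℝ) ≤ η / 4 := by positivity
  have h1 : η / 4 * ((N : ℝ) / q * (C / L ^ 2)) ≤ η / 4 * ((N : ℝ) / q * VN N z) :=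
    mul_le_mul_of_nonneg_left hW hη4
  have hW0 : 0 ≤ (N : ℝ) / q * VN N z := by
    refine le_trans ?_ hW
    positivity
  have h2 : K * (1 / 2) ^ b * ((N : ℝ) / q * VN N z) ≤ η / 4 * ((N : ℝ) / q * VN N z) :=
    mul_le_mul_of_nonneg_right hbK hW0
  have h3 : 0 ≤ η / 4 * ((N : ℝ) / q * VN N z) := mul_nonneg hη4 hW0
  calc |∑ a ∈ AA N z q, lam a| ≤ _ := hsum
    _ ≤ η / 4 * ((N : ℝ) / q * VN N z) + η / 4 * ((N : ℝ) / q * VN N z) +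
        η / 4 * ((N : ℝ) / q * VN N z) :=
      add_le_add (add_le_add ((hfirst.trans hF).trans h1) h2) (hZ.trans h1)
    _ ≤ η * ((N : ℝ) / q) * VN N z := by linarith

end Pool.Agent.Lib.XE
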