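import Pool.Agent.Lib.MP_61161c_nt.XE.Defs
import Pool.Agent.Lib.BV.LSM

/-!
# bilinear congruence modulo the primes of a set: large sieve   (module Ls, 80 minutes)

PROOF. `q` prime, `q ∤ N`: for `l, m` prime to `q`, `1[l m ≡ N] = 1/(q-1) ∑_ψ ψ(l) ψ(m) ψ⁻¹(N)` (orthogonality: `BV.Orth`, `DirichletCharacter.sum_char_inv_mul_char_eq`); for `q ∣ l` or `q ∣ m` both sides are `0`. `ψ = 1` gives the subtracted term. So the summand for `q` is `≤ 1/(q-1) ∑_{ψ ≠ 1} |∑ α l ψ l| |∑ β m ψ m|`. `ψ ≠ 1` modulo a prime is primitive,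
`1/(q-1) ≤ 1/Q`. Cauchy-Schwarz over the pairs `(q, ψ)` and `BV.large_sieve_mul (2 Q) L α` (only the terms `q ∈ QQ` are kept; `q/φ(q) ≥ 1`; `6 (L + 4 Q^2) ≤ 24 (L + Q^2)`), the same for `β`. `C = 24`.
-/

set_option autoImplicit false

open Finset
open Pool.Agent.Lib.GT (Rough pr V)
open Pool.Agent.Lib.MP_45349e_nt.LS (lam)
open Pool.Agent.Lib.PQ (pw)

namespace Pool.Agent.Lib.XE

/-- the twisted sum -/
private noncomputable def Ls_A (L : ℕ) (α : ℕ → ℝ) {q : ℕ} (χ : DirichletCharacter ℂ q) : ℂ :=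
  ∑ l ∈ Icc 1 L, (α l : ℂ) * χ (l : ZMod q)

private theorem Ls_prim {q : ℕ} (hq : q.Prime) (χ : DirichletCharacter ℂ q) (h : χ ≠ 1) :
    χ.IsPrimitive := by
  have : NeZero q := ⟨hq.ne_zero⟩
  rw [DirichletCharacter.isPrimitive_def]
  rcases (Nat.dvd_prime hq).1 (DirichletCharacter.conductor_dvd_level χ) with h1 | h1
  · exact absurd (DirichletCharacter.eq_one_iff_conductor_eq_one.2 h1) h
  · exact h1

private theorem Ls_one {q : ℕ} (hq : q.Prime) (L : ℕ) (α : ℕ → ℝ) :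
    Ls_A L α (1 : DirichletCharacter ℂ q) =
      ((∑ l ∈ (Icc 1 L).filter (fun l => ¬ q ∣ l), α l : ℝ) : ℂ) := by
  unfold Ls_A
  rw [Complex.ofReal_sum, sum_filter]
  refine sum_congr rfl fun l _ => ?_
  by_cases h : q ∣ l
  · rw [if_neg (not_not.2 h)]
    have : ¬ IsUnit (l : ZMod q) := by
      rw [ZMod.isUnit_iff_coprime]
      intro hc
      exact hq.one_lt.ne' (Nat.eq_one_of_dvd_coprimes hc h dvd_rfl)
    rw [MulChar.map_nonunit _ this, mul_zero]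
  · rw [if_pos h]
    have : IsUnit (l : ZMod q) := by
      rw [ZMod.isUnit_iff_coprime]
      exact ((Nat.Prime.coprime_iff_not_dvd hq).2 h).symm
    rw [MulChar.one_apply this, mul_one]

open Classical in
private theorem Ls_exp {q : ℕ} (hq : q.Prime) (N L M : ℕ) (α β : ℕ → ℝ) (hN : ¬ q ∣ N) [NeZero q] :
    (((q : ℝ) - 1) * ∑ l ∈ Icc 1 L, ∑ m ∈ Icc 1 M, (if l * m ≡ N [MOD q] then α l * β m else 0) : ℝ) =
      ∑ χ : DirichletCharacter ℂ q, χ (N : ZMod q)⁻¹ * (Ls_A L α χ * Ls_A M β χ) := by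
  have hu : IsUnit (N : ZMod q) := by
    rw [ZMod.isUnit_iff_coprime]
    exact ((Nat.Prime.coprime_iff_not_dvd hq).2 hN).symm
  have h1 : ∀ χ : DirichletCharacter ℂ q, χ (N : ZMod q)⁻¹ * (Ls_A L α χ * Ls_A M β χ) =
      ∑ l ∈ Icc 1 L, ∑ m ∈ Icc 1 M, ((α l : ℂ) * β m) *
        (χ (N : ZMod q)⁻¹ * χ ((l * m : ℕ) : ZMod q)) := by
    intro χ
    unfold Ls_A
    rw [sum_mul_sum, mul_sum]
    refine sum_congr rfl fun l _ => ?_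
    rw [mul_sum]
    refine sum_congr rfl fun m _ => ?_
    rw [Nat.cast_mul, map_mul]
    ring
  have h2 : ∑ χ : DirichletCharacter ℂ q, χ (N : ZMod q)⁻¹ * (Ls_A L α χ * Ls_A M β χ) =
      ∑ l ∈ Icc 1 L, ∑ m ∈ Icc 1 M, ∑ χ : DirichletCharacter ℂ q, ((α l : ℂ) * β m) *
        (χ (N : ZMod q)⁻¹ * χ ((l * m : ℕ) : ZMod q)) := by
    rw [sum_congr rfl fun χ _ => h1 χ, sum_comm]
    refine sum_congr rfl fun l _ => ?_
    rw [sum_comm]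
  rw [h2, Complex.ofReal_mul, Complex.ofReal_sum, mul_sum]
  refine sum_congr rfl fun l _ => ?_
  rw [Complex.ofReal_sum, mul_sum]
  refine sum_congr rfl fun m _ => ?_
  rw [← mul_sum (f := fun χ : DirichletCharacter ℂ q =>
    χ (N : ZMod q)⁻¹ * χ ((l * m : ℕ) : ZMod q)), DirichletCharacter.sum_char_inv_mul_char_eq ℂ hu, Nat.totient_prime hq]
  by_cases h : l * m ≡ N [MOD q]
  · rw [if_pos h, if_pos ((ZMod.natCast_eq_natCast_iff _ _ _).2 h.symm), Nat.cast_sub hq.one_lt.le]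
    push_cast
    ring
  · rw [if_neg h, if_neg fun h' => h ((ZMod.natCast_eq_natCast_iff _ _ _).1 h').symm]
    simp

open Classical in
private theorem Ls_term {q : ℕ} (hq : q.Prime) (N L M : ℕ) (α β : ℕ → ℝ) (hN : ¬ q ∣ N) :
    |∑ l ∈ Icc 1 L, ∑ m ∈ Icc 1 M, (if l * m ≡ N [MOD q] then α l * β m else 0) -
      1 / ((q : ℝ) - 1) * ((∑ l ∈ (Icc 1 L).filter (fun l => ¬ q ∣ l), α l) *
        ∑ m ∈ (Icc 1 M).filter (fun m => ¬ q ∣ m), β m)| ≤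
      1 / ((q : ℝ) - 1) * BV.PS q (fun χ => ‖Ls_A L α χ‖ * ‖Ls_A M β χ‖) := by
  have : NeZero q := ⟨hq.ne_zero⟩
  have hq1 : (0 : ℝ) < (q : ℝ) - 1 := by
    have : (1 : ℝ) < q := by exact_mod_cast hq.one_lt
    linarith
  set X : ℝ := ∑ l ∈ Icc 1 L, ∑ m ∈ Icc 1 M, (if l * m ≡ N [MOD q] then α l * β m else 0) with hX
  set Y : ℝ := (∑ l ∈ (Icc 1 L).filter (fun l => ¬ q ∣ l), α l) *
        ∑ m ∈ (Icc 1 M).filter (fun m => ¬ q ∣ m), β m with hY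
  have h1 : X - 1 / ((q : ℝ) - 1) * Y = 1 / ((q : ℝ) - 1) * (((q : ℝ) - 1) * X - Y) := by
    field_simp
  rw [h1, abs_mul, abs_of_pos (by positivity : (0 : ℝ) < 1 / ((q : ℝ) - 1))]
  refine mul_le_mul_of_nonneg_left ?_ (by positivity)
  have hu : IsUnit (N : ZMod q) := by
    rw [ZMod.isUnit_iff_coprime]
    exact ((Nat.Prime.coprime_iff_not_dvd hq).2 hN).symm
  have hinv : IsUnit ((N : ZMod q)⁻¹) := by
    obtain ⟨u, hu'⟩ := hu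
    refine ⟨u⁻¹, ?_⟩
    rw [← hu', ZMod.inv_coe_unit]
  have h2 : (((q : ℝ) - 1) * X - Y : ℝ) =
      ∑ χ ∈ (univ : Finset (DirichletCharacter ℂ q)).erase 1,
        χ (N : ZMod q)⁻¹ * (Ls_A L α χ * Ls_A M β χ) := by
    have h3 := Ls_exp hq N L M α β hN
    rw [← hX] at h3
    rw [← add_sum_erase _ _ (mem_univ (1 : DirichletCharacter ℂ q)), Ls_one hq, Ls_one hq,
      MulChar.one_apply hinv, one_mul] at h3
    rw [Complex.ofReal_sub, h3, hY, Complex.ofReal_mul]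
    ring
  rw [← Real.norm_eq_abs, ← Complex.norm_real, h2]
  refine (norm_sum_le _ _).trans ?_
  unfold BV.PS
  have h4 : ∀ χ : DirichletCharacter ℂ q, ‖χ (N : ZMod q)⁻¹ * (Ls_A L α χ * Ls_A M β χ)‖ =
      ‖Ls_A L α χ‖ * ‖Ls_A M β χ‖ := by
    intro χ
    obtain ⟨u, hu'⟩ := hinv
    rw [norm_mul, norm_mul, ← hu', DirichletCharacter.unit_norm_eq_one χ u, one_mul]
  rw [sum_congr rfl fun χ _ => h4 χ]
  refine sum_le_sum_of_subset_of_nonneg ?_ fun χ _ _ => by positivity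
  intro χ hχ
  rw [mem_erase] at hχ
  rw [mem_filter]
  exact ⟨mem_univ _, Ls_prim hq χ hχ.1⟩

open Classical in
private theorem Ls_cs (q : ℕ) (f g : DirichletCharacter ℂ q → ℝ) (hf : ∀ χ, 0 ≤ f χ)
    (hg : ∀ χ, 0 ≤ g χ) :
    BV.PS q (fun χ => f χ * g χ) ≤ √(BV.PS q (fun χ => f χ ^ 2)) * √(BV.PS q (fun χ => g χ ^ 2)) := by
  unfold BV.PS
  have h := Real.sum_sqrt_mul_sqrt_le (univ.filter fun χ : DirichletCharacter ℂ q => χ.IsPrimitive)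
    (f := fun χ => f χ ^ 2) (g := fun χ => g χ ^ 2) (fun χ => sq_nonneg _) (fun χ => sq_nonneg _)
  simp only [Real.sqrt_sq (hf _), Real.sqrt_sq (hg _)] at h
  exact h

private theorem Ls_sieve (Q : ℕ) (QQ : Finset ℕ)
    (hQ : ∀ q ∈ QQ, q.Prime ∧ Q < q ∧ q ≤ 2 * Q) (L : ℕ) (α : ℕ → ℝ) :
    ∑ q ∈ QQ, BV.PS q (fun χ => ‖Ls_A L α χ‖ ^ 2) ≤
      24 * (((L : ℝ) + (Q : ℝ) ^ 2) * ∑ l ∈ Icc 1 L, α l ^ 2) := by
  have h1 := BV.large_sieve_mul (2 * Q) L (fun n => (α n : ℂ))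
  have h2 : ∑ q ∈ QQ, BV.PS q (fun χ => ‖Ls_A L α χ‖ ^ 2) ≤
      ∑ q ∈ Icc 1 (2 * Q), ((q : ℝ) / q.totient) *
      BV.PS q (fun χ => ‖∑ n ∈ Icc 1 L, (α n : ℂ) * χ (n : ZMod q)‖ ^ 2) := by
    have h3 : ∑ q ∈ QQ, BV.PS q (fun χ => ‖Ls_A L α χ‖ ^ 2) ≤
        ∑ q ∈ QQ, ((q : ℝ) / q.totient) *
        BV.PS q (fun χ => ‖∑ n ∈ Icc 1 L, (α n : ℂ) * χ (n : ZMod q)‖ ^ 2) := by
      refine sum_le_sum fun q hq => ?_
      have hp := (hQ q hq).1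
      have hφ : (0 : ℝ) < q.totient := by exact_mod_cast Nat.totient_pos.2 hp.pos
      have h4 : (1 : ℝ) ≤ (q : ℝ) / q.totient := by
        rw [le_div_iff₀ hφ, one_mul]
        exact_mod_cast Nat.totient_le q
      have h5 : (0 : ℝ) ≤ BV.PS q (fun χ => ‖∑ n ∈ Icc 1 L, (α n : ℂ) * χ (n : ZMod q)‖ ^ 2) :=
        BV.PS_nonneg fun χ => by positivity
      exact le_mul_of_one_le_left h5 h4
    refine h3.trans (sum_le_sum_of_subset_of_nonneg ?_ ?_)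
    · intro q hq
      have := hQ q hq
      rw [mem_Icc]
      exact ⟨this.1.one_lt.le, this.2.2⟩
    · intro q _ _
      exact mul_nonneg (by positivity) (BV.PS_nonneg fun χ => by positivity)
  refine (h2.trans h1).trans ?_
  have h6 : ∑ n ∈ Icc 1 L, ‖(α n : ℂ)‖ ^ 2 = ∑ l ∈ Icc 1 L, α l ^ 2 := by
    refine sum_congr rfl fun n _ => ?_
    rw [Complex.norm_real, Real.norm_eq_abs, sq_abs]
  simp only [h6]
  have h7 : (0 : ℝ) ≤ ∑ l ∈ Icc 1 L, α l ^ 2 := sum_nonneg fun _ _ => sq_nonneg _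
  rw [← mul_assoc]
  refine mul_le_mul_of_nonneg_right ?_ h7
  push_cast
  nlinarith [Nat.cast_nonneg (α := ℝ) L]

open Classical in
theorem ls_bil : ∃ C : ℝ, 0 < C ∧ ∀ (Q : ℕ) (QQ : Finset ℕ), 1 ≤ Q →
    (∀ q ∈ QQ, q.Prime ∧ Q < q ∧ q ≤ 2 * Q) → ∀ (N L M : ℕ) (α β : ℕ → ℝ), (∀ q ∈ QQ, ¬ q ∣ N) →
    ∑ q ∈ QQ, |∑ l ∈ Icc 1 L, ∑ m ∈ Icc 1 M, (if l * m ≡ N [MOD q] then α l * β m else 0) -
      1 / ((q : ℝ) - 1) * ((∑ l ∈ (Icc 1 L).filter (fun l => ¬ q ∣ l), α l) *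
        ∑ m ∈ (Icc 1 M).filter (fun m => ¬ q ∣ m), β m)| ≤
      C / Q * (√(((L : ℝ) + (Q : ℝ) ^ 2) * ∑ l ∈ Icc 1 L, α l ^ 2) *
        √(((M : ℝ) + (Q : ℝ) ^ 2) * ∑ m ∈ Icc 1 M, β m ^ 2)) := by
  refine ⟨24, by norm_num, fun Q QQ hQ1 hQQ N L M α β hN => ?_⟩
  have hQ0 : (0 : ℝ) < Q := by exact_mod_cast hQ1
  have h1 : ∀ q ∈ QQ, |∑ l ∈ Icc 1 L, ∑ m ∈ Icc 1 M, (if l * m ≡ N [MOD q] then α l * β m else 0) -
      1 / ((q : ℝ) - 1) * ((∑ l ∈ (Icc 1 L).filter (fun l => ¬ q ∣ l), α l) *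
        ∑ m ∈ (Icc 1 M).filter (fun m => ¬ q ∣ m), β m)| ≤
      1 / (Q : ℝ) * (√(BV.PS q (fun χ => ‖Ls_A L α χ‖ ^ 2)) *
        √(BV.PS q (fun χ => ‖Ls_A M β χ‖ ^ 2))) := by
    intro q hq
    obtain ⟨hp, hq1, hq2⟩ := hQQ q hq
    refine (Ls_term hp N L M α β (hN q hq)).trans ?_
    have h2 : (Q : ℝ) ≤ (q : ℝ) - 1 := by
      have : ((Q + 1 : ℕ) : ℝ) ≤ q := by exact_mod_cast hq1
      push_cast at this
      linarith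
    refine mul_le_mul (one_div_le_one_div_of_le hQ0 h2)
      (Ls_cs q _ _ (fun χ => norm_nonneg _) (fun χ => norm_nonneg _))
      (BV.PS_nonneg fun χ => by positivity) (by positivity)
  refine (sum_le_sum h1).trans ?_
  rw [← mul_sum]
  have h3 := Real.sum_sqrt_mul_sqrt_le QQ (f := fun q => BV.PS q (fun χ => ‖Ls_A L α χ‖ ^ 2))
    (g := fun q => BV.PS q (fun χ => ‖Ls_A M β χ‖ ^ 2))
    (fun q => BV.PS_nonneg fun χ => by positivity) (fun q => BV.PS_nonneg fun χ => by positivity)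
  have h4 : √(∑ q ∈ QQ, BV.PS q (fun χ => ‖Ls_A L α χ‖ ^ 2)) ≤
      √24 * √(((L : ℝ) + (Q : ℝ) ^ 2) * ∑ l ∈ Icc 1 L, α l ^ 2) := by
    rw [← Real.sqrt_mul (by norm_num)]
    exact Real.sqrt_le_sqrt (Ls_sieve Q QQ hQQ L α)
  have h5 : √(∑ q ∈ QQ, BV.PS q (fun χ => ‖Ls_A M β χ‖ ^ 2)) ≤
      √24 * √(((M : ℝ) + (Q : ℝ) ^ 2) * ∑ m ∈ Icc 1 M, β m ^ 2) := by
    rw [← Real.sqrt_mul (by norm_num)]
    exact Real.sqrt_le_sqrt (Ls_sieve Q QQ hQQ M β)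
  have h6 : √(∑ q ∈ QQ, BV.PS q (fun χ => ‖Ls_A L α χ‖ ^ 2)) *
      √(∑ q ∈ QQ, BV.PS q (fun χ => ‖Ls_A M β χ‖ ^ 2)) ≤
      (√24 * √(((L : ℝ) + (Q : ℝ) ^ 2) * ∑ l ∈ Icc 1 L, α l ^ 2)) *
      (√24 * √(((M : ℝ) + (Q : ℝ) ^ 2) * ∑ m ∈ Icc 1 M, β m ^ 2)) :=
    mul_le_mul h4 h5 (Real.sqrt_nonneg _) (by positivity)
  have h7 : (√24 * √(((L : ℝ) + (Q : ℝ) ^ 2) * ∑ l ∈ Icc 1 L, α l ^ 2)) *
      (√24 * √(((M : ℝ) + (Q : ℝ) ^ 2) * ∑ m ∈ Icc 1 M, β m ^ 2)) =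
      24 * (√(((L : ℝ) + (Q : ℝ) ^ 2) * ∑ l ∈ Icc 1 L, α l ^ 2) *
        √(((M : ℝ) + (Q : ℝ) ^ 2) * ∑ m ∈ Icc 1 M, β m ^ 2)) := by
    have h8 : √(24 : ℝ) * √24 = 24 := Real.mul_self_sqrt (by norm_num)
    calc _ = (√24 * √24) * (√(((L : ℝ) + (Q : ℝ) ^ 2) * ∑ l ∈ Icc 1 L, α l ^ 2) *
        √(((M : ℝ) + (Q : ℝ) ^ 2) * ∑ m ∈ Icc 1 M, β m ^ 2)) := by ring
      _ = _ := by rw [h8]
  calc 1 / (Q : ℝ) * ∑ q ∈ QQ, (√(BV.PS q (fun χ => ‖Ls_A L α χ‖ ^ 2)) *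
        √(BV.PS q (fun χ => ‖Ls_A M β χ‖ ^ 2)))
      ≤ 1 / (Q : ℝ) * (24 * (√(((L : ℝ) + (Q : ℝ) ^ 2) * ∑ l ∈ Icc 1 L, α l ^ 2) *
        √(((M : ℝ) + (Q : ℝ) ^ 2) * ∑ m ∈ Icc 1 M, β m ^ 2))) := by
        refine mul_le_mul_of_nonneg_left ?_ (by positivity)
        rw [← h7]
        exact h3.trans h6
    _ = 24 / Q * (√(((L : ℝ) + (Q : ℝ) ^ 2) * ∑ l ∈ Icc 1 L, α l ^ 2) *
        √(((M : ℝ) + (Q : ℝ) ^ 2) * ∑ m ∈ Icc 1 M, β m ^ 2)) := by ring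

end Pool.Agent.Lib.XE
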