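import Pool.Agent.Lib.MP_61161c_nt.XE.Defs

/-!
# real characters and the pattern of a good multiplier   (module P6a, 45 minutes)

PROOF. `chi_val`: `χ x ^ 2 = (χ ^ 2) x`. `lam_eq_chi`: induction on the factorization (`Nat.recOnMul` or `induction_on_primes`): `lam p = -1`, both sides are completely multiplicative. `pat`: `q * a < N`; `lam (q a) = lam q lam a = -lam a = s`; `χ (q a) = χ q χ a = χ a = lam a = -s` (`lam_eq_chi`); `χ (N - q a) = lam (N - q a)`; `hT` for `q a` (coprime to `M`: all its primes have `χ ≠ 0`) gives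
`-s * lam (N - q a) = -(s t)`, so `lam (N - q a) = t`. Rough: `q` is rough. Coprime to `N`: `N ∣ M` and a common prime would have `χ = 0`. The complex numbers are real: cast.
-/

set_option autoImplicit false

open Finset
open Pool.Agent.Lib.GT (Rough pr V)
open Pool.Agent.Lib.MP_45349e_nt.LS (lam)
open Pool.Agent.Lib.PQ (pw)

namespace Pool.Agent.Lib.XE

private theorem p6a_mul {p a : ℕ} (hp : p.Prime) (ha : a ≠ 0) : lam (p * a) = -lam a := by
  unfold lam
  rw [ArithmeticFunction.cardFactors_mul hp.ne_zero ha,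
    ArithmeticFunction.cardFactors_apply_prime hp, pow_add, pow_one]
  ring

private theorem p6a_cop {M b : ℕ} (χ : DirichletCharacter ℂ M)
    (h : ∀ p : ℕ, p.Prime → p ∣ b → χ (p : ZMod M) ≠ 0) : b.Coprime M := by
  refine Nat.Coprime.symm (Nat.coprime_of_dvd (fun p hp hpM hpb => ?_))
  refine h p hp hpb (MulChar.map_nonunit χ (fun hu => ?_))
  rw [ZMod.isUnit_iff_coprime] at hu
  exact hp.one_lt.ne' (Nat.Coprime.eq_one_of_dvd hu hpM)

theorem chi_val {M : ℕ} (χ : DirichletCharacter ℂ M) (h2 : χ ^ 2 = 1) (x : ZMod M) :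
    χ x = 0 ∨ χ x = 1 ∨ χ x = -1 := by
  by_cases hx : IsUnit x
  · right
    have h3 : χ x ^ 2 = 1 := by
      rw [← MulChar.pow_apply' χ (by norm_num) x, h2, MulChar.one_apply hx]
    have h4 : (χ x - 1) * (χ x + 1) = 0 := by linear_combination h3
    rcases mul_eq_zero.mp h4 with h5 | h5
    · left; linear_combination h5
    · right; linear_combination h5
  · left
    exact MulChar.map_nonunit χ hx

theorem lam_eq_chi {M : ℕ} (χ : DirichletCharacter ℂ M) (n : ℕ) (hn : n ≠ 0)
    (h : ∀ l : ℕ, l.Prime → l ∣ n → χ (l : ZMod M) = -1) : χ (n : ZMod M) = (lam n : ℂ) := by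
  induction n using induction_on_primes with
  | zero => exact absurd rfl hn
  | one =>
    rw [Nat.cast_one, map_one]
    unfold lam
    rw [ArithmeticFunction.cardFactors_one, pow_zero, Complex.ofReal_one]
  | prime_mul p a hp ih =>
    have ha : a ≠ 0 := fun h0 => hn (by rw [h0, mul_zero])
    rw [Nat.cast_mul, map_mul, h p hp (dvd_mul_right p a),
      ih ha (fun l hl hla => h l hl (hla.mul_left p)), p6a_mul hp ha]
    push_cast
    ring

theorem pat {N z q a M : ℕ} (hM : N ∣ M) (χ : DirichletCharacter ℂ M) (hq : q.Prime) (hqz : z < q)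
    (hχq : χ (q : ZMod M) = 1) {s t : ℝ} (hs : s = 1 ∨ s = -1) (ht : t = 1 ∨ t = -1)
    (hT : ∀ a : ℕ, a < N → a.Coprime M → (N - a).Coprime M →
      χ (a : ZMod M) * χ ((N - a : ℕ) : ZMod M) = -((s * t : ℝ) : ℂ))
    (ha : a ∈ AA N z q) (hla : lam a = -s) (h1 : ∀ l : ℕ, l.Prime → l ∣ a → χ (l : ZMod M) = -1)
    (h2 : ∀ l : ℕ, l.Prime → l ∣ N - q * a → χ (l : ZMod M) = -1) : q * a ∈ RP N z s t := by
  unfold AA at ha
  obtain ⟨h3, h4, h5, h6⟩ := Finset.mem_filter.mp ha
  rw [Finset.mem_Icc] at h3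
  have ha0 : a ≠ 0 := by omega
  have hR : Rough z (q * a) := by
    intro p hp hpd
    rcases (Nat.Prime.dvd_mul hp).mp hpd with h | h
    · rw [(Nat.prime_dvd_prime_iff_eq hp hq).mp h]; exact hqz
    · exact h5 p hp h
  have hc1 : (q * a).Coprime M := by
    refine p6a_cop χ (fun p hp hpd => ?_)
    rcases (Nat.Prime.dvd_mul hp).mp hpd with h | h
    · rw [(Nat.prime_dvd_prime_iff_eq hp hq).mp h, hχq]; exact one_ne_zero
    · rw [h1 p hp h]; norm_num
  have hc2 : (N - q * a).Coprime M := by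
    refine p6a_cop χ (fun p hp hpd => ?_)
    rw [h2 p hp hpd]; norm_num
  have h7 := hT (q * a) h4 hc1 hc2
  have h8 : χ ((q * a : ℕ) : ZMod M) = ((-s : ℝ) : ℂ) := by
    rw [Nat.cast_mul, map_mul, hχq, one_mul, lam_eq_chi χ a ha0 h1, hla]
  have h9 := lam_eq_chi χ (N - q * a) (by omega) h2
  rw [h8, h9, ← Complex.ofReal_mul, ← Complex.ofReal_neg, Complex.ofReal_inj] at h7
  have h10 : lam (q * a) = s := by
    rw [p6a_mul hq ha0, hla, neg_neg]
  have h11 : lam (N - q * a) = t := by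
    rcases hs with rfl | rfl <;> linarith
  unfold RP
  rw [Finset.mem_filter, Finset.mem_range]
  exact ⟨h4, hR, h6, hc1.coprime_dvd_right hM, h10, h11⟩

end Pool.Agent.Lib.XE
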