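import Pool.Agent.Lib.MP_61161c_nt.XE.Defs
import Pool.Agent.Lib.MP_7b7e48_nt.PX.QEX
import Pool.Agent.Lib.MP_7b7e48_nt.SPV.D3
import Pool.Agent.Lib.MP_7b7e48_nt.RG.A2

/-!
# the split primes of a real character   (module Qx, 35 minutes)

PROOF. Copy of the first lines of `PX/E1c.lean`: `SPV.spv` gives `β`, `k = ⌈40/β⌉ + 160`, `PL.Par k β`; `μ0 = min (1/(1000 k)) (1/10)`. For `χ`: `RG.RC_char`, `RG.LV_char (μ/400)` (`κ M^(-μ/400) ≤ L`, so `M^(-μ/200) ≤ L` for `M` large), `Spc M β c` from `spv` (real part of the sum), `PX.QEX`. `c q = 1` for `c n = (χ n).re`: `χ q` is `0, 1` or `-1` (`χ ^ 2 = 1`), so `χ q = 1`.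
-/

set_option autoImplicit false

open Finset
open Pool.Agent.Lib.GT (Rough pr V)
open Pool.Agent.Lib.MP_45349e_nt.LS (lam)
open Pool.Agent.Lib.PQ (pw)

namespace Pool.Agent.Lib.XE

theorem qx : ∃ μ0 : ℝ, 0 < μ0 ∧ ∀ μ : ℝ, 0 < μ → μ ≤ μ0 → ∃ M0 : ℕ, ∀ (M : ℕ) [NeZero M], M0 ≤ M →
    ∀ χ : DirichletCharacter ℂ M, χ ≠ 1 → χ ^ 2 = 1 → ∃ (Q : ℕ) (QQ : Finset ℕ),
    Pool.Agent.Lib.PX.QS M μ Q QQ ∧ (∀ q ∈ QQ, χ (q : ZMod M) = 1) ∧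
    (M : ℝ) ^ (-(μ / 100)) ≤ ∑ q ∈ QQ, 1 / (q : ℝ) := by
  obtain ⟨β, hβ, hβ1, hs⟩ := Pool.Agent.Lib.SPV.spv
  have hk : 40 ≤ β * ((⌈40 / β⌉₊ + 160 : ℕ) : ℝ) := by
    have h1 := Nat.le_ceil (40 / β)
    rw [div_le_iff₀ hβ] at h1
    push_cast
    nlinarith
  have hk0 : 0 < ((⌈40 / β⌉₊ + 160 : ℕ) : ℝ) := by positivity
  set k := ⌈40 / β⌉₊ + 160 with hkdef
  have hP : Pool.Agent.Lib.PL.Par k β := ⟨hβ, hβ1, hk, hs⟩
  refine ⟨1 / (1000 * k), by positivity, fun μ hμ hμ0 => ?_⟩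
  obtain ⟨N0, hN0⟩ := Pool.Agent.Lib.PX.QEX hP μ hμ hμ0
  obtain ⟨κ, hκ, hLV⟩ := Pool.Agent.Lib.RG.LV_char (μ / 400) (by positivity)
  obtain ⟨Q0, hQ0, hsp⟩ := hs
  have hT : Filter.Tendsto (fun n : ℕ => (n : ℝ) ^ (μ / 400)) Filter.atTop Filter.atTop :=
    (tendsto_rpow_atTop (by positivity)).comp tendsto_natCast_atTop_atTop
  obtain ⟨N1, hN1⟩ := Filter.eventually_atTop.mp (hT.eventually_ge_atTop (1 / κ))
  refine ⟨max (max N0 N1) (max Q0 2), fun M _ hM χ h1 h2 => ?_⟩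
  have hM0 : N0 ≤ M := ((le_max_left _ _).trans (le_max_left _ _)).trans hM
  have hM1 : N1 ≤ M := ((le_max_right _ _).trans (le_max_left _ _)).trans hM
  have hMQ : Q0 ≤ M := ((le_max_left _ _).trans (le_max_right _ _)).trans hM
  have hM2 : 2 ≤ M := ((le_max_right _ _).trans (le_max_right _ _)).trans hM
  have hMp : (0 : ℝ) < M := by
    have : 0 < M := by omega
    exact_mod_cast this
  obtain ⟨L, hL, hLk⟩ := hLV M hM2 χ h2 h1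
  have hlow : (M : ℝ) ^ (-(μ / 200)) ≤ L := by
    refine le_trans ?_ hLk
    have h3 : (M : ℝ) ^ (-(μ / 200)) = (M : ℝ) ^ (-(μ / 400)) * (M : ℝ) ^ (-(μ / 400)) := by
      rw [← Real.rpow_add hMp]
      congr 1
      ring
    rw [h3]
    refine mul_le_mul_of_nonneg_right ?_ (Real.rpow_nonneg hMp.le _)
    rw [Real.rpow_neg hMp.le]
    have h4 : 1 / κ ≤ (M : ℝ) ^ (μ / 400) := hN1 M hM1
    rw [div_le_iff₀ hκ] at h4
    rw [inv_le_iff_one_le_mul₀ (Real.rpow_pos_of_pos hMp _)]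
    linarith
  have hSpc : Pool.Agent.Lib.PX.Spc M β (fun n => (χ (n : ZMod M)).re) := by
    intro y hy
    have h3 := hsp M hMQ inferInstance χ h1 y hy
    rw [← Complex.re_sum]
    exact (Complex.abs_re_le_norm _).trans h3
  obtain ⟨Q, QQ, hQS, hq1, hsum⟩ := hN0 M hM0 (fun n => (χ (n : ZMod M)).re) L
    (Pool.Agent.Lib.RG.RC_char M hM2 χ h2 h1) hL hlow hSpc
  refine ⟨Q, QQ, hQS, fun q hq => ?_, hsum⟩
  have h3 : (χ (q : ZMod M)).re = 1 := hq1 q hq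
  apply Complex.ext
  · rw [h3, Complex.one_re]
  · rw [Complex.one_im]
    exact Pool.Agent.Lib.SW.rc_real h2 (q : ZMod M)

end Pool.Agent.Lib.XE
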