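import Pool.Agent.Lib.MP_61161c_nt.XE.P6a
import Pool.Agent.Lib.MP_61161c_nt.XE.Bb
import Pool.Agent.Lib.MP_61161c_nt.XE.Cc
import Pool.Agent.Lib.MP_61161c_nt.XE.La2
import Pool.Agent.Lib.MP_61161c_nt.XE.Dd
import Pool.Agent.Lib.MP_61161c_nt.XE.Qx

/-!
# THEOREM P6: a real character with few split primes and constant product has all patterns   (module P6b, 100 minutes)

PROOF. `C1, C2` the constants of `cc`, `dd`. `μ0 ≤` the number of `qx`, `≤ 1/100`, `C1 μ0 ≤ 1/40`; `δ` with `(4 + C2) δ ≤ 1/40`; `c1 ≤` the numbers of `bb (μ/2)`, `cc (μ/2)`, `cc (μ/10)`, `la (1/40)`, `aa_asym (1/40) (1/4)`, `dd μ`, and `C1 c1 ≤ 1/40`, `c1 < μ`. `M = 24 N`, `Q, QQ` from `qx`. `YQ = ∑_{q ∈ QQ} (N/q) VN`. For `q ∈ QQ`: `z < N^μ ≤ Q < q ≤ 2Q ≤ N^(1/2)`, `q ∤ 24 N`.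
(a) `#{a ∈ AA : lam a = -s} = (#AA - s ∑ lam a)/2 ≥ (1/2)(1 - 1/40 - 1/40) (N/q) VN` (`aa_asym` with `W = 1`, `la`).
Bad `a`: some prime `l ∣ a` or `l ∣ N - q a` has `χ l ≠ -1`, i.e. (`chi_val`) `χ l = 1` or `l ∣ 24 N` (`l > z ≥ 3`, so `l ∣ N`).
(b) `χ l = 1`, `q l ≤ N^(1-μ/2)`: `bb (μ/2)`: `≤ 4 ∑ 1/l (N/q) VN ≤ 4 δ (N/q) VN` (both kinds; these `l` are `≤ N^(1-μ/10)`).
(c) `q l > N^(1-μ/2)`, `l ∣ a`: `cc (μ/2)`; `l > N^(1-μ/10)`, `l ∣ N - q a`: `cc (μ/10)`: together `≤ 2 C1 (c0 + μ) (N/q) VN ≤ (4/40) (N/q) VN`... choose `C1 μ0 ≤ 1/80`.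
(d) `χ l = 1`, `l ∣ N - q a`, `q l > N^(1-μ/2)`, `l ≤ N^(1-μ/10)`: then `l ≥ N^(1/2)` (`q ≤ (24 N)^(1/2-μ)`), `dd` with this `LL`: sum over `q`: `≤ C2 δ YQ + N^(1-μ/50)`.
(e) `l ∣ N` prime, `l > z`, `l ∣ a` (then `l ∣ N - q a`) or `l ∣ N - q a` (then `l ∣ q a`, `l ≠ q`): at most `log N/log 2` primes, each `≤ N/(q l) + 1` values `a`: `≤ 2 log N (N/(q z) + 1)`, small against `(N/q) VN`.
So `∑_q #good ≥ (2/5) YQ - (1/5) YQ - N^(1-μ/50) ≥ (1/8) YQ`, `YQ ≥ N (24 N)^(-μ/100) C/(log N)^2`. By `pat` each good `a` gives `q a ∈ RP`; every member of `RP` is hit by at most `1/μ + 1` pairs (`q ≥ N^μ` primes dividing a number `< N`). Hence `#RP ≥ N^(1-μ/40)` for `N` large.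
-/

set_option autoImplicit false

open Finset
open Pool.Agent.Lib.GT (Rough pr V)
open Pool.Agent.Lib.MP_45349e_nt.LS (lam)
open Pool.Agent.Lib.PQ (pw)

namespace Pool.Agent.Lib.XE

private theorem ppow {S : Finset ℕ} {n : ℕ} {x : ℝ} (hx : 0 ≤ x) (hn : n ≠ 0)
    (h : ∀ p ∈ S, p.Prime ∧ p ∣ n ∧ x ≤ p) : x ^ S.card ≤ n := by
  have h1 : ∏ p ∈ S, p ∣ n :=
    Finset.prod_primes_dvd n (fun p hp => (h p hp).1.prime) (fun p hp => (h p hp).2.1)
  have h2 : ∏ p ∈ S, p ≤ n := Nat.le_of_dvd (Nat.pos_of_ne_zero hn) h1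
  calc x ^ S.card = ∏ _p ∈ S, x := by rw [Finset.prod_const]
    _ ≤ ∏ p ∈ S, (p : ℝ) := Finset.prod_le_prod (fun _ _ => hx) (fun p hp => (h p hp).2.2)
    _ = ((∏ p ∈ S, p : ℕ) : ℝ) := by push_cast; rfl
    _ ≤ n := by exact_mod_cast h2

private theorem ev_pow (a B : ℝ) (ha : 0 < a) : ∀ᶠ N : ℕ in Filter.atTop, B ≤ (N : ℝ) ^ a :=
  ((tendsto_rpow_atTop ha).comp tendsto_natCast_atTop_atTop).eventually_ge_atTop B

private theorem ev_log (a K : ℝ) (ha : 0 < a) (hK : 0 < K) :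
    ∀ᶠ N : ℕ in Filter.atTop, K * (Real.log N) ^ 2 ≤ (N : ℝ) ^ a := by
  have h1 := (isLittleO_log_rpow_rpow_atTop (2 : ℝ) ha).bound (show 0 < 1 / K by positivity)
  have h2 := tendsto_natCast_atTop_atTop (R := ℝ) |>.eventually h1
  filter_upwards [h2, Filter.eventually_ge_atTop 1] with N hN h1N
  have h3 : (1 : ℝ) ≤ N := by exact_mod_cast h1N
  have h4 : 0 ≤ Real.log N := Real.log_nonneg h3
  rw [Real.norm_of_nonneg (by positivity), Real.norm_of_nonneg (by positivity)] at hN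
  have h5 : Real.log (N : ℝ) ^ (2 : ℝ) = Real.log N ^ 2 := by
    rw [← Real.rpow_natCast]
    norm_num
  rw [h5, one_div, ← div_eq_inv_mul, le_div_iff₀ hK] at hN
  linarith

private theorem mult {N : ℕ} {μ : ℝ} (hN : 2 ≤ N) {QQ : Finset ℕ}
    (hQ : ∀ q ∈ QQ, q.Prime ∧ (N : ℝ) ^ μ ≤ q) {G : ℕ → Finset ℕ} {R : Finset ℕ}
    (hG : ∀ q ∈ QQ, ∀ a ∈ G q, q * a ∈ R) (hR : ∀ n ∈ R, n ≠ 0 ∧ n < N) :
    μ * ∑ q ∈ QQ, ((G q).card : ℝ) ≤ R.card := by
  classical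
  have h2 : (QQ.sigma G).card = ∑ n ∈ R, ((QQ.sigma G).filter fun x => x.1 * x.2 = n).card := by
    apply Finset.card_eq_sum_card_fiberwise
    intro x hx
    rw [Finset.mem_coe, Finset.mem_sigma] at hx
    exact hG x.1 hx.1 x.2 hx.2
  have h3 : ∀ n ∈ R, μ * (((QQ.sigma G).filter fun x => x.1 * x.2 = n).card : ℝ) ≤ 1 := by
    intro n hn
    obtain ⟨hn0, hnN⟩ := hR n hn
    have h4 : ((QQ.sigma G).filter fun x => x.1 * x.2 = n).card ≤ (QQ.filter fun q => q ∣ n).card := by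
      apply Finset.card_le_card_of_injOn (fun x => x.1)
      · intro x hx
        have hx' := Finset.mem_filter.1 (Finset.mem_coe.1 hx)
        exact Finset.mem_coe.2 (Finset.mem_filter.2 ⟨(Finset.mem_sigma.1 hx'.1).1, ⟨x.2, hx'.2.symm⟩⟩)
      · rintro ⟨x1, x2⟩ hx ⟨y1, y2⟩ hy hxy
        have hx' := Finset.mem_filter.1 (Finset.mem_coe.1 hx)
        have hy' := Finset.mem_filter.1 (Finset.mem_coe.1 hy)
        have hxy' : x1 = y1 := hxy
        subst hxy'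
        have h5 : x1 * x2 = x1 * y2 := hx'.2.trans hy'.2.symm
        have h6 : 0 < x1 := (hQ x1 (Finset.mem_sigma.1 hx'.1).1).1.pos
        rw [Nat.eq_of_mul_eq_mul_left h6 h5]
    rcases le_or_gt μ 0 with hμ | hμ
    · have : μ * (((QQ.sigma G).filter fun x => x.1 * x.2 = n).card : ℝ) ≤ 0 :=
        mul_nonpos_of_nonpos_of_nonneg hμ (Nat.cast_nonneg _)
      linarith
    have h5 : ((N : ℝ) ^ μ) ^ (QQ.filter fun q => q ∣ n).card ≤ n := by
      apply ppow (by positivity) hn0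
      intro p hp
      rw [Finset.mem_filter] at hp
      exact ⟨(hQ p hp.1).1, hp.2, (hQ p hp.1).2⟩
    have hN1 : (1 : ℝ) < N := by exact_mod_cast (by omega : 1 < N)
    have hN0 : (0 : ℝ) < N := by linarith
    have h6 : (N : ℝ) ^ (μ * ((QQ.filter fun q => q ∣ n).card : ℝ)) < (N : ℝ) ^ (1 : ℝ) := by
      rw [Real.rpow_mul hN0.le, Real.rpow_natCast, Real.rpow_one]
      exact lt_of_le_of_lt h5 (by exact_mod_cast hnN)
    have h7 := (Real.rpow_lt_rpow_left_iff hN1).1 h6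
    have h8 : (((QQ.sigma G).filter fun x => x.1 * x.2 = n).card : ℝ) ≤
        ((QQ.filter fun q => q ∣ n).card : ℝ) := by exact_mod_cast h4
    have h9 := mul_le_mul_of_nonneg_left h8 hμ.le
    linarith
  have h1 : ∑ q ∈ QQ, ((G q).card : ℝ) = ((QQ.sigma G).card : ℝ) := by
    rw [Finset.card_sigma]
    push_cast
    rfl
  rw [h1, h2]
  push_cast
  rw [Finset.mul_sum]
  calc ∑ n ∈ R, μ * (((QQ.sigma G).filter fun x => x.1 * x.2 = n).card : ℝ) ≤ ∑ n ∈ R, (1 : ℝ) :=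
        Finset.sum_le_sum h3
    _ = R.card := by rw [Finset.sum_const, nsmul_eq_mul, mul_one]

private theorem half {A : Finset ℕ} {s Y : ℝ} (hs : s = 1 ∨ s = -1)
    (h1 : 39 / 40 * Y ≤ (A.card : ℝ)) (h2 : |∑ a ∈ A, lam a| ≤ 1 / 40 * Y) :
    19 / 40 * Y ≤ ((A.filter fun a => lam a = -s).card : ℝ) := by
  have h3 : ((A.filter fun a => lam a = -s).card : ℝ) = ∑ a ∈ A, (1 - s * lam a) / 2 := by
    rw [Finset.card_filter]
    push_cast
    refine Finset.sum_congr rfl fun a _ => ?_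
    have h4 : lam a = 1 ∨ lam a = -1 := by
      unfold lam
      exact neg_one_pow_eq_or ℝ _
    rcases hs with hs | hs <;> rcases h4 with h4 | h4 <;> rw [hs, h4] <;> norm_num
  have h5 : ∑ a ∈ A, (1 - s * lam a) / 2 = ((A.card : ℝ) - s * ∑ a ∈ A, lam a) / 2 := by
    rw [← Finset.sum_div, Finset.sum_sub_distrib, Finset.sum_const, nsmul_eq_mul, mul_one, Finset.mul_sum]
  rw [h3, h5]
  rw [abs_le] at h2
  rcases hs with hs | hs <;> rw [hs] <;> linarith [h2.1, h2.2]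

open Classical in
private noncomputable def gd (N z q : ℕ) (s : ℝ) (χ : DirichletCharacter ℂ (24 * N)) : Finset ℕ :=
  (AA N z q).filter fun a => lam a = -s ∧
    (∀ l : ℕ, l.Prime → l ∣ a → χ (l : ZMod (24 * N)) = -1) ∧
    ∀ l : ℕ, l.Prime → l ∣ N - q * a → χ (l : ZMod (24 * N)) = -1

private theorem bad_prime {N z l : ℕ} {χ : DirichletCharacter ℂ (24 * N)} (h2 : χ ^ 2 = 1)
    (hz : 3 ≤ z) (hl : l.Prime) (hlz : z < l) (hχ : χ (l : ZMod (24 * N)) ≠ -1) :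
    χ (l : ZMod (24 * N)) = 1 ∨ l ∣ N := by
  rcases chi_val χ h2 (l : ZMod (24 * N)) with h | h | h
  · right
    by_contra hlN
    have hc : l.Coprime (24 * N) := by
      rw [Nat.Prime.coprime_iff_not_dvd hl, Nat.Prime.dvd_mul hl]
      rintro (h3 | h3)
      · have h4 : l ∣ 2 ^ 3 * 3 := by norm_num; exact h3
        rw [Nat.Prime.dvd_mul hl] at h4
        rcases h4 with h4 | h4
        · have := (Nat.prime_dvd_prime_iff_eq hl Nat.prime_two).1 (hl.dvd_of_dvd_pow h4)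
          omega
        · have := (Nat.prime_dvd_prime_iff_eq hl Nat.prime_three).1 h4
          omega
      · exact hlN h3
    have hu : IsUnit ((l : ℕ) : ZMod (24 * N)) := (ZMod.isUnit_iff_coprime l (24 * N)).2 hc
    have h5 := (hu.map χ).ne_zero
    exact h5 h
  · left
    exact h
  · exact absurd h hχ

open Classical in
private theorem cover {N z q : ℕ} {μ s : ℝ} {χ : DirichletCharacter ℂ (24 * N)} (h2 : χ ^ 2 = 1)
    (hz : 3 ≤ z) (hq : q.Prime) (hqN : ¬ q ∣ 24 * N) {L1 LL D : Finset ℕ}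
    (hL1 : ∀ l : ℕ, l.Prime → z < l → χ (l : ZMod (24 * N)) = 1 →
      ((q * l : ℕ) : ℝ) ≤ (N : ℝ) ^ (1 - μ / 2) → l ∈ L1)
    (hLL : ∀ l : ℕ, l.Prime → z < l → χ (l : ZMod (24 * N)) = 1 →
      (N : ℝ) ^ (1 - μ / 2) < ((q * l : ℕ) : ℝ) → (l : ℝ) ≤ (N : ℝ) ^ (1 - μ / 10) → l ∈ LL)
    (hD : ∀ l : ℕ, l.Prime → l ∣ N → z < l → l ∈ D) :
    (((AA N z q).filter fun a => lam a = -s).card : ℝ) ≤ ((gd N z q s χ).card : ℝ) +
      ∑ l ∈ L1, (((AA N z q).filter fun a => l ∣ a).card : ℝ) +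
      ∑ l ∈ L1, (((AA N z q).filter fun a => l ∣ N - q * a).card : ℝ) +
      (((AA N z q).filter fun a => ∃ l : ℕ, l.Prime ∧
        (N : ℝ) ^ (1 - μ / 2) < ((q * l : ℕ) : ℝ) ∧ l ∣ a).card : ℝ) +
      (((AA N z q).filter fun a => ∃ l : ℕ, l.Prime ∧
        (N : ℝ) ^ (1 - μ / 10) < (l : ℝ) ∧ l ∣ N - q * a).card : ℝ) +
      ∑ l ∈ LL, (((AA N z q).filter fun a => l ∣ N - q * a).card : ℝ) +
      ∑ l ∈ D, (((AA N z q).filter fun a => l ∣ a).card : ℝ) := by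
  have hsub : ((AA N z q).filter fun a => lam a = -s) ⊆ gd N z q s χ ∪
      L1.biUnion (fun l => (AA N z q).filter fun a => l ∣ a) ∪
      L1.biUnion (fun l => (AA N z q).filter fun a => l ∣ N - q * a) ∪
      ((AA N z q).filter fun a => ∃ l : ℕ, l.Prime ∧
        (N : ℝ) ^ (1 - μ / 2) < ((q * l : ℕ) : ℝ) ∧ l ∣ a) ∪
      ((AA N z q).filter fun a => ∃ l : ℕ, l.Prime ∧
        (N : ℝ) ^ (1 - μ / 10) < (l : ℝ) ∧ l ∣ N - q * a) ∪
      LL.biUnion (fun l => (AA N z q).filter fun a => l ∣ N - q * a) ∪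
      D.biUnion (fun l => (AA N z q).filter fun a => l ∣ a) := by
    intro a ha
    rw [mem_filter] at ha
    obtain ⟨haA, hla⟩ := ha
    have haA' := haA
    unfold AA at haA'
    rw [mem_filter] at haA'
    obtain ⟨-, hqa, hRa, hRb⟩ := haA'
    simp only [mem_union, mem_biUnion, mem_filter]
    by_cases hg : (∀ l : ℕ, l.Prime → l ∣ a → χ (l : ZMod (24 * N)) = -1) ∧
        ∀ l : ℕ, l.Prime → l ∣ N - q * a → χ (l : ZMod (24 * N)) = -1
    · have : a ∈ gd N z q s χ := by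
        unfold gd
        rw [mem_filter]
        exact ⟨haA, hla, hg.1, hg.2⟩
      exact Or.inl (Or.inl (Or.inl (Or.inl (Or.inl (Or.inl this)))))
    · rw [not_and_or] at hg
      rcases hg with hg | hg
      · push Not at hg
        obtain ⟨l, hl, hla', hχ⟩ := hg
        have hlz := hRa l hl hla'
        rcases bad_prime h2 hz hl hlz hχ with h3 | h3
        · rcases le_or_gt (((q * l : ℕ) : ℝ)) ((N : ℝ) ^ (1 - μ / 2)) with h4 | h4
          · have h5 : ∃ l ∈ L1, a ∈ AA N z q ∧ l ∣ a := ⟨l, hL1 l hl hlz h3 h4, haA, hla'⟩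
            exact Or.inl (Or.inl (Or.inl (Or.inl (Or.inl (Or.inr h5)))))
          · have h5 : a ∈ AA N z q ∧ ∃ l : ℕ, l.Prime ∧
                (N : ℝ) ^ (1 - μ / 2) < ((q * l : ℕ) : ℝ) ∧ l ∣ a := ⟨haA, l, hl, h4, hla'⟩
            exact Or.inl (Or.inl (Or.inl (Or.inr h5)))
        · have h5 : ∃ l ∈ D, a ∈ AA N z q ∧ l ∣ a := ⟨l, hD l hl h3 hlz, haA, hla'⟩
          exact Or.inr h5
      · push Not at hg
        obtain ⟨l, hl, hlb, hχ⟩ := hg
        have hlz := hRb l hl hlb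
        rcases bad_prime h2 hz hl hlz hχ with h3 | h3
        · rcases le_or_gt (((q * l : ℕ) : ℝ)) ((N : ℝ) ^ (1 - μ / 2)) with h4 | h4
          · have h5 : ∃ l ∈ L1, a ∈ AA N z q ∧ l ∣ N - q * a := ⟨l, hL1 l hl hlz h3 h4, haA, hlb⟩
            exact Or.inl (Or.inl (Or.inl (Or.inl (Or.inr h5))))
          · rcases le_or_gt (l : ℝ) ((N : ℝ) ^ (1 - μ / 10)) with h6 | h6
            · have h5 : ∃ l ∈ LL, a ∈ AA N z q ∧ l ∣ N - q * a := ⟨l, hLL l hl hlz h3 h4 h6, haA, hlb⟩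
              exact Or.inl (Or.inr h5)
            · have h5 : a ∈ AA N z q ∧ ∃ l : ℕ, l.Prime ∧
                  (N : ℝ) ^ (1 - μ / 10) < (l : ℝ) ∧ l ∣ N - q * a := ⟨haA, l, hl, h6, hlb⟩
              exact Or.inl (Or.inl (Or.inr h5))
        · have h4 : l ∣ q * a := (Nat.dvd_sub_iff_right hqa.le h3).1 hlb
          have h6 : l ∣ a := by
            rcases (Nat.Prime.dvd_mul hl).1 h4 with h7 | h7
            · exfalso
              rw [(Nat.prime_dvd_prime_iff_eq hl hq).1 h7] at h3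
              exact hqN (Dvd.dvd.mul_left h3 24)
            · exact h7
          have h5 : ∃ l ∈ D, a ∈ AA N z q ∧ l ∣ a := ⟨l, hD l hl h3 hlz, haA, h6⟩
          exact Or.inr h5
  have h3 := card_le_card hsub
  have h4 : ∀ (L : Finset ℕ) (F : ℕ → Finset ℕ), (L.biUnion F).card ≤ ∑ l ∈ L, (F l).card :=
    fun L F => card_biUnion_le
  have e1 := h4 L1 (fun l => (AA N z q).filter fun a => l ∣ a)
  have e2 := h4 L1 (fun l => (AA N z q).filter fun a => l ∣ N - q * a)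
  have e3 := h4 LL (fun l => (AA N z q).filter fun a => l ∣ N - q * a)
  have e4 := h4 D (fun l => (AA N z q).filter fun a => l ∣ a)
  have h5 := h3.trans (card_union_le _ _)
  have h6 := card_union_le (gd N z q s χ ∪
      L1.biUnion (fun l => (AA N z q).filter fun a => l ∣ a) ∪
      L1.biUnion (fun l => (AA N z q).filter fun a => l ∣ N - q * a) ∪
      ((AA N z q).filter fun a => ∃ l : ℕ, l.Prime ∧
        (N : ℝ) ^ (1 - μ / 2) < ((q * l : ℕ) : ℝ) ∧ l ∣ a) ∪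
      ((AA N z q).filter fun a => ∃ l : ℕ, l.Prime ∧
        (N : ℝ) ^ (1 - μ / 10) < (l : ℝ) ∧ l ∣ N - q * a))
      (LL.biUnion (fun l => (AA N z q).filter fun a => l ∣ N - q * a))
  have h7 := card_union_le (gd N z q s χ ∪
      L1.biUnion (fun l => (AA N z q).filter fun a => l ∣ a) ∪
      L1.biUnion (fun l => (AA N z q).filter fun a => l ∣ N - q * a) ∪
      ((AA N z q).filter fun a => ∃ l : ℕ, l.Prime ∧
        (N : ℝ) ^ (1 - μ / 2) < ((q * l : ℕ) : ℝ) ∧ l ∣ a))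
      ((AA N z q).filter fun a => ∃ l : ℕ, l.Prime ∧
        (N : ℝ) ^ (1 - μ / 10) < (l : ℝ) ∧ l ∣ N - q * a)
  have h8 := card_union_le (gd N z q s χ ∪
      L1.biUnion (fun l => (AA N z q).filter fun a => l ∣ a) ∪
      L1.biUnion (fun l => (AA N z q).filter fun a => l ∣ N - q * a))
      ((AA N z q).filter fun a => ∃ l : ℕ, l.Prime ∧
        (N : ℝ) ^ (1 - μ / 2) < ((q * l : ℕ) : ℝ) ∧ l ∣ a)
  have h9 := card_union_le (gd N z q s χ ∪
      L1.biUnion (fun l => (AA N z q).filter fun a => l ∣ a))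
      (L1.biUnion (fun l => (AA N z q).filter fun a => l ∣ N - q * a))
  have h10 := card_union_le (gd N z q s χ)
      (L1.biUnion (fun l => (AA N z q).filter fun a => l ∣ a))
  exact_mod_cast (by omega : ((AA N z q).filter fun a => lam a = -s).card ≤ (gd N z q s χ).card +
      ∑ l ∈ L1, ((AA N z q).filter fun a => l ∣ a).card +
      ∑ l ∈ L1, ((AA N z q).filter fun a => l ∣ N - q * a).card +
      ((AA N z q).filter fun a => ∃ l : ℕ, l.Prime ∧
        (N : ℝ) ^ (1 - μ / 2) < ((q * l : ℕ) : ℝ) ∧ l ∣ a).card +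
      ((AA N z q).filter fun a => ∃ l : ℕ, l.Prime ∧
        (N : ℝ) ^ (1 - μ / 10) < (l : ℝ) ∧ l ∣ N - q * a).card +
      ∑ l ∈ LL, ((AA N z q).filter fun a => l ∣ N - q * a).card +
      ∑ l ∈ D, ((AA N z q).filter fun a => l ∣ a).card)

open Classical in
/-- the multiples of a prime factor of `N` -/
private theorem div_N {N z q l : ℕ} (hq : 1 ≤ q) (hz : 0 < z) (hl : z < l) :
    (((AA N z q).filter fun a => l ∣ a).card : ℝ) ≤ (N : ℝ) / q / z := by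
  have hl0 : 0 < l := by omega
  have hsub : ((AA N z q).filter fun a => l ∣ a) ⊆ (Icc 1 (N / (q * l))).image (fun b => l * b) := by
    intro a ha
    rw [mem_filter] at ha
    obtain ⟨haA, ⟨b, hb⟩⟩ := ha
    unfold AA at haA
    rw [mem_filter, mem_Icc] at haA
    rw [mem_image]
    refine ⟨b, ?_, hb.symm⟩
    rw [mem_Icc, Nat.le_div_iff_mul_le (by positivity)]
    constructor
    · rcases Nat.eq_zero_or_pos b with h | h
      · rw [h] at hb
        omega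
      · exact h
    · have h1 := haA.2.1
      rw [hb] at h1
      have h2 : b * (q * l) = q * (l * b) := by ring
      omega
  have h1 := (card_le_card hsub).trans card_image_le
  rw [Nat.card_Icc, Nat.add_sub_cancel] at h1
  have h2 : ((N / (q * l) : ℕ) : ℝ) ≤ (N : ℝ) / ((q * l : ℕ) : ℝ) := Nat.cast_div_le
  have h3 : (N : ℝ) / ((q * l : ℕ) : ℝ) ≤ (N : ℝ) / q / z := by
    rw [div_div]
    push_cast
    have hq0 : (0 : ℝ) < q := by exact_mod_cast hq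
    have hz0 : (0 : ℝ) < z := by exact_mod_cast hz
    apply div_le_div_of_nonneg_left (Nat.cast_nonneg _) (by positivity)
    apply mul_le_mul_of_nonneg_left _ hq0.le
    exact_mod_cast hl.le
  calc (((AA N z q).filter fun a => l ∣ a).card : ℝ) ≤ ((N / (q * l) : ℕ) : ℝ) := by exact_mod_cast h1
    _ ≤ _ := h2.trans h3

open Classical in
theorem p6 : ∃ μ0 : ℝ, 0 < μ0 ∧ ∀ μ : ℝ, 0 < μ → μ ≤ μ0 → ∃ δ c1 : ℝ, 0 < δ ∧ 0 < c1 ∧ ∀ c0 : ℝ,
    0 < c0 → c0 ≤ c1 → ∃ N0 : ℕ, ∀ (N : ℕ) [NeZero (24 * N)], N0 ≤ N → Even N →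
    ∀ z : ℕ, (N : ℝ) ^ (c0 / 2) ≤ z → (z : ℝ) ≤ (N : ℝ) ^ c0 →
    ∀ χ : DirichletCharacter ℂ (24 * N), χ ≠ 1 → χ ^ 2 = 1 →
    ∑ l ∈ (range (pw N (1 - μ / 10) + 1)).filter (fun l => l.Prime ∧ z < l ∧
      χ (l : ZMod (24 * N)) = 1), 1 / (l : ℝ) ≤ δ →
    ∀ s t : ℝ, (s = 1 ∨ s = -1) → (t = 1 ∨ t = -1) →
    (∀ a : ℕ, a < N → a.Coprime (24 * N) → (N - a).Coprime (24 * N) →
      χ (a : ZMod (24 * N)) * χ ((N - a : ℕ) : ZMod (24 * N)) = -((s * t : ℝ) : ℂ)) →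
    (N : ℝ) ^ (1 - μ / 40) ≤ ((RP N z s t).card : ℝ) := by
  obtain ⟨C1, hC1, Hcc⟩ := cc
  obtain ⟨C2, hC2, Hdd⟩ := dd
  obtain ⟨μq, hμq, Hqx⟩ := qx
  obtain ⟨CV, hCV, HV⟩ := VN_low
  refine ⟨min μq (min (1 / 100) (1 / (80 * C1))), lt_min hμq (lt_min (by norm_num) (by positivity)),
    fun μ hμ hμ1 => ?_⟩
  have hμa : μ ≤ μq := hμ1.trans (min_le_left _ _)
  have hμb : μ ≤ 1 / 100 := hμ1.trans ((min_le_right _ _).trans (min_le_left _ _))
  have hμc : C1 * μ ≤ 1 / 80 := by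
    have h1 := hμ1.trans ((min_le_right _ _).trans (min_le_right _ _))
    rw [le_div_iff₀ (by positivity)] at h1
    linarith
  obtain ⟨cb, hcb, Hb⟩ := bb (μ / 2) (by positivity)
  obtain ⟨ce, hce, He⟩ := Hcc (μ / 2) (by positivity) (by linarith)
  obtain ⟨cf, hcf, Hf⟩ := Hcc (μ / 10) (by positivity) (by linarith)
  obtain ⟨cl, hcl, Hl⟩ := la (1 / 40) (by norm_num)
  obtain ⟨ca, hca, Ha⟩ := aa_asym (1 / 40) (1 / 4) (by norm_num) (by norm_num)
  obtain ⟨cd, hcd, Hd⟩ := Hdd μ hμ (by linarith)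
  obtain ⟨M0, HM⟩ := Hqx μ hμ hμa
  refine ⟨1 / (40 * (4 + C2)),
    min (min ca (min cb ce)) (min (min cf (min cl cd)) (min (1 / (80 * C1)) (μ / 2))), by positivity,
    lt_min (lt_min hca (lt_min hcb hce)) (lt_min (lt_min hcf (lt_min hcl hcd))
      (lt_min (by positivity) (by positivity))), fun c0 hc0 hc1 => ?_⟩
  have k1 := hc1.trans (min_le_left _ _)
  have k2 := hc1.trans (min_le_right _ _)
  have hca' : c0 ≤ ca := k1.trans (min_le_left _ _)
  have k3 := k1.trans (min_le_right _ _)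
  have hcb' : c0 ≤ cb := k3.trans (min_le_left _ _)
  have hce' : c0 ≤ ce := k3.trans (min_le_right _ _)
  have k4 := k2.trans (min_le_left _ _)
  have k5 := k2.trans (min_le_right _ _)
  have hcf' : c0 ≤ cf := k4.trans (min_le_left _ _)
  have k6 := k4.trans (min_le_right _ _)
  have hcl' : c0 ≤ cl := k6.trans (min_le_left _ _)
  have hcd' : c0 ≤ cd := k6.trans (min_le_right _ _)
  have hcC : C1 * c0 ≤ 1 / 80 := by
    have h1 := k5.trans (min_le_left _ _)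
    rw [le_div_iff₀ (by positivity)] at h1
    linarith
  have hcμ : c0 ≤ μ / 2 := k5.trans (min_le_right _ _)
  obtain ⟨Nb, Hb'⟩ := Hb c0 hc0 hcb'
  obtain ⟨Ne, He'⟩ := He c0 hc0 hce'
  obtain ⟨Nf, Hf'⟩ := Hf c0 hc0 hcf'
  obtain ⟨Nl, Hl'⟩ := Hl c0 hc0 hcl'
  obtain ⟨Na, Ha'⟩ := Ha c0 hc0 hca'
  obtain ⟨Nd, Hd'⟩ := Hd c0 hc0 hcd'
  obtain ⟨Nx, HN⟩ := Filter.eventually_atTop.1 (((ev_pow (c0 / 2) 3 (by positivity)).and
    (ev_pow (μ / 2) 5 (by positivity))).and (((ev_log (c0 / 2) (80 / (c0 * CV)) (by positivity)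
    (by positivity)).and (ev_log (μ / 100) (64 * (1 + 1 / μ) / CV) (by positivity) (by positivity))).and
    (Filter.eventually_ge_atTop 2)))
  refine ⟨max (max (max Nb Ne) (max Nf Nl)) (max (max Na Nd) (max M0 Nx)),
    fun N _ hN hev z hz1 hz2 χ hχ1 hχ2 hsum s t hs ht hT => ?_⟩
  have hNb : Nb ≤ N := le_trans (le_trans (le_max_left _ _) (le_trans (le_max_left _ _) (le_max_left _ _))) hN
  have hNe : Ne ≤ N := le_trans (le_trans (le_max_right _ _) (le_trans (le_max_left _ _) (le_max_left _ _))) hN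
  have hNf : Nf ≤ N := le_trans (le_trans (le_max_left _ _) (le_trans (le_max_right _ _) (le_max_left _ _))) hN
  have hNl : Nl ≤ N := le_trans (le_trans (le_max_right _ _) (le_trans (le_max_right _ _) (le_max_left _ _))) hN
  have hNa : Na ≤ N := le_trans (le_trans (le_max_left _ _) (le_trans (le_max_left _ _) (le_max_right _ _))) hN
  have hNd : Nd ≤ N := le_trans (le_trans (le_max_right _ _) (le_trans (le_max_left _ _) (le_max_right _ _))) hN
  have hM0 : M0 ≤ N := le_trans (le_trans (le_max_left _ _) (le_trans (le_max_right _ _) (le_max_right _ _))) hN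
  have hNx : Nx ≤ N := le_trans (le_trans (le_max_right _ _) (le_trans (le_max_right _ _) (le_max_right _ _))) hN
  clear hN k1 k2 k3 k4 k5 k6
  obtain ⟨⟨e1, e2⟩, ⟨e3, e4⟩, e5⟩ := HN N hNx
  have hN1 : (1 : ℝ) < N := by exact_mod_cast (by omega : 1 < N)
  have hN0 : (0 : ℝ) < N := by linarith
  have hz3' : (3 : ℝ) ≤ z := e1.trans hz1
  have hz3 : 3 ≤ z := by exact_mod_cast hz3'
  have hz0 : (0 : ℝ) < z := by linarith
  set L : ℝ := Real.log N with hL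
  set V : ℝ := VN N z with hVdef
  have hV0 : 0 < V := VW_pos hev z 1
  have hlz : 0 < Real.log z := Real.log_pos (by linarith)
  have hlzN : Real.log z ≤ L := by
    apply Real.log_le_log hz0
    calc (z : ℝ) ≤ (N : ℝ) ^ c0 := hz2
      _ ≤ (N : ℝ) ^ (1 : ℝ) := Real.rpow_le_rpow_of_exponent_le hN1.le (by linarith)
      _ = N := Real.rpow_one _
  have hL0 : 0 < L := lt_of_lt_of_le hlz hlzN
  have hVlow : CV / L ^ 2 ≤ V := by
    refine le_trans ?_ (HV N z hev (by omega))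
    exact div_le_div_of_nonneg_left hCV.le (by positivity) (pow_le_pow_left₀ hlz.le hlzN 2)
  obtain ⟨Q, QQ, hQS, hQ1, hQ2⟩ := HM (24 * N) (by omega) χ hχ1 hχ2
  have hNM : (N : ℝ) ≤ ((24 * N : ℕ) : ℝ) := by exact_mod_cast (by omega : N ≤ 24 * N)
  have hQlow : (N : ℝ) ^ μ ≤ Q := (Real.rpow_le_rpow hN0.le hNM hμ.le).trans hQS.low
  have hQupp : 2 * (Q : ℝ) ≤ (N : ℝ) ^ (1 / 2 - μ / 2) := by
    refine hQS.upp.trans ?_
    push_cast
    rw [Real.mul_rpow (by norm_num) hN0.le]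
    have h1 : (24 : ℝ) ^ (1 / 2 - μ) ≤ 5 := by
      calc (24 : ℝ) ^ (1 / 2 - μ) ≤ (24 : ℝ) ^ (1 / 2 : ℝ) :=
            Real.rpow_le_rpow_of_exponent_le (by norm_num) (by linarith)
        _ ≤ ((5 : ℝ) ^ (2 : ℝ)) ^ (1 / 2 : ℝ) := Real.rpow_le_rpow (by norm_num) (by norm_num) (by norm_num)
        _ = 5 := by rw [← Real.rpow_mul (by norm_num)]; norm_num
    have h2 : (N : ℝ) ^ (1 / 2 - μ / 2) = (N : ℝ) ^ (μ / 2) * (N : ℝ) ^ (1 / 2 - μ) := by
      rw [← Real.rpow_add hN0]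
      ring_nf
    rw [h2]
    exact mul_le_mul_of_nonneg_right (h1.trans e2) (by positivity)
  have hqq : ∀ q ∈ QQ, q.Prime ∧ (N : ℝ) ^ μ ≤ q ∧ z < q ∧ (q : ℝ) ≤ (N : ℝ) ^ (1 / 2 - μ / 2) ∧
      ¬ q ∣ 24 * N := by
    intro q hq
    obtain ⟨h1, h2, h3, h4⟩ := hQS.mem q hq
    have h2' : (Q : ℝ) < q := by exact_mod_cast h2
    have h3' : (q : ℝ) ≤ 2 * Q := by exact_mod_cast h3
    refine ⟨h1, hQlow.trans h2'.le, ?_, h3'.trans hQupp, h4⟩
    have h5 : (z : ℝ) < q := by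
      calc (z : ℝ) ≤ (N : ℝ) ^ c0 := hz2
        _ ≤ (N : ℝ) ^ μ := Real.rpow_le_rpow_of_exponent_le hN1.le (by linarith)
        _ ≤ Q := hQlow
        _ < q := h2'
    exact_mod_cast h5
  -- the sets of primes
  set δ : ℝ := 1 / (40 * (4 + C2)) with hδ
  have hδ0 : 0 < δ := by positivity
  have hδ1 : (4 + C2) * δ = 1 / 40 := by
    rw [hδ]
    field_simp
  obtain ⟨LL, hLLdef⟩ : ∃ LL : Finset ℕ, LL = (range (pw N (1 - μ / 10) + 1)).filter (fun l => l.Prime ∧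
    z < l ∧ χ (l : ZMod (24 * N)) = 1 ∧ (N : ℝ) ^ (1 / 2 : ℝ) ≤ l) := ⟨_, rfl⟩
  have hLLsum : ∑ l ∈ LL, 1 / (l : ℝ) ≤ δ := by
    refine le_trans ?_ hsum
    apply sum_le_sum_of_subset_of_nonneg
    · intro l hl
      rw [hLLdef, mem_filter] at hl
      rw [mem_filter]
      exact ⟨hl.1, hl.2.1, hl.2.2.1, hl.2.2.2.1⟩
    · intro l _ _
      positivity
  obtain ⟨D, hDdef⟩ : ∃ D : Finset ℕ, D = N.primeFactors.filter (fun l => z < l) := ⟨_, rfl⟩
  have hDmem : ∀ l ∈ D, l.Prime ∧ l ∣ N ∧ z < l := by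
    intro l hl
    rw [hDdef, mem_filter] at hl
    exact ⟨Nat.prime_of_mem_primeFactors hl.1, Nat.dvd_of_mem_primeFactors hl.1, hl.2⟩
  have hDcard : (D.card : ℝ) ≤ 2 / c0 := by
    have h1 : ((N : ℝ) ^ (c0 / 2)) ^ D.card ≤ N := by
      apply ppow (by positivity) (by omega)
      intro p hp
      obtain ⟨h2, h3, h4⟩ := hDmem p hp
      refine ⟨h2, h3, hz1.trans ?_⟩
      exact_mod_cast h4.le
    have h2 : (N : ℝ) ^ (c0 / 2 * (D.card : ℝ)) ≤ (N : ℝ) ^ (1 : ℝ) := by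
      rw [Real.rpow_mul hN0.le, Real.rpow_natCast, Real.rpow_one]
      exact h1
    have h3 := (Real.rpow_le_rpow_left_iff hN1).1 h2
    rw [le_div_iff₀ hc0]
    linarith
  have hDz : 2 / c0 / z ≤ 1 / 40 * V := by
    have h1 : 80 / c0 ≤ z * V := by
      have h2 : (N : ℝ) ^ (c0 / 2) * (CV / L ^ 2) ≤ z * V := mul_le_mul hz1 hVlow (by positivity) hz0.le
      refine le_trans ?_ h2
      rw [← mul_div_assoc, le_div_iff₀ (by positivity)]
      have h3 := mul_le_mul_of_nonneg_right e3 hCV.le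
      calc 80 / c0 * L ^ 2 = 80 / (c0 * CV) * L ^ 2 * CV := by field_simp
        _ ≤ _ := h3
    rw [div_le_iff₀ hz0]
    calc 2 / c0 = 1 / 40 * (80 / c0) := by ring
      _ ≤ 1 / 40 * (z * V) := by linarith
      _ = _ := by ring
  -- one multiplier
  have key : ∀ q ∈ QQ, (16 / 40 - 4 * δ) * ((N : ℝ) / q * V) ≤ ((gd N z q s χ).card : ℝ) +
      ∑ l ∈ LL, (((AA N z q).filter fun a => l ∣ N - q * a).card : ℝ) := by
    intro q hq
    obtain ⟨hqp, hqμ, hzq, hqup, hqN⟩ := hqq q hq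
    have hq0 : (0 : ℝ) < q := by exact_mod_cast hqp.pos
    have hq1 : 1 ≤ q := hqp.one_le
    have hqR : Rough z q := by
      intro p hp hpd
      rw [(Nat.prime_dvd_prime_iff_eq hp hqp).1 hpd]
      exact hzq
    have hqc : q.Coprime N := by
      rw [Nat.Prime.coprime_iff_not_dvd hqp]
      intro h
      exact hqN (Dvd.dvd.mul_left h 24)
    have hqh : (q : ℝ) ≤ (N : ℝ) ^ (1 / 2 : ℝ) :=
      hqup.trans (Real.rpow_le_rpow_of_exponent_le hN1.le (by linarith))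
    set Y : ℝ := (N : ℝ) / q * V with hY
    have hY0 : 0 < Y := by positivity
    have hA : 39 / 40 * Y ≤ ((AA N z q).card : ℝ) := by
      have h1 := Ha' N hNa hev z hz1 hz2 q 1 0 hq1 le_rfl hqR (by
        rw [mul_one]
        exact hqh.trans (Real.rpow_le_rpow_of_exponent_le hN1.le (by norm_num))) (by
        intro p hp _ h1
        exact absurd (Nat.dvd_one.1 h1) hp.one_lt.ne')
      have h2 : ((AA N z q).filter fun a => a ≡ 0 [MOD 1]) = AA N z q := by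
        apply filter_true_of_mem
        intro a _
        exact Nat.modEq_one
      rw [h2, Nat.cast_one, mul_one] at h1
      have h3 : (N : ℝ) / q * VW N z 1 = Y := rfl
      rw [h3] at h1
      rw [abs_le] at h1
      linarith [h1.1]
    have hla := Hl' N hNl hev z hz1 hz2 q hq1 hqh hqR
    have hla' : |∑ a ∈ AA N z q, lam a| ≤ 1 / 40 * Y := by
      rw [hY, ← mul_assoc]
      exact hla
    have hhalf := half hs hA hla'
    obtain ⟨L1, hL1def⟩ : ∃ L1 : Finset ℕ, L1 = (range (pw N (1 - μ / 10) + 1)).filter (fun l => l.Prime ∧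
      z < l ∧ χ (l : ZMod (24 * N)) = 1 ∧ ((q * l : ℕ) : ℝ) ≤ (N : ℝ) ^ (1 - μ / 2)) := ⟨_, rfl⟩
    have hL1sum : ∑ l ∈ L1, 1 / (l : ℝ) ≤ δ := by
      refine le_trans ?_ hsum
      apply sum_le_sum_of_subset_of_nonneg
      · intro l hl
        rw [hL1def, mem_filter] at hl
        rw [mem_filter]
        exact ⟨hl.1, hl.2.1, hl.2.2.1, hl.2.2.2.1⟩
      · intro l _ _
        positivity
    have hcov := cover (μ := μ) (s := s) hχ2 hz3 hqp hqN (L1 := L1) (LL := LL) (D := D) (by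
        intro l hl hlz h1 h2
        rw [hL1def, mem_filter, mem_range]
        refine ⟨?_, hl, hlz, h1, h2⟩
        have h3 : (l : ℝ) ≤ (N : ℝ) ^ (1 - μ / 10) := by
          calc (l : ℝ) ≤ ((q * l : ℕ) : ℝ) := by exact_mod_cast Nat.le_mul_of_pos_left l hqp.pos
            _ ≤ (N : ℝ) ^ (1 - μ / 2) := h2
            _ ≤ (N : ℝ) ^ (1 - μ / 10) := Real.rpow_le_rpow_of_exponent_le hN1.le (by linarith)
        have h4 : l ≤ pw N (1 - μ / 10) := Nat.le_floor h3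
        omega) (by
        intro l hl hlz h1 h2 h3
        rw [hLLdef, mem_filter, mem_range]
        have h4 : l ≤ pw N (1 - μ / 10) := Nat.le_floor h3
        refine ⟨by omega, hl, hlz, h1, ?_⟩
        by_contra h5
        push Not at h5
        have h6 : ((q * l : ℕ) : ℝ) ≤ (N : ℝ) ^ (1 - μ / 2) := by
          push_cast
          calc (q : ℝ) * l ≤ (N : ℝ) ^ (1 / 2 - μ / 2) * (N : ℝ) ^ (1 / 2 : ℝ) :=
                mul_le_mul hqup h5.le (by positivity) (by positivity)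
            _ = (N : ℝ) ^ (1 - μ / 2) := by
                rw [← Real.rpow_add hN0]
                ring_nf
        linarith) (by
        intro l hl hlN hlz
        rw [hDdef, mem_filter]
        exact ⟨Nat.mem_primeFactors.2 ⟨hl, hlN, by omega⟩, hlz⟩)
    have b0 : ∀ l ∈ L1, (((AA N z q).filter fun a => l ∣ a).card : ℝ) ≤ 2 * Y * (1 / (l : ℝ)) ∧
        (((AA N z q).filter fun a => l ∣ N - q * a).card : ℝ) ≤ 2 * Y * (1 / (l : ℝ)) := by
      intro l hl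
      rw [hL1def, mem_filter] at hl
      obtain ⟨-, h1, h2, h3, h4⟩ := hl
      have h5 := Hb' N hNb hev z hz1 hz2 q l hq1 hqR hqc h1 h2 h4
      have h6 : 2 * ((N : ℝ) / ((q : ℝ) * l)) * VN N z = 2 * Y * (1 / (l : ℝ)) := by
        rw [hY, hVdef]
        have : (0 : ℝ) < l := by exact_mod_cast h1.pos
        field_simp
      rw [h6] at h5
      exact h5
    have b1 : ∑ l ∈ L1, (((AA N z q).filter fun a => l ∣ a).card : ℝ) ≤ 2 * Y * δ := by
      calc _ ≤ ∑ l ∈ L1, 2 * Y * (1 / (l : ℝ)) := sum_le_sum fun l hl => (b0 l hl).1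
        _ = 2 * Y * ∑ l ∈ L1, 1 / (l : ℝ) := by rw [mul_sum]
        _ ≤ 2 * Y * δ := mul_le_mul_of_nonneg_left hL1sum (by positivity)
    have b2 : ∑ l ∈ L1, (((AA N z q).filter fun a => l ∣ N - q * a).card : ℝ) ≤ 2 * Y * δ := by
      calc _ ≤ ∑ l ∈ L1, 2 * Y * (1 / (l : ℝ)) := sum_le_sum fun l hl => (b0 l hl).2
        _ = 2 * Y * ∑ l ∈ L1, 1 / (l : ℝ) := by rw [mul_sum]
        _ ≤ 2 * Y * δ := mul_le_mul_of_nonneg_left hL1sum (by positivity)
    have b3 := (He' N hNe hev z hz1 hz2 q hq1 hqh hqR hqc).1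
    have b4 := (Hf' N hNf hev z hz1 hz2 q hq1 hqh hqR hqc).2
    have b3' : C1 * (c0 + μ / 2) * ((N : ℝ) / q) * VN N z ≤ 1 / 40 * Y := by
      have h1 : C1 * (c0 + μ / 2) ≤ 1 / 40 := by nlinarith
      calc C1 * (c0 + μ / 2) * ((N : ℝ) / q) * VN N z = C1 * (c0 + μ / 2) * Y := by rw [hY, hVdef]; ring
        _ ≤ 1 / 40 * Y := mul_le_mul_of_nonneg_right h1 hY0.le
    have b4' : C1 * (c0 + μ / 10) * ((N : ℝ) / q) * VN N z ≤ 1 / 40 * Y := by
      have h1 : C1 * (c0 + μ / 10) ≤ 1 / 40 := by nlinarith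
      calc C1 * (c0 + μ / 10) * ((N : ℝ) / q) * VN N z = C1 * (c0 + μ / 10) * Y := by rw [hY, hVdef]; ring
        _ ≤ 1 / 40 * Y := mul_le_mul_of_nonneg_right h1 hY0.le
    have b6 : ∑ l ∈ D, (((AA N z q).filter fun a => l ∣ a).card : ℝ) ≤ 1 / 40 * Y := by
      calc _ ≤ ∑ l ∈ D, (N : ℝ) / q / z := sum_le_sum fun l hl => div_N hq1 (by omega) (hDmem l hl).2.2
        _ = D.card * ((N : ℝ) / q / z) := by rw [sum_const, nsmul_eq_mul]
        _ ≤ 2 / c0 * ((N : ℝ) / q / z) := mul_le_mul_of_nonneg_right hDcard (by positivity)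
        _ = (N : ℝ) / q * (2 / c0 / z) := by ring
        _ ≤ (N : ℝ) / q * (1 / 40 * V) := mul_le_mul_of_nonneg_left hDz (by positivity)
        _ = 1 / 40 * Y := by rw [hY]; ring
    have b3'' := b3.trans b3'
    have b4'' := b4.trans b4'
    linarith
  -- sum over the multipliers
  have hdd := Hd' N hNd hev z hz1 hz2 Q QQ hQS LL (by
    intro l hl
    rw [hLLdef, mem_filter, mem_range] at hl
    refine ⟨hl.2.1, hl.2.2.2.2, ?_⟩
    have h1 : l ≤ pw N (1 - μ / 10) := by omega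
    have h2 : ((pw N (1 - μ / 10) : ℕ) : ℝ) ≤ (N : ℝ) ^ (1 - μ / 10) := Nat.floor_le (by positivity)
    exact le_trans (by exact_mod_cast h1) h2)
  have hsumkey := sum_le_sum key
  rw [← mul_sum, sum_add_distrib, ← sum_mul] at hsumkey
  set Y : ℝ := (∑ q ∈ QQ, (N : ℝ) / q) * V with hY
  have hYs : 0 ≤ ∑ q ∈ QQ, (N : ℝ) / q := sum_nonneg fun q _ => by positivity
  have hY0 : 0 ≤ Y := mul_nonneg hYs hV0.le
  have hdd' : C2 * (∑ l ∈ LL, 1 / (l : ℝ)) * (∑ q ∈ QQ, (N : ℝ) / q) * VN N z ≤ C2 * δ * Y := by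
    calc C2 * (∑ l ∈ LL, 1 / (l : ℝ)) * (∑ q ∈ QQ, (N : ℝ) / q) * VN N z =
        (∑ l ∈ LL, 1 / (l : ℝ)) * (C2 * Y) := by rw [hY, hVdef]; ring
      _ ≤ δ * (C2 * Y) := mul_le_mul_of_nonneg_right hLLsum (by positivity)
      _ = C2 * δ * Y := by ring
  have htot : 15 / 40 * Y ≤ ∑ q ∈ QQ, ((gd N z q s χ).card : ℝ) + (N : ℝ) ^ (1 - μ / 50) := by
    have h1 : (16 / 40 - 4 * δ) * Y - C2 * δ * Y = 15 / 40 * Y := by
      calc (16 / 40 - 4 * δ) * Y - C2 * δ * Y = (16 / 40 - (4 + C2) * δ) * Y := by ring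
        _ = 15 / 40 * Y := by rw [hδ1]; ring
    linarith
  have hmult := mult (N := N) (μ := μ) e5 (QQ := QQ) (fun q hq => ⟨(hqq q hq).1, (hqq q hq).2.1⟩)
    (G := fun q => gd N z q s χ) (R := RP N z s t) (by
      intro q hq a ha
      obtain ⟨hqp, -, hzq, -, -⟩ := hqq q hq
      unfold gd at ha
      rw [mem_filter] at ha
      exact pat (Dvd.intro_left 24 rfl) χ hqp hzq (hQ1 q hq) hs ht hT ha.1 ha.2.1 ha.2.2.1 ha.2.2.2) (by
      intro n hn
      unfold RP at hn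
      rw [mem_filter, mem_range] at hn
      refine ⟨?_, hn.1⟩
      rintro rfl
      have := hn.2.1 2 Nat.prime_two (dvd_zero 2)
      omega)
  -- the end
  have hP0 : 0 < (N : ℝ) ^ (μ / 100) := by positivity
  have hYlow : (N : ℝ) * (CV / L ^ 2) * (1 / 24 * (N : ℝ) ^ (-(μ / 100))) ≤ Y := by
    have h1 : ∑ q ∈ QQ, (N : ℝ) / q = N * ∑ q ∈ QQ, 1 / (q : ℝ) := by
      rw [mul_sum]
      exact sum_congr rfl fun q _ => by ring
    have h2 : 1 / 24 * (N : ℝ) ^ (-(μ / 100)) ≤ ∑ q ∈ QQ, 1 / (q : ℝ) := by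
      refine le_trans ?_ hQ2
      push_cast
      rw [Real.mul_rpow (by norm_num) hN0.le]
      apply mul_le_mul_of_nonneg_right _ (by positivity)
      calc (1 / 24 : ℝ) = (24 : ℝ) ^ (-1 : ℝ) := by rw [Real.rpow_neg_one]; norm_num
        _ ≤ (24 : ℝ) ^ (-(μ / 100)) := Real.rpow_le_rpow_of_exponent_le (by norm_num) (by linarith)
    have h3 : 0 ≤ ∑ q ∈ QQ, 1 / (q : ℝ) := sum_nonneg fun q _ => by positivity
    calc (N : ℝ) * (CV / L ^ 2) * (1 / 24 * (N : ℝ) ^ (-(μ / 100))) ≤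
        (N : ℝ) * V * ∑ q ∈ QQ, 1 / (q : ℝ) :=
          mul_le_mul (mul_le_mul_of_nonneg_left hVlow hN0.le) h2 (by positivity) (by positivity)
      _ = Y := by rw [hY, h1]; ring
  have h50 : (N : ℝ) ^ (1 - μ / 50) = N * ((N : ℝ) ^ (-(μ / 100)) * (N : ℝ) ^ (-(μ / 100))) := by
    rw [← Real.rpow_add hN0, Real.rpow_sub hN0, Real.rpow_one, div_eq_mul_inv, ← Real.rpow_neg hN0.le]
    ring_nf
  have h40 : (N : ℝ) ^ (1 - μ / 40) ≤ (N : ℝ) ^ (1 - μ / 50) :=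
    Real.rpow_le_rpow_of_exponent_le hN1.le (by linarith)
  have hpP : (N : ℝ) ^ (-(μ / 100)) * (N : ℝ) ^ (μ / 100) = 1 := by
    rw [← Real.rpow_add hN0]
    simp
  set p : ℝ := (N : ℝ) ^ (-(μ / 100)) with hp
  set P : ℝ := (N : ℝ) ^ (μ / 100) with hPd
  have hp0 : 0 < p := by positivity
  have e4' : (1 + 1 / μ) * L ^ 2 ≤ CV / 64 * P := by
    have h1 := mul_le_mul_of_nonneg_left e4 (show 0 ≤ CV / 64 by positivity)
    calc (1 + 1 / μ) * L ^ 2 = CV / 64 * (64 * (1 + 1 / μ) / CV * L ^ 2) := by field_simp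
      _ ≤ _ := h1
  have e6 : (μ + 1) * L ^ 2 * p ≤ μ * (CV / 64) := by
    have h1 := mul_le_mul_of_nonneg_left e4' hμ.le
    have h2 : μ * ((1 + 1 / μ) * L ^ 2) = (μ + 1) * L ^ 2 := by field_simp
    rw [h2] at h1
    calc (μ + 1) * L ^ 2 * p ≤ μ * (CV / 64 * P) * p := mul_le_mul_of_nonneg_right h1 hp0.le
      _ = μ * (CV / 64) * (p * P) := by ring
      _ = μ * (CV / 64) := by rw [hpP, mul_one]
  have e7 : (μ + 1) * (N * (p * p)) ≤ μ * (15 / 40 * ((N : ℝ) * (CV / L ^ 2) * (1 / 24 * p))) := by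
    have h1 : μ * (15 / 40 * ((N : ℝ) * (CV / L ^ 2) * (1 / 24 * p))) = μ * (CV / 64) * (N * p) / L ^ 2 := by
      field_simp
      ring
    rw [h1, le_div_iff₀ (by positivity)]
    calc (μ + 1) * (N * (p * p)) * L ^ 2 = ((μ + 1) * L ^ 2 * p) * (N * p) := by ring
      _ ≤ μ * (CV / 64) * (N * p) := mul_le_mul_of_nonneg_right e6 (by positivity)
  have e8 : μ * (15 / 40 * ((N : ℝ) * (CV / L ^ 2) * (1 / 24 * p))) ≤ μ * (15 / 40 * Y) :=
    mul_le_mul_of_nonneg_left (by linarith) hμ.le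
  have e9 := mul_le_mul_of_nonneg_left htot hμ.le
  rw [mul_add] at e9
  rw [h50] at h40 e9
  have e10 : (μ + 1) * (N * (p * p)) = μ * (N * (p * p)) + N * (p * p) := by ring
  linarith

end Pool.Agent.Lib.XE
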