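import Pool.Agent.Lib.MP_61161c_nt.XE.Defs
import Pool.Agent.Lib.MP_7b7e48_nt.TC.FLM
import Pool.Agent.Lib.MP_7b7e48_nt.OW.LFC

/-!
# the two-sided sieve for an interval and a class   (module Sv2)

The fundamental lemma `TC.flm` in both directions, with the error `z ^ E`.
-/

set_option autoImplicit false

open Finset
open Pool.Agent.Lib.GT (Rough pr V)
open Pool.Agent.Lib.MP_45349e_nt.LS (lam)
open Pool.Agent.Lib.PQ (pw)

namespace Pool.Agent.Lib.XE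

/-- the number of the subsets of a set of primes with product at most `D` -/
private theorem sv2_card (P : Finset ℕ) (hP : ∀ p ∈ P, p.Prime) (D : ℕ) :
    (P.powerset.filter fun d => ∏ r ∈ d, r ≤ D).card ≤ D := by
  have h := Finset.card_le_card_of_injOn (s := P.powerset.filter fun d => ∏ r ∈ d, r ≤ D) (t := Icc 1 D)
    (fun d => ∏ r ∈ d, r) (by
      intro d hd
      rw [mem_coe, mem_filter, mem_powerset] at hd
      rw [mem_coe, mem_Icc]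
      exact ⟨Nat.one_le_iff_ne_zero.mpr (Finset.prod_ne_zero_iff.mpr fun r hr => (hP r (hd.1 hr)).ne_zero), hd.2⟩) (by
      intro d hd e he hde
      rw [mem_coe, mem_filter, mem_powerset] at hd he
      have hh : ∀ s ⊆ P, (∏ r ∈ s, r).primeFactors = s := fun s hs =>
        Nat.primeFactors_prod fun p hp => hP p (hs hp)
      have h1 : (∏ r ∈ d, r) = ∏ r ∈ e, r := hde
      rw [← hh d hd.1, ← hh e he.1, h1])
  simpa using h

open Classical in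
/-- exchange of the sums -/
private theorem sv2_swap (P : Finset ℕ) (W c : ℕ) (Z : ℕ → Finset ℕ) (u v : ℕ) (f : Finset ℕ → ℝ) :
    ∑ d ∈ P.powerset, f d * (((Ioc u v).filter fun n => n ≡ c [MOD W] ∧ ∀ p ∈ d, n % p ∈ Z p).card : ℝ) =
      ∑ n ∈ (Ioc u v).filter (fun n => n ≡ c [MOD W]), ∑ d ∈ (P.filter fun p => n % p ∈ Z p).powerset, f d := by
  have h1 : ∀ d ∈ P.powerset, f d * (((Ioc u v).filter fun n => n ≡ c [MOD W] ∧ ∀ p ∈ d, n % p ∈ Z p).card : ℝ) =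
      ∑ n ∈ (Ioc u v).filter (fun n => n ≡ c [MOD W]), if (∀ p ∈ d, n % p ∈ Z p) then f d else 0 := by
    intro d _
    rw [← Finset.sum_filter, Finset.filter_filter, Finset.sum_const, nsmul_eq_mul, mul_comm]
  rw [Finset.sum_congr rfl h1, Finset.sum_comm]
  refine Finset.sum_congr rfl fun n _ => ?_
  rw [← Finset.sum_filter]
  refine Finset.sum_congr ?_ fun _ _ => rfl
  ext d
  rw [mem_filter, mem_powerset, mem_powerset]
  constructor
  · rintro ⟨h3, h4⟩ p hp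
    exact mem_filter.mpr ⟨h3 hp, h4 p hp⟩
  · intro h3
    exact ⟨h3.trans (filter_subset _ _), fun p hp => (mem_filter.mp (h3 hp)).2⟩

open Classical in
/-- the main term of a weighted count -/
private theorem sv2_main (b z : ℕ) (hz : 2 ≤ z) (P : Finset ℕ) (hP : ∀ p ∈ P, p.Prime) (W : ℕ) (hW : 1 ≤ W)
    (hPW : ∀ p ∈ P, ¬ p ∣ W) (c : ℕ) (Z : ℕ → Finset ℕ) (hZ : ∀ p ∈ P, (Z p).card ≤ p ∧ ∀ r ∈ Z p, r < p)
    (u v : ℕ) (huv : u ≤ v) (f : Finset ℕ → ℝ) (hf : ∀ d, |f d| ≤ (z : ℝ) ^ 2)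
    (hfs : ∀ d, d ⊆ P → f d ≠ 0 → ∏ r ∈ d, r ≤ z ^ (12 * b)) :
    |∑ d ∈ P.powerset, f d * (((Ioc u v).filter fun n => n ≡ c [MOD W] ∧ ∀ p ∈ d, n % p ∈ Z p).card : ℝ) -
      ((v : ℝ) - u) / W * ∑ d ∈ P.powerset, f d * ∏ r ∈ d, (((Z r).card : ℝ) / r)| ≤ (z : ℝ) ^ (2 + 24 * b) := by
  have hz0 : (2 : ℝ) ≤ z := by exact_mod_cast hz
  have hcnt : ∀ d ∈ P.powerset, |(((Ioc u v).filter fun n => n ≡ c [MOD W] ∧ ∀ p ∈ d, n % p ∈ Z p).card : ℝ) -
      ((v : ℝ) - u) / W * ∏ p ∈ d, (((Z p).card : ℝ) / p)| ≤ ∏ p ∈ d, ((Z p).card : ℝ) := by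
    intro d hd
    have hd' := mem_powerset.mp hd
    exact Pool.Agent.Lib.OW.crt_count d (fun p hp => hP p (hd' hp)) Z (fun p hp => (hZ p (hd' hp)).2) u v huv W hW
      (fun p hp => ((hP p (hd' hp)).coprime_iff_not_dvd.mpr (hPW p (hd' hp))).symm) c
  have herr : ∑ d ∈ P.powerset, |f d| * ∏ p ∈ d, ((Z p).card : ℝ) ≤ (z : ℝ) ^ (2 + 24 * b) := by
    have h1 : ∀ d ∈ P.powerset, |f d| * ∏ p ∈ d, ((Z p).card : ℝ) ≤
        if ∏ r ∈ d, r ≤ z ^ (12 * b) then (z : ℝ) ^ (2 + 12 * b) else 0 := by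
      intro d hd
      have hd' := mem_powerset.mp hd
      have h2 : ∏ p ∈ d, ((Z p).card : ℝ) ≤ ((∏ r ∈ d, r : ℕ) : ℝ) := by
        push_cast
        refine Finset.prod_le_prod (fun _ _ => by positivity) fun p hp => ?_
        exact_mod_cast (hZ p (hd' hp)).1
      by_cases h5 : ∏ r ∈ d, r ≤ z ^ (12 * b)
      · rw [if_pos h5]
        have h6 : ((∏ r ∈ d, r : ℕ) : ℝ) ≤ (z : ℝ) ^ (12 * b) := by exact_mod_cast h5
        calc |f d| * ∏ p ∈ d, ((Z p).card : ℝ) ≤ (z : ℝ) ^ 2 * (z : ℝ) ^ (12 * b) :=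
              mul_le_mul (hf d) (h2.trans h6) (Finset.prod_nonneg fun _ _ => by positivity) (by positivity)
          _ = (z : ℝ) ^ (2 + 12 * b) := by rw [← pow_add]
      · rw [if_neg h5]
        have h6 : f d = 0 := by
          by_contra h7
          exact h5 (hfs d hd' h7)
        rw [h6, abs_zero, zero_mul]
    refine (Finset.sum_le_sum h1).trans ?_
    rw [← Finset.sum_filter, Finset.sum_const, nsmul_eq_mul]
    have h2 : ((P.powerset.filter fun d => ∏ r ∈ d, r ≤ z ^ (12 * b)).card : ℝ) ≤ (z : ℝ) ^ (12 * b) := by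
      exact_mod_cast sv2_card P hP (z ^ (12 * b))
    calc ((P.powerset.filter fun d => ∏ r ∈ d, r ≤ z ^ (12 * b)).card : ℝ) * (z : ℝ) ^ (2 + 12 * b)
        ≤ (z : ℝ) ^ (12 * b) * (z : ℝ) ^ (2 + 12 * b) := mul_le_mul_of_nonneg_right h2 (by positivity)
      _ = (z : ℝ) ^ (2 + 24 * b) := by rw [← pow_add]; congr 1; ring
  have h1 : ∑ d ∈ P.powerset, f d * (((Ioc u v).filter fun n => n ≡ c [MOD W] ∧ ∀ p ∈ d, n % p ∈ Z p).card : ℝ) -
      ((v : ℝ) - u) / W * ∑ d ∈ P.powerset, f d * ∏ r ∈ d, (((Z r).card : ℝ) / r) =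
      ∑ d ∈ P.powerset, f d * ((((Ioc u v).filter fun n => n ≡ c [MOD W] ∧ ∀ p ∈ d, n % p ∈ Z p).card : ℝ) -
        ((v : ℝ) - u) / W * ∏ r ∈ d, (((Z r).card : ℝ) / r)) := by
    rw [Finset.mul_sum, ← Finset.sum_sub_distrib]
    refine Finset.sum_congr rfl fun d _ => ?_
    ring
  rw [h1]
  refine (Finset.abs_sum_le_sum_abs _ _).trans (le_trans (Finset.sum_le_sum fun d hd => ?_) herr)
  rw [abs_mul]
  exact mul_le_mul_of_nonneg_left (hcnt d hd) (abs_nonneg _)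

open Classical in
theorem sv2 (J : ℕ) : ∃ K : ℝ, 1 ≤ K ∧ ∀ b : ℕ, 1 ≤ b → ∃ E : ℕ, ∀ z : ℕ, 2 ≤ z → ∀ P : Finset ℕ,
    (∀ p ∈ P, p.Prime ∧ p ≤ z) → ∀ W : ℕ, 1 ≤ W → (∀ p ∈ P, ¬ p ∣ W) → ∀ c : ℕ, ∀ Z : ℕ → Finset ℕ,
    (∀ p ∈ P, (Z p).card ≤ J ∧ 3 * (Z p).card ≤ 2 * p ∧ ∀ r ∈ Z p, r < p) → ∀ u v : ℕ, u ≤ v →
    |(((Ioc u v).filter fun n => n ≡ c [MOD W] ∧ ∀ p ∈ P, n % p ∉ Z p).card : ℝ) -
      ((v : ℝ) - u) / W * ∏ p ∈ P, (1 - ((Z p).card : ℝ) / p)| ≤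
      K * (1 / 2) ^ b * (((v : ℝ) - u) / W * ∏ p ∈ P, (1 - ((Z p).card : ℝ) / p)) + (z : ℝ) ^ E := by
  obtain ⟨K, hK, hflm⟩ := Pool.Agent.Lib.TC.flm (J : ℝ) (by positivity)
  refine ⟨max K 1, le_max_right _ _, fun b hb => ⟨2 + 24 * b, fun z hz P hP W hW hPW c Z hZ u v huv => ?_⟩⟩
  have hz0 : (2 : ℝ) ≤ z := by exact_mod_cast hz
  have hWR : (1 : ℝ) ≤ W := by exact_mod_cast hW
  have hPp : ∀ p ∈ P, p.Prime := fun p hp => (hP p hp).1
  obtain ⟨up, lo, hw1, hw2, hw3, hw4⟩ := hflm b hb z hz P (fun r hr => hP r hr)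
  have hgP : ∀ r ∈ P, 0 ≤ ((Z r).card : ℝ) / r ∧ ((Z r).card : ℝ) / r ≤ (J : ℝ) / r ∧ ((Z r).card : ℝ) / r ≤ 2 / 3 := by
    intro r hr
    have hrR : (0 : ℝ) < r := by exact_mod_cast (hPp r hr).pos
    have h5 : ((Z r).card : ℝ) ≤ J := by exact_mod_cast (hZ r hr).1
    refine ⟨by positivity, div_le_div_of_nonneg_right h5 hrR.le, ?_⟩
    rw [div_le_iff₀ hrR]
    have h7 : (3 * (Z r).card : ℝ) ≤ 2 * r := by exact_mod_cast (hZ r hr).2.1
    linarith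
  obtain ⟨hup, hlo⟩ := hw4 (fun r => ((Z r).card : ℝ) / r) hgP
  set X := ((v : ℝ) - u) / W with hX
  set V := ∏ p ∈ P, (1 - ((Z p).card : ℝ) / p) with hV
  set Cn := (((Ioc u v).filter fun n => n ≡ c [MOD W] ∧ ∀ p ∈ P, n % p ∉ Z p).card : ℝ) with hCn
  have hV0 : 0 ≤ V := Finset.prod_nonneg fun p hp => by
    have := (hgP p hp).2.2
    linarith
  have hX0 : 0 ≤ X := by
    have h1 : (u : ℝ) ≤ v := by exact_mod_cast huv
    exact div_nonneg (by linarith) (by linarith)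
  have hZ' : ∀ p ∈ P, (Z p).card ≤ p ∧ ∀ r ∈ Z p, r < p := by
    intro p hp
    obtain ⟨h1, h2, h3⟩ := hZ p hp
    exact ⟨by omega, h3⟩
  have hcnt : Cn = ∑ n ∈ (Ioc u v).filter (fun n => n ≡ c [MOD W]),
      if P.filter (fun p => n % p ∈ Z p) = ∅ then (1 : ℝ) else 0 := by
    rw [← Finset.sum_filter, Finset.filter_filter, Finset.sum_const, nsmul_eq_mul, mul_one, hCn]
    congr 2
    ext n
    rw [mem_filter, mem_filter, Finset.filter_eq_empty_iff]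
  have hL : ∑ d ∈ P.powerset, lo d * (((Ioc u v).filter fun n => n ≡ c [MOD W] ∧ ∀ p ∈ d, n % p ∈ Z p).card : ℝ) ≤ Cn := by
    rw [sv2_swap, hcnt]
    exact Finset.sum_le_sum fun n _ => (hw3 (P.filter fun p => n % p ∈ Z p) (filter_subset _ _)).1
  have hU : Cn ≤ ∑ d ∈ P.powerset, up d * (((Ioc u v).filter fun n => n ≡ c [MOD W] ∧ ∀ p ∈ d, n % p ∈ Z p).card : ℝ) := by
    rw [sv2_swap, hcnt]
    exact Finset.sum_le_sum fun n _ => (hw3 (P.filter fun p => n % p ∈ Z p) (filter_subset _ _)).2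
  have hz2 : (1 : ℝ) ≤ (z : ℝ) ^ 2 := one_le_pow₀ (by linarith)
  have mL := sv2_main b z hz P hPp W hW hPW c Z hZ' u v huv lo
    (fun d => ((hw1 d).2).trans (Pool.Agent.Lib.GT.NJ_le z hz)) (fun d hd h => by
      have := hw2 d hd (Or.inr h)
      exact_mod_cast this)
  have mU := sv2_main b z hz P hPp W hW hPW c Z hZ' u v huv up
    (fun d => ((hw1 d).1).trans hz2) (fun d hd h => by
      have := hw2 d hd (Or.inl h)
      exact_mod_cast this)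
  rw [← hX] at mL mU
  have hKK : K * (1 / 2) ^ b * (X * V) ≤ max K 1 * (1 / 2) ^ b * (X * V) := by
    refine mul_le_mul_of_nonneg_right (mul_le_mul_of_nonneg_right (le_max_left _ _) (by positivity)) (by positivity)
  have a1 := mul_le_mul_of_nonneg_left (abs_le.mp hup).2 hX0
  have a2 := mul_le_mul_of_nonneg_left (abs_le.mp hlo).1 hX0
  rw [abs_le]
  have e1 := (abs_le.mp mL).1
  have e2 := (abs_le.mp mU).2
  constructor <;> nlinarith

end Pool.Agent.Lib.XE
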