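import Pool.Agent.Lib.MP_61161c_nt.XE.Sv2
import Pool.Agent.Lib.MP_61161c_nt.XE.Vl

/-!
# upper bounds with two levels of sifting   (module Two, 90 minutes)

PROOF. `sv2 2` with `b = 1`: constants `K`, `E`; `c5 = 1/(100 (E + 1))`, `y = pw N c5`. `log z/log y ≤ (2/c5) log z/log N`.
(1) variable `l ∈ Ioc 0 ((N-1)/(q m))`, `W = 1`, `P = pr y`, `Z p = {0, N (q m)' mod p}` for `p ≤ z` (`p ∤ q m`; `|Z p| = rh N p`), `Z p = {0}` for `z < p ≤ y`. The count is `≤ (1 + K) main + y^E`, `main ≤ N/(q m) VN N z ∏_{z < p ≤ y} (1 - 1/p) = N/(q m) VN N z (V y/V z) ≤ C' N/(q m) VN N z log z/log N` (`V_ratio`), and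
`y^E ≤ N^(1/100)` is smaller than the bound (`q m ≤ N^(3/4)`, `VN_low`, `log z ≥ log 2`).
(2) variable `a ∈ Ioc 0 ((N-1)/q)`, `W = m`, class `v` with `q v ≡ N [MOD m]` (`m` coprime to `q`), `P = {p ≤ y, p ∤ q m}`; `p ≤ z`: `Z p = {0, N q' mod p}`; `z < p ≤ y`, `p ∤ q m`: `Z p = {N q' mod p}` (`p ∣ (N - q a)/m` iff `N ≡ q a [MOD p]`, as `p ∤ m`). The lost factors: `∏_{p ∣ q m, p > z} (1 - 1/p)⁻¹ ≤ exp (2 * 2 log N/(z log 2)) ≤ exp 6` since `q m ≤ N` has at most
`log N/log 2` primes and `z ≥ log N`. `main ≤ N/(q m) VN N z * exp 6 * V y/V z`.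
-/

set_option autoImplicit false

open Finset
open Pool.Agent.Lib.GT (Rough pr V)
open Pool.Agent.Lib.MP_45349e_nt.LS (lam)
open Pool.Agent.Lib.PQ (pw)

namespace Pool.Agent.Lib.XE

private theorem two_mem_pr {p y : ℕ} : p ∈ pr y ↔ p ≤ y ∧ p.Prime := by
  unfold pr
  rw [mem_filter, mem_range, Nat.lt_succ_iff]

/-- the primes of the sieve: the primes `≤ y` which do not divide `g` -/
private def twoP (y g : ℕ) : Finset ℕ := (pr y).filter fun p => ¬ p ∣ g

private theorem two_mem_P {p y g : ℕ} : p ∈ twoP y g ↔ p ≤ y ∧ p.Prime ∧ ¬ p ∣ g := by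
  unfold twoP
  rw [mem_filter, two_mem_pr, and_assoc]

private theorem two_fac_pos {p : ℕ} (hp : p.Prime) : (0 : ℝ) < 1 - 1 / (p : ℝ) := by
  have h2 : (2 : ℝ) ≤ p := by exact_mod_cast hp.two_le
  have : 1 / (p : ℝ) ≤ 1 / 2 := one_div_le_one_div_of_le (by norm_num) h2
  linarith

private theorem two_V_pos (y : ℕ) : 0 < V y :=
  Finset.prod_pos fun _ hp => two_fac_pos (two_mem_pr.mp hp).2

/-- few prime factors -/
private theorem two_omega (g : ℕ) (hg : 1 ≤ g) (s : Finset ℕ) (hs : ∀ p ∈ s, p.Prime ∧ p ∣ g) :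
    (s.card : ℝ) * Real.log 2 ≤ Real.log g := by
  have h1 : ∏ p ∈ s, p ∣ g := by
    apply (Finset.prod_dvd_prod_of_subset s g.primeFactors (fun p => p) ?_).trans (Nat.prod_primeFactors_dvd g)
    intro p hp
    exact Nat.mem_primeFactors.mpr ⟨(hs p hp).1, (hs p hp).2, by omega⟩
  have h2 : 2 ^ s.card ≤ g := by
    calc 2 ^ s.card = ∏ _p ∈ s, 2 := by rw [Finset.prod_const]
      _ ≤ ∏ p ∈ s, p := Finset.prod_le_prod' fun p hp => (hs p hp).1.two_le
      _ ≤ g := Nat.le_of_dvd (by omega) h1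
  have h3 : ((2 : ℝ) ^ s.card) ≤ g := by exact_mod_cast h2
  have h4 := Real.log_le_log (by positivity) h3
  rwa [Real.log_pow] at h4

/-- the lost factors -/
private theorem two_lost (y z g : ℕ) (hz : 2 ≤ z) (hg : 1 ≤ g) (hgz : Real.log g ≤ z) :
    Real.exp (-6) ≤ ∏ p ∈ ((pr y) \ (pr z)).filter (fun p => p ∣ g), (1 - 1 / (p : ℝ)) := by
  set s := ((pr y) \ (pr z)).filter (fun p => p ∣ g) with hs
  have hz0 : (2 : ℝ) ≤ z := by exact_mod_cast hz
  have hmem : ∀ p ∈ s, p.Prime ∧ z < p ∧ p ∣ g := by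
    intro p hp
    rw [hs, mem_filter, mem_sdiff, two_mem_pr, two_mem_pr] at hp
    obtain ⟨⟨⟨h1, h2⟩, h3⟩, h4⟩ := hp
    refine ⟨h2, ?_, h4⟩
    by_contra h5
    exact h3 ⟨by omega, h2⟩
  have hcard := two_omega g hg s (fun p hp => ⟨(hmem p hp).1, (hmem p hp).2.2⟩)
  have h1 : ∀ p ∈ s, Real.exp (-(2 / (z : ℝ))) ≤ 1 - 1 / (p : ℝ) := by
    intro p hp
    obtain ⟨h2, h3, h4⟩ := hmem p hp
    have hp2 : (2 : ℝ) ≤ p := by exact_mod_cast h2.two_le
    have hx : 1 / (p : ℝ) ≤ 1 / 2 := one_div_le_one_div_of_le (by norm_num) hp2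
    have hx0 : 0 < 1 / (p : ℝ) := by positivity
    have hzp : 1 / (p : ℝ) ≤ 1 / z := one_div_le_one_div_of_le (by linarith) (by exact_mod_cast h3.le)
    have h5 : Real.exp (-(2 / (z : ℝ))) ≤ Real.exp (-(2 * (1 / (p : ℝ)))) := by
      apply Real.exp_le_exp.mpr
      have : 2 / (z : ℝ) = 2 * (1 / z) := by ring
      rw [this]
      linarith
    refine h5.trans ?_
    rw [Real.exp_neg, inv_le_comm₀ (Real.exp_pos _) (by linarith)]
    have h6 : 1 + 2 * (1 / (p : ℝ)) ≤ Real.exp (2 * (1 / (p : ℝ))) := by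
      have := Real.add_one_le_exp (2 * (1 / (p : ℝ)))
      linarith
    refine le_trans ?_ h6
    rw [inv_le_iff_one_le_mul₀ (by linarith)]
    nlinarith
  have h2 : (Real.exp (-(2 / (z : ℝ)))) ^ s.card ≤ ∏ p ∈ s, (1 - 1 / (p : ℝ)) := by
    rw [← Finset.prod_const]
    exact Finset.prod_le_prod (fun _ _ => (Real.exp_pos _).le) h1
  refine le_trans ?_ h2
  rw [← Real.exp_nat_mul]
  apply Real.exp_le_exp.mpr
  have hl2 : (1 : ℝ) / 2 ≤ Real.log 2 := by
    have := Real.log_two_gt_d9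
    linarith
  have h3 : (s.card : ℝ) * (1 / 2) ≤ z := by
    have : (s.card : ℝ) * (1 / 2) ≤ (s.card : ℝ) * Real.log 2 := mul_le_mul_of_nonneg_left hl2 (by positivity)
    linarith
  have h4 : (s.card : ℝ) * (2 / z) ≤ 4 := by
    rw [mul_div_assoc', div_le_iff₀ (by linarith)]
    linarith
  have h5 : (s.card : ℝ) * -(2 / (z : ℝ)) = -((s.card : ℝ) * (2 / z)) := by ring
  rw [h5]
  linarith

/-- the product over the primes of the sieve -/
private theorem two_prod (N y z g : ℕ) (hz : 2 ≤ z) (hzy : z ≤ y) (hg : 1 ≤ g) (hgz : Real.log g ≤ z)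
    (hN : Even N) (hr : Rough z g) :
    ∏ p ∈ twoP y g, (1 - ((if p ≤ z then rh N p else 1 : ℕ) : ℝ) / p) ≤
      VN N z * (Real.exp 6 * (V y / V z)) := by
  have hsub : pr z ⊆ twoP y g := by
    intro p hp
    obtain ⟨h1, h2⟩ := two_mem_pr.mp hp
    refine two_mem_P.mpr ⟨h1.trans hzy, h2, fun h => ?_⟩
    have := hr p h2 h
    omega
  rw [← Finset.prod_sdiff hsub, mul_comm]
  have e1 : ∏ p ∈ pr z, (1 - ((if p ≤ z then rh N p else 1 : ℕ) : ℝ) / p) = VN N z := by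
    unfold VN VW
    have : (pr z).filter (fun p => ¬ p ∣ 1) = pr z := by
      apply Finset.filter_true_of_mem
      intro p hp h
      exact (two_mem_pr.mp hp).2.one_lt.ne' (Nat.dvd_one.mp h)
    rw [this]
    refine Finset.prod_congr rfl fun p hp => ?_
    rw [if_pos (two_mem_pr.mp hp).1]
  have e2 : ∏ p ∈ twoP y g \ pr z, (1 - ((if p ≤ z then rh N p else 1 : ℕ) : ℝ) / p) =
      ∏ p ∈ ((pr y) \ (pr z)).filter (fun p => ¬ p ∣ g), (1 - 1 / (p : ℝ)) := by
    have : twoP y g \ pr z = ((pr y) \ (pr z)).filter (fun p => ¬ p ∣ g) := by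
      ext p
      unfold twoP
      rw [mem_sdiff, mem_filter, mem_filter, mem_sdiff]
      tauto
    rw [this]
    refine Finset.prod_congr rfl fun p hp => ?_
    rw [mem_filter, mem_sdiff, two_mem_pr, two_mem_pr] at hp
    obtain ⟨⟨⟨h1, h2⟩, h3⟩, h4⟩ := hp
    rw [if_neg (fun h => h3 ⟨h, h2⟩)]
    norm_num
  rw [e1, e2]
  refine mul_le_mul_of_nonneg_left ?_ (VW_pos hN z 1).le
  have hsub2 : pr z ⊆ pr y := by
    intro p hp
    obtain ⟨h1, h2⟩ := two_mem_pr.mp hp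
    exact two_mem_pr.mpr ⟨h1.trans hzy, h2⟩
  have e3 : V y = (∏ p ∈ (pr y) \ (pr z), (1 - 1 / (p : ℝ))) * V z := by
    unfold V
    rw [Finset.prod_sdiff hsub2]
  have e4 : ∏ p ∈ (pr y) \ (pr z), (1 - 1 / (p : ℝ)) =
      (∏ p ∈ ((pr y) \ (pr z)).filter (fun p => p ∣ g), (1 - 1 / (p : ℝ))) *
      ∏ p ∈ ((pr y) \ (pr z)).filter (fun p => ¬ p ∣ g), (1 - 1 / (p : ℝ)) := by
    rw [Finset.prod_filter_mul_prod_filter_not]
  have hVz := two_V_pos z
  have e5 : V y / V z = (∏ p ∈ ((pr y) \ (pr z)).filter (fun p => p ∣ g), (1 - 1 / (p : ℝ))) *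
      ∏ p ∈ ((pr y) \ (pr z)).filter (fun p => ¬ p ∣ g), (1 - 1 / (p : ℝ)) := by
    rw [e3, mul_div_assoc, div_self hVz.ne', mul_one, e4]
  rw [e5]
  have hlost := two_lost y z g hz hg hgz
  have hpos : 0 ≤ ∏ p ∈ ((pr y) \ (pr z)).filter (fun p => ¬ p ∣ g), (1 - 1 / (p : ℝ)) := by
    refine Finset.prod_nonneg fun p hp => ?_
    rw [mem_filter, mem_sdiff, two_mem_pr] at hp
    exact (two_fac_pos hp.1.1.2).le
  have h1 : 1 ≤ Real.exp 6 * ∏ p ∈ ((pr y) \ (pr z)).filter (fun p => p ∣ g), (1 - 1 / (p : ℝ)) := by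
    calc (1 : ℝ) = Real.exp 6 * Real.exp (-6) := by rw [← Real.exp_add]; norm_num
      _ ≤ _ := mul_le_mul_of_nonneg_left hlost (Real.exp_pos 6).le
  calc ∏ p ∈ ((pr y) \ (pr z)).filter (fun p => ¬ p ∣ g), (1 - 1 / (p : ℝ))
      = 1 * ∏ p ∈ ((pr y) \ (pr z)).filter (fun p => ¬ p ∣ g), (1 - 1 / (p : ℝ)) := by rw [one_mul]
    _ ≤ (Real.exp 6 * ∏ p ∈ ((pr y) \ (pr z)).filter (fun p => p ∣ g), (1 - 1 / (p : ℝ))) *
        ∏ p ∈ ((pr y) \ (pr z)).filter (fun p => ¬ p ∣ g), (1 - 1 / (p : ℝ)) :=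
        mul_le_mul_of_nonneg_right h1 hpos
    _ = _ := by ring

open Classical in
private theorem two_core : ∃ C c5 : ℝ, 0 < C ∧ 0 < c5 ∧ c5 ≤ 1 / 100 ∧ ∃ N0 : ℕ, ∀ N : ℕ, N0 ≤ N → Even N →
    ∀ z : ℕ, Real.log N ≤ z → z ≤ pw N c5 → ∀ g : ℕ, 1 ≤ g → Rough z g →
    (g : ℝ) ≤ (N : ℝ) ^ (3 / 4 : ℝ) → ∀ W : ℕ, 1 ≤ W → (∀ p ∈ twoP (pw N c5) g, ¬ p ∣ W) → ∀ c : ℕ,
    ∀ Z : ℕ → Finset ℕ, (∀ p ∈ twoP (pw N c5) g, (Z p).card = (if p ≤ z then rh N p else 1) ∧ ∀ r ∈ Z p, r < p) →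
    ∀ v : ℕ, (v : ℝ) / W ≤ N / g →
    (((Ioc 0 v).filter fun n => n ≡ c [MOD W] ∧ ∀ p ∈ twoP (pw N c5) g, n % p ∉ Z p).card : ℝ) ≤
      C * ((N : ℝ) / g) * VN N z * (Real.log z / Real.log N) := by
  obtain ⟨K, hK, hsv⟩ := sv2 2
  obtain ⟨E, hE⟩ := hsv 1 le_rfl
  obtain ⟨Cr, hCr, hVr⟩ := V_ratio
  obtain ⟨Cv, hCv, hVl⟩ := VN_low
  obtain ⟨c5, hc5⟩ : ∃ c5 : ℝ, c5 = 1 / (100 * ((E : ℝ) + 1)) := ⟨_, rfl⟩
  have hE0 : (0 : ℝ) ≤ E := by positivity
  have hc5pos : 0 < c5 := by rw [hc5]; positivity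
  have hc5le : c5 ≤ 1 / 100 := by
    rw [hc5]
    apply one_div_le_one_div_of_le (by norm_num)
    linarith
  have hc5E : c5 * E ≤ 1 / 100 := by
    rw [hc5, div_mul_eq_mul_div, one_mul, div_le_div_iff₀ (by positivity) (by norm_num)]
    linarith
  -- large N
  have hlim1 : Filter.Tendsto (fun x : ℝ => x ^ (c5 / 2)) Filter.atTop Filter.atTop :=
    tendsto_rpow_atTop (by positivity)
  have hev1 : ∀ᶠ x : ℝ in Filter.atTop, 2 ≤ x ^ (c5 / 2) := hlim1.eventually_ge_atTop 2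
  have hev2 : ∀ᶠ x : ℝ in Filter.atTop, ‖Real.log x ^ (2 : ℝ)‖ ≤ Cv * ‖x ^ (6 / 25 : ℝ)‖ :=
    (isLittleO_log_rpow_rpow_atTop 2 (by norm_num : (0 : ℝ) < 6 / 25)).def hCv
  have hev3 : ∀ᶠ x : ℝ in Filter.atTop, Real.exp 2 ≤ x := Filter.eventually_ge_atTop _
  obtain ⟨X0, hX0⟩ := Filter.eventually_atTop.mp ((hev1.and hev2).and hev3)
  refine ⟨(1 + K) * (Real.exp 6 * (Cr * (2 / c5))) + 1, c5, by positivity, hc5pos, hc5le, ⌈X0⌉₊, ?_⟩
  intro N hN0 hNe z hzN hzy g hg hgr hgN W hW hPW c Z hZ v hv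
  have hNX : X0 ≤ (N : ℝ) := (Nat.le_ceil X0).trans (by exact_mod_cast hN0)
  obtain ⟨⟨ht2, hlog2⟩, he2⟩ := hX0 N hNX
  have hN1 : (1 : ℝ) < N := by
    have : (1 : ℝ) < Real.exp 2 := by
      rw [← Real.exp_zero]
      exact Real.exp_lt_exp.mpr (by norm_num)
    linarith
  have hN0' : (0 : ℝ) < N := by linarith
  have hlogN2 : 2 ≤ Real.log N := by
    rw [← Real.log_exp 2]
    exact Real.log_le_log (Real.exp_pos 2) he2
  have hz2r : (2 : ℝ) ≤ z := hlogN2.trans hzN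
  have hz2 : 2 ≤ z := by exact_mod_cast hz2r
  obtain ⟨y, hy⟩ : ∃ y : ℕ, y = pw N c5 := ⟨_, rfl⟩
  rw [← hy] at hzy hPW hZ ⊢
  obtain ⟨t, ht⟩ : ∃ t : ℝ, t = (N : ℝ) ^ (c5 / 2) := ⟨_, rfl⟩
  rw [← ht] at ht2
  have htt : (N : ℝ) ^ c5 = t * t := by
    rw [ht, ← Real.rpow_add hN0']
    congr 1
    ring
  have hyle : (y : ℝ) ≤ (N : ℝ) ^ c5 := by
    rw [hy]; unfold pw
    exact Nat.floor_le (by positivity)
  have hyt : t ≤ y := by
    have h1 : (N : ℝ) ^ c5 < y + 1 := by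
      rw [hy]; unfold pw
      exact Nat.lt_floor_add_one _
    rw [htt] at h1
    nlinarith
  have hy2r : (2 : ℝ) ≤ y := ht2.trans hyt
  have hy2 : 2 ≤ y := by exact_mod_cast hy2r
  have hlogy : c5 / 2 * Real.log N ≤ Real.log y := by
    have h1 := Real.log_le_log (by linarith) hyt
    rw [ht, Real.log_rpow hN0'] at h1
    exact h1
  have hyN : (y : ℝ) ≤ N := by
    refine hyle.trans ?_
    calc (N : ℝ) ^ c5 ≤ (N : ℝ) ^ (1 : ℝ) := Real.rpow_le_rpow_of_exponent_le hN1.le (by linarith)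
      _ = N := Real.rpow_one _
  have hzr : (z : ℝ) ≤ y := by exact_mod_cast hzy
  have hlogz : 0 < Real.log z := Real.log_pos (by linarith)
  have hlogzN : Real.log z ≤ Real.log N := Real.log_le_log (by linarith) (by linarith)
  have hgr0 : (0 : ℝ) < g := by exact_mod_cast hg
  have hgN1 : (g : ℝ) ≤ N := by
    refine hgN.trans ?_
    calc (N : ℝ) ^ (3 / 4 : ℝ) ≤ (N : ℝ) ^ (1 : ℝ) :=
          Real.rpow_le_rpow_of_exponent_le hN1.le (by norm_num)
      _ = N := Real.rpow_one _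
  have hgz : Real.log g ≤ z := (Real.log_le_log hgr0 hgN1).trans hzN
  have hWr : (0 : ℝ) < W := by exact_mod_cast hW
  -- the sieve
  have hsieve := hE y hy2 (twoP y g) (fun p hp => ⟨(two_mem_P.mp hp).2.1, (two_mem_P.mp hp).1⟩) W hW hPW c Z
    (fun p hp => by
      obtain ⟨h1, h2⟩ := hZ p hp
      have hpp := (two_mem_P.mp hp).2.1
      have hp2 := hpp.two_le
      refine ⟨?_, ?_, h2⟩
      · rw [h1]
        split_ifs
        · unfold rh
          split_ifs <;> omega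
        · omega
      · rw [h1]
        split_ifs with h3
        · unfold rh
          split_ifs with h4
          · omega
          · have : p ≠ 2 := by
              intro h5
              exact h4 (h5 ▸ hNe.two_dvd)
            omega
        · omega) 0 v (Nat.zero_le v)
  have hcard : ∏ p ∈ twoP y g, (1 - ((Z p).card : ℝ) / p) =
      ∏ p ∈ twoP y g, (1 - ((if p ≤ z then rh N p else 1 : ℕ) : ℝ) / p) := by
    refine Finset.prod_congr rfl fun p hp => ?_
    rw [(hZ p hp).1]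
  have hprod := two_prod N y z g hz2 hzy hg hgz hNe hgr
  rw [hcard] at hsieve
  set T := ∏ p ∈ twoP y g, (1 - ((if p ≤ z then rh N p else 1 : ℕ) : ℝ) / p) with hT
  have hT0 : 0 ≤ T := by
    refine Finset.prod_nonneg fun p hp => ?_
    have hpp := (two_mem_P.mp hp).2.1
    have hp2 : (2 : ℝ) ≤ p := by exact_mod_cast hpp.two_le
    have h1 : (((if p ≤ z then rh N p else 1 : ℕ) : ℝ)) ≤ 2 := by
      split_ifs
      · unfold rh
        split_ifs <;> norm_num
      · norm_num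
    have h2 : (((if p ≤ z then rh N p else 1 : ℕ) : ℝ)) / p ≤ 1 := by
      rw [div_le_one (by linarith)]
      linarith
    linarith
  have hVy : V y / V z ≤ Cr * (2 / c5) * (Real.log z / Real.log N) := by
    have h1 := (hVr z y hz2 hzy).1
    have hVz := two_V_pos z
    have hlogN0 : 0 < Real.log N := by linarith
    have hlogy0 : 0 < c5 / 2 * Real.log N := by positivity
    have h2 : Real.log z / Real.log y ≤ Real.log z / (c5 / 2 * Real.log N) :=
      div_le_div_of_nonneg_left hlogz.le hlogy0 hlogy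
    rw [div_le_iff₀ hVz]
    calc V y ≤ Cr * V z * (Real.log z / Real.log y) := h1
      _ ≤ Cr * V z * (Real.log z / (c5 / 2 * Real.log N)) :=
          mul_le_mul_of_nonneg_left h2 (by positivity)
      _ = Cr * (2 / c5) * (Real.log z / Real.log N) * V z := by
          field_simp
  have hVN0 : 0 < VN N z := VW_pos hNe z 1
  have hlogN0 : 0 < Real.log N := by linarith
  have hTle : T ≤ VN N z * (Real.exp 6 * (Cr * (2 / c5) * (Real.log z / Real.log N))) := by
    refine hprod.trans (mul_le_mul_of_nonneg_left ?_ hVN0.le)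
    exact mul_le_mul_of_nonneg_left hVy (Real.exp_pos 6).le
  have hyE : (y : ℝ) ^ E ≤ (N : ℝ) / g * VN N z * (Real.log z / Real.log N) := by
    have h1 : (y : ℝ) ^ E ≤ (N : ℝ) ^ (1 / 100 : ℝ) := by
      calc (y : ℝ) ^ E ≤ ((N : ℝ) ^ c5) ^ E := pow_le_pow_left₀ (by positivity) hyle E
        _ = (N : ℝ) ^ (c5 * E) := by rw [Real.rpow_mul hN0'.le, Real.rpow_natCast]
        _ ≤ (N : ℝ) ^ (1 / 100 : ℝ) := Real.rpow_le_rpow_of_exponent_le hN1.le hc5E
    have h2 : (Real.log N) ^ 2 ≤ Cv * (N : ℝ) ^ (6 / 25 : ℝ) := by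
      have h3 : ‖Real.log (N : ℝ) ^ (2 : ℝ)‖ = (Real.log N) ^ 2 := by
        rw [Real.norm_eq_abs, show (2 : ℝ) = ((2 : ℕ) : ℝ) by norm_num, Real.rpow_natCast]
        exact abs_of_nonneg (by positivity)
      have h4 : ‖(N : ℝ) ^ (6 / 25 : ℝ)‖ = (N : ℝ) ^ (6 / 25 : ℝ) := by
        rw [Real.norm_eq_abs]
        exact abs_of_nonneg (by positivity)
      rw [h3, h4] at hlog2
      exact hlog2
    have h3 : (N : ℝ) ^ (1 / 100 : ℝ) * (Real.log N) ^ 2 ≤ Cv * (N : ℝ) ^ (1 / 4 : ℝ) := by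
      calc (N : ℝ) ^ (1 / 100 : ℝ) * (Real.log N) ^ 2
          ≤ (N : ℝ) ^ (1 / 100 : ℝ) * (Cv * (N : ℝ) ^ (6 / 25 : ℝ)) :=
            mul_le_mul_of_nonneg_left h2 (by positivity)
        _ = Cv * ((N : ℝ) ^ (1 / 100 : ℝ) * (N : ℝ) ^ (6 / 25 : ℝ)) := by ring
        _ = Cv * (N : ℝ) ^ (1 / 4 : ℝ) := by
            rw [← Real.rpow_add hN0']
            norm_num
    have h4 : (N : ℝ) ^ (1 / 4 : ℝ) ≤ N / g := by
      rw [le_div_iff₀ hgr0]
      calc (N : ℝ) ^ (1 / 4 : ℝ) * g ≤ (N : ℝ) ^ (1 / 4 : ℝ) * (N : ℝ) ^ (3 / 4 : ℝ) :=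
            mul_le_mul_of_nonneg_left hgN (by positivity)
        _ = N := by
            rw [← Real.rpow_add hN0']
            norm_num
    have h5 := hVl N z hNe hz2
    have h6 : Cv / (Real.log N) ^ 2 ≤ VN N z * (Real.log z / Real.log N) := by
      calc Cv / (Real.log N) ^ 2 ≤ Cv / (Real.log z * Real.log N) := by
            apply div_le_div_of_nonneg_left hCv.le (by positivity)
            rw [sq]
            exact mul_le_mul_of_nonneg_right hlogzN hlogN0.le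
        _ = Cv / (Real.log z) ^ 2 * (Real.log z / Real.log N) := by
            field_simp
        _ ≤ VN N z * (Real.log z / Real.log N) :=
            mul_le_mul_of_nonneg_right h5 (by positivity)
    calc (y : ℝ) ^ E ≤ (N : ℝ) ^ (1 / 100 : ℝ) := h1
      _ ≤ (N : ℝ) ^ (1 / 4 : ℝ) * (Cv / (Real.log N) ^ 2) := by
          rw [mul_div_assoc', le_div_iff₀ (by positivity)]
          linarith
      _ ≤ (N / g) * (VN N z * (Real.log z / Real.log N)) :=
          mul_le_mul h4 h6 (by positivity) (by positivity)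
      _ = (N : ℝ) / g * VN N z * (Real.log z / Real.log N) := by ring
  -- the end
  have hup := (abs_le.mp hsieve).2
  have hvv : ((v : ℝ) - ((0 : ℕ) : ℝ)) / W = (v : ℝ) / W := by
    rw [Nat.cast_zero, sub_zero]
  rw [hvv] at hup
  have hvW0 : 0 ≤ (v : ℝ) / W := by positivity
  have hmain0 : 0 ≤ (v : ℝ) / W * T := mul_nonneg hvW0 hT0
  have hmain : (v : ℝ) / W * T ≤ (N : ℝ) / g * (VN N z * (Real.exp 6 * (Cr * (2 / c5) * (Real.log z / Real.log N)))) :=
    mul_le_mul hv hTle hT0 (by positivity)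
  have hK2 : K * (1 / 2) ^ 1 * ((v : ℝ) / W * T) ≤ K * ((v : ℝ) / W * T) := by
    rw [pow_one]
    nlinarith [mul_nonneg (by linarith : (0 : ℝ) ≤ K) hmain0]
  have hfin : (1 + K) * ((v : ℝ) / W * T) ≤
      (1 + K) * ((N : ℝ) / g * (VN N z * (Real.exp 6 * (Cr * (2 / c5) * (Real.log z / Real.log N))))) :=
    mul_le_mul_of_nonneg_left hmain (by linarith)
  calc (((Ioc 0 v).filter fun n => n ≡ c [MOD W] ∧ ∀ p ∈ twoP y g, n % p ∉ Z p).card : ℝ)
      ≤ (1 + K) * ((v : ℝ) / W * T) + (y : ℝ) ^ E := by linarith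
    _ ≤ (1 + K) * ((N : ℝ) / g * (VN N z * (Real.exp 6 * (Cr * (2 / c5) * (Real.log z / Real.log N))))) +
        (N : ℝ) / g * VN N z * (Real.log z / Real.log N) := add_le_add hfin hyE
    _ = ((1 + K) * (Real.exp 6 * (Cr * (2 / c5))) + 1) * ((N : ℝ) / g) * VN N z * (Real.log z / Real.log N) := by
        ring

/-- the root of a linear congruence -/
private theorem two_root (N q : ℕ) (M : ℕ) (hM : 1 < M) (h : q.Coprime M) : ∃ r, r < M ∧ q * r ≡ N [MOD M] := by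
  obtain ⟨a, ha⟩ := Nat.exists_mul_mod_eq_one_of_coprime h hM
  refine ⟨(a * N) % M, Nat.mod_lt _ (by omega), ?_⟩
  have h1 : q * ((a * N) % M) ≡ q * (a * N) [MOD M] := (Nat.mod_modEq _ _).mul_left q
  have h2 : q * a ≡ 1 [MOD M] := by
    unfold Nat.ModEq
    rw [ha.2, Nat.mod_eq_of_lt hM]
  have h3 : q * (a * N) ≡ 1 * N [MOD M] := by
    rw [← mul_assoc]
    exact h2.mul_right N
  rw [one_mul] at h3
  exact h1.trans h3

/-- `p` divides `N - q a` if `a` is the root -/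
private theorem two_dvd {N q p a r : ℕ} (h : q * a ≤ N) (hr : q * r ≡ N [MOD p]) (ha : a % p = r % p) :
    p ∣ N - q * a := by
  have h1 : a ≡ r [MOD p] := ha
  have h2 : q * a ≡ N [MOD p] := (h1.mul_left q).trans hr
  exact (Nat.modEq_iff_dvd' h).mp h2

private theorem two_card (N q p : ℕ) (hp : p.Prime) (hpq : ¬ p ∣ q) (r : ℕ) (hr : r < p)
    (hqr : q * r ≡ N [MOD p]) : ({0, r} : Finset ℕ).card = rh N p := by
  unfold rh
  split_ifs with h
  · have h0 : r = 0 := by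
      have h1 : p ∣ q * r := (Nat.modEq_zero_iff_dvd.mp (hqr.trans (Nat.modEq_zero_iff_dvd.mpr h)))
      rcases (hp.dvd_mul).mp h1 with h2 | h2
      · exact absurd h2 hpq
      · exact Nat.eq_zero_of_dvd_of_lt h2 hr
    rw [h0]
    simp
  · have h0 : r ≠ 0 := by
      intro h1
      rw [h1, mul_zero] at hqr
      exact h (Nat.modEq_zero_iff_dvd.mp hqr.symm)
    rw [Finset.card_pair (Ne.symm h0)]

open Classical in
theorem two_up : ∃ C c5 : ℝ, 0 < C ∧ 0 < c5 ∧ c5 ≤ 1 / 100 ∧ ∃ N0 : ℕ, ∀ N : ℕ, N0 ≤ N → Even N →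
    ∀ z : ℕ, Real.log N ≤ z → z ≤ pw N c5 → ∀ q m : ℕ, 1 ≤ q → 1 ≤ m → Rough z q → Rough z m →
    ((q * m : ℕ) : ℝ) ≤ (N : ℝ) ^ (3 / 4 : ℝ) →
    (((Icc 1 N).filter fun l => q * m * l < N ∧ Rough (pw N c5) l ∧ Rough z (N - q * m * l)).card : ℝ) ≤
      C * ((N : ℝ) / ((q : ℝ) * m)) * VN N z * (Real.log z / Real.log N) ∧
    (m.Coprime q → (((AA N z q).filter fun a => m ∣ N - q * a ∧
      Rough (pw N c5) ((N - q * a) / m)).card : ℝ) ≤
      C * ((N : ℝ) / ((q : ℝ) * m)) * VN N z * (Real.log z / Real.log N)) := by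
  obtain ⟨C, c5, hC, hc5, hc5', N0, hmain⟩ := two_core
  refine ⟨C, c5, hC, hc5, hc5', max N0 1, ?_⟩
  intro N hN hNe z hzN hzy q m hq hm hqr hmr hqm
  have hN0 : N0 ≤ N := (le_max_left _ _).trans hN
  have hN1 : 1 ≤ N := (le_max_right _ _).trans hN
  have hg : 1 ≤ q * m := Nat.mul_pos hq hm
  have hgr : Rough z (q * m) := by
    intro p hp hd
    rcases (hp.dvd_mul).mp hd with h | h
    · exact hqr p hp h
    · exact hmr p hp h
  have hqR : (0 : ℝ) < q := by exact_mod_cast hq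
  have hmR : (0 : ℝ) < m := by exact_mod_cast hm
  have hcast : ((q * m : ℕ) : ℝ) = (q : ℝ) * m := by push_cast; ring
  have hN1r : ((N - 1 : ℕ) : ℝ) ≤ N := by
    exact_mod_cast Nat.sub_le N 1
  obtain ⟨y, hy⟩ : ∃ y : ℕ, y = pw N c5 := ⟨_, rfl⟩
  refine ⟨?_, fun hco => ?_⟩
  · -- part 1
    have hex : ∀ p, ∃ r, p.Prime → ¬ p ∣ q * m → r < p ∧ (q * m) * r ≡ N [MOD p] := by
      intro p
      by_cases h : p.Prime ∧ ¬ p ∣ q * m
      · obtain ⟨r, h1, h2⟩ := two_root N (q * m) p h.1.one_lt ((h.1.coprime_iff_not_dvd.mpr h.2).symm)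
        exact ⟨r, fun _ _ => ⟨h1, h2⟩⟩
      · exact ⟨0, fun h1 h2 => absurd ⟨h1, h2⟩ h⟩
    choose R hR using hex
    have hv : (((N - 1) / (q * m) : ℕ) : ℝ) / ((1 : ℕ) : ℝ) ≤ (N : ℝ) / ((q * m : ℕ) : ℝ) := by
      rw [Nat.cast_one, div_one]
      refine Nat.cast_div_le.trans ?_
      exact div_le_div_of_nonneg_right hN1r (by positivity)
    have h := hmain N hN0 hNe z hzN hzy (q * m) hg hgr hqm 1 le_rfl
      (fun p hp h1 => (two_mem_P.mp hp).2.1.one_lt.ne' (Nat.dvd_one.mp h1)) 0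
      (fun p => if p ≤ z then {0, R p} else {0}) (fun p hp => by
        obtain ⟨h1, h2, h3⟩ := two_mem_P.mp hp
        obtain ⟨h4, h5⟩ := hR p h2 h3
        by_cases hpz : p ≤ z
        · simp only [if_pos hpz]
          refine ⟨two_card N (q * m) p h2 h3 (R p) h4 h5, fun r hr => ?_⟩
          rw [mem_insert, mem_singleton] at hr
          rcases hr with hr | hr
          · rw [hr]; exact h2.pos
          · rw [hr]; exact h4
        · simp only [if_neg hpz]
          refine ⟨Finset.card_singleton 0, fun r hr => ?_⟩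
          rw [mem_singleton] at hr
          rw [hr]; exact h2.pos) ((N - 1) / (q * m)) hv
    rw [hcast] at h
    refine le_trans ?_ h
    rw [Nat.cast_le]
    apply Finset.card_le_card
    intro l hl
    rw [mem_filter, mem_Icc] at hl
    obtain ⟨⟨hl1, hl2⟩, hl3, hl4, hl5⟩ := hl
    rw [mem_filter, mem_Ioc]
    refine ⟨⟨by omega, ?_⟩, Nat.modEq_one, ?_⟩
    · rw [Nat.le_div_iff_mul_le (by omega)]
      rw [mul_comm] at hl3
      omega
    · intro p hp
      obtain ⟨h1, h2, h3⟩ := two_mem_P.mp hp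
      obtain ⟨h4, h5⟩ := hR p h2 h3
      have hl0 : l % p ≠ 0 := by
        intro h6
        have := hl4 p h2 (Nat.dvd_of_mod_eq_zero h6)
        omega
      by_cases hpz : p ≤ z
      · simp only [if_pos hpz]
        rw [mem_insert, mem_singleton]
        rintro (h6 | h6)
        · exact hl0 h6
        · have h7 : p ∣ N - q * m * l := two_dvd hl3.le h5 (by rw [h6, Nat.mod_eq_of_lt h4])
          have := hl5 p h2 h7
          omega
      · simp only [if_neg hpz]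
        rw [mem_singleton]
        exact hl0
  · -- part 2
    have hex : ∀ p, ∃ r, p.Prime → ¬ p ∣ q * m → r < p ∧ q * r ≡ N [MOD p] := by
      intro p
      by_cases h : p.Prime ∧ ¬ p ∣ q * m
      · have hpq : ¬ p ∣ q := fun h1 => h.2 (h1.mul_right m)
        obtain ⟨r, h1, h2⟩ := two_root N q p h.1.one_lt ((h.1.coprime_iff_not_dvd.mpr hpq).symm)
        exact ⟨r, fun _ _ => ⟨h1, h2⟩⟩
      · exact ⟨0, fun h1 h2 => absurd ⟨h1, h2⟩ h⟩
    choose R hR using hex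
    obtain ⟨c, hc⟩ : ∃ c, q * c ≡ N [MOD m] := by
      rcases Nat.lt_or_ge 1 m with h1 | h1
      · obtain ⟨r, _, h2⟩ := two_root N q m h1 hco.symm
        exact ⟨r, h2⟩
      · have : m = 1 := by omega
        rw [this]
        exact ⟨0, Nat.modEq_one⟩
    have hv : (((N - 1) / q : ℕ) : ℝ) / (m : ℝ) ≤ (N : ℝ) / ((q * m : ℕ) : ℝ) := by
      rw [hcast, ← div_div]
      refine div_le_div_of_nonneg_right ?_ hmR.le
      refine Nat.cast_div_le.trans ?_
      exact div_le_div_of_nonneg_right hN1r (by positivity)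
    have h := hmain N hN0 hNe z hzN hzy (q * m) hg hgr hqm m hm
      (fun p hp h1 => (two_mem_P.mp hp).2.2 (h1.mul_left q)) c
      (fun p => if p ≤ z then {0, R p} else {R p}) (fun p hp => by
        obtain ⟨h1, h2, h3⟩ := two_mem_P.mp hp
        obtain ⟨h4, h5⟩ := hR p h2 h3
        have hpq : ¬ p ∣ q := fun h1 => h3 (h1.mul_right m)
        by_cases hpz : p ≤ z
        · simp only [if_pos hpz]
          refine ⟨two_card N q p h2 hpq (R p) h4 h5, fun r hr => ?_⟩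
          rw [mem_insert, mem_singleton] at hr
          rcases hr with hr | hr
          · rw [hr]; exact h2.pos
          · rw [hr]; exact h4
        · simp only [if_neg hpz]
          refine ⟨Finset.card_singleton _, fun r hr => ?_⟩
          rw [mem_singleton] at hr
          rw [hr]; exact h4) ((N - 1) / q) hv
    rw [hcast] at h
    refine le_trans ?_ h
    rw [Nat.cast_le]
    apply Finset.card_le_card
    intro a ha
    unfold AA at ha
    rw [mem_filter, mem_filter, mem_Icc] at ha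
    obtain ⟨⟨⟨ha1, ha2⟩, ha3, ha4, ha5⟩, ha6, ha7⟩ := ha
    rw [mem_filter, mem_Ioc]
    refine ⟨⟨by omega, ?_⟩, ?_, ?_⟩
    · rw [Nat.le_div_iff_mul_le (by omega)]
      rw [mul_comm] at ha3
      omega
    · have h1 : q * a ≡ N [MOD m] := (Nat.modEq_iff_dvd' ha3.le).mpr ha6
      have h2 : q * a ≡ q * c [MOD m] := h1.trans hc.symm
      exact Nat.ModEq.cancel_left_of_coprime hco h2
    · intro p hp
      obtain ⟨h1, h2, h3⟩ := two_mem_P.mp hp
      obtain ⟨h4, h5⟩ := hR p h2 h3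
      have hroot : a % p ≠ R p ∨ p ∣ N - q * a := by
        by_cases h6 : a % p = R p
        · right
          exact two_dvd ha3.le h5 (by rw [h6, Nat.mod_eq_of_lt h4])
        · left; exact h6
      by_cases hpz : p ≤ z
      · simp only [if_pos hpz]
        rw [mem_insert, mem_singleton]
        rintro (h6 | h6)
        · have := ha4 p h2 (Nat.dvd_of_mod_eq_zero h6)
          omega
        · rcases hroot with h7 | h7
          · exact h7 h6
          · have := ha5 p h2 h7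
            omega
      · simp only [if_neg hpz]
        rw [mem_singleton]
        intro h6
        rcases hroot with h7 | h7
        · exact h7 h6
        · have h8 : p ∣ m * ((N - q * a) / m) := by
            rw [Nat.mul_div_cancel' ha6]
            exact h7
          have hpm : ¬ p ∣ m := fun h => h3 (h.mul_left q)
          rcases (h2.dvd_mul).mp h8 with h9 | h9
          · exact hpm h9
          · have := ha7 p h2 h9
            omega

end Pool.Agent.Lib.XE
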